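import Pool.Agent.R554.DO.Defs

/-!
# Statements of the pieces (abstract level)
-/

namespace Pool.Agent.R554.DO

open Finset

/-- WSUM: the affinity as a sum over words. -/
def S_WSUM : Prop := ∀ (S L : Type) [Fintype S] [DecidableEq S] [Fintype L] [DecidableEq L]
  (M : L → S → S → ℝ) (n : ℕ) (α β : S → ℝ), Hn M n α β =
    ∑ w : Fin n → L, √(pr M α (List.ofFn w) * pr M β (List.ofFn w))

/-- BASIC: elementary properties. -/
def S_BASIC : Prop := ∀ (S L : Type) [Fintype S] [DecidableEq S] [Fintype L] [DecidableEq L]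
  (M : L → S → S → ℝ), Stoch M →
    (∀ (α : S → ℝ), ∑ ℓ, ∑ t, push M ℓ α t = ∑ s, α s) ∧
    (∀ (α : S → ℝ) (n : ℕ), ∑ w : Fin n → L, pr M α (List.ofFn w) = ∑ s, α s) ∧
    (∀ (α : S → ℝ) (ℓ : L) (w : List L), pr M α (ℓ :: w) = pr M (push M ℓ α) w) ∧
    (∀ (n : ℕ) (α β : S → ℝ), 0 ≤ Hn M n α β) ∧
    (∀ (n : ℕ) (α β : S → ℝ), (∀ s, 0 ≤ α s) → (∀ s, 0 ≤ β s) →
      Hn M (n + 1) α β ≤ Hn M n α β) ∧
    (∀ (n : ℕ) (α β : S → ℝ) (a b : ℝ), 0 ≤ a → 0 ≤ b → (∀ s, 0 ≤ α s) → (∀ s, 0 ≤ β s) →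
      Hn M n (fun s => a * α s) (fun s => b * β s) = √(a * b) * Hn M n α β) ∧
    (∀ (n : ℕ) (α β α' β' : S → ℝ), (∀ s, 0 ≤ α s) → (∀ s, 0 ≤ β s) → (∀ s, α s ≤ α' s) →
      (∀ s, β s ≤ β' s) → Hn M n α β ≤ Hn M n α' β')

/-- MAX: the maximiser principle. -/
def S_MAX : Prop := ∀ (S L J : Type) [Fintype S] [DecidableEq S] [Fintype L] [DecidableEq L]
  [Finite J] (M : L → S → S → ℝ), Stoch M → ∀ (X Y : J → Set S) (nx : J → L → J),
    (∀ j ℓ s t, s ∈ X j → 0 < M ℓ s t → t ∈ X (nx j ℓ)) →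
    (∀ j ℓ s t, s ∈ Y j → 0 < M ℓ s t → t ∈ Y (nx j ℓ)) →
    ∀ (j₀ : J) (α₀ β₀ : S → ℝ), (∀ s, 0 ≤ α₀ s) → (∀ s, 0 ≤ β₀ s) →
      (∀ s, α₀ s ≠ 0 → s ∈ X j₀) → (∀ s, β₀ s ≠ 0 → s ∈ Y j₀) → ¬ Sing M α₀ β₀ →
      ∃ (j : J) (α β : S → ℝ), Dist α ∧ Dist β ∧ (∀ s, α s ≠ 0 → s ∈ X j) ∧
        (∀ s, β s ≠ 0 → s ∈ Y j) ∧ Eqv M α β

/-- SUB: singularity is decided on unit masses. -/
def S_SUB : Prop := ∀ (S L : Type) [Fintype S] [DecidableEq S] [Fintype L] [DecidableEq L]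
  (M : L → S → S → ℝ), Stoch M → ∀ (α β : S → ℝ), (∀ s, 0 ≤ α s) → (∀ s, 0 ≤ β s) →
    (Sing M α β ↔ ∀ s t, 0 < α s → 0 < β t → Sing M (dl s) (dl t))

/-- BACK: singularity is inherited along common labels. -/
def S_BACK : Prop := ∀ (S L : Type) [Fintype S] [DecidableEq S] [Fintype L] [DecidableEq L]
  (M : L → S → S → ℝ), Stoch M → ∀ (ℓ : L) (s s' t t' : S), 0 < M ℓ s s' → 0 < M ℓ t t' →
    Sing M (dl s) (dl t) → Sing M (dl s') (dl t')

/-- DOM: equivalent vectors are not singular to the unit masses of their supports. -/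
def S_DOM : Prop := ∀ (S L : Type) [Fintype S] [DecidableEq S] [Fintype L] [DecidableEq L]
  (M : L → S → S → ℝ), Stoch M → ∀ (α β : S → ℝ), (∀ s, 0 ≤ α s) → (∀ s, 0 ≤ β s) →
    Eqv M α β → ∀ s, 0 < α s → ¬ Sing M (dl s) β

/-- TRANS: the inessential states of the enlarged chain are transient. `w` is the probability of
being in an inessential state. -/
def S_TRANS : Prop := ∀ (Z : Type) [Fintype Z] (Q : Z → Z → ℝ), (∀ z z', 0 ≤ Q z z') →
  (∀ z, ∑ z', Q z z' = 1) → ∀ (a : ℕ → Z → ℝ), (∀ z, 0 ≤ a 0 z) →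
    (∀ k z', a (k + 1) z' = ∑ z, a k z * Q z z') →
    ∀ z, (¬ ∀ z', Relation.ReflTransGen (fun x y => 0 < Q x y) z z' →
        Relation.ReflTransGen (fun x y => 0 < Q x y) z' z) →
      Filter.Tendsto (fun k => a k z) Filter.atTop (nhds 0)

/-- CLS: nonsingular laws give a nonsingular pair of essential states. -/
def S_CLS : Prop := ∀ (S L : Type) [Fintype S] [DecidableEq S] [Fintype L] [DecidableEq L]
  (M : L → S → S → ℝ) (G : L → S → S → Prop), Stoch M → Fits M G → ∀ (μ ν : S → ℝ), Dist μ →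
    Dist ν → ¬ Sing M μ ν → ∃ (t₀ t s : S) (B : Finset S), 0 < μ t₀ ∧ Rch G (t₀, sp ν) (t, B) ∧
      s ∈ B ∧ Ess G (t, B) ∧ Ess G (s, B) ∧ ¬ Sing M (dl t) (dl s)

/-- STAT: Cesaro limits. -/
def S_STAT : Prop := ∀ (S L : Type) [Fintype S] [DecidableEq S] [Fintype L] [DecidableEq L]
  (M : L → S → S → ℝ) (G : L → S → S → Prop), Stoch M → Fits M G →
    ∀ (z z' : S × Finset S) (B : Finset S) (α β : S → ℝ), Dist α → Dist β →
      (∀ t, α t ≠ 0 → Rch G z (t, B)) → (∀ s, β s ≠ 0 → Rch G z' (s, B)) → Eqv M α β →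
      ∃ a b, StatIn M G z a ∧ StatIn M G z' b ∧ EqvZ M a b

/-- FWD: nonsingular laws give equivalent stationary distributions. -/
def S_FWD : Prop := ∀ (S L : Type) [Fintype S] [DecidableEq S] [Fintype L] [DecidableEq L]
  (M : L → S → S → ℝ) (G : L → S → S → Prop), Stoch M → Fits M G → ∀ (μ ν : S → ℝ), Dist μ →
    Dist ν → ¬ Sing M μ ν → ∃ (t₀ t s : S) (B : Finset S), 0 < μ t₀ ∧ Rch G (t₀, sp ν) (t, B) ∧
      s ∈ B ∧ Ess G (t, B) ∧ Ess G (s, B) ∧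
      ∃ a b, StatIn M G (t, B) a ∧ StatIn M G (s, B) b ∧ EqvZ M a b

/-- CONV: equivalent stationary distributions give nonsingular laws. -/
def S_CONV : Prop := ∀ (S L : Type) [Fintype S] [DecidableEq S] [Fintype L] [DecidableEq L]
  (M : L → S → S → ℝ) (G : L → S → S → Prop), Stoch M → Fits M G → ∀ (μ ν : S → ℝ), Dist μ →
    Dist ν → ∀ (t₀ t s : S) (B : Finset S), 0 < μ t₀ → Rch G (t₀, sp ν) (t, B) →
      s ∈ B → ∀ a b, StatIn M G (t, B) a → StatIn M G (s, B) b → EqvZ M a b → ¬ Sing M μ ν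

/-- DIM: words of length less than the number of states suffice. -/
def S_DIM : Prop := ∀ (S L : Type) [Fintype S] [DecidableEq S] [Fintype L] [DecidableEq L]
  (M : L → S → S → ℝ) (α β : S → ℝ),
    (∀ w : List L, w.length ≤ Fintype.card S → pr M α w = pr M β w) → Eqv M α β

/-- UNIQ: the stationary distribution of a class is a quotient of polynomials. -/
def S_UNIQ : Prop := ∀ (S L ι : Type) [Fintype S] [DecidableEq S] [Fintype L] [DecidableEq L]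
  (Mp : L → S → S → MvPolynomial ι ℝ) (G : L → S → S → Prop),
  (∀ ℓ s t, (Mp ℓ s t).totalDegree ≤ 1) → ∀ z₀ : S × Finset S, Ess G z₀ →
    ∃ (d : MvPolynomial ι ℝ) (c : S × Finset S → MvPolynomial ι ℝ),
      d.totalDegree ≤ Fintype.card (S × Finset S) ∧
      (∀ z, (c z).totalDegree ≤ Fintype.card (S × Finset S)) ∧
      ∀ y, Adm Mp G y → MvPolynomial.eval y d ≠ 0 ∧ ∀ a, StatIn (ev Mp y) G z₀ a →
        ∀ z, a z * MvPolynomial.eval y d = MvPolynomial.eval y (c z)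

/-- UNIQ, abstract part: a matrix `W = 1 - Q + 𝟙 e_{z₀}ᵀ` and its inverse. -/
def S_UNIQA : Prop := ∀ (Z : Type) [Fintype Z] [DecidableEq Z] (Q : Matrix Z Z ℝ),
  (∀ z z', 0 ≤ Q z z') → (∀ z, ∑ z', Q z z' = 1) → ∀ z₀ : Z,
    (∀ z, Relation.ReflTransGen (fun x y => 0 < Q x y) z z₀) →
    (1 - Q + Matrix.of (fun _ z' => if z' = z₀ then (1 : ℝ) else 0)).det ≠ 0

/-- EXST: existence of a stationary distribution carried by the class of `z₀`. -/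
def S_EXST : Prop := ∀ (S L : Type) [Fintype S] [DecidableEq S] [Fintype L] [DecidableEq L]
  (M : L → S → S → ℝ) (G : L → S → S → Prop), Stoch M → Fits M G →
    ∀ z₀ : S × Finset S, ∃ a, StatIn M G z₀ a

/-- GEN: generic parameters are good if one parameter is good. -/
def S_GEN : Prop := ∀ (S L ι : Type) [Fintype S] [DecidableEq S] [Fintype L] [DecidableEq L]
  (Mp : L → S → S → MvPolynomial ι ℝ) (G : L → S → S → Prop),
  (∀ ℓ s t, (Mp ℓ s t).totalDegree ≤ 1) → ∀ (μ ν : S → ℝ), Dist μ → Dist ν →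
    ∀ y₀, Adm Mp G y₀ → Sing (ev Mp y₀) μ ν →
      ∃ p : MvPolynomial ι ℝ, MvPolynomial.eval y₀ p ≠ 0 ∧
        p.totalDegree ≤ 64 ^ (Fintype.card S) ∧
        ∀ y, Adm Mp G y → MvPolynomial.eval y p ≠ 0 → Sing (ev Mp y) μ ν

/-- GRID: a nonzero polynomial does not vanish on a large grid. -/
def S_GRID : Prop := ∀ (ι : Type) [Finite ι] (p : MvPolynomial ι ℝ) (D K : ℕ), 0 < K → p ≠ 0 →
  p.totalDegree ≤ D → ∃ y : ι → ℕ, (∀ i, 1 ≤ y i ∧ y i ≤ D + 1) ∧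
    MvPolynomial.eval (fun i => (y i : ℝ) / K) p ≠ 0

/-- RATL: small rational strategies suffice. -/
def S_RATL : Prop := ∀ (S L A : Type) [Fintype S] [DecidableEq S] [Fintype L] [DecidableEq L]
  [Fintype A] [DecidableEq A] (D : A → L → S → S → ℝ) (en : S → A → Prop),
  (∀ a ℓ s t, 0 ≤ D a ℓ s t) → (∀ s a, en s a → ∑ ℓ, ∑ t, D a ℓ s t = 1) →
    ∀ (μ ν : S → ℝ), Dist μ → Dist ν → ∀ σ : S → A → ℝ, (∀ s a, 0 ≤ σ s a) →
      (∀ s, ∑ a, σ s a = 1) → (∀ s a, σ s a ≠ 0 → en s a) → Sing (mix D σ) μ ν →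
      ∃ (y : S → A → ℕ) (K : ℕ), K = (64 ^ Fintype.card S + 1) * Fintype.card A + 1 ∧
        (∀ s, ∑ a, y s a = K) ∧ (∀ s a, y s a ≠ 0 → en s a) ∧
        Sing (mix D (fun s a => (y s a : ℝ) / K)) μ ν

/-- SOUND: certificates prove singularity. -/
def S_SOUND : Prop := ∀ (S L : Type) [Fintype S] [DecidableEq S] [Fintype L] [DecidableEq L]
  (N : L → S → S → ℕ) (c : ℕ), 0 < c → Stoch (scl N c) → ∀ (μ ν : S → ℝ), Dist μ → Dist ν →
    ∀ R : S → S → Prop, (∀ t s, 0 < μ t → 0 < ν s → R t s) →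
      (∀ t s t' s' ℓ, R t s → 0 < N ℓ t t' → 0 < N ℓ s s' → R t' s') →
      (∀ t s, R t s → ∃ F, Cert N R s F) → Sing (scl N c) μ ν

/-- FARK: Farkas' lemma with small integral coefficients (cone version). -/
def S_FARK : Prop := ∀ (ι κ : Type) [Fintype ι] [DecidableEq ι] [Fintype κ] [DecidableEq κ]
  (v : κ → ι → ℤ) (b : ι → ℤ) (C : ℕ), 1 ≤ C → (∀ k i, |v k i| ≤ C) → (∀ i, |b i| ≤ C) →
    (∃ x : ι → ℝ, (∀ k, ∑ i, (v k i : ℝ) * x i ≤ 0) ∧ 0 < ∑ i, (b i : ℝ) * x i) ∨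
    ∃ (N : κ → ℕ) (D : ℕ), 0 < D ∧
      (∀ k, N k ≤ (Fintype.card ι).factorial * C ^ Fintype.card ι) ∧
      (univ.filter (fun k => N k ≠ 0)).card ≤ Fintype.card ι ∧
      ∀ i, ∑ k, (N k : ℤ) * v k i = D * b i

/-- CERT: existence of small certificates. -/
def S_CERT : Prop := ∀ (S L : Type) [Fintype S] [DecidableEq S] [Fintype L] [DecidableEq L]
  (N : L → S → S → ℕ) (c : ℕ), 0 < c → Stoch (scl N c) → ∀ (R : S → S → Prop) (s : S),
    (∀ t, R t s → Sing (scl N c) (dl t) (dl s)) →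
    ∃ F : List (List L × ℕ × ℕ), F.length ≤ 2 * Fintype.card S ∧ (∀ x ∈ F,
      x.1.length ≤ Fintype.card S ∧
      x.2.1 ≤ (Fintype.card S).factorial * c ^ (Fintype.card S * Fintype.card S) ∧
      x.2.2 ≤ (Fintype.card S).factorial * c ^ (Fintype.card S * Fintype.card S)) ∧
      Cert N R s F

end Pool.Agent.R554.DO
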