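import Pool.Agent.R554.DO.Inst
import Pool.Agent.R554.DO.Stm
import Pool.Agent.NPC.Dec
import Pool.Agent.ER.Rat

/-!
# The polynomial-time checker of certificates, and the statements of the instance-level pieces
-/

namespace Pool.Agent.R554.DO

open Finset MeasureTheory NPC

/-- The natural number `p * D` (for `0 ≤ p` and `p.den ∣ D`). -/
def wt (D : ℕ) (p : ℚ) : ℕ := p.num.natAbs * (D / p.den)

/-- `0 ≤ p` and `p.den ∣ D`. -/
def okQ (D : ℕ) (p : ℚ) : Bool := !(decide (p.num < 0)) && decide (D % p.den = 0)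

/-- Check that the instance is valid. -/
def chkV (I : Inst) (D : ℕ) : Bool :=
  decide (I.2.2.length = nst I) && decide (0 < D) && I.2.1.all (okQ D) && I.2.2.all (okQ D) &&
  decide ((I.2.1.map (wt D)).sum = D) && decide ((I.2.2.map (wt D)).sum = D) &&
  I.1.all (fun e => decide (src e < nst I) && decide (tgt e < nst I) && okQ D (pb e) &&
    decide (((I.1.filter (fun f => decide (src f = src e) && decide (act f = act e))).map
      (fun f => wt D (pb f))).sum = D)) &&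
  (List.range (nst I)).all (fun s => I.1.any (fun e => decide (src e = s)))

/-- Check that `Y` describes a strategy: `k = (s, a, y)` in `Y` adds `y / K` to the probability
of the action `a` in the state `s`. -/
def chkS (I : Inst) (K : ℕ) (Y : List (ℕ × ℕ × ℕ)) : Bool :=
  decide (0 < K) && Y.all (fun k => I.1.any (fun e =>
    decide (src e = k.1) && decide (act e = k.2.1))) &&
  (List.range (nst I)).all (fun s =>
    decide (((Y.filter (fun k => decide (k.1 = s))).map (fun k => k.2.2)).sum = K))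

/-- The weighted edges `(s, ℓ, t, weight)` of the induced chain. -/
def edges (I : Inst) (D : ℕ) (Y : List (ℕ × ℕ × ℕ)) : List (ℕ × ℕ × ℕ × ℕ) :=
  Y.flatMap (fun k => (I.1.filter (fun e =>
    decide (src e = k.1) && decide (act e = k.2.1))).map
      (fun e => (src e, lab e, tgt e, k.2.2 * wt D (pb e))))

/-- One step of the computation of word weights; `qs` is the list of states. -/
def vstep (E : List (ℕ × ℕ × ℕ × ℕ)) (qs : List ℕ) (ℓ : ℕ) (v : List ℕ) : List ℕ :=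
  qs.map (fun q => ((E.filter (fun e => decide (e.1 = q) && decide (e.2.1 = ℓ))).map
    (fun e => e.2.2.2 * v.getD e.2.2.1 0)).sum)

/-- The weights of the word `u` from all states. -/
def vec (E : List (ℕ × ℕ × ℕ × ℕ)) (qs : List ℕ) (u : List ℕ) : List ℕ :=
  u.foldr (vstep E qs) (qs.map (fun _ => 1))

/-- Positive part of a combination of words. -/
def fpc (E : List (ℕ × ℕ × ℕ × ℕ)) (qs : List ℕ) (F : List (List ℕ × ℕ × ℕ)) (q : ℕ) : ℕ :=
  (F.map (fun x => x.2.1 * (vec E qs x.1).getD q 0)).sum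

/-- Negative part of a combination of words. -/
def fmc (E : List (ℕ × ℕ × ℕ × ℕ)) (qs : List ℕ) (F : List (List ℕ × ℕ × ℕ)) (q : ℕ) : ℕ :=
  (F.map (fun x => x.2.2 * (vec E qs x.1).getD q 0)).sum

/-- Check that `R` contains the initial pairs and is closed under common labels. -/
def chkR (I : Inst) (E : List (ℕ × ℕ × ℕ × ℕ)) (R : List (ℕ × ℕ)) : Bool :=
  (List.range (nst I)).all (fun t => (List.range (nst I)).all (fun s =>
    decide ((I.2.1.getD t 0).num = 0) || (decide ((I.2.2.getD s 0).num = 0) ||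
      decide ((t, s) ∈ R)))) &&
  R.all (fun r => E.all (fun e => E.all (fun f =>
    !(decide (e.1 = r.1) && decide (f.1 = r.2) && decide (e.2.1 = f.2.1) &&
      !(decide (e.2.2.2 = 0)) && !(decide (f.2.2.2 = 0))) || decide ((e.2.2.1, f.2.2.1) ∈ R))))

/-- Check the Farkas certificates. -/
def chkF (qs : List ℕ) (E : List (ℕ × ℕ × ℕ × ℕ)) (R : List (ℕ × ℕ))
    (Fs : List (ℕ × List (List ℕ × ℕ × ℕ))) : Bool :=
  R.all (fun r => Fs.any (fun x => decide (x.1 = r.2) &&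
    qs.all (fun q => decide (fmc E qs x.2 q ≤ fpc E qs x.2 q)) &&
    decide (fmc E qs x.2 r.2 < fpc E qs x.2 r.2) &&
    R.all (fun r' => !(decide (r'.2 = r.2)) ||
      decide (fmc E qs x.2 r'.1 = fpc E qs x.2 r'.1))))

/-- Certificates: `((D, K), Y, R, Fs)`. -/
abbrev CertT := (ℕ × ℕ) × List (ℕ × ℕ × ℕ) × List (ℕ × ℕ) × List (ℕ × List (List ℕ × ℕ × ℕ))

/-- The checker. -/
def chk (p : Inst × CertT) : Bool :=
  chkV p.1 p.2.1.1 && chkS p.1 p.2.1.2 p.2.2.1 &&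
    chkR p.1 (edges p.1 p.2.1.1 p.2.2.1) p.2.2.2.1 &&
    chkF (List.range (nst p.1)) (edges p.1 p.2.1.1 p.2.2.1) p.2.2.2.1 p.2.2.2.2

/-! ### Polynomial time -/

/-- PV -/
def S_PV : Prop := Poly (fun p : Inst × ℕ => chkV p.1 p.2)
/-- PS -/
def S_PS : Prop := Poly (fun p : Inst × ℕ × List (ℕ × ℕ × ℕ) => chkS p.1 p.2.1 p.2.2) ∧
  Poly (fun p : Inst × ℕ × List (ℕ × ℕ × ℕ) => edges p.1 p.2.1 p.2.2)
/-- PVEC -/
def S_PVEC : Prop :=
  Poly (fun p : List (ℕ × ℕ × ℕ × ℕ) × List ℕ × List ℕ => vec p.1 p.2.1 p.2.2)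
/-- PR -/
def S_PR : Prop :=
  Poly (fun p : Inst × List (ℕ × ℕ × ℕ × ℕ) × List (ℕ × ℕ) => chkR p.1 p.2.1 p.2.2)
/-- PF -/
def S_PF : Prop :=
  Poly (fun p : List ℕ × List (ℕ × ℕ × ℕ × ℕ) × List (ℕ × ℕ) ×
    List (ℕ × List (List ℕ × ℕ × ℕ)) => chkF p.1 p.2.1 p.2.2.1 p.2.2.2)
/-- PC: the checker runs in polynomial time. -/
def S_PC : Prop := Poly chk

/-! ### The instance as a family of matrices -/

/-- A bound of the labels. -/
def mlab (I : Inst) : ℕ := (I.1.map lab).sum + 1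
/-- A bound of the actions. -/
def mact (I : Inst) : ℕ := (I.1.map act).sum + 1

/-- `δ(s,a)(ℓ,t)`. -/
noncomputable def Dm (I : Inst) : Fin (mact I) → Fin (mlab I) → Fin (nst I) → Fin (nst I) → ℝ :=
  fun a ℓ s t => ((I.1.filter (fun e => src e = s ∧ act e = a ∧ lab e = ℓ ∧ tgt e = t)).map
    (fun e => (pb e : ℝ))).sum

/-- Initial distributions as vectors. -/
noncomputable def vecL (I : Inst) (μ : List ℚ) : Fin (nst I) → ℝ := fun s => (μ.getD s 0 : ℝ)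

/-- Restriction of a strategy. -/
def rst (I : Inst) (σ : ℕ → ℕ → ℝ) : Fin (nst I) → Fin (mact I) → ℝ := fun s a => σ s a

/-- The matrices given by weighted edges. -/
def NE (E : List (ℕ × ℕ × ℕ × ℕ)) (n m : ℕ) : Fin m → Fin n → Fin n → ℕ :=
  fun ℓ s t => ((E.filter (fun e => e.1 = (s : ℕ) ∧ e.2.1 = (ℓ : ℕ) ∧ e.2.2.1 = (t : ℕ))).map
    (fun e => e.2.2.2)).sum

/-- The strategy given by `Y` and `K`. -/
noncomputable def sgm (K : ℕ) (Y : List (ℕ × ℕ × ℕ)) (s a : ℕ) : ℝ :=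
  (((Y.filter (fun k => k.1 = s ∧ k.2.1 = a)).map (fun k => k.2.2)).sum : ℝ) / K

/-- TR1: translation of an instance. -/
def S_TR1 : Prop := ∀ (I : Inst) (σ : ℕ → ℕ → ℝ), Valid I → Strat I σ →
  Stoch (mix (Dm I) (rst I σ)) ∧ Dist (vecL I I.2.1) ∧ Dist (vecL I I.2.2) ∧
  (∀ (μ : List ℚ), μ.length = nst I → ∀ w : List (Fin (mlab I)),
    ip I σ μ (w.map Fin.val) = pr (mix (Dm I) (rst I σ)) (vecL I μ) w) ∧
  (∀ (μ : List ℚ) (w : List ℕ), (∃ ℓ ∈ w, mlab I ≤ ℓ) → ip I σ μ w = 0)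

/-- TR2: strategies and transition families in both forms. -/
def S_TR2 : Prop := ∀ (I : Inst), Valid I →
  (∀ a ℓ s t, 0 ≤ Dm I a ℓ s t) ∧
  (∀ (s : Fin (nst I)) (a : Fin (mact I)), (a : ℕ) ∈ acts I s →
    ∑ ℓ, ∑ t, Dm I a ℓ s t = 1) ∧
  ∀ σ, Strat I σ → (∀ s a, 0 ≤ rst I σ s a) ∧ (∀ s, ∑ a, rst I σ s a = 1) ∧
    (∀ s a, rst I σ s a ≠ 0 → (a : ℕ) ∈ acts I s)

/-- TV: total variation distance one in terms of the affinity. -/
def S_TV : Prop := ∀ (P Q : Measure (ℕ → ℕ)), IsProbabilityMeasure P → IsProbabilityMeasure Q →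
  ∀ m : ℕ, (∀ w : List ℕ, (∃ ℓ ∈ w, m ≤ ℓ) → P.real (cyl w) = 0 ∧ Q.real (cyl w) = 0) →
  (tv P Q = 1 ↔ ∀ ε > 0, ∃ n, ∑ w : Fin n → Fin m,
    √(P.real (cyl ((List.ofFn w).map Fin.val)) * Q.real (cyl ((List.ofFn w).map Fin.val))) < ε)

/-- LAW: existence of the law of the label sequence. -/
def S_LAW : Prop := ∀ (p : List ℕ → ℝ) (m : ℕ), (∀ w, 0 ≤ p w) → p [] = 1 →
  (∀ w : List ℕ, (∃ ℓ ∈ w, m ≤ ℓ) → p w = 0) →
  (∀ w, ∑ ℓ ∈ range m, p (w ++ [ℓ]) = p w) →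
  ∃ P : Measure (ℕ → ℕ), IsProbabilityMeasure P ∧ ∀ w, P.real (cyl w) = p w

/-- LINK: the distance-one condition in terms of the matrices. -/
def S_LINK : Prop := ∀ (I : Inst) (σ : ℕ → ℕ → ℝ), Valid I → Strat I σ →
  ((∃ P Q, IsLaw I σ I.2.1 P ∧ IsLaw I σ I.2.2 Q ∧ tv P Q = 1) ↔
    Sing (mix (Dm I) (rst I σ)) (vecL I I.2.1) (vecL I I.2.2))

/-- VECN: the computed word weights. -/
def S_VECN : Prop := ∀ (E : List (ℕ × ℕ × ℕ × ℕ)) (n m : ℕ), (∀ e ∈ E, e.2.2.1 < n) →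
  ∀ (u : List (Fin m)) (q : Fin n),
    (vec E (List.range n) (u.map Fin.val)).getD q 0 = valN (NE E n m) u q

/-- NEM: the scaled edge matrices are the matrices of the strategy. -/
def S_NEM : Prop := ∀ (I : Inst) (D K : ℕ) (Y : List (ℕ × ℕ × ℕ)), chkV I D = true →
  chkS I K Y = true → Valid I ∧ Strat I (sgm K Y) ∧ 0 < K * D ∧
    (∀ e ∈ edges I D Y, e.1 < nst I ∧ e.2.1 < mlab I ∧ e.2.2.1 < nst I) ∧
    scl (NE (edges I D Y) (nst I) (mlab I)) (K * D) = mix (Dm I) (rst I (sgm K Y))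

/-- CHKS: soundness of the checker. -/
def S_CHKS : Prop := ∀ (I : Inst) (c : CertT), chk (I, c) = true →
  Valid I ∧ ∃ σ, Strat I σ ∧ Sing (mix (Dm I) (rst I σ)) (vecL I I.2.1) (vecL I I.2.2)

/-- The product of all denominators. -/
def dprod (I : Inst) : ℕ :=
  (I.1.map (fun e => (pb e).den)).prod * ((I.2.1.map (fun x => x.den)).prod *
    (I.2.2.map (fun x => x.den)).prod)

/-- The bound of the coefficients of the Farkas certificates. -/
def cfB (I : Inst) : ℕ := (nst I).factorial *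
  (((64 ^ nst I + 1) * mact I + 1) * dprod I) ^ (nst I * nst I)

/-- Explicit bounds of a certificate. -/
structure Bnd (I : Inst) (c : CertT) : Prop where
  D : c.1.1 = dprod I
  K : c.1.2 = (64 ^ nst I + 1) * mact I + 1
  Ylen : c.2.1.length ≤ I.1.length
  Y : ∀ k ∈ c.2.1, k.1 ≤ nst I ∧ k.2.1 ≤ mact I ∧ k.2.2 ≤ c.1.2
  Rlen : c.2.2.1.length ≤ nst I * nst I
  R : ∀ r ∈ c.2.2.1, r.1 ≤ nst I ∧ r.2 ≤ nst I
  Flen : c.2.2.2.length ≤ nst I
  F : ∀ x ∈ c.2.2.2, x.1 ≤ nst I ∧ x.2.length ≤ 2 * nst I ∧ ∀ y ∈ x.2,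
    y.1.length ≤ nst I ∧ (∀ ℓ ∈ y.1, ℓ ≤ mlab I) ∧ y.2.1 ≤ cfB I ∧ y.2.2 ≤ cfB I

/-- CHKC: completeness of the checker. -/
def S_CHKC : Prop := ∀ (I : Inst) (σ : ℕ → ℕ → ℝ), Valid I → Strat I σ →
  Sing (mix (Dm I) (rst I σ)) (vecL I I.2.1) (vecL I I.2.2) → ∃ c, Bnd I c ∧ chk (I, c) = true

/-- DCHK: a valid instance passes the validity check with `D` the product of the denominators. -/
def S_DCHK : Prop := ∀ I : Inst, Valid I → chkV I (dprod I) = true

/-- SIZE: bounded certificates are short. -/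
def S_SIZE : Prop := ∃ p : Polynomial ℕ, ∀ (I : Inst) (c : CertT), Bnd I c →
  sz c ≤ p.eval (sz I)

/-- The final statement. -/
def S_FINAL : Prop := InNPP DistOne

end Pool.Agent.R554.DO
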