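import Mathlib

/-!
# Labelled Markov chains and mutual singularity of their trace laws (abstract level)

`M ℓ s t` is the probability to emit the label `ℓ` and to move to `t` from `s`.
-/

namespace Pool.Agent.R554.DO

open Finset

section

variable {S L : Type} [Fintype S] [DecidableEq S] [Fintype L] [DecidableEq L]

/-- One step of the chain along the label `ℓ`, on row vectors. -/
def push (M : L → S → S → ℝ) (ℓ : L) (α : S → ℝ) : S → ℝ := fun t => ∑ s, α s * M ℓ s t

/-- The probability of a word from each state. -/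
def val (M : L → S → S → ℝ) : List L → S → ℝ
  | [] => fun _ => 1
  | ℓ :: w => fun s => ∑ t, M ℓ s t * val M w t

/-- The probability of a word from an initial vector. -/
def pr (M : L → S → S → ℝ) (α : S → ℝ) (w : List L) : ℝ := ∑ s, α s * val M w s

/-- The Hellinger affinity of the laws of the first `n` labels. -/
noncomputable def Hn (M : L → S → S → ℝ) : ℕ → (S → ℝ) → (S → ℝ) → ℝ
  | 0, α, β => √((∑ s, α s) * (∑ s, β s))
  | n + 1, α, β => ∑ ℓ, Hn M n (push M ℓ α) (push M ℓ β)

/-- The trace laws are mutually singular. -/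
def Sing (M : L → S → S → ℝ) (α β : S → ℝ) : Prop := ∀ ε > 0, ∃ n, Hn M n α β < ε

/-- The trace laws coincide. -/
def Eqv (M : L → S → S → ℝ) (α β : S → ℝ) : Prop := ∀ w : List L, pr M α w = pr M β w

/-- Stochastic families of matrices. -/
structure Stoch (M : L → S → S → ℝ) : Prop where
  nonneg : ∀ ℓ s t, 0 ≤ M ℓ s t
  sum : ∀ s, ∑ ℓ, ∑ t, M ℓ s t = 1

/-- Probability vectors. -/
structure Dist {X : Type} [Fintype X] (α : X → ℝ) : Prop where
  nonneg : ∀ s, 0 ≤ α s
  sum : ∑ s, α s = 1

/-- Unit mass. -/
def dl (s : S) : S → ℝ := Pi.single s 1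

/-- `G` is the support of `M`. -/
def Fits (M : L → S → S → ℝ) (G : L → S → S → Prop) : Prop := ∀ ℓ s t, 0 < M ℓ s t ↔ G ℓ s t

open Classical in
/-- The set of states reached from `B` along `ℓ`. -/
noncomputable def nxt (G : L → S → S → Prop) (ℓ : L) (B : Finset S) : Finset S :=
  univ.filter (fun t => ∃ s ∈ B, G ℓ s t)

open Classical in
/-- The support of a vector. -/
noncomputable def sp (α : S → ℝ) : Finset S := univ.filter (fun t => 0 < α t)

/-- A step of the enlarged chain on `S × Finset S`. -/
def zstep (G : L → S → S → Prop) (z z' : S × Finset S) : Prop :=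
  ∃ ℓ, G ℓ z.1 z'.1 ∧ z'.2 = nxt G ℓ z.2

/-- Reachability in the enlarged chain. -/
def Rch (G : L → S → S → Prop) : S × Finset S → S × Finset S → Prop :=
  Relation.ReflTransGen (zstep G)

/-- Essential (recurrent) states of the enlarged chain. -/
def Ess (G : L → S → S → Prop) (z : S × Finset S) : Prop := ∀ z', Rch G z z' → Rch G z' z

open Classical in
/-- The transition matrix of the enlarged chain. -/
noncomputable def Qz (M : L → S → S → ℝ) (G : L → S → S → Prop) (z z' : S × Finset S) : ℝ :=
  ∑ ℓ, if nxt G ℓ z.2 = z'.2 then M ℓ z.1 z'.1 else 0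

/-- Stationary distributions of the enlarged chain carried by the states reachable from `z₀`. -/
structure StatIn (M : L → S → S → ℝ) (G : L → S → S → Prop) (z₀ : S × Finset S)
    (a : S × Finset S → ℝ) : Prop where
  dist : Dist a
  supp : ∀ z, a z ≠ 0 → Rch G z₀ z
  inv : ∀ z', ∑ z, a z * Qz M G z z' = a z'

/-- Equivalence of two vectors on the enlarged state space. -/
def EqvZ (M : L → S → S → ℝ) (a b : S × Finset S → ℝ) : Prop :=
  ∀ B, Eqv M (fun t => a (t, B)) (fun t => b (t, B))

/-- Reachability of pairs of states along a common word. -/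
inductive PR (G : L → S → S → Prop) (μ ν : S → ℝ) : S → S → Prop
  | init (t s : S) : 0 < μ t → 0 < ν s → PR G μ ν t s
  | step (t s t' s' : S) (ℓ : L) : PR G μ ν t s → G ℓ t t' → G ℓ s s' → PR G μ ν t' s'

/-- Integer version of `val`. -/
def valN (N : L → S → S → ℕ) : List L → S → ℕ
  | [] => fun _ => 1
  | ℓ :: w => fun s => ∑ t, N ℓ s t * valN N w t

/-- The scaled matrices. -/
noncomputable def scl (N : L → S → S → ℕ) (c : ℕ) : L → S → S → ℝ :=
  fun ℓ s t => (N ℓ s t : ℝ) / c

/-- The two parts of the vector given by a list of words with coefficients. -/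
def fp (N : L → S → S → ℕ) (F : List (List L × ℕ × ℕ)) (q : S) : ℕ :=
  (F.map (fun x => x.2.1 * valN N x.1 q)).sum

/-- See `fp`. -/
def fm (N : L → S → S → ℕ) (F : List (List L × ℕ × ℕ)) (q : S) : ℕ :=
  (F.map (fun x => x.2.2 * valN N x.1 q)).sum

/-- `F` certifies that no vector carried by `{t | R t s}` dominates the unit mass at `s`. -/
structure Cert (N : L → S → S → ℕ) (R : S → S → Prop) (s : S)
    (F : List (List L × ℕ × ℕ)) : Prop where
  le : ∀ q, fm N F q ≤ fp N F q
  lt : fm N F s < fp N F s
  eq : ∀ t, R t s → fm N F t = fp N F t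

/-- Evaluation of a polynomial family of matrices. -/
noncomputable def ev {ι : Type} (Mp : L → S → S → MvPolynomial ι ℝ) (y : ι → ℝ) :
    L → S → S → ℝ := fun ℓ s t => MvPolynomial.eval y (Mp ℓ s t)

/-- Admissible parameters. -/
def Adm {ι : Type} (Mp : L → S → S → MvPolynomial ι ℝ) (G : L → S → S → Prop) (y : ι → ℝ) :
    Prop := Stoch (ev Mp y) ∧ Fits (ev Mp y) G

/-- The labelled chain induced by a memoryless strategy `σ`; `D a ℓ s t` is the probability that
action `a` in state `s` emits `ℓ` and moves to `t`. -/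
def mix {A : Type} [Fintype A] (D : A → L → S → S → ℝ) (σ : S → A → ℝ) : L → S → S → ℝ :=
  fun ℓ s t => ∑ a, σ s a * D a ℓ s t

end

end Pool.Agent.R554.DO
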