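import Mathlib
import Pool.Agent.NPC.Defs

/-!
# Labelled Markov decision processes and the distance-one problem
-/

namespace Pool.Agent.R554.DO

open MeasureTheory

/-- A transition `(s, a, ℓ, t, p)`: the action `a` is enabled in the state `s` and, when it is
chosen, the label `ℓ` is emitted and the process moves to the state `t` with probability `p`
(several entries with the same `s, a, ℓ, t` are added up). -/
abbrev Tr := ℕ × ℕ × ℕ × ℕ × ℚ

/-- source state -/
def src (e : Tr) : ℕ := e.1
/-- action -/
def act (e : Tr) : ℕ := e.2.1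
/-- label -/
def lab (e : Tr) : ℕ := e.2.2.1
/-- target state -/
def tgt (e : Tr) : ℕ := e.2.2.2.1
/-- probability -/
def pb (e : Tr) : ℚ := e.2.2.2.2

/-- An instance `(T, μ, ν)`: the list of transitions and two initial distributions on the states
`0, ..., n-1`, where `n` is the length of the list `μ`. -/
abbrev Inst := List Tr × List ℚ × List ℚ

/-- The number of states. -/
def nst (I : Inst) : ℕ := I.2.1.length

/-- The instance is a labelled Markov decision process with two initial distributions. -/
structure Valid (I : Inst) : Prop where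
  len : I.2.2.length = nst I
  mu_nonneg : ∀ x ∈ I.2.1, 0 ≤ x
  mu_sum : I.2.1.sum = 1
  nu_nonneg : ∀ x ∈ I.2.2, 0 ≤ x
  nu_sum : I.2.2.sum = 1
  src_lt : ∀ e ∈ I.1, src e < nst I
  tgt_lt : ∀ e ∈ I.1, tgt e < nst I
  pb_nonneg : ∀ e ∈ I.1, 0 ≤ pb e
  total : ∀ s < nst I, ∃ e ∈ I.1, src e = s
  prob : ∀ e ∈ I.1,
    ((I.1.filter (fun f => src f = src e ∧ act f = act e)).map pb).sum = 1

/-- The actions enabled in the state `s`. -/
def acts (I : Inst) (s : ℕ) : Finset ℕ := ((I.1.filter (fun e => src e = s)).map act).toFinset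

/-- Memoryless strategies: `σ s a` is the probability to choose `a` in the state `s`. -/
structure Strat (I : Inst) (σ : ℕ → ℕ → ℝ) : Prop where
  nonneg : ∀ s a, 0 ≤ σ s a
  supp : ∀ s a, σ s a ≠ 0 → a ∈ acts I s
  sum : ∀ s < nst I, ∑ a ∈ acts I s, σ s a = 1

/-- The probability that the induced labelled Markov chain started in the state `s` emits the
word `w`. -/
noncomputable def wp (I : Inst) (σ : ℕ → ℕ → ℝ) : List ℕ → ℕ → ℝ
  | [], _ => 1
  | ℓ :: w, s => ((I.1.filter (fun e => src e = s ∧ lab e = ℓ)).map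
      (fun e => σ s (act e) * (pb e : ℝ) * wp I σ w (tgt e))).sum

/-- The probability of the word `w` for the initial distribution `μ`. -/
noncomputable def ip (I : Inst) (σ : ℕ → ℕ → ℝ) (μ : List ℚ) (w : List ℕ) : ℝ :=
  ∑ s ∈ Finset.range μ.length, (μ.getD s 0 : ℝ) * wp I σ w s

/-- The cylinder of the infinite label sequences that start with `w`. -/
def cyl (w : List ℕ) : Set (ℕ → ℕ) := {x | ∀ (i : ℕ) (h : i < w.length), x i = w[i]}

/-- `P` is the law of the infinite label sequence under the strategy `σ` and the initial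
distribution `μ`. -/
def IsLaw (I : Inst) (σ : ℕ → ℕ → ℝ) (μ : List ℚ) (P : Measure (ℕ → ℕ)) : Prop :=
  IsProbabilityMeasure P ∧ ∀ w : List ℕ, P.real (cyl w) = ip I σ μ w

/-- Total variation distance. -/
noncomputable def tv (P Q : Measure (ℕ → ℕ)) : ℝ :=
  ⨆ E : {E : Set (ℕ → ℕ) // MeasurableSet E}, |P.real E.1 - Q.real E.1|

/-- The distance-one problem: some memoryless strategy makes the total variation distance of the
two laws of label sequences equal to one. -/
def DistOne (I : Inst) : Prop :=
  Valid I ∧ ∃ σ, Strat I σ ∧ ∃ P Q, IsLaw I σ I.2.1 P ∧ IsLaw I σ I.2.2 Q ∧ tv P Q = 1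

end Pool.Agent.R554.DO
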