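import Mathlib
import Pool.Agent.R554.DO.Stm

/-! DO-CERT: existence of small certificates (MP_f8a6ff_lc). helper634. -/

namespace Pool.Agent.R554.DO

open Finset

namespace CERTx

section

variable {S L : Type} [Fintype S] [DecidableEq S] [Fintype L] [DecidableEq L]

lemma Hn_symm (M : L → S → S → ℝ) (n : ℕ) : ∀ α β : S → ℝ, Hn M n α β = Hn M n β α := by
  induction n with
  | zero => intro α β; simp only [Hn]; rw [mul_comm]
  | succ n ih => intro α β; simp only [Hn]; exact Finset.sum_congr rfl (fun ℓ _ => ih _ _)

lemma Sing_symm {M : L → S → S → ℝ} {α β : S → ℝ} (h : Sing M α β) : Sing M β α := by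
  intro ε hε
  obtain ⟨n, hn⟩ := h ε hε
  exact ⟨n, by rw [Hn_symm]; exact hn⟩

lemma val_scl (N : L → S → S → ℕ) (c : ℕ) (w : List L) :
    ∀ q, val (scl N c) w q = (valN N w q : ℝ) / (c : ℝ) ^ w.length := by
  induction w with
  | nil => intro q; simp [val, valN]
  | cons ℓ w ih =>
    intro q
    simp only [val, valN, scl, List.length_cons]
    push_cast
    rw [Finset.sum_div]
    apply Finset.sum_congr rfl
    intro t _
    rw [ih t, pow_succ, div_mul_div_comm, mul_comm (c : ℝ)]

lemma row_sum (N : L → S → S → ℕ) (c : ℕ) (hc : 0 < c) (h : Stoch (scl N c)) (s : S) :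
    ∑ ℓ, ∑ t, N ℓ s t = c := by
  have := h.sum s
  simp only [scl] at this
  simp_rw [← Finset.sum_div] at this
  have hc' : (c : ℝ) ≠ 0 := by positivity
  rw [div_eq_one_iff_eq hc'] at this
  exact_mod_cast this

lemma valN_le (N : L → S → S → ℕ) (c : ℕ) (hc : 0 < c) (h : Stoch (scl N c)) (w : List L) :
    ∀ q, valN N w q ≤ c ^ w.length := by
  induction w with
  | nil => intro q; simp [valN]
  | cons ℓ w ih =>
    intro q
    simp only [valN, List.length_cons]
    calc ∑ t, N ℓ q t * valN N w t ≤ ∑ t, N ℓ q t * c ^ w.length :=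
          Finset.sum_le_sum (fun t _ => Nat.mul_le_mul_left _ (ih t))
      _ = (∑ t, N ℓ q t) * c ^ w.length := by rw [Finset.sum_mul]
      _ ≤ c * c ^ w.length := by
          apply Nat.mul_le_mul_right
          rw [← row_sum N c hc h q]
          exact Finset.single_le_sum (f := fun ℓ => ∑ t, N ℓ q t) (fun _ _ => Nat.zero_le _)
            (Finset.mem_univ ℓ)
      _ = c ^ (w.length + 1) := by rw [pow_succ]; ring

/-- words of length at most `n` -/
abbrev U (L : Type) (n : ℕ) : Type := Σ k : Fin (n + 1), Fin (k : ℕ) → L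

/-- the word of an element of `U` -/
def wd {L : Type} {n : ℕ} (u : U L n) : List L := List.ofFn u.2

lemma wd_length {L : Type} {n : ℕ} (u : U L n) : (wd u).length ≤ n := by
  unfold wd
  rw [List.length_ofFn]
  exact Nat.lt_succ_iff.1 u.1.2

lemma exists_wd {L : Type} {n : ℕ} (w : List L) (hw : w.length ≤ n) : ∃ u : U L n, wd u = w := by
  refine ⟨⟨⟨w.length, Nat.lt_succ_iff.2 hw⟩, fun i => w.get i⟩, ?_⟩
  unfold wd
  exact List.ofFn_get w

open Classical in
/-- the rows of the system -/
noncomputable def rows (N : L → S → S → ℕ) (R : S → S → Prop) (s : S) (n : ℕ) :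
    U L n ⊕ (U L n ⊕ S) → S → ℤ
  | Sum.inl u => fun q => (valN N (wd u) q : ℤ)
  | Sum.inr (Sum.inl u) => fun q => -(valN N (wd u) q : ℤ)
  | Sum.inr (Sum.inr p) => fun q => if p = q ∧ ¬ R p s then -1 else 0

end

end CERTx

open CERTx in
theorem t_CERT (hF : S_FARK) (hD : S_DOM) (hS : S_SUB) (hI : S_DIM) : S_CERT := by
  classical
  intro S L _ _ _ _ N c hc hst R s hR
  set n := Fintype.card S with hn
  have hdl : ∀ q : S, 0 ≤ dl s q := by
    intro q
    unfold dl
    by_cases h : q = s
    · subst h; simp
    · simp [Pi.single_apply, h]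
  have hdls : (0 : ℝ) < dl s s := by simp [dl]
  have hss : ¬ Sing (scl N c) (dl s) (dl s) :=
    hD S L (scl N c) hst (dl s) (dl s) hdl hdl (fun _ => rfl) s hdls
  have hval : ∀ (u : U L n) q, valN N (wd u) q ≤ c ^ n := fun u q =>
    (valN_le N c hc hst (wd u) q).trans (Nat.pow_le_pow_right hc (wd_length u))
  have hC1 : 1 ≤ c ^ n := Nat.one_le_pow _ _ hc
  have hrow : ∀ k i, |rows N R s n k i| ≤ (c ^ n : ℕ) := by
    intro k i
    rcases k with u | u | p
    · simp only [rows]
      rw [abs_of_nonneg (by positivity)]
      exact_mod_cast hval u i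
    · simp only [rows, abs_neg]
      rw [abs_of_nonneg (by positivity)]
      exact_mod_cast hval u i
    · simp only [rows]
      split_ifs
      · simp only [abs_neg, abs_one]
        exact_mod_cast hC1
      · simp
  have hb : ∀ i : S, |(if i = s then (1 : ℤ) else 0)| ≤ (c ^ n : ℕ) := by
    intro i
    split_ifs
    · simp only [abs_one]
      exact_mod_cast hC1
    · simp
  rcases hF S (U L n ⊕ (U L n ⊕ S)) (rows N R s n) (fun i => if i = s then 1 else 0) (c ^ n) hC1
    hrow hb with ⟨x, hx1, hx2⟩ | ⟨W, D, hDpos, hW1, hW2, hW3⟩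
  · exfalso
    have hxs : 0 < x s := by
      simpa using hx2
    have hxu : ∀ u : U L n, ∑ q, (valN N (wd u) q : ℝ) * x q = 0 := by
      intro u
      have h1 := hx1 (Sum.inl u)
      have h2 := hx1 (Sum.inr (Sum.inl u))
      simp only [rows, Int.cast_natCast, Int.cast_neg, neg_mul, Finset.sum_neg_distrib] at h1 h2
      linarith
    have hxp : ∀ p : S, ¬ R p s → 0 ≤ x p := by
      intro p hp
      have h1 := hx1 (Sum.inr (Sum.inr p))
      simp only [rows, hp, not_false_eq_true, and_true] at h1
      have h2 : ∑ i, (((if p = i then (-1 : ℤ) else 0) : ℤ) : ℝ) * x i = - x p := by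
        rw [Finset.sum_eq_single p]
        · simp
        · intro b _ hb
          simp [Ne.symm hb]
        · intro h; exact absurd (Finset.mem_univ p) h
      rw [h2] at h1
      linarith
    set β : S → ℝ := fun q => max (x q) 0 with hβ
    set α : S → ℝ := fun q => max (- x q) 0 with hα
    have hβα : ∀ q, β q - α q = x q := by
      intro q
      simp only [hβ, hα]
      rcases le_total (x q) 0 with h | h
      · rw [max_eq_right h, max_eq_left (by linarith)]; ring
      · rw [max_eq_left h, max_eq_right (by linarith)]; ring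
    have hβ0 : ∀ q, 0 ≤ β q := fun q => le_max_right _ _
    have hα0 : ∀ q, 0 ≤ α q := fun q => le_max_right _ _
    have heq : Eqv (scl N c) β α := by
      apply hI S L (scl N c) β α
      intro w hw
      obtain ⟨u, hu⟩ := exists_wd (n := n) w hw
      have h1 := hxu u
      rw [hu] at h1
      have h2 : pr (scl N c) β w - pr (scl N c) α w =
          (∑ q, (valN N w q : ℝ) * x q) / (c : ℝ) ^ w.length := by
        unfold pr
        rw [← Finset.sum_sub_distrib, Finset.sum_div]
        apply Finset.sum_congr rfl
        intro q _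
        rw [val_scl, ← sub_mul, hβα]
        ring
      rw [h1, zero_div] at h2
      linarith
    have h1 : ¬ Sing (scl N c) (dl s) α :=
      hD S L (scl N c) hst β α hβ0 hα0 heq s (by
        simp only [hβ]
        exact lt_max_of_lt_left hxs)
    apply h1
    rw [hS S L (scl N c) hst (dl s) α hdl hα0]
    intro s1 t hs1 ht
    have hs1' : s1 = s := by
      by_contra hne
      simp [dl, Pi.single_apply, hne] at hs1
    subst hs1'
    apply Sing_symm
    apply hR
    by_contra hnR
    have h2 := hxp t hnR
    simp only [hα] at ht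
    rw [max_eq_right (by linarith)] at ht
    exact lt_irrefl _ ht
  · -- the certificate
    set T : Finset (U L n) := univ.filter (fun u => W (Sum.inl u) ≠ 0 ∨ W (Sum.inr (Sum.inl u)) ≠ 0)
      with hT
    set F : List (List L × ℕ × ℕ) :=
      T.toList.map (fun u => (wd u, W (Sum.inl u), W (Sum.inr (Sum.inl u)))) with hFdef
    have hfp : ∀ q, fp N F q = ∑ u, W (Sum.inl u) * valN N (wd u) q := by
      intro q
      unfold fp
      rw [hFdef, List.map_map]
      have h1 : ((fun x : List L × ℕ × ℕ => x.2.1 * valN N x.1 q) ∘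
          (fun u : U L n => (wd u, W (Sum.inl u), W (Sum.inr (Sum.inl u))))) =
          fun u => W (Sum.inl u) * valN N (wd u) q := rfl
      rw [h1, Finset.sum_map_toList T (fun u => W (Sum.inl u) * valN N (wd u) q)]
      apply Finset.sum_subset (Finset.subset_univ _)
      intro u _ hu
      simp only [hT, mem_filter, mem_univ, true_and, not_or, not_not] at hu
      rw [hu.1, zero_mul]
    have hfm : ∀ q, fm N F q = ∑ u, W (Sum.inr (Sum.inl u)) * valN N (wd u) q := by
      intro q
      unfold fm
      rw [hFdef, List.map_map]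
      have h1 : ((fun x : List L × ℕ × ℕ => x.2.2 * valN N x.1 q) ∘
          (fun u : U L n => (wd u, W (Sum.inl u), W (Sum.inr (Sum.inl u))))) =
          fun u => W (Sum.inr (Sum.inl u)) * valN N (wd u) q := rfl
      rw [h1, Finset.sum_map_toList T (fun u => W (Sum.inr (Sum.inl u)) * valN N (wd u) q)]
      apply Finset.sum_subset (Finset.subset_univ _)
      intro u _ hu
      simp only [hT, mem_filter, mem_univ, true_and, not_or, not_not] at hu
      rw [hu.2, zero_mul]
    have hkey : ∀ q, (fp N F q : ℤ) - fm N F q =
        D * (if q = s then 1 else 0) + (if R q s then 0 else (W (Sum.inr (Sum.inr q)) : ℤ)) := by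
      intro q
      have h1 := hW3 q
      rw [Fintype.sum_sum_type, Fintype.sum_sum_type] at h1
      simp only [rows] at h1
      have h2 : ∑ p : S, (W (Sum.inr (Sum.inr p)) : ℤ) * (if p = q ∧ ¬ R p s then -1 else 0) =
          - (if R q s then 0 else (W (Sum.inr (Sum.inr q)) : ℤ)) := by
        rw [Finset.sum_eq_single q]
        · by_cases h : R q s <;> simp [h]
        · intro b _ hb
          simp [hb]
        · intro h; exact absurd (Finset.mem_univ q) h
      rw [h2] at h1
      rw [hfp, hfm]
      push_cast
      simp only [mul_neg, Finset.sum_neg_distrib] at h1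
      linarith
    have hcardL : (univ.filter (fun u : U L n => W (Sum.inl u) ≠ 0)).card ≤ n := by
      refine le_trans ?_ hW2
      apply Finset.card_le_card_of_injOn (fun u => Sum.inl u)
      · intro u hu
        simpa using hu
      · intro u _ v _ h
        exact Sum.inl_injective h
    have hcardR : (univ.filter (fun u : U L n => W (Sum.inr (Sum.inl u)) ≠ 0)).card ≤ n := by
      refine le_trans ?_ hW2
      apply Finset.card_le_card_of_injOn (fun u => Sum.inr (Sum.inl u))
      · intro u hu
        simpa using hu
      · intro u _ v _ h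
        exact Sum.inl_injective (Sum.inr_injective h)
    have hpow : (c ^ n) ^ n = c ^ (n * n) := (pow_mul c n n).symm
    refine ⟨F, ?_, ?_, ?_, ?_, ?_⟩
    · rw [hFdef, List.length_map, Finset.length_toList, hT, Finset.filter_or]
      refine (Finset.card_union_le _ _).trans ?_
      omega
    · intro x hx
      rw [hFdef, List.mem_map] at hx
      obtain ⟨u, _, rfl⟩ := hx
      refine ⟨wd_length u, ?_, ?_⟩
      · rw [← hpow]; exact hW1 _
      · rw [← hpow]; exact hW1 _
    · intro q
      have h1 := hkey q
      have h2 : (0 : ℤ) ≤ D * (if q = s then 1 else 0) +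
          (if R q s then 0 else (W (Sum.inr (Sum.inr q)) : ℤ)) := by
        split_ifs <;> positivity
      omega
    · have h1 := hkey s
      rw [if_pos rfl, mul_one] at h1
      have h2 : (0 : ℤ) ≤ (if R s s then 0 else (W (Sum.inr (Sum.inr s)) : ℤ)) := by
        split_ifs <;> positivity
      omega
    · intro t ht
      have h1 := hkey t
      have hts : t ≠ s := by
        intro h
        subst h
        exact hss (hR _ ht)
      rw [if_neg hts, if_pos ht, mul_zero, zero_add] at h1
      omega

end Pool.Agent.R554.DO
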