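import Pool.Agent.R554.DO.Chk

/-!
# CHKC: completeness of the checker
-/

set_option autoImplicit false
set_option linter.unusedSectionVars false

namespace Pool.Agent.R554.DO

open Finset

namespace CHKCX

/-- the list of the weights of the actions -/
def YL (P : List (ℕ × ℕ)) (g : ℕ → ℕ → ℕ) : List (ℕ × ℕ × ℕ) :=
  P.map (fun p => (p.1, p.2, g p.1 p.2))

theorem ysum (P : List (ℕ × ℕ)) (hP : P.Nodup) (g : ℕ → ℕ → ℕ) (b : ℕ × ℕ × ℕ → Bool)
    (b' : ℕ × ℕ → Bool) (hb : ∀ p : ℕ × ℕ, b (p.1, p.2, g p.1 p.2) = b' p) :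
    (((YL P g).filter b).map (fun k => k.2.2)).sum =
      ∑ p ∈ P.toFinset.filter (fun p => b' p = true), g p.1 p.2 := by
  have h1 : (YL P g).filter b = (P.filter b').map (fun p => (p.1, p.2, g p.1 p.2)) := by
    unfold YL
    rw [List.filter_map]
    congr 1
    refine List.filter_congr fun p _ => ?_
    exact hb p
  rw [h1, List.map_map]
  have h2 : ((fun k : ℕ × ℕ × ℕ => k.2.2) ∘ fun p : ℕ × ℕ => (p.1, p.2, g p.1 p.2)) =
      fun p : ℕ × ℕ => g p.1 p.2 := rfl
  rw [h2, ← List.sum_toFinset _ (hP.filter _), List.toFinset_filter]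

/-- the list of the reachable pairs -/
noncomputable def RL (n : ℕ) (R : Fin n → Fin n → Prop) : List (ℕ × ℕ) := by
  classical
  exact (((List.finRange n) ×ˢ (List.finRange n)).filter (fun p => R p.1 p.2)).map
    (fun p => ((p.1 : ℕ), (p.2 : ℕ)))

theorem mem_RL (n : ℕ) (R : Fin n → Fin n → Prop) (r : ℕ × ℕ) :
    r ∈ RL n R ↔ ∃ t s : Fin n, R t s ∧ r = ((t : ℕ), (s : ℕ)) := by
  classical
  unfold RL
  rw [List.mem_map]
  constructor
  · rintro ⟨p, hp, rfl⟩
    rw [List.mem_filter] at hp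
    exact ⟨p.1, p.2, of_decide_eq_true hp.2, rfl⟩
  · rintro ⟨t, s, h, rfl⟩
    refine ⟨(t, s), ?_, rfl⟩
    rw [List.mem_filter]
    refine ⟨?_, decide_eq_true h⟩
    rw [List.mem_product]
    exact ⟨List.mem_finRange t, List.mem_finRange s⟩

theorem len_RL (n : ℕ) (R : Fin n → Fin n → Prop) : (RL n R).length ≤ n * n := by
  classical
  unfold RL
  rw [List.length_map]
  refine (List.length_filter_le _ _).trans ?_
  rw [List.length_product, List.length_finRange]

theorem ne_pos (E : List (ℕ × ℕ × ℕ × ℕ)) (n m : ℕ) (e : ℕ × ℕ × ℕ × ℕ) (he : e ∈ E)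
    (s t : Fin n) (ℓ : Fin m) (h1 : e.1 = s) (h2 : e.2.1 = ℓ) (h3 : e.2.2.1 = t)
    (h4 : e.2.2.2 ≠ 0) : 0 < NE E n m ℓ s t := by
  unfold NE
  have h5 : e ∈ E.filter (fun e => e.1 = (s : ℕ) ∧ e.2.1 = (ℓ : ℕ) ∧ e.2.2.1 = (t : ℕ)) := by
    rw [List.mem_filter]
    exact ⟨he, decide_eq_true ⟨h1, h2, h3⟩⟩
  have h6 := List.single_le_sum (fun x _ => Nat.zero_le x) e.2.2.2
    (List.mem_map_of_mem (f := fun e : ℕ × ℕ × ℕ × ℕ => e.2.2.2) h5)
  omega

/-- words over `Fin m` as words over `ℕ` -/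
def FM {m : ℕ} (F : List (List (Fin m) × ℕ × ℕ)) : List (List ℕ × ℕ × ℕ) :=
  F.map (fun x => (x.1.map Fin.val, x.2.1, x.2.2))

theorem fpc_eq (hV : S_VECN) (E : List (ℕ × ℕ × ℕ × ℕ)) (n m : ℕ) (hE : ∀ e ∈ E, e.2.2.1 < n)
    (F : List (List (Fin m) × ℕ × ℕ)) (q : Fin n) :
    fpc E (List.range n) (FM F) q = fp (NE E n m) F q := by
  unfold fpc FM fp
  rw [List.map_map]
  congr 1
  refine List.map_congr_left fun x _ => ?_
  show x.2.1 * (vec E (List.range n) (x.1.map Fin.val)).getD q 0 = _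
  rw [hV E n m hE]

theorem fmc_eq (hV : S_VECN) (E : List (ℕ × ℕ × ℕ × ℕ)) (n m : ℕ) (hE : ∀ e ∈ E, e.2.2.1 < n)
    (F : List (List (Fin m) × ℕ × ℕ)) (q : Fin n) :
    fmc E (List.range n) (FM F) q = fm (NE E n m) F q := by
  unfold fmc FM fm
  rw [List.map_map]
  congr 1
  refine List.map_congr_left fun x _ => ?_
  show x.2.2 * (vec E (List.range n) (x.1.map Fin.val)).getD q 0 = _
  rw [hV E n m hE]

theorem act_lt (I : Inst) (e : Tr) (he : e ∈ I.1) : act e < mact I := by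
  unfold mact
  have h6 := List.single_le_sum (fun x _ => Nat.zero_le x) (act e) (List.mem_map_of_mem (f := act) he)
  omega

end CHKCX

open CHKCX in
/-- CHKC -/
theorem t_CHKC (hRATL : S_RATL) (hCERT : S_CERT) (hSUB : S_SUB) (hBACK : S_BACK) (hNEM : S_NEM)
    (hVECN : S_VECN) (hTR1 : S_TR1) (hTR2 : S_TR2) (hDCHK : S_DCHK) : S_CHKC := by
  classical
  intro I σ hV hS hSing
  obtain ⟨-, hμ, hν, -, -⟩ := hTR1 I σ hV hS
  obtain ⟨hD0, hD1, hD2⟩ := hTR2 I hV
  obtain ⟨hσ0, hσ1, hσ2⟩ := hD2 σ hS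
  obtain ⟨y, K, hK, hysum, hysupp, hySing⟩ := hRATL (Fin (nst I)) (Fin (mlab I)) (Fin (mact I))
    (Dm I) (fun s a => (a : ℕ) ∈ acts I s) hD0 hD1 (vecL I I.2.1) (vecL I I.2.2) hμ hν
    (rst I σ) hσ0 hσ1 hσ2 hSing
  rw [Fintype.card_fin, Fintype.card_fin] at hK
  have hKpos : 0 < K := by omega
  -- the weights
  set P : List (ℕ × ℕ) := (I.1.map (fun e => (src e, act e))).dedup with hPdef
  have hPnd : P.Nodup := List.nodup_dedup _
  have hPmem : ∀ s a, (s, a) ∈ P ↔ ∃ e ∈ I.1, src e = s ∧ act e = a := by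
    intro s a
    rw [hPdef, List.mem_dedup, List.mem_map]
    constructor
    · rintro ⟨e, he, h⟩
      simp only [Prod.mk.injEq] at h
      exact ⟨e, he, h.1, h.2⟩
    · rintro ⟨e, he, h1, h2⟩
      exact ⟨e, he, by rw [h1, h2]⟩
  have hPlt : ∀ s a, (s, a) ∈ P → s < nst I ∧ a < mact I := by
    intro s a h
    obtain ⟨e, he, h1, h2⟩ := (hPmem s a).1 h
    exact ⟨h1 ▸ hV.src_lt e he, h2 ▸ act_lt I e he⟩
  have hacts : ∀ s a, a ∈ acts I s ↔ (s, a) ∈ P := by
    intro s a
    rw [hPmem]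
    unfold acts
    rw [List.mem_toFinset, List.mem_map]
    constructor
    · rintro ⟨e, he, h⟩
      rw [List.mem_filter] at he
      exact ⟨e, he.1, of_decide_eq_true he.2, h⟩
    · rintro ⟨e, he, h1, h2⟩
      exact ⟨e, List.mem_filter.2 ⟨he, decide_eq_true h1⟩, h2⟩
  set g : ℕ → ℕ → ℕ := fun s a =>
    if h : s < nst I ∧ a < mact I then y ⟨s, h.1⟩ ⟨a, h.2⟩ else 0 with hg
  have hg1 : ∀ (s : Fin (nst I)) (a : Fin (mact I)), g s a = y s a := by
    intro s a
    rw [hg]
    simp only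
    rw [dif_pos ⟨s.2, a.2⟩]
  have hg0 : ∀ s a, (s, a) ∉ P → g s a = 0 := by
    intro s a h
    by_cases h1 : s < nst I ∧ a < mact I
    · have h2 := hg1 ⟨s, h1.1⟩ ⟨a, h1.2⟩
      by_contra h3
      refine h ((hacts s a).1 (hysupp ⟨s, h1.1⟩ ⟨a, h1.2⟩ ?_))
      rw [← h2]
      exact h3
    · rw [hg]
      simp only
      rw [dif_neg h1]
  set Y := YL P g with hY
  -- the check of the strategy
  have hsumK : ∀ s < nst I, ((Y.filter (fun k => decide (k.1 = s))).map (fun k => k.2.2)).sum = K := by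
    intro s hs
    rw [hY, ysum P hPnd g _ (fun p => decide (p.1 = s)) (fun p => rfl)]
    have h1 : ∑ p ∈ P.toFinset.filter (fun p => decide (p.1 = s) = true), g p.1 p.2 =
        ∑ a ∈ Finset.range (mact I), g s a := by
      symm
      rw [← Finset.sum_subset (s₁ := (Finset.range (mact I)).filter (fun a => (s, a) ∈ P))
        (Finset.filter_subset _ _)]
      · refine Finset.sum_nbij' (fun a => (s, a)) (fun p => p.2) ?_ ?_ ?_ ?_ ?_
        · intro a ha
          rw [Finset.mem_filter] at ha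
          rw [Finset.mem_filter, List.mem_toFinset]
          exact ⟨ha.2, by simp⟩
        · rintro ⟨s', a⟩ hp
          rw [Finset.mem_filter, List.mem_toFinset] at hp
          have h3 : s' = s := of_decide_eq_true hp.2
          subst h3
          rw [Finset.mem_filter, Finset.mem_range]
          exact ⟨(hPlt _ _ hp.1).2, hp.1⟩
        · intro a _
          rfl
        · rintro ⟨s', a⟩ hp
          rw [Finset.mem_filter] at hp
          have h3 : s' = s := of_decide_eq_true hp.2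
          subst h3
          rfl
        · intro a _
          rfl
      · intro a ha hna
        refine hg0 s a fun h => hna ?_
        rw [Finset.mem_filter]
        exact ⟨ha, h⟩
    rw [h1, ← Fin.sum_univ_eq_sum_range (fun a => g s a) (mact I)]
    rw [← hysum ⟨s, hs⟩]
    exact Finset.sum_congr rfl fun a _ => hg1 ⟨s, hs⟩ a
  have hchkS : chkS I K Y = true := by
    unfold chkS
    simp only [Bool.and_eq_true, decide_eq_true_eq, List.all_eq_true, List.any_eq_true,
      List.mem_range]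
    refine ⟨⟨hKpos, ?_⟩, hsumK⟩
    intro k hk
    rw [hY] at hk
    unfold YL at hk
    rw [List.mem_map] at hk
    obtain ⟨p, hp, rfl⟩ := hk
    obtain ⟨e, he, h1, h2⟩ := (hPmem p.1 p.2).1 hp
    exact ⟨e, he, h1, h2⟩
  obtain ⟨-, hSt, hc, hEb, hscl⟩ := hNEM I (dprod I) K Y (hDCHK I hV) hchkS
  set E := edges I (dprod I) Y with hE
  set N := NE E (nst I) (mlab I) with hN
  have hsgm : rst I (sgm K Y) = fun s a => (y s a : ℝ) / K := by
    funext s a
    show sgm K Y s a = _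
    unfold sgm
    congr 1
    have hcast : ∀ l : List (ℕ × ℕ × ℕ), (l.map (fun k => (k.2.2 : ℝ))).sum =
        (((l.map (fun k => k.2.2)).sum : ℕ) : ℝ) := by
      intro l
      rw [Nat.cast_list_sum, List.map_map]
      rfl
    rw [hcast]
    congr 1
    rw [hY, ysum P hPnd g (fun k => decide (k.1 = (s : ℕ) ∧ k.2.1 = (a : ℕ)))
      (fun p => decide (p.1 = (s : ℕ) ∧ p.2 = (a : ℕ))) (fun p => rfl)]
    by_cases h : ((s : ℕ), (a : ℕ)) ∈ P
    · rw [Finset.sum_eq_single ((s : ℕ), (a : ℕ))]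
      · exact hg1 s a
      · rintro ⟨s', a'⟩ hp hne
        rw [Finset.mem_filter] at hp
        have h3 : s' = (s : ℕ) ∧ a' = (a : ℕ) := of_decide_eq_true hp.2
        exact absurd (by rw [h3.1, h3.2]) hne
      · intro hn
        exact absurd (Finset.mem_filter.2 ⟨List.mem_toFinset.2 h, by simp⟩) hn
    · rw [Finset.sum_eq_zero]
      · rw [← hg1 s a, hg0 _ _ h]
      · rintro ⟨s', a'⟩ hp
        rw [Finset.mem_filter, List.mem_toFinset] at hp
        have h3 : s' = (s : ℕ) ∧ a' = (a : ℕ) := of_decide_eq_true hp.2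
        rw [h3.1, h3.2] at hp
        exact absurd hp.1 h
  have hSto : Stoch (scl N (K * dprod I)) := by
    rw [hscl]
    exact (hTR1 I (sgm K Y) hV hSt).1
  have hSingN : Sing (scl N (K * dprod I)) (vecL I I.2.1) (vecL I I.2.2) := by
    rw [hscl, hsgm]
    exact hySing
  -- the reachable pairs
  set G : Fin (mlab I) → Fin (nst I) → Fin (nst I) → Prop :=
    fun ℓ s t => 0 < scl N (K * dprod I) ℓ s t with hG
  set R : Fin (nst I) → Fin (nst I) → Prop := PR G (vecL I I.2.1) (vecL I I.2.2) with hR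
  have hRS : ∀ t s, R t s → Sing (scl N (K * dprod I)) (dl t) (dl s) := by
    intro t s h
    induction h with
    | init t s ht hs =>
      exact (hSUB _ _ _ hSto _ _ hμ.nonneg hν.nonneg).1 hSingN t s ht hs
    | step t s t' s' ℓ _ h1 h2 ih => exact hBACK _ _ _ hSto ℓ t t' s s' h1 h2 ih
  choose Fc hFlen hFb hFc using fun s => hCERT (Fin (nst I)) (Fin (mlab I)) N (K * dprod I) hc
    hSto R s (fun t h => hRS t s h)
  have hGpos : ∀ e ∈ E, ∀ (s t : Fin (nst I)) (ℓ : Fin (mlab I)), e.1 = s → e.2.1 = ℓ →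
      e.2.2.1 = t → e.2.2.2 ≠ 0 → G ℓ s t := by
    intro e he s t ℓ h1 h2 h3 h4
    have h5 := ne_pos E (nst I) (mlab I) e he s t ℓ h1 h2 h3 h4
    show 0 < (N ℓ s t : ℝ) / (K * dprod I : ℕ)
    exact div_pos (Nat.cast_pos.2 h5) (Nat.cast_pos.2 hc)
  have hEt : ∀ e ∈ E, e.2.2.1 < nst I := fun e he => (hEb e he).2.2
  have hchkR : chkR I E (RL (nst I) R) = true := by
    unfold chkR
    simp only [Bool.and_eq_true, Bool.or_eq_true, decide_eq_true_eq, List.all_eq_true,
      List.mem_range, Bool.not_eq_true']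
    refine ⟨?_, ?_⟩
    · intro t ht s hs
      by_cases h1 : (I.2.1.getD t 0).num = 0
      · left; exact h1
      by_cases h2 : (I.2.2.getD s 0).num = 0
      · right; left; exact h2
      right; right
      rw [mem_RL]
      refine ⟨⟨t, ht⟩, ⟨s, hs⟩, ?_, rfl⟩
      refine PR.init _ _ ?_ ?_
      · refine lt_of_le_of_ne (hμ.nonneg _) (Ne.symm ?_)
        show ((I.2.1.getD t 0 : ℚ) : ℝ) ≠ 0
        exact Rat.cast_ne_zero.2 fun h => h1 (by rw [h]; rfl)
      · refine lt_of_le_of_ne (hν.nonneg _) (Ne.symm ?_)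
        show ((I.2.2.getD s 0 : ℚ) : ℝ) ≠ 0
        exact Rat.cast_ne_zero.2 fun h => h2 (by rw [h]; rfl)
    · intro r hr e he f hf
      by_cases hcond : (e.1 = r.1 ∧ f.1 = r.2 ∧ e.2.1 = f.2.1 ∧ e.2.2.2 ≠ 0 ∧ f.2.2.2 ≠ 0)
      · right
        obtain ⟨h1, h2, h3, h4, h5⟩ := hcond
        rw [mem_RL] at hr ⊢
        obtain ⟨t, s, hts, rfl⟩ := hr
        refine ⟨⟨e.2.2.1, hEt e he⟩, ⟨f.2.2.1, hEt f hf⟩, ?_, rfl⟩
        exact PR.step t s _ _ ⟨e.2.1, (hEb e he).2.1⟩ hts
          (hGpos e he t _ _ h1 rfl rfl h4) (hGpos f hf s _ _ h2 h3.symm rfl h5)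
      · left
        by_contra hne
        rw [Bool.not_eq_false] at hne
        simp only [Bool.and_eq_true, decide_eq_true_eq, Bool.not_eq_true',
          decide_eq_false_iff_not] at hne
        exact hcond ⟨hne.1.1.1.1, hne.1.1.1.2, hne.1.1.2, hne.1.2, hne.2⟩
  set Fs : List (ℕ × List (List ℕ × ℕ × ℕ)) :=
    (List.finRange (nst I)).map (fun s : Fin (nst I) => ((s : ℕ), FM (Fc s))) with hFs
  have hchkF : chkF (List.range (nst I)) E (RL (nst I) R) Fs = true := by
    unfold chkF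
    simp only [Bool.and_eq_true, Bool.or_eq_true, decide_eq_true_eq, List.all_eq_true,
      List.any_eq_true, List.mem_range, Bool.not_eq_true', decide_eq_false_iff_not]
    intro r hr
    obtain ⟨t, s, hts, rfl⟩ := (mem_RL _ _ _).1 hr
    refine ⟨((s : ℕ), FM (Fc s)), ?_, ⟨⟨rfl, ?_⟩, ?_⟩, ?_⟩
    · rw [hFs, List.mem_map]
      exact ⟨s, List.mem_finRange s, rfl⟩
    · intro q hq
      have h1 := (hFc s).le ⟨q, hq⟩
      rw [← fpc_eq hVECN E _ _ hEt (Fc s) ⟨q, hq⟩, ← fmc_eq hVECN E _ _ hEt (Fc s) ⟨q, hq⟩] at h1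
      exact h1
    · have h1 := (hFc s).lt
      rw [← fpc_eq hVECN E _ _ hEt (Fc s) s, ← fmc_eq hVECN E _ _ hEt (Fc s) s] at h1
      exact h1
    · intro r' hr'
      by_cases h2 : r'.2 = (s : ℕ)
      · right
        obtain ⟨t', s', hts', rfl⟩ := (mem_RL _ _ _).1 hr'
        have h3 : s' = s := Fin.ext h2
        subst h3
        have h1 := (hFc s').eq t' hts'
        rw [← fpc_eq hVECN E _ _ hEt (Fc s') t', ← fmc_eq hVECN E _ _ hEt (Fc s') t'] at h1
        exact h1
      · left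
        exact h2
  refine ⟨((dprod I, K), Y, RL (nst I) R, Fs), ?_, ?_⟩
  · refine ⟨rfl, hK, ?_, ?_, len_RL _ _, ?_, ?_, ?_⟩
    · show Y.length ≤ I.1.length
      rw [hY]
      unfold YL
      rw [List.length_map, hPdef]
      refine (List.Sublist.length_le (List.dedup_sublist _)).trans ?_
      rw [List.length_map]
    · intro k hk
      change k ∈ Y at hk
      rw [hY] at hk
      unfold YL at hk
      rw [List.mem_map] at hk
      obtain ⟨p, hp, rfl⟩ := hk
      have h1 := hPlt p.1 p.2 hp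
      refine ⟨h1.1.le, h1.2.le, ?_⟩
      show g p.1 p.2 ≤ K
      have h2 := hg1 ⟨p.1, h1.1⟩ ⟨p.2, h1.2⟩
      have h3 := hysum ⟨p.1, h1.1⟩
      have h4 := Finset.single_le_sum (f := fun a => y ⟨p.1, h1.1⟩ a) (fun a _ => Nat.zero_le _)
        (Finset.mem_univ (⟨p.2, h1.2⟩ : Fin (mact I)))
      rw [h3, ← h2] at h4
      exact h4
    · intro r hr
      obtain ⟨t, s, -, rfl⟩ := (mem_RL _ _ _).1 hr
      exact ⟨t.2.le, s.2.le⟩
    · show Fs.length ≤ nst I
      rw [hFs, List.length_map, List.length_finRange]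
    · intro x hx
      change x ∈ Fs at hx
      rw [hFs, List.mem_map] at hx
      obtain ⟨s, -, rfl⟩ := hx
      have hb := hFb s
      have hl := hFlen s
      rw [Fintype.card_fin] at hl
      refine ⟨s.2.le, ?_, ?_⟩
      · show (FM (Fc s)).length ≤ 2 * nst I
        unfold FM
        rw [List.length_map]
        exact hl
      · intro z hz
        change z ∈ FM (Fc s) at hz
        unfold FM at hz
        rw [List.mem_map] at hz
        obtain ⟨w, hw, rfl⟩ := hz
        obtain ⟨b1, b2, b3⟩ := hb w hw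
        rw [Fintype.card_fin] at b1 b2 b3
        have hcf : cfB I = (nst I).factorial * (K * dprod I) ^ (nst I * nst I) := by
          unfold cfB
          rw [hK]
        refine ⟨?_, ?_, ?_, ?_⟩
        · show (w.1.map Fin.val).length ≤ nst I
          rw [List.length_map]
          exact b1
        · intro ℓ hℓ
          change ℓ ∈ w.1.map Fin.val at hℓ
          rw [List.mem_map] at hℓ
          obtain ⟨i, -, rfl⟩ := hℓ
          exact i.2.le
        · rw [hcf]; exact b2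
        · rw [hcf]; exact b3
  · unfold chk
    simp only [Bool.and_eq_true]
    exact ⟨⟨⟨hDCHK I hV, hchkS⟩, hchkR⟩, hchkF⟩

end Pool.Agent.R554.DO
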