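import Pool.Agent.R554.DO.Chk

/-! Piece CHKS: soundness of the checker. -/

set_option autoImplicit false

namespace Pool.Agent.R554.DO

open Finset

namespace ChksAux

/-- states out of range or labels without edges have weight zero -/
lemma vec_length (E : List (ℕ × ℕ × ℕ × ℕ)) (qs : List ℕ) (u : List ℕ) :
    (vec E qs u).length = qs.length := by
  cases u with
  | nil => simp [vec]
  | cons a u => simp [vec, vstep]

lemma vstep_eq_zero {E : List (ℕ × ℕ × ℕ × ℕ)} {qs : List ℕ} {ℓ : ℕ} {v : List ℕ}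
    (h : (∀ e ∈ E, e.2.1 ≠ ℓ) ∨ ∀ i, v.getD i 0 = 0) (i : ℕ) :
    (vstep E qs ℓ v).getD i 0 = 0 := by
  have hz : ∀ q, ((E.filter (fun e => decide (e.1 = q) && decide (e.2.1 = ℓ))).map
      (fun e => e.2.2.2 * v.getD e.2.2.1 0)).sum = 0 := by
    intro q
    apply List.sum_eq_zero
    intro x hx
    obtain ⟨e, he, rfl⟩ := List.mem_map.1 hx
    rw [List.mem_filter] at he
    rcases h with h | h
    · exfalso
      have := he.2
      simp only [Bool.and_eq_true, decide_eq_true_eq] at this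
      exact h e he.1 this.2
    · rw [h, mul_zero]
  unfold vstep
  rw [List.getD_eq_getElem?_getD, List.getElem?_map]
  cases qs[i]? with
  | none => rfl
  | some q => simpa using hz q

/-- words with a letter without edges have weight zero -/
lemma vec_eq_zero {E : List (ℕ × ℕ × ℕ × ℕ)} {qs : List ℕ} {m : ℕ} (hE : ∀ e ∈ E, e.2.1 < m) :
    ∀ u : List ℕ, (∃ ℓ ∈ u, m ≤ ℓ) → ∀ i, (vec E qs u).getD i 0 = 0 := by
  intro u
  induction u with
  | nil => rintro ⟨ℓ, hℓ, _⟩; simp at hℓ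
  | cons a u ih =>
    rintro ⟨ℓ, hℓ, hm⟩ i
    change (vstep E qs a (vec E qs u)).getD i 0 = 0
    apply vstep_eq_zero
    rcases List.mem_cons.1 hℓ with rfl | h
    · left
      intro e he heq
      have := hE e he
      omega
    · right
      exact ih ⟨ℓ, h, hm⟩

/-- the words over `Fin m` of a combination -/
def conv (m : ℕ) (F : List (List ℕ × ℕ × ℕ)) : List (List (Fin m) × ℕ × ℕ) :=
  F.filterMap (fun x => if h : ∀ ℓ ∈ x.1, ℓ < m then
    some (x.1.pmap (fun ℓ hℓ => (⟨ℓ, hℓ⟩ : Fin m)) h, x.2) else none)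

lemma conv_sum {E : List (ℕ × ℕ × ℕ × ℕ)} {n m : ℕ} (hV : S_VECN)
    (hE : ∀ e ∈ E, e.2.1 < m) (hE' : ∀ e ∈ E, e.2.2.1 < n) (g : ℕ × ℕ → ℕ) (q : Fin n)
    (F : List (List ℕ × ℕ × ℕ)) :
    ((conv m F).map (fun x => g x.2 * valN (NE E n m) x.1 q)).sum =
      (F.map (fun x => g x.2 * (vec E (List.range n) x.1).getD q 0)).sum := by
  induction F with
  | nil => rfl
  | cons x F ih =>
    unfold conv at ih ⊢
    by_cases h : ∀ ℓ ∈ x.1, ℓ < m
    · rw [List.filterMap_cons_some (b := (x.1.pmap (fun ℓ hℓ => (⟨ℓ, hℓ⟩ : Fin m)) h, x.2))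
        (by rw [dif_pos h])]
      rw [List.map_cons, List.sum_cons, List.map_cons, List.sum_cons, ih]
      congr 2
      have h1 := hV E n m hE' (x.1.pmap (fun ℓ hℓ => (⟨ℓ, hℓ⟩ : Fin m)) h) q
      rw [← h1]
      congr 2
      rw [List.map_pmap]
      simp
    · rw [List.filterMap_cons_none (by rw [dif_neg h])]
      rw [List.map_cons, List.sum_cons, ih]
      push Not at h
      rw [vec_eq_zero hE x.1 h, mul_zero, zero_add]

lemma exists_edge {E : List (ℕ × ℕ × ℕ × ℕ)} {n m : ℕ} {ℓ : Fin m} {s t : Fin n}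
    (h : 0 < NE E n m ℓ s t) : ∃ e ∈ E, e.1 = s ∧ e.2.1 = ℓ ∧ e.2.2.1 = t ∧ e.2.2.2 ≠ 0 := by
  by_contra hcon
  push Not at hcon
  unfold NE at h
  rw [List.sum_eq_zero] at h
  · exact lt_irrefl _ h
  · intro x hx
    obtain ⟨e, he, rfl⟩ := List.mem_map.1 hx
    rw [List.mem_filter] at he
    have h2 := he.2
    simp only [decide_eq_true_eq] at h2
    exact hcon e he.1 h2.1 h2.2.1 h2.2.2

end ChksAux

open ChksAux

theorem t_CHKS (hS : S_SOUND) (hN : S_NEM) (hV : S_VECN) (hT : S_TR1) : S_CHKS := by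
  intro I c hc
  obtain ⟨⟨D, K⟩, Y, R, Fs⟩ := c
  unfold chk at hc
  simp only [Bool.and_eq_true] at hc
  obtain ⟨⟨⟨c1, c2⟩, c3⟩, c4⟩ := hc
  obtain ⟨hVal, hStr, hKD, hEd, hscl⟩ := hN I D K Y c1 c2
  refine ⟨hVal, sgm K Y, hStr, ?_⟩
  obtain ⟨hSt, hD1, hD2, _, _⟩ := hT I (sgm K Y) hVal hStr
  rw [← hscl] at hSt ⊢
  have hE1 : ∀ e ∈ edges I D Y, e.2.1 < mlab I := fun e he => (hEd e he).2.1
  have hE2 : ∀ e ∈ edges I D Y, e.2.2.1 < nst I := fun e he => (hEd e he).2.2
  unfold chkR at c3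
  unfold chkF at c4
  rw [Bool.and_eq_true] at c3
  obtain ⟨c3a, c3b⟩ := c3
  rw [List.all_eq_true] at c3a c3b c4
  refine hS (Fin (nst I)) (Fin (mlab I)) (NE (edges I D Y) (nst I) (mlab I)) (K * D) hKD hSt
    (vecL I I.2.1) (vecL I I.2.2) hD1 hD2 (fun t s => ((t : ℕ), (s : ℕ)) ∈ R) ?_ ?_ ?_
  · intro t s ht hs
    have h1 := c3a t (List.mem_range.2 t.2)
    rw [List.all_eq_true] at h1
    have h2 := h1 s (List.mem_range.2 s.2)
    have ht' : (I.2.1.getD t 0).num ≠ 0 := by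
      intro h0
      rw [Rat.num_eq_zero] at h0
      unfold vecL at ht
      rw [h0] at ht
      simp at ht
    have hs' : (I.2.2.getD s 0).num ≠ 0 := by
      intro h0
      rw [Rat.num_eq_zero] at h0
      unfold vecL at hs
      rw [h0] at hs
      simp at hs
    simp only [Bool.or_eq_true, decide_eq_true_eq] at h2
    rcases h2 with h2 | h2 | h2
    · exact absurd h2 ht'
    · exact absurd h2 hs'
    · exact h2
  · intro t s t' s' ℓ hR h1 h2
    obtain ⟨e, he, e1, e2, e3, e4⟩ := exists_edge h1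
    obtain ⟨f, hf, f1, f2, f3, f4⟩ := exists_edge h2
    have h3 := c3b _ hR
    rw [List.all_eq_true] at h3
    have h4 := h3 e he
    rw [List.all_eq_true] at h4
    have h5 := h4 f hf
    simp only [e1, f1, e2, f2, e3, f3, e4, f4] at h5
    simpa using h5
  · intro t s hR
    have h1 := c4 _ hR
    rw [List.any_eq_true] at h1
    obtain ⟨x, hx, h2⟩ := h1
    simp only [Bool.and_eq_true, decide_eq_true_eq] at h2
    obtain ⟨⟨⟨h3, h4⟩, h5⟩, h6⟩ := h2
    rw [List.all_eq_true] at h4 h6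
    have hfp : ∀ q : Fin (nst I), fp (NE (edges I D Y) (nst I) (mlab I)) (conv (mlab I) x.2) q =
        fpc (edges I D Y) (List.range (nst I)) x.2 q := fun q =>
      conv_sum hV hE1 hE2 (fun y => y.1) q x.2
    have hfm : ∀ q : Fin (nst I), fm (NE (edges I D Y) (nst I) (mlab I)) (conv (mlab I) x.2) q =
        fmc (edges I D Y) (List.range (nst I)) x.2 q := fun q =>
      conv_sum hV hE1 hE2 (fun y => y.2) q x.2
    refine ⟨conv (mlab I) x.2, ?_, ?_, ?_⟩
    · intro q
      rw [hfp, hfm]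
      have := h4 q (List.mem_range.2 q.2)
      simpa using this
    · rw [hfp, hfm]
      exact h5
    · intro t' ht'
      rw [hfp, hfm]
      have := h6 _ ht'
      simpa using this

end Pool.Agent.R554.DO
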