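import Pool.Agent.R554.DO.Stm

/-!
# CLS: nonsingular laws give a nonsingular pair of essential states
-/

set_option autoImplicit false
set_option linter.unusedSectionVars false

namespace Pool.Agent.R554.DO

open Finset Filter Topology

namespace CLSX

section

variable {S L : Type} [Fintype S] [DecidableEq S] [Fintype L] [DecidableEq L]

/-- iteration along all words of length `k` -/
noncomputable def Rec (M : L → S → S → ℝ) (G : L → S → S → Prop)
    (φ : (S → ℝ) → (S → ℝ) → Finset S → ℝ) : ℕ → (S → ℝ) → (S → ℝ) → Finset S → ℝ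
  | 0, α, β, B => φ α β B
  | k + 1, α, β, B => ∑ ℓ, Rec M G φ k (push M ℓ α) (push M ℓ β) (nxt G ℓ B)

theorem push_nonneg {M : L → S → S → ℝ} (hM : Stoch M) {α : S → ℝ} (hα : ∀ s, 0 ≤ α s) (ℓ : L)
    (t : S) : 0 ≤ push M ℓ α t :=
  Finset.sum_nonneg fun s _ => mul_nonneg (hα s) (hM.nonneg ℓ s t)

theorem rec_mono {M : L → S → S → ℝ} (hM : Stoch M) (G : L → S → S → Prop)
    {φ ψ : (S → ℝ) → (S → ℝ) → Finset S → ℝ}
    (h : ∀ α β B, (∀ s, 0 ≤ α s) → (∀ s, 0 ≤ β s) → φ α β B ≤ ψ α β B) :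
    ∀ (k : ℕ) (α β : S → ℝ) (B : Finset S), (∀ s, 0 ≤ α s) → (∀ s, 0 ≤ β s) →
      Rec M G φ k α β B ≤ Rec M G ψ k α β B := by
  intro k
  induction k with
  | zero => intro α β B hα hβ; exact h α β B hα hβ
  | succ k ih =>
    intro α β B hα hβ
    exact Finset.sum_le_sum fun ℓ _ => ih _ _ _ (push_nonneg hM hα ℓ) (push_nonneg hM hβ ℓ)

theorem rec_add (M : L → S → S → ℝ) (G : L → S → S → Prop)
    (φ ψ : (S → ℝ) → (S → ℝ) → Finset S → ℝ) :
    ∀ (k : ℕ) (α β : S → ℝ) (B : Finset S),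
      Rec M G (fun α β B => φ α β B + ψ α β B) k α β B = Rec M G φ k α β B + Rec M G ψ k α β B := by
  intro k
  induction k with
  | zero => intro α β B; rfl
  | succ k ih =>
    intro α β B
    simp only [Rec]
    rw [← Finset.sum_add_distrib]
    exact Finset.sum_congr rfl fun ℓ _ => ih _ _ _

theorem rec_nonneg {M : L → S → S → ℝ} (hM : Stoch M) (G : L → S → S → Prop)
    {φ : (S → ℝ) → (S → ℝ) → Finset S → ℝ}
    (h : ∀ α β B, (∀ s, 0 ≤ α s) → (∀ s, 0 ≤ β s) → 0 ≤ φ α β B) :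
    ∀ (k : ℕ) (α β : S → ℝ) (B : Finset S), (∀ s, 0 ≤ α s) → (∀ s, 0 ≤ β s) →
      0 ≤ Rec M G φ k α β B := by
  intro k
  induction k with
  | zero => intro α β B hα hβ; exact h α β B hα hβ
  | succ k ih =>
    intro α β B hα hβ
    exact Finset.sum_nonneg fun ℓ _ => ih _ _ _ (push_nonneg hM hα ℓ) (push_nonneg hM hβ ℓ)

/-- Cauchy-Schwarz -/
theorem sum_sqrt_le {ι : Type} (s : Finset ι) (x y : ι → ℝ) (hx : ∀ i ∈ s, 0 ≤ x i)
    (hy : ∀ i ∈ s, 0 ≤ y i) : ∑ i ∈ s, √(x i * y i) ≤ √((∑ i ∈ s, x i) * ∑ i ∈ s, y i) := by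
  refine Real.le_sqrt_of_sq_le ?_
  have h := Finset.sum_mul_sq_le_sq_mul_sq s (fun i => √(x i)) (fun i => √(y i))
  have h1 : ∑ i ∈ s, √(x i * y i) = ∑ i ∈ s, √(x i) * √(y i) :=
    Finset.sum_congr rfl fun i hi => Real.sqrt_mul (hx i hi) _
  have h2 : ∑ i ∈ s, √(x i) ^ 2 = ∑ i ∈ s, x i :=
    Finset.sum_congr rfl fun i hi => Real.sq_sqrt (hx i hi)
  have h3 : ∑ i ∈ s, √(y i) ^ 2 = ∑ i ∈ s, y i :=
    Finset.sum_congr rfl fun i hi => Real.sq_sqrt (hy i hi)
  rw [h1, ← h2, ← h3]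
  exact h

theorem rec_cs {M : L → S → S → ℝ} (hM : Stoch M) (G : L → S → S → Prop)
    {φ a b : (S → ℝ) → (S → ℝ) → Finset S → ℝ}
    (ha : ∀ α β B, (∀ s, 0 ≤ α s) → (∀ s, 0 ≤ β s) → 0 ≤ a α β B)
    (hb : ∀ α β B, (∀ s, 0 ≤ α s) → (∀ s, 0 ≤ β s) → 0 ≤ b α β B)
    (h : ∀ α β B, (∀ s, 0 ≤ α s) → (∀ s, 0 ≤ β s) → φ α β B ≤ √(a α β B * b α β B)) :
    ∀ (k : ℕ) (α β : S → ℝ) (B : Finset S), (∀ s, 0 ≤ α s) → (∀ s, 0 ≤ β s) →
      Rec M G φ k α β B ≤ √(Rec M G a k α β B * Rec M G b k α β B) := by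
  intro k
  induction k with
  | zero => intro α β B hα hβ; exact h α β B hα hβ
  | succ k ih =>
    intro α β B hα hβ
    refine le_trans (Finset.sum_le_sum fun ℓ _ => ih _ _ _ (push_nonneg hM hα ℓ)
      (push_nonneg hM hβ ℓ)) ?_
    exact sum_sqrt_le univ _ _
      (fun ℓ _ => rec_nonneg hM G ha k _ _ _ (push_nonneg hM hα ℓ) (push_nonneg hM hβ ℓ))
      (fun ℓ _ => rec_nonneg hM G hb k _ _ _ (push_nonneg hM hα ℓ) (push_nonneg hM hβ ℓ))

/-- the affinity is bounded by the iterated functional -/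
theorem hn_le {M : L → S → S → ℝ} (hM : Stoch M) (G : L → S → S → Prop) (m : ℕ)
    {φ : (S → ℝ) → (S → ℝ) → Finset S → ℝ}
    (h : ∀ α β B, (∀ s, 0 ≤ α s) → (∀ s, 0 ≤ β s) → Hn M m α β ≤ φ α β B) :
    ∀ (k : ℕ) (α β : S → ℝ) (B : Finset S), (∀ s, 0 ≤ α s) → (∀ s, 0 ≤ β s) →
      Hn M (k + m) α β ≤ Rec M G φ k α β B := by
  intro k
  induction k with
  | zero =>
    intro α β B hα hβ
    rw [zero_add]
    exact h α β B hα hβ
  | succ k ih =>
    intro α β B hα hβ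
    rw [Nat.succ_add]
    exact Finset.sum_le_sum fun ℓ _ => ih _ _ _ (push_nonneg hM hα ℓ) (push_nonneg hM hβ ℓ)

theorem sqrt_sum_le {ι : Type} (s : Finset ι) (x : ι → ℝ) (hx : ∀ i ∈ s, 0 ≤ x i) :
    √(∑ i ∈ s, x i) ≤ ∑ i ∈ s, √(x i) := by
  classical
  induction s using Finset.induction_on with
  | empty => simp
  | insert a s ha ih =>
    rw [Finset.sum_insert ha, Finset.sum_insert ha]
    have h1 : 0 ≤ x a := hx a (Finset.mem_insert_self a s)
    have h2 : 0 ≤ ∑ i ∈ s, x i := Finset.sum_nonneg fun i hi => hx i (Finset.mem_insert_of_mem hi)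
    have h3 : √(x a + ∑ i ∈ s, x i) ≤ √(x a) + √(∑ i ∈ s, x i) := by
      refine Real.sqrt_le_iff.2 ⟨by positivity, ?_⟩
      have h4 := Real.sq_sqrt h1
      have h5 := Real.sq_sqrt h2
      have h6 := mul_nonneg (Real.sqrt_nonneg (x a)) (Real.sqrt_nonneg (∑ i ∈ s, x i))
      nlinarith
    have h7 := ih fun i hi => hx i (Finset.mem_insert_of_mem hi)
    linarith

theorem val_nonneg {M : L → S → S → ℝ} (hM : Stoch M) : ∀ (w : List L) (s : S), 0 ≤ val M w s := by
  intro w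
  induction w with
  | nil => intro s; exact zero_le_one
  | cons ℓ w ih => intro s; exact Finset.sum_nonneg fun t _ => mul_nonneg (hM.nonneg ℓ s t) (ih t)

theorem pr_dl (M : L → S → S → ℝ) (t : S) (w : List L) : pr M (dl t) w = val M w t := by
  unfold pr dl
  rw [Finset.sum_eq_single t]
  · rw [Pi.single_eq_same, one_mul]
  · intro s _ hs
    rw [Pi.single_eq_of_ne hs, zero_mul]
  · intro h; exact absurd (Finset.mem_univ t) h

/-- subadditivity -/
theorem hn_sub (hW : S_WSUM) {M : L → S → S → ℝ} (hM : Stoch M) (m : ℕ) (α β : S → ℝ)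
    (hα : ∀ s, 0 ≤ α s) (hβ : ∀ s, 0 ≤ β s) :
    Hn M m α β ≤ ∑ t, ∑ s, √(α t * β s) * Hn M m (dl t) (dl s) := by
  rw [hW S L M m α β]
  have h1 : ∑ t, ∑ s, √(α t * β s) * Hn M m (dl t) (dl s) =
      ∑ w : Fin m → L, ∑ t, ∑ s, √(α t * β s) *
        √(val M (List.ofFn w) t * val M (List.ofFn w) s) := by
    rw [Finset.sum_comm]
    have h2 : ∀ t s : S, √(α t * β s) * Hn M m (dl t) (dl s) = ∑ w : Fin m → L,
        √(α t * β s) * √(val M (List.ofFn w) t * val M (List.ofFn w) s) := by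
      intro t s
      rw [hW S L M m (dl t) (dl s), Finset.mul_sum]
      exact Finset.sum_congr rfl fun w _ => by rw [pr_dl, pr_dl]
    rw [Finset.sum_comm]
    simp_rw [h2]
    have h3 : ∀ t : S, ∑ s : S, ∑ w : Fin m → L,
        √(α t * β s) * √(val M (List.ofFn w) t * val M (List.ofFn w) s) =
        ∑ w : Fin m → L, ∑ s : S,
        √(α t * β s) * √(val M (List.ofFn w) t * val M (List.ofFn w) s) :=
      fun t => Finset.sum_comm
    simp_rw [h3]
    exact Finset.sum_comm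
  rw [h1]
  refine Finset.sum_le_sum fun w _ => ?_
  have hv := val_nonneg hM (List.ofFn w)
  unfold pr
  have hx : ∀ t ∈ (univ : Finset S), 0 ≤ α t * val M (List.ofFn w) t :=
    fun t _ => mul_nonneg (hα t) (hv t)
  have hy : ∀ t ∈ (univ : Finset S), 0 ≤ β t * val M (List.ofFn w) t :=
    fun t _ => mul_nonneg (hβ t) (hv t)
  rw [Real.sqrt_mul (Finset.sum_nonneg hx)]
  refine le_trans (mul_le_mul (sqrt_sum_le univ _ hx) (sqrt_sum_le univ _ hy)
    (Real.sqrt_nonneg _) (Finset.sum_nonneg fun i _ => Real.sqrt_nonneg _)) (le_of_eq ?_)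
  rw [Finset.sum_mul_sum]
  refine Finset.sum_congr rfl fun t _ => Finset.sum_congr rfl fun s _ => ?_
  rw [Real.sqrt_mul (hα t), Real.sqrt_mul (hβ s), Real.sqrt_mul (hα t), Real.sqrt_mul (hv t)]
  ring

/-! ### the enlarged chain -/

theorem qz_sum (M : L → S → S → ℝ) (G : L → S → S → Prop) (z : S × Finset S)
    (g : S × Finset S → ℝ) :
    ∑ z', Qz M G z z' * g z' = ∑ ℓ, ∑ t, M ℓ z.1 t * g (t, nxt G ℓ z.2) := by
  have h1 : ∀ z' : S × Finset S, Qz M G z z' * g z' =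
      ∑ ℓ, (if nxt G ℓ z.2 = z'.2 then M ℓ z.1 z'.1 else 0) * g z' := by
    intro z'
    unfold Qz
    rw [Finset.sum_mul]
  simp_rw [h1]
  rw [Finset.sum_comm]
  refine Finset.sum_congr rfl fun ℓ _ => ?_
  rw [Fintype.sum_prod_type]
  refine Finset.sum_congr rfl fun t _ => ?_
  rw [Finset.sum_eq_single (nxt G ℓ z.2)]
  · rw [if_pos rfl]
  · intro B _ hB
    rw [if_neg (fun h => hB h.symm), zero_mul]
  · intro h; exact absurd (Finset.mem_univ _) h

theorem qz_nonneg {M : L → S → S → ℝ} (hM : Stoch M) (G : L → S → S → Prop)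
    (z z' : S × Finset S) : 0 ≤ Qz M G z z' := by
  unfold Qz
  refine Finset.sum_nonneg fun ℓ _ => ?_
  split_ifs
  · exact hM.nonneg _ _ _
  · exact le_rfl

theorem qz_one {M : L → S → S → ℝ} (hM : Stoch M) (G : L → S → S → Prop)
    (z : S × Finset S) : ∑ z', Qz M G z z' = 1 := by
  have h := qz_sum M G z (fun _ => 1)
  simp only [mul_one] at h
  rw [h]
  exact hM.sum z.1

theorem qz_pos {M : L → S → S → ℝ} (hM : Stoch M) {G : L → S → S → Prop} (hG : Fits M G)
    (z z' : S × Finset S) : 0 < Qz M G z z' ↔ zstep G z z' := by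
  constructor
  · intro h
    by_contra hno
    have h0 : Qz M G z z' = 0 := by
      unfold Qz
      refine Finset.sum_eq_zero fun ℓ _ => ?_
      split_ifs with h1
      · by_contra h2
        have h3 : 0 < M ℓ z.1 z'.1 := lt_of_le_of_ne (hM.nonneg _ _ _) (Ne.symm h2)
        exact hno ⟨ℓ, (hG _ _ _).1 h3, h1.symm⟩
      · rfl
    rw [h0] at h
    exact lt_irrefl _ h
  · rintro ⟨ℓ, h1, h2⟩
    have h3 : 0 < M ℓ z.1 z'.1 := (hG _ _ _).2 h1
    unfold Qz
    refine Finset.sum_pos' (fun k _ => ?_) ⟨ℓ, Finset.mem_univ _, ?_⟩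
    · split_ifs
      · exact hM.nonneg _ _ _
      · exact le_rfl
    · rw [if_pos h2.symm]
      exact h3

open Classical in
/-- the inessential states -/
noncomputable def f0 (G : L → S → S → Prop) (z : S × Finset S) : ℝ := if Ess G z then 0 else 1

/-- the iterates of `f0` -/
noncomputable def fk (M : L → S → S → ℝ) (G : L → S → S → Prop) : ℕ → S × Finset S → ℝ
  | 0 => f0 G
  | k + 1 => fun z => ∑ z', Qz M G z z' * fk M G k z'

/-- the laws of the enlarged chain -/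
noncomputable def aa (M : L → S → S → ℝ) (G : L → S → S → Prop) (a : S × Finset S → ℝ) :
    ℕ → S × Finset S → ℝ
  | 0 => a
  | k + 1 => fun z' => ∑ z, aa M G a k z * Qz M G z z'

theorem dual (M : L → S → S → ℝ) (G : L → S → S → Prop) (a : S × Finset S → ℝ) :
    ∀ k j : ℕ, ∑ z, aa M G a k z * fk M G j z = ∑ z, a z * fk M G (k + j) z := by
  intro k
  induction k with
  | zero => intro j; rw [zero_add]; rfl
  | succ k ih =>
    intro j
    have h1 : k + 1 + j = k + (j + 1) := by omega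
    rw [h1, ← ih (j + 1)]
    simp only [aa, fk]
    simp_rw [Finset.sum_mul, Finset.mul_sum]
    rw [Finset.sum_comm]
    refine Finset.sum_congr rfl fun z _ => Finset.sum_congr rfl fun z' _ => ?_
    ring

theorem f0_nonneg (G : L → S → S → Prop) (z : S × Finset S) : 0 ≤ f0 G z := by
  unfold f0
  split_ifs
  · exact le_rfl
  · exact zero_le_one

theorem fk_nonneg {M : L → S → S → ℝ} (hM : Stoch M) (G : L → S → S → Prop) :
    ∀ (k : ℕ) (z : S × Finset S), 0 ≤ fk M G k z := by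
  intro k
  induction k with
  | zero => intro z; exact f0_nonneg G z
  | succ k ih =>
    intro z
    exact Finset.sum_nonneg fun z' _ => mul_nonneg (qz_nonneg hM G z z') (ih z')

theorem lim_fk (hT : S_TRANS) {M : L → S → S → ℝ} (hM : Stoch M) {G : L → S → S → Prop}
    (hG : Fits M G) (γ : S → ℝ) (hγ : ∀ s, 0 ≤ γ s) (B : Finset S) :
    Tendsto (fun k => ∑ t, γ t * fk M G k (t, B)) atTop (𝓝 0) := by
  classical
  set a : S × Finset S → ℝ := fun z => if z.2 = B then γ z.1 else 0 with ha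
  have h1 : ∀ k, ∑ t, γ t * fk M G k (t, B) = ∑ z, aa M G a k z * f0 G z := by
    intro k
    have h2 := dual M G a k 0
    rw [add_zero] at h2
    have h3 : ∑ z, a z * fk M G k z = ∑ t, γ t * fk M G k (t, B) := by
      rw [Fintype.sum_prod_type]
      refine Finset.sum_congr rfl fun t _ => ?_
      rw [Finset.sum_eq_single B]
      · simp [ha]
      · intro C _ hC
        simp [ha, hC]
      · intro h; exact absurd (Finset.mem_univ _) h
    rw [← h3, ← h2]
    rfl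
  have hQ : (fun x y : S × Finset S => 0 < Qz M G x y) = zstep G := by
    funext x y
    exact propext (qz_pos hM hG x y)
  have h4 := hT (S × Finset S) (Qz M G) (qz_nonneg hM G) (qz_one hM G) (aa M G a)
    (fun z => by
      show 0 ≤ (if z.2 = B then γ z.1 else 0)
      split_ifs
      · exact hγ _
      · exact le_rfl) (fun k z' => rfl)
  rw [hQ] at h4
  have h5 : Tendsto (fun k => ∑ z, aa M G a k z * f0 G z) atTop (𝓝 (∑ _z : S × Finset S, (0:ℝ))) := by
    refine tendsto_finsetSum _ fun z _ => ?_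
    by_cases hz : Ess G z
    · have h6 : f0 G z = 0 := by unfold f0; rw [if_pos hz]
      simp only [h6, mul_zero]
      exact tendsto_const_nhds
    · have h7 := (h4 z hz).mul_const (f0 G z)
      rw [zero_mul] at h7
      exact h7
  rw [Finset.sum_const_zero] at h5
  refine h5.congr fun k => (h1 k).symm

/-! ### the functionals -/

open Classical in
noncomputable def gd (M : L → S → S → ℝ) (G : L → S → S → Prop) (m : ℕ) (α β : S → ℝ)
    (B : Finset S) : ℝ :=
  ∑ t, ∑ s, if Ess G (t, B) ∧ Ess G (s, B) then √(α t * β s) * Hn M m (dl t) (dl s) else 0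

noncomputable def b1 (G : L → S → S → Prop) (α β : S → ℝ) (B : Finset S) : ℝ :=
  ∑ t, ∑ s, √(α t * f0 G (t, B)) * √(β s)

noncomputable def b2 (G : L → S → S → Prop) (α β : S → ℝ) (B : Finset S) : ℝ :=
  ∑ t, ∑ s, √(α t) * √(β s * f0 G (s, B))

theorem sum_sqrt_card (x : S → ℝ) (hx : ∀ i, 0 ≤ x i) :
    ∑ i, √(x i) ≤ √((Fintype.card S : ℝ) * ∑ i, x i) := by
  have h := sum_sqrt_le (univ : Finset S) (fun _ => (1 : ℝ)) x (fun _ _ => zero_le_one)
    (fun i _ => hx i)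
  simp only [one_mul, Finset.sum_const, Finset.card_univ, nsmul_eq_mul, mul_one] at h
  exact h

theorem prod_sum_le (x y : S → ℝ) (hx : ∀ i, 0 ≤ x i) (hy : ∀ i, 0 ≤ y i) :
    ∑ t, ∑ s, √(x t) * √(y s) ≤
      √(((Fintype.card S : ℝ) * ∑ i, x i) * ((Fintype.card S : ℝ) * ∑ i, y i)) := by
  rw [← Finset.sum_mul_sum, Real.sqrt_mul (mul_nonneg (Nat.cast_nonneg _)
    (Finset.sum_nonneg fun i _ => hx i))]
  exact mul_le_mul (sum_sqrt_card x hx) (sum_sqrt_card y hy)
    (Finset.sum_nonneg fun i _ => Real.sqrt_nonneg _) (Real.sqrt_nonneg _)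

theorem lin_step (M : L → S → S → ℝ) (G : L → S → S → Prop) (k : ℕ) (γ : S → ℝ)
    (B : Finset S) : ∑ t, γ t * fk M G (k + 1) (t, B) =
      ∑ ℓ, ∑ t, push M ℓ γ t * fk M G k (t, nxt G ℓ B) := by
  have h1 : ∀ t, γ t * fk M G (k + 1) (t, B) =
      ∑ ℓ, ∑ t', γ t * (M ℓ t t' * fk M G k (t', nxt G ℓ B)) := by
    intro t
    have h0 : fk M G (k + 1) (t, B) = ∑ ℓ, ∑ t', M ℓ t t' * fk M G k (t', nxt G ℓ B) :=
      qz_sum M G (t, B) (fk M G k)
    rw [h0, Finset.mul_sum]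
    refine Finset.sum_congr rfl fun ℓ _ => ?_
    rw [Finset.mul_sum]
  have h2 : ∀ ℓ, ∑ t, push M ℓ γ t * fk M G k (t, nxt G ℓ B) =
      ∑ t, ∑ t', γ t * (M ℓ t t' * fk M G k (t', nxt G ℓ B)) := by
    intro ℓ
    rw [Finset.sum_comm (f := fun t t' => γ t * (M ℓ t t' * fk M G k (t', nxt G ℓ B)))]
    refine Finset.sum_congr rfl fun t' _ => ?_
    unfold push
    rw [Finset.sum_mul]
    refine Finset.sum_congr rfl fun t _ => ?_
    ring
  rw [Finset.sum_congr rfl fun t _ => h1 t, Finset.sum_congr rfl fun ℓ _ => h2 ℓ]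
  exact Finset.sum_comm

/-- linear functionals -/
theorem rec_lin1 (hB : S_BASIC) {M : L → S → S → ℝ} (hM : Stoch M) (G : L → S → S → Prop) (c : ℝ) :
    ∀ (k : ℕ) (α β : S → ℝ) (B : Finset S),
      Rec M G (fun α _ B => c * ∑ t, α t * f0 G (t, B)) k α β B =
        c * ∑ t, α t * fk M G k (t, B) := by
  intro k
  induction k with
  | zero => intro α β B; rfl
  | succ k ih =>
    intro α β B
    simp only [Rec]
    rw [Finset.sum_congr rfl fun ℓ _ => ih (push M ℓ α) (push M ℓ β) (nxt G ℓ B), ← Finset.mul_sum]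
    congr 1
    exact (lin_step M G k α B).symm

theorem rec_lin2 (M : L → S → S → ℝ) (G : L → S → S → Prop) (c : ℝ) :
    ∀ (k : ℕ) (α β : S → ℝ) (B : Finset S),
      Rec M G (fun _ β B => c * ∑ t, β t * f0 G (t, B)) k α β B =
        c * ∑ t, β t * fk M G k (t, B) := by
  intro k
  induction k with
  | zero => intro α β B; rfl
  | succ k ih =>
    intro α β B
    simp only [Rec]
    rw [Finset.sum_congr rfl fun ℓ _ => ih (push M ℓ α) (push M ℓ β) (nxt G ℓ B), ← Finset.mul_sum]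
    congr 1
    exact (lin_step M G k β B).symm

theorem rec_mass1 (hB : S_BASIC) {M : L → S → S → ℝ} (hM : Stoch M) (G : L → S → S → Prop)
    (c : ℝ) : ∀ (k : ℕ) (α β : S → ℝ) (B : Finset S),
      Rec M G (fun α _ _ => c * ∑ t, α t) k α β B = c * ∑ t, α t := by
  intro k
  induction k with
  | zero => intro α β B; rfl
  | succ k ih =>
    intro α β B
    simp only [Rec]
    rw [Finset.sum_congr rfl fun ℓ _ => ih (push M ℓ α) (push M ℓ β) (nxt G ℓ B), ← Finset.mul_sum,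
      (hB S L M hM).1 α]

theorem rec_mass2 (hB : S_BASIC) {M : L → S → S → ℝ} (hM : Stoch M) (G : L → S → S → Prop)
    (c : ℝ) : ∀ (k : ℕ) (α β : S → ℝ) (B : Finset S),
      Rec M G (fun _ β _ => c * ∑ t, β t) k α β B = c * ∑ t, β t := by
  intro k
  induction k with
  | zero => intro α β B; rfl
  | succ k ih =>
    intro α β B
    simp only [Rec]
    rw [Finset.sum_congr rfl fun ℓ _ => ih (push M ℓ α) (push M ℓ β) (nxt G ℓ B), ← Finset.mul_sum,
      (hB S L M hM).1 β]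

theorem rec_b1 (hB : S_BASIC) {M : L → S → S → ℝ} (hM : Stoch M) (G : L → S → S → Prop)
    (k : ℕ) (α β : S → ℝ) (B : Finset S) (hα : ∀ s, 0 ≤ α s) (hβ : ∀ s, 0 ≤ β s) :
    Rec M G (b1 G) k α β B ≤ √(((Fintype.card S : ℝ) * ∑ t, α t * fk M G k (t, B)) *
      ((Fintype.card S : ℝ) * ∑ t, β t)) := by
  have h := rec_cs hM G (φ := b1 G)
    (a := fun α _ B => (Fintype.card S : ℝ) * ∑ t, α t * f0 G (t, B))
    (b := fun _ β _ => (Fintype.card S : ℝ) * ∑ t, β t)
    (fun α β B hα _ => mul_nonneg (Nat.cast_nonneg _)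
      (Finset.sum_nonneg fun t _ => mul_nonneg (hα t) (f0_nonneg G _)))
    (fun α β B _ hβ => mul_nonneg (Nat.cast_nonneg _) (Finset.sum_nonneg fun t _ => hβ t))
    (fun α β B hα hβ => prod_sum_le (fun t => α t * f0 G (t, B)) β
      (fun t => mul_nonneg (hα t) (f0_nonneg G _)) hβ) k α β B hα hβ
  rwa [rec_lin1 hB hM, rec_mass2 hB hM] at h

theorem rec_b2 (hB : S_BASIC) {M : L → S → S → ℝ} (hM : Stoch M) (G : L → S → S → Prop)
    (k : ℕ) (α β : S → ℝ) (B : Finset S) (hα : ∀ s, 0 ≤ α s) (hβ : ∀ s, 0 ≤ β s) :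
    Rec M G (b2 G) k α β B ≤ √(((Fintype.card S : ℝ) * ∑ t, α t) *
      ((Fintype.card S : ℝ) * ∑ t, β t * fk M G k (t, B))) := by
  have h := rec_cs hM G (φ := b2 G)
    (a := fun α _ _ => (Fintype.card S : ℝ) * ∑ t, α t)
    (b := fun _ β B => (Fintype.card S : ℝ) * ∑ t, β t * f0 G (t, B))
    (fun α β B hα _ => mul_nonneg (Nat.cast_nonneg _) (Finset.sum_nonneg fun t _ => hα t))
    (fun α β B _ hβ => mul_nonneg (Nat.cast_nonneg _)
      (Finset.sum_nonneg fun t _ => mul_nonneg (hβ t) (f0_nonneg G _)))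
    (fun α β B hα hβ => prod_sum_le α (fun t => β t * f0 G (t, B)) hα
      (fun t => mul_nonneg (hβ t) (f0_nonneg G _))) k α β B hα hβ
  rwa [rec_mass1 hB hM, rec_lin2] at h

/-! ### the limit of the good part -/

theorem anti (hB : S_BASIC) {M : L → S → S → ℝ} (hM : Stoch M) (α β : S → ℝ)
    (hα : ∀ s, 0 ≤ α s) (hβ : ∀ s, 0 ≤ β s) : Antitone (fun m => Hn M m α β) :=
  antitone_nat_of_succ_le fun n => (hB S L M hM).2.2.2.2.1 n α β hα hβ

theorem dl_nonneg (t s : S) : 0 ≤ dl t s := by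
  unfold dl
  by_cases h : s = t
  · subst h; rw [Pi.single_eq_same]; exact zero_le_one
  · rw [Pi.single_eq_of_ne h]

theorem dl_sum (t : S) : ∑ s, dl t s = 1 := by
  unfold dl
  rw [Finset.sum_eq_single t]
  · rw [Pi.single_eq_same]
  · intro s _ hs
    rw [Pi.single_eq_of_ne hs]
  · intro h; exact absurd (Finset.mem_univ t) h

theorem hn_le_one (hB : S_BASIC) {M : L → S → S → ℝ} (hM : Stoch M) (m : ℕ) (t s : S) :
    Hn M m (dl t) (dl s) ≤ 1 := by
  have h := anti hB hM (dl t) (dl s) (dl_nonneg t) (dl_nonneg s) (Nat.zero_le m)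
  have h0 : Hn M 0 (dl t) (dl s) = 1 := by
    show √((∑ x, dl t x) * (∑ x, dl s x)) = 1
    rw [dl_sum, dl_sum, mul_one, Real.sqrt_one]
  rw [← h0]
  exact h

theorem lim_sing (hB : S_BASIC) {M : L → S → S → ℝ} (hM : Stoch M) (α β : S → ℝ)
    (hα : ∀ s, 0 ≤ α s) (hβ : ∀ s, 0 ≤ β s) (h : Sing M α β) :
    Tendsto (fun m => Hn M m α β) atTop (𝓝 0) := by
  rw [Metric.tendsto_atTop]
  intro ε hε
  obtain ⟨n, hn⟩ := h ε hε
  refine ⟨n, fun m hm => ?_⟩
  rw [Real.dist_eq, sub_zero, abs_of_nonneg ((hB S L M hM).2.2.2.1 m α β)]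
  exact lt_of_le_of_lt (anti hB hM α β hα hβ hm) hn

theorem lim_gd (hB : S_BASIC) {M : L → S → S → ℝ} (hM : Stoch M) {G : L → S → S → Prop}
    (hG : Fits M G) (R : S → Finset S → Prop)
    (hR : ∀ ℓ t t' B, R t B → 0 < M ℓ t t' → R t' (nxt G ℓ B))
    (hS : ∀ t s B, R t B → s ∈ B → Ess G (t, B) → Ess G (s, B) → Sing M (dl t) (dl s)) :
    ∀ (k : ℕ) (α β : S → ℝ) (B : Finset S), (∀ s, 0 ≤ α s) → (∀ s, 0 ≤ β s) →
      (∀ t, 0 < α t → R t B) → (∀ s, 0 < β s → s ∈ B) →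
      Tendsto (fun m => Rec M G (gd M G m) k α β B) atTop (𝓝 0) := by
  classical
  intro k
  induction k with
  | zero =>
    intro α β B hα hβ h1 h2
    have h3 : Tendsto (fun m => gd M G m α β B) atTop (𝓝 (∑ _t : S, ∑ _s : S, (0:ℝ))) := by
      unfold gd
      refine tendsto_finsetSum _ fun t _ => tendsto_finsetSum _ fun s _ => ?_
      by_cases hE : Ess G (t, B) ∧ Ess G (s, B)
      · simp only [hE, and_self, if_true]
        by_cases ht : 0 < α t
        · by_cases hs : 0 < β s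
          · have h4 := lim_sing hB hM (dl t) (dl s) (dl_nonneg t) (dl_nonneg s)
              (hS t s B (h1 t ht) (h2 s hs) hE.1 hE.2)
            have h5 := h4.const_mul (√(α t * β s))
            rw [mul_zero] at h5
            exact h5
          · have h6 : β s = 0 := le_antisymm (not_lt.1 hs) (hβ s)
            simp only [h6, mul_zero, Real.sqrt_zero, zero_mul]
            exact tendsto_const_nhds
        · have h6 : α t = 0 := le_antisymm (not_lt.1 ht) (hα t)
          simp only [h6, zero_mul, Real.sqrt_zero]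
          exact tendsto_const_nhds
      · simp only [hE, if_false]
        exact tendsto_const_nhds
    simp only [Finset.sum_const_zero] at h3
    exact h3
  | succ k ih =>
    intro α β B hα hβ h1 h2
    have h3 : Tendsto (fun m => ∑ ℓ, Rec M G (gd M G m) k (push M ℓ α) (push M ℓ β) (nxt G ℓ B))
        atTop (𝓝 (∑ _ℓ : L, (0:ℝ))) := by
      refine tendsto_finsetSum _ fun ℓ _ => ?_
      refine ih _ _ _ (push_nonneg hM hα ℓ) (push_nonneg hM hβ ℓ) ?_ ?_
      · intro t' ht'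
        obtain ⟨t, -, ht⟩ := Finset.exists_ne_zero_of_sum_ne_zero (ne_of_gt ht')
        have ha : 0 < α t := lt_of_le_of_ne (hα t) (Ne.symm (left_ne_zero_of_mul ht))
        have hm : 0 < M ℓ t t' := lt_of_le_of_ne (hM.nonneg _ _ _)
          (Ne.symm (right_ne_zero_of_mul ht))
        exact hR ℓ t t' B (h1 t ha) hm
      · intro s' hs'
        obtain ⟨s, -, hs⟩ := Finset.exists_ne_zero_of_sum_ne_zero (ne_of_gt hs')
        have ha : 0 < β s := lt_of_le_of_ne (hβ s) (Ne.symm (left_ne_zero_of_mul hs))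
        have hm : 0 < M ℓ s s' := lt_of_le_of_ne (hM.nonneg _ _ _)
          (Ne.symm (right_ne_zero_of_mul hs))
        unfold nxt
        rw [Finset.mem_filter]
        exact ⟨Finset.mem_univ _, s, h2 s ha, (hG _ _ _).1 hm⟩
    simp only [Finset.sum_const_zero] at h3
    exact h3

/-- the splitting -/
theorem split (hW : S_WSUM) (hB : S_BASIC) {M : L → S → S → ℝ} (hM : Stoch M)
    (G : L → S → S → Prop) (m : ℕ) (α β : S → ℝ) (B : Finset S) (hα : ∀ s, 0 ≤ α s)
    (hβ : ∀ s, 0 ≤ β s) :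
    Hn M m α β ≤ gd M G m α β B + (b1 G α β B + b2 G α β B) := by
  refine le_trans (hn_sub hW hM m α β hα hβ) ?_
  unfold gd b1 b2
  rw [← Finset.sum_add_distrib, ← Finset.sum_add_distrib]
  refine Finset.sum_le_sum fun t _ => ?_
  rw [← Finset.sum_add_distrib, ← Finset.sum_add_distrib]
  refine Finset.sum_le_sum fun s _ => ?_
  have h1 : √(α t * β s) = √(α t) * √(β s) := Real.sqrt_mul (hα t) _
  have h2 : 0 ≤ √(α t * f0 G (t, B)) * √(β s) := mul_nonneg (Real.sqrt_nonneg _) (Real.sqrt_nonneg _)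
  have h3 : 0 ≤ √(α t) * √(β s * f0 G (s, B)) := mul_nonneg (Real.sqrt_nonneg _) (Real.sqrt_nonneg _)
  have h4 : √(α t * β s) * Hn M m (dl t) (dl s) ≤ √(α t) * √(β s) := by
    rw [h1]
    exact mul_le_of_le_one_right (mul_nonneg (Real.sqrt_nonneg _) (Real.sqrt_nonneg _))
      (hn_le_one hB hM m t s)
  by_cases ht : Ess G (t, B)
  · by_cases hs : Ess G (s, B)
    · rw [if_pos ⟨ht, hs⟩]
      linarith
    · rw [if_neg (fun h => hs h.2)]
      have h5 : f0 G (s, B) = 1 := by unfold f0; rw [if_neg hs]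
      rw [h5, mul_one] at h3 ⊢
      linarith
  · rw [if_neg (fun h => ht h.1)]
    have h5 : f0 G (t, B) = 1 := by unfold f0; rw [if_neg ht]
    rw [h5, mul_one] at h2 ⊢
    linarith

end

end CLSX

open CLSX in
/-- CLS -/
theorem t_CLS (hW : S_WSUM) (hB : S_BASIC) (hT : S_TRANS) :
    S_CLS := by
  intro S L _ _ _ _ M G hM hG μ ν hμ hν hns
  by_contra hcon
  apply hns
  have hS : ∀ t s B, (∃ t₀, 0 < μ t₀ ∧ Rch G (t₀, sp ν) (t, B)) → s ∈ B → Ess G (t, B) →
      Ess G (s, B) → Sing M (dl t) (dl s) := by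
    rintro t s B ⟨t₀, h1, h2⟩ h3 h4 h5
    by_contra h6
    exact hcon ⟨t₀, t, s, B, h1, h2, h3, h4, h5, h6⟩
  have hR : ∀ (ℓ : L) (t t' : S) (B : Finset S),
      (∃ t₀, 0 < μ t₀ ∧ Rch G (t₀, sp ν) (t, B)) → 0 < M ℓ t t' →
      (∃ t₀, 0 < μ t₀ ∧ Rch G (t₀, sp ν) (t', nxt G ℓ B)) := by
    rintro ℓ t t' B ⟨t₀, h1, h2⟩ h3
    exact ⟨t₀, h1, h2.tail ⟨ℓ, (hG _ _ _).1 h3, rfl⟩⟩
  intro ε hε
  have l1 := lim_fk hT hM hG μ hμ.nonneg (sp ν)
  have l2 := lim_fk hT hM hG ν hν.nonneg (sp ν)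
  set N : ℝ := (Fintype.card S : ℝ) with hN
  have l3 : Tendsto (fun k => √((N * ∑ t, μ t * fk M G k (t, sp ν)) * (N * ∑ t, ν t)) +
      √((N * ∑ t, μ t) * (N * ∑ t, ν t * fk M G k (t, sp ν)))) atTop (𝓝 0) := by
    have m1 := (((l1.const_mul N).mul_const (N * ∑ t, ν t))).sqrt
    have m2 := (((l2.const_mul N).const_mul (N * ∑ t, μ t))).sqrt
    have m3 := m1.add m2
    simp only [mul_zero, zero_mul, Real.sqrt_zero, add_zero] at m3
    exact m3
  obtain ⟨k, hk⟩ := (l3.eventually (gt_mem_nhds (half_pos hε))).exists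
  have l4 := lim_gd hB hM hG (fun t B => ∃ t₀, 0 < μ t₀ ∧ Rch G (t₀, sp ν) (t, B)) hR hS k μ ν
    (sp ν) hμ.nonneg hν.nonneg
    (fun t ht => ⟨t, ht, Relation.ReflTransGen.refl⟩)
    (fun s hs => by
      unfold sp
      rw [Finset.mem_filter]
      exact ⟨Finset.mem_univ _, hs⟩)
  obtain ⟨m, hm⟩ := (l4.eventually (gt_mem_nhds (half_pos hε))).exists
  refine ⟨k + m, ?_⟩
  have h1 := hn_le hM G m (φ := fun α β B => gd M G m α β B + (b1 G α β B + b2 G α β B))
    (fun α β B hα hβ => split hW hB hM G m α β B hα hβ) k μ ν (sp ν) hμ.nonneg hν.nonneg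
  rw [rec_add M G (gd M G m) (fun α β B => b1 G α β B + b2 G α β B), rec_add M G (b1 G) (b2 G)]
    at h1
  have h2 := rec_b1 hB hM G k μ ν (sp ν) hμ.nonneg hν.nonneg
  have h3 := rec_b2 hB hM G k μ ν (sp ν) hμ.nonneg hν.nonneg
  linarith

end Pool.Agent.R554.DO
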