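import Pool.Agent.R554.DO.Stm

/-!
# CONV: equivalent stationary distributions give nonsingular laws
-/

namespace Pool.Agent.R554.DO

open Finset

namespace ConvAux

variable {S L : Type} [Fintype S] [DecidableEq S] [Fintype L] [DecidableEq L]

theorem mem_nxt {G : L → S → S → Prop} {ℓ : L} {B : Finset S} {t : S} :
    t ∈ nxt G ℓ B ↔ ∃ s ∈ B, G ℓ s t := by
  classical
  unfold nxt
  rw [Finset.mem_filter]
  exact ⟨fun h => h.2, fun h => ⟨Finset.mem_univ _, h⟩⟩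

theorem mem_sp {α : S → ℝ} {t : S} : t ∈ sp α ↔ 0 < α t := by
  classical
  unfold sp
  rw [Finset.mem_filter]
  exact ⟨fun h => h.2, fun h => ⟨Finset.mem_univ _, h⟩⟩

theorem rch_mem {G : L → S → S → Prop} {z z' : S × Finset S} (h : Rch G z z') :
    z.1 ∈ z.2 → z'.1 ∈ z'.2 := by
  intro hz
  unfold Rch at h
  induction h with
  | refl => exact hz
  | tail _ hst ih =>
    obtain ⟨ℓ, h1, h2⟩ := hst
    rw [h2, mem_nxt]
    exact ⟨_, ih, h1⟩

theorem rch_back (hB : S_BACK) {M : L → S → S → ℝ} {G : L → S → S → Prop} (hM : Stoch M)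
    (hG : Fits M G) {z z' : S × Finset S} (h : Rch G z z') :
    ∀ s' ∈ z'.2, ∃ s ∈ z.2, Sing M (dl z.1) (dl s) → Sing M (dl z'.1) (dl s') := by
  unfold Rch at h
  induction h with
  | refl => exact fun s' hs' => ⟨s', hs', id⟩
  | tail _ hst ih =>
    obtain ⟨ℓ, h1, h2⟩ := hst
    intro s' hs'
    rw [h2, mem_nxt] at hs'
    obtain ⟨u, hu, hus⟩ := hs'
    obtain ⟨v, hv, hvi⟩ := ih u hu
    refine ⟨v, hv, fun h3 => ?_⟩
    exact hB S L M hM ℓ _ _ _ _ ((hG _ _ _).mpr h1) ((hG _ _ _).mpr hus) (hvi h3)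

end ConvAux

open ConvAux in
/-- CONV. -/
theorem t_CONV (hSub : S_SUB) (hBack : S_BACK) (hDom : S_DOM) : S_CONV := by
  intro S L _ _ _ _ M G hM hG μ ν hμ hν t₀ t s B ht₀ hr hs a b ha hb hab hsing
  obtain ⟨z₁, hz₁⟩ : ∃ z, 0 < a z := by
    by_contra hc
    push Not at hc
    have h0 : ∀ z, a z = 0 := fun z => le_antisymm (hc z) (ha.dist.nonneg z)
    have := ha.dist.sum
    simp [h0] at this
  obtain ⟨t₁, B₁⟩ := z₁
  have hr1 := ha.supp (t₁, B₁) hz₁.ne'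
  have h2 := hDom S L M hM (fun t => a (t, B₁)) (fun t => b (t, B₁))
    (fun t => ha.dist.nonneg _) (fun t => hb.dist.nonneg _) (hab B₁) t₁ hz₁
  have hdl : ∀ x : S, 0 ≤ dl t₁ x := by
    intro x
    unfold dl
    by_cases hx : x = t₁
    · rw [hx, Pi.single_eq_same]; exact zero_le_one
    · rw [Pi.single_eq_of_ne hx]
  have h3 := (hSub S L M hM (dl t₁) (fun t => b (t, B₁)) hdl (fun t => hb.dist.nonneg _)).not.mp h2
  push Not at h3
  obtain ⟨x, s₁, hx, hs₁, h4⟩ := h3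
  have hxt : x = t₁ := by
    by_contra hne
    unfold dl at hx
    rw [Pi.single_eq_of_ne hne] at hx
    exact lt_irrefl _ hx
  rw [hxt] at h4
  have hr2 := hb.supp (s₁, B₁) hs₁.ne'
  have h5 : s₁ ∈ B₁ := rch_mem hr2 hs
  obtain ⟨s₀, hs₀, h6⟩ := rch_back hBack hM hG (hr.trans hr1) s₁ h5
  refine h4 (h6 ?_)
  exact (hSub S L M hM μ ν hμ.nonneg hν.nonneg).mp hsing t₀ s₀ ht₀ (mem_sp.mp hs₀)

end Pool.Agent.R554.DO
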