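import Pool.Agent.R554.DO.Chk
import Pool.Agent.R478.DOaux

/-!
DCHK: valid instances pass the validity check.
-/

namespace Pool.Agent.R554.DO

open Pool.Agent.R478.DOaux

theorem t_DCHK : S_DCHK := by
  intro I hI
  have p1 : ∀ e ∈ I.1, (pb e).den ∣ dprod I := fun e he =>
    (List.dvd_prod (List.mem_map.2 ⟨e, he, rfl⟩)).trans (Dvd.intro _ rfl)
  have p2 : ∀ x ∈ I.2.1, x.den ∣ dprod I := fun x hx =>
    ((List.dvd_prod (List.mem_map.2 ⟨x, hx, rfl⟩)).trans (Dvd.intro _ rfl)).trans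
      (Dvd.intro_left _ rfl)
  have p3 : ∀ x ∈ I.2.2, x.den ∣ dprod I := fun x hx =>
    ((List.dvd_prod (List.mem_map.2 ⟨x, hx, rfl⟩)).trans (Dvd.intro_left _ rfl)).trans
      (Dvd.intro_left _ rfl)
  have hpos : 0 < dprod I := by
    unfold dprod
    refine Nat.mul_pos ?_ (Nat.mul_pos ?_ ?_)
    all_goals
      refine List.prod_pos ?_
      intro a ha
      obtain ⟨x, -, rfl⟩ := List.mem_map.1 ha
      exact Rat.den_pos _
  rw [chkV_iff]
  refine ⟨hI.len, hpos, fun x hx => ⟨hI.mu_nonneg x hx, p2 x hx⟩,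
    fun x hx => ⟨hI.nu_nonneg x hx, p3 x hx⟩, ?_, ?_, ?_, hI.total⟩
  · have h := (map_sum_eq_D (dprod I) hpos (fun x : ℚ => x) I.2.1 hI.mu_nonneg p2).2
      (by simpa using hI.mu_sum)
    exact h
  · have h := (map_sum_eq_D (dprod I) hpos (fun x : ℚ => x) I.2.2 hI.nu_nonneg p3).2
      (by simpa using hI.nu_sum)
    exact h
  · intro e he
    refine ⟨hI.src_lt e he, hI.tgt_lt e he, ⟨hI.pb_nonneg e he, p1 e he⟩, ?_⟩
    exact (map_sum_eq_D (dprod I) hpos pb _ (fun x hx => hI.pb_nonneg x (List.mem_of_mem_filter hx))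
      (fun x hx => p1 x (List.mem_of_mem_filter hx))).2 (hI.prob e he)

end Pool.Agent.R554.DO
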