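import Pool.Agent.R554.DO.Stm

/-!
# DIM: words of length at most the number of states suffice
-/

namespace Pool.Agent.R554.DO

open Finset

/-- A monotone chain of submodules is stationary at some step at most the dimension. -/
lemma chain_stat {E : Type} [AddCommGroup E] [Module ℝ E] [FiniteDimensional ℝ E]
    (V : ℕ → Submodule ℝ E) (hV : Monotone V) :
    ∃ k, k ≤ Module.finrank ℝ E ∧ V (k + 1) = V k := by
  by_contra hcon
  push Not at hcon
  have h1 : ∀ k, k ≤ Module.finrank ℝ E + 1 → k ≤ Module.finrank ℝ (V k) := by
    intro k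
    induction k with
    | zero => intro _; exact Nat.zero_le _
    | succ k ih =>
      intro hk
      have h2 := ih (by omega)
      have h3 : V k < V (k + 1) :=
        lt_of_le_of_ne (hV (Nat.le_succ k)) (fun h => hcon k (by omega) h.symm)
      have h4 := Submodule.finrank_lt_finrank_of_lt h3
      omega
  have h5 := h1 (Module.finrank ℝ E + 1) le_rfl
  have h6 := Submodule.finrank_le (V (Module.finrank ℝ E + 1))
  omega

theorem t_DIM : S_DIM := by
  intro S L _ _ _ _ M α β hw
  -- the linear maps
  let A : L → (S → ℝ) →ₗ[ℝ] (S → ℝ) := fun ℓ =>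
    { toFun := fun x s => ∑ t, M ℓ s t * x t
      map_add' := by
        intro x y
        funext s
        simp only [Pi.add_apply, mul_add, Finset.sum_add_distrib]
      map_smul' := by
        intro c x
        funext s
        simp only [Pi.smul_apply, smul_eq_mul, RingHom.id_apply, Finset.mul_sum]
        exact Finset.sum_congr rfl (fun t _ => by ring) }
  let V : ℕ → Submodule ℝ (S → ℝ) := fun k =>
    Submodule.span ℝ {x | ∃ w : List L, w.length ≤ k ∧ x = val M w}
  have hV : Monotone V := by
    intro a b hab
    refine Submodule.span_mono ?_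
    rintro x ⟨w, hwl, rfl⟩
    exact ⟨w, le_trans hwl hab, rfl⟩
  have hmem : ∀ (k : ℕ) (w : List L), w.length ≤ k → val M w ∈ V k := fun k w hwl =>
    Submodule.subset_span ⟨w, hwl, rfl⟩
  have hstep : ∀ (k : ℕ) (ℓ : L), V k ≤ (V (k + 1)).comap (A ℓ) := by
    intro k ℓ
    refine Submodule.span_le.2 ?_
    rintro x ⟨w, hwl, rfl⟩
    show A ℓ (val M w) ∈ V (k + 1)
    exact hmem (k + 1) (ℓ :: w) (by simp; omega)
  obtain ⟨k, hk, hkV⟩ := chain_stat V hV
  rw [Module.finrank_fintype_fun_eq_card] at hk
  have hall : ∀ w : List L, val M w ∈ V k := by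
    intro w
    induction w with
    | nil => exact hmem k [] (Nat.zero_le _)
    | cons ℓ w ih =>
      have h1 : A ℓ (val M w) ∈ V (k + 1) := hstep k ℓ ih
      rw [hkV] at h1
      exact h1
  -- the functional
  let φ : (S → ℝ) →ₗ[ℝ] ℝ :=
    { toFun := fun x => ∑ s, α s * x s - ∑ s, β s * x s
      map_add' := by
        intro x y
        simp only [Pi.add_apply, mul_add, Finset.sum_add_distrib]
        ring
      map_smul' := by
        intro c x
        simp only [Pi.smul_apply, smul_eq_mul, RingHom.id_apply, mul_sub, Finset.mul_sum]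
        congr 1
        · exact Finset.sum_congr rfl (fun t _ => by ring)
        · exact Finset.sum_congr rfl (fun t _ => by ring) }
  have hφ : V k ≤ LinearMap.ker φ := by
    refine Submodule.span_le.2 ?_
    rintro x ⟨w, hwl, rfl⟩
    have h1 := hw w (le_trans hwl hk)
    show φ (val M w) = 0
    show pr M α w - pr M β w = 0
    rw [h1, sub_self]
  intro w
  have h1 : φ (val M w) = 0 := hφ (hall w)
  exact sub_eq_zero.1 h1

end Pool.Agent.R554.DO
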