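import Pool.Agent.R554.DO.Stm

/-!
# DOM: equivalent vectors are not singular to the unit masses of their supports
-/

namespace Pool.Agent.R554.DO

open Finset

theorem dom_val_nonneg {S L : Type} [Fintype S] {M : L → S → S → ℝ}
    (hM : ∀ ℓ s t, 0 ≤ M ℓ s t) (w : List L) (s : S) : 0 ≤ val M w s := by
  induction w generalizing s with
  | nil => exact zero_le_one
  | cons ℓ w ih => exact Finset.sum_nonneg fun t _ => mul_nonneg (hM ℓ s t) (ih t)

theorem dom_pr_dl {S L : Type} [Fintype S] [DecidableEq S] (M : L → S → S → ℝ) (w : List L)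
    (s : S) : pr M (dl s) w = val M w s := by
  unfold pr dl
  rw [Finset.sum_eq_single s]
  · rw [Pi.single_eq_same, one_mul]
  · intro t _ ht
    rw [Pi.single_eq_of_ne ht, zero_mul]
  · intro h
    exact absurd (Finset.mem_univ s) h

theorem t_DOM (hW : S_WSUM) (hB : S_BASIC) : S_DOM := by
  intro S L _ _ _ _ M hM α β hα hβ hE s hs hSing
  obtain ⟨n, hn⟩ := hSing (√(α s)) (Real.sqrt_pos.2 hs)
  rw [hW S L M n (dl s) β] at hn
  have hsum : ∑ w : Fin n → L, pr M (dl s) (List.ofFn w) = 1 := by
    rw [(hB S L M hM).2.1 (dl s) n]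
    unfold dl
    rw [Finset.sum_pi_single']
    simp
  have h1 : √(α s) = ∑ w : Fin n → L, √(α s) * pr M (dl s) (List.ofFn w) := by
    rw [← Finset.mul_sum, hsum, mul_one]
  have h2 : ∑ w : Fin n → L, √(α s) * pr M (dl s) (List.ofFn w) ≤
      ∑ w : Fin n → L, √(pr M (dl s) (List.ofFn w) * pr M β (List.ofFn w)) := by
    refine Finset.sum_le_sum fun w _ => ?_
    have h3 : 0 ≤ pr M (dl s) (List.ofFn w) := by
      rw [dom_pr_dl]
      exact dom_val_nonneg hM.nonneg _ _
    have h4 : α s * pr M (dl s) (List.ofFn w) ≤ pr M β (List.ofFn w) := by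
      rw [← hE (List.ofFn w), dom_pr_dl]
      unfold pr
      exact Finset.single_le_sum (f := fun t => α t * val M (List.ofFn w) t)
        (fun t _ => mul_nonneg (hα t) (dom_val_nonneg hM.nonneg _ _)) (Finset.mem_univ s)
    calc √(α s) * pr M (dl s) (List.ofFn w)
        = √(α s * (pr M (dl s) (List.ofFn w) * pr M (dl s) (List.ofFn w))) := by
          rw [Real.sqrt_mul (hα s), Real.sqrt_mul_self h3]
      _ ≤ √(pr M (dl s) (List.ofFn w) * pr M β (List.ofFn w)) := by
          apply Real.sqrt_le_sqrt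
          have h5 := mul_le_mul_of_nonneg_left h4 h3
          linarith
  linarith

end Pool.Agent.R554.DO
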