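import Pool.Agent.R554.DO.Stm
import Pool.Agent.TH216.MF.FarkasQ

/-!
# Project DO, piece FARK: Farkas' lemma with few and small integral coefficients

The Caratheodory step is copied from `Pool/Agent/Y602/EQ/Small.lean`.
-/

set_option autoImplicit false

namespace Pool.Agent.R554.DO

open Finset

/-- Caratheodory's theorem for cones: a nonnegative combination is a nonnegative combination of
linearly independent vectors. -/
theorem fark_conic {U : Type*} [AddCommGroup U] [Module ℚ U] {κ : Type*} [DecidableEq κ]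
    (v : κ → U) :
    ∀ (m : ℕ) (K : Finset κ) (w : κ → ℚ), K.card = m → (∀ k ∈ K, 0 ≤ w k) →
      ∃ K' ⊆ K, ∃ w' : κ → ℚ, (∀ k ∈ K', 0 ≤ w' k) ∧
        LinearIndependent ℚ (fun k : K' => v k) ∧
        ∑ k ∈ K', w' k • v k = ∑ k ∈ K, w k • v k := by
  intro m
  induction m with
  | zero =>
    intro K w hK hw
    refine ⟨K, Finset.Subset.refl _, w, hw, ?_, rfl⟩
    have : IsEmpty K := by
      rw [Finset.card_eq_zero] at hK
      subst hK
      exact ⟨fun k => absurd k.2 (Finset.notMem_empty _)⟩
    exact linearIndependent_empty_type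
  | succ m ih =>
    intro K w hK hw
    by_cases hli : LinearIndependent ℚ (fun k : K => v k)
    · exact ⟨K, Finset.Subset.refl _, w, hw, hli, rfl⟩
    · rw [Fintype.not_linearIndependent_iff] at hli
      obtain ⟨g₀, hg₀, i₀, hi₀⟩ := hli
      -- extend by zero
      obtain ⟨g, hg, hgpos⟩ : ∃ g : κ → ℚ, ∑ k ∈ K, g k • v k = 0 ∧ ∃ k ∈ K, 0 < g k := by
        have key : ∀ h₀ : K → ℚ, ∑ i, h₀ i • v i = 0 → (∃ i, 0 < h₀ i) →
            ∃ g : κ → ℚ, ∑ k ∈ K, g k • v k = 0 ∧ ∃ k ∈ K, 0 < g k := by
          intro h₀ hs ⟨i, hi⟩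
          refine ⟨fun k => if hk : k ∈ K then h₀ ⟨k, hk⟩ else 0, ?_, i, i.2, ?_⟩
          · rw [← Finset.sum_coe_sort]
            refine Eq.trans (Finset.sum_congr rfl fun k _ => ?_) hs
            simp
          · simp only [i.2, dif_pos]
            exact hi
        rcases lt_or_gt_of_ne hi₀ with h | h
        · refine key (fun i => - g₀ i) ?_ ⟨i₀, by simpa using h⟩
          simp only [neg_smul, Finset.sum_neg_distrib, hg₀, neg_zero]
        · exact key g₀ hg₀ ⟨i₀, h⟩
      obtain ⟨k₁, hk₁, hk₁'⟩ := hgpos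
      obtain ⟨k₀, hk₀, hmin⟩ := Finset.exists_min_image (K.filter fun k => 0 < g k)
        (fun k => w k / g k) ⟨k₁, Finset.mem_filter.2 ⟨hk₁, hk₁'⟩⟩
      rw [Finset.mem_filter] at hk₀
      set t := w k₀ / g k₀ with ht
      have ht0 : 0 ≤ t := div_nonneg (hw k₀ hk₀.1) hk₀.2.le
      have hw' : ∀ k ∈ K, 0 ≤ w k - t * g k := by
        intro k hk
        rcases lt_or_ge 0 (g k) with h | h
        · have := hmin k (Finset.mem_filter.2 ⟨hk, h⟩)
          beta_reduce at this
          rw [le_div_iff₀ h] at this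
          linarith
        · have := hw k hk
          nlinarith
      have hz : w k₀ - t * g k₀ = 0 := by
        rw [ht, div_mul_cancel₀ _ hk₀.2.ne', sub_self]
      obtain ⟨K', hK', w', h1, h2, h3⟩ := ih (K.erase k₀) (fun k => w k - t * g k)
        (by rw [Finset.card_erase_of_mem hk₀.1, hK]; rfl)
        (fun k hk => hw' k (Finset.mem_of_mem_erase hk))
      refine ⟨K', hK'.trans (Finset.erase_subset _ _), w', h1, h2, ?_⟩
      rw [h3]
      have e1 : ∑ k ∈ K, (w k - t * g k) • v k = ∑ k ∈ K, w k • v k := by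
        have : ∀ k ∈ K, (w k - t * g k) • v k = w k • v k - t • (g k • v k) := by
          intro k _
          rw [sub_smul, mul_smul]
        rw [Finset.sum_congr rfl this, Finset.sum_sub_distrib, ← Finset.smul_sum, hg, smul_zero,
          sub_zero]
      rw [← e1, ← Finset.add_sum_erase K _ hk₀.1, hz, zero_smul, zero_add]

/-- a matrix with linearly independent columns has a nonsingular square submatrix with all the
columns -/
theorem fark_rows {ι κ : Type} [Fintype ι] [Fintype κ] [DecidableEq κ] (v : κ → ι → ℤ)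
    (hli : LinearIndependent ℚ (fun k : κ => fun i => (v k i : ℚ))) :
    ∃ f : κ → ι, (Matrix.of (fun k l => v l (f k)) : Matrix κ κ ℤ).det ≠ 0 := by
  classical
  obtain ⟨κ', a, ha, hsp, hl⟩ := exists_linearIndependent' ℚ (fun i : ι => fun k : κ => (v k i : ℚ))
  have : Fintype κ' := Fintype.ofInjective a ha
  have h1 : Module.finrank ℚ (Submodule.span ℚ (Set.range (fun i : ι => fun k : κ => (v k i : ℚ))))
      = Fintype.card κ := by
    have h2 := Matrix.rank_eq_finrank_span_row
      (Matrix.of (fun (i : ι) (k : κ) => (v k i : ℚ)))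
    have h3 : (Matrix.of (fun (k : κ) (i : ι) => (v k i : ℚ))).rank = Fintype.card κ :=
      LinearIndependent.rank_matrix hli
    have h4 : (Matrix.of (fun (k : κ) (i : ι) => (v k i : ℚ))).transpose
        = Matrix.of (fun (i : ι) (k : κ) => (v k i : ℚ)) := rfl
    rw [← h4, Matrix.rank_transpose, h3] at h2
    exact h2.symm
  have h5 : Fintype.card κ' = Fintype.card κ := by
    rw [← h1, ← hsp]
    exact (finrank_span_eq_card hl).symm
  let e : κ ≃ κ' := Fintype.equivOfCardEq h5.symm
  refine ⟨fun k => a (e k), ?_⟩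
  intro h0
  have h6 : LinearIndependent ℚ
      (Matrix.of (fun (k l : κ) => (v l (a (e k)) : ℚ)) : Matrix κ κ ℚ).row :=
    hl.comp e e.injective
  rw [Matrix.linearIndependent_rows_iff_isUnit, Matrix.isUnit_iff_isUnit_det,
    isUnit_iff_ne_zero] at h6
  apply h6
  have h7 : (Matrix.of (fun (k l : κ) => (v l (a (e k)) : ℚ)) : Matrix κ κ ℚ)
      = (Int.castRingHom ℚ).mapMatrix (Matrix.of (fun k l => v l (a (e k))) : Matrix κ κ ℤ) := by
    ext k l
    simp
  rw [h7, ← RingHom.map_det, h0, map_zero]

/-- Solutions of linear systems with small integral entries and full column rank are quotients of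
small integers. -/
theorem fark_small {ι κ : Type} [Fintype ι] [Fintype κ] [DecidableEq κ] (v : κ → ι → ℤ)
    (b : ι → ℤ) (C : ℕ) (hv : ∀ k i, |v k i| ≤ C) (hb : ∀ i, |b i| ≤ C)
    (hli : LinearIndependent ℚ (fun k : κ => fun i => (v k i : ℚ))) (w : κ → ℚ)
    (hw : ∀ k, 0 ≤ w k) (hs : ∀ i, ∑ k, w k * v k i = b i) :
    ∃ (N : κ → ℕ) (D : ℕ), 0 < D ∧
      (∀ k, N k ≤ (Fintype.card κ).factorial * C ^ Fintype.card κ) ∧
      ∀ i, ∑ k, (N k : ℤ) * v k i = D * b i := by
  classical
  obtain ⟨f, hdet⟩ := fark_rows v hli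
  set A : Matrix κ κ ℤ := Matrix.of (fun k l => v l (f k)) with hAdef
  let c : κ → ℤ := fun k => b (f k)
  have hA : ∀ k l, |A k l| ≤ C := fun k l => hv l (f k)
  have hc : ∀ k, |c k| ≤ C := fun k => hb (f k)
  -- Cramer's rule
  have hAw : ∀ k, ∑ l, (A k l : ℚ) * w l = c k := by
    intro k
    have := hs (f k)
    show ∑ l, (v l (f k) : ℚ) * w l = b (f k)
    rw [← this]
    exact Finset.sum_congr rfl fun l _ => by ring
  have hcr : ∀ k, (A.det : ℚ) * w k = (A.cramer c k : ℤ) := by
    have h1 : (A.map (Int.cast : ℤ → ℚ)).mulVec w = fun k => (c k : ℚ) := by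
      funext k
      simpa [Matrix.mulVec, dotProduct] using hAw k
    have h2 : (A.map (Int.cast : ℤ → ℚ)).det • w =
        (A.map (Int.cast : ℤ → ℚ)).cramer (fun k => (c k : ℚ)) := by
      rw [← h1, Matrix.cramer_eq_adjugate_mulVec, Matrix.mulVec_mulVec, Matrix.adjugate_mul,
        Matrix.smul_mulVec, Matrix.one_mulVec]
    intro k
    have h3 := congrFun h2 k
    have h4 : (A.map (Int.cast : ℤ → ℚ)).det = (A.det : ℚ) := by
      have := (Int.castRingHom ℚ).map_det A
      simpa using this.symm
    have h5 : (A.map (Int.cast : ℤ → ℚ)).cramer (fun k => (c k : ℚ)) k = (A.cramer c k : ℤ) := by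
      rw [Matrix.cramer_apply, Matrix.cramer_apply]
      have := (Int.castRingHom ℚ).map_det (A.updateCol k c)
      rw [eq_intCast] at this
      rw [this]
      congr 1
      ext i j
      simp only [RingHom.mapMatrix_apply, Matrix.map_apply, Matrix.updateCol_apply]
      split_ifs <;> simp
    rw [Pi.smul_apply, smul_eq_mul, h4, h5] at h3
    exact h3
  have hbound : ∀ k, |A.cramer c k| ≤
      (Fintype.card κ).factorial * (C : ℤ) ^ Fintype.card κ := by
    intro k
    rw [Matrix.cramer_apply]
    have := Matrix.det_le (A := A.updateCol k c) (abv := AbsoluteValue.abs)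
      (x := (C : ℤ)) (fun i j => by
        rw [Matrix.updateCol_apply]
        split_ifs
        · exact hc i
        · exact hA i j)
    simpa using this
  have key : ∀ k, (((A.cramer c k).natAbs : ℕ) : ℚ) = (A.det.natAbs : ℕ) * w k := by
    intro k
    have h1 : (((A.cramer c k).natAbs : ℕ) : ℚ) = |((A.cramer c k : ℤ) : ℚ)| := by
      rw [Nat.cast_natAbs, Int.cast_abs]
    have h2 : ((A.det.natAbs : ℕ) : ℚ) = |(A.det : ℚ)| := by
      rw [Nat.cast_natAbs, Int.cast_abs]
    rw [h1, h2, ← hcr, abs_mul, abs_of_nonneg (hw k)]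
  refine ⟨fun k => (A.cramer c k).natAbs, A.det.natAbs, Int.natAbs_pos.2 hdet, ?_, ?_⟩
  · intro k
    have h1 := hbound k
    have h2 : ((A.cramer c k).natAbs : ℤ) ≤
        (((Fintype.card κ).factorial * C ^ Fintype.card κ : ℕ) : ℤ) := by
      rw [Int.natCast_natAbs]
      push_cast
      exact h1
    exact_mod_cast h2
  · intro i
    have h1 : (∑ k, (((A.cramer c k).natAbs : ℕ) : ℚ) * v k i) = (A.det.natAbs : ℕ) * b i := by
      rw [← hs i, Finset.mul_sum]
      refine Finset.sum_congr rfl fun k _ => ?_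
      rw [key]
      ring
    have h2 : ((∑ k, (((A.cramer c k).natAbs : ℕ) : ℤ) * v k i : ℤ) : ℚ) =
        ((((A.det.natAbs : ℕ) : ℤ) * b i : ℤ) : ℚ) := by
      rw [Int.cast_sum, Int.cast_mul, Int.cast_natCast]
      simp only [Int.cast_mul, Int.cast_natCast]
      exact h1
    exact Int.cast_injective h2

/-- FARK: Farkas' lemma with few and small multipliers. -/
theorem t_FARK : S_FARK := by
  classical
  intro ι κ _ _ _ _ v b C hC hv hb
  by_cases h : ∃ x : ι → ℚ, (∀ k, ∑ i, (v k i : ℚ) * x i ≤ 0) ∧ 0 < ∑ i, (b i : ℚ) * x i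
  · left
    obtain ⟨x, h1, h2⟩ := h
    refine ⟨fun i => (x i : ℝ), fun k => ?_, ?_⟩
    · have h3 : ((∑ i, (v k i : ℚ) * x i : ℚ) : ℝ) ≤ 0 := by exact_mod_cast h1 k
      push_cast at h3
      exact h3
    · have h3 : (0 : ℝ) < ((∑ i, (b i : ℚ) * x i : ℚ) : ℝ) := by exact_mod_cast h2
      push_cast at h3
      exact h3
  · right
    push Not at h
    let dot : (ι → ℤ) → ((ι → ℚ) →ₗ[ℚ] ℚ) := fun u =>
      { toFun := fun x => ∑ i, (u i : ℚ) * x i
        map_add' := fun x y => by simp [mul_add, Finset.sum_add_distrib]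
        map_smul' := fun c x => by
          simp only [Pi.smul_apply, smul_eq_mul, RingHom.id_apply, Finset.mul_sum]
          exact Finset.sum_congr rfl fun i _ => by ring }
    let e := Fintype.equivFin κ
    obtain ⟨w, hw, hf⟩ := TH216.MF.farkas_lin (Fintype.card κ) (fun j => dot (v (e.symm j))) (dot b)
      (by
        intro x hx
        refine h x fun k => ?_
        have := hx (e k)
        simpa [dot] using this)
    have hs : ∀ i, ∑ k, w (e k) * (v k i : ℚ) = b i := by
      intro i
      have h1 := hf (Pi.single i 1)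
      simp only [dot, LinearMap.coe_mk, AddHom.coe_mk, Pi.single_apply, mul_ite, mul_one, mul_zero,
        Finset.sum_ite_eq', Finset.mem_univ, if_true] at h1
      rw [h1, ← Equiv.sum_comp e]
      simp
    obtain ⟨K', -, w', h1, h2, h3⟩ := fark_conic (fun k => fun i => (v k i : ℚ)) _
      (univ : Finset κ) (fun k => w (e k)) rfl (fun k _ => hw _)
    have hcard : Fintype.card K' ≤ Fintype.card ι := by
      have := h2.fintype_card_le_finrank
      simpa using this
    obtain ⟨N, D, hD, hN, hsum⟩ := fark_small (fun k : K' => v k) b C (fun k i => hv k i) hb h2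
      (fun k => w' k) (fun k => h1 k k.2) (by
        intro i
        have h4 := congrFun h3 i
        simp only [Finset.sum_apply, Pi.smul_apply, smul_eq_mul] at h4
        rw [hs i, ← Finset.sum_coe_sort] at h4
        exact h4)
    refine ⟨fun k => if hk : k ∈ K' then N ⟨k, hk⟩ else 0, D, hD, ?_, ?_, ?_⟩
    · intro k
      by_cases hk : k ∈ K'
      · simp only [hk, dif_pos]
        exact (hN _).trans (Nat.mul_le_mul (Nat.factorial_le hcard)
          (Nat.pow_le_pow_right hC hcard))
      · simp [hk]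
    · refine le_trans (Finset.card_le_card (t := K') ?_) (by rwa [Fintype.card_coe] at hcard)
      intro k hk
      rw [Finset.mem_filter] at hk
      by_contra hk'
      exact hk.2 (by simp [hk'])
    · intro i
      rw [← hsum i]
      have e1 : ∀ k, (((if hk : k ∈ K' then N ⟨k, hk⟩ else 0 : ℕ) : ℤ)) * v k i =
          if hk : k ∈ K' then (N ⟨k, hk⟩ : ℤ) * v k i else 0 := by
        intro k
        split_ifs <;> simp
      rw [Finset.sum_congr rfl fun k _ => e1 k]
      rw [← Finset.sum_subset (Finset.subset_univ K') (by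
        intro k _ hk
        simp [hk]), ← Finset.sum_coe_sort]
      refine Finset.sum_congr rfl fun k _ => by simp

end Pool.Agent.R554.DO
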