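import Pool.Agent.R554.DO.Stm

/-!
# DO-FWD (helper451): nonsingular laws give equivalent stationary distributions
-/

namespace Pool.Agent.R554.DO

open Finset

theorem t_FWD (hC : S_CLS) (hM : S_MAX) (hS : S_STAT) : S_FWD := by
  intro S L _ _ _ _ M G hst hfit μ ν hμ hν hns
  obtain ⟨t₀, t, s, B₀, h1, h2, h3, h4, h5, h6⟩ := hC S L M G hst hfit μ ν hμ hν hns
  refine ⟨t₀, t, s, B₀, h1, h2, h3, h4, h5, ?_⟩
  have hstep : ∀ z : S × Finset S, ∀ (j : Finset S) (ℓ : L) (x y : S), Rch G z (x, j) →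
      0 < M ℓ x y → Rch G z (y, nxt G ℓ j) := by
    intro z j ℓ x y hx hxy
    exact hx.tail ⟨ℓ, (hfit ℓ x y).1 hxy, rfl⟩
  have hdl : ∀ x y : S, dl x y ≠ 0 → y = x := by
    intro x y hxy
    by_contra hne
    exact hxy (by simp [dl, hne])
  have hdl0 : ∀ x y : S, 0 ≤ dl x y := by
    intro x y
    by_cases hxy : y = x
    · subst hxy
      simp [dl]
    · simp [dl, hxy]
  obtain ⟨B, α, β, hα, hβ, hαs, hβs, hE⟩ := hM S L (Finset S) M hst
    (fun B => {t' | Rch G (t, B₀) (t', B)}) (fun B => {s' | Rch G (s, B₀) (s', B)})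
    (fun B ℓ => nxt G ℓ B) (fun j ℓ x y hx hxy => hstep _ j ℓ x y hx hxy)
    (fun j ℓ x y hx hxy => hstep _ j ℓ x y hx hxy) B₀ (dl t) (dl s) (hdl0 t) (hdl0 s)
    (fun x hx => by rw [hdl t x hx]; exact Relation.ReflTransGen.refl)
    (fun x hx => by rw [hdl s x hx]; exact Relation.ReflTransGen.refl) h6
  exact hS S L M G hst hfit (t, B₀) (s, B₀) B α β hα hβ hαs hβs hE

end Pool.Agent.R554.DO
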