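import Pool.Agent.R554.DO.Stm

/-!
# GEN: generic parameters are good if one parameter is good
-/

namespace Pool.Agent.R554.DO

open Finset

namespace GenAux

variable {S L : Type} [Fintype S] [DecidableEq S] [Fintype L] [DecidableEq L] {ι : Type}

/-- Polynomial version of `val`. -/
noncomputable def vp (Mp : L → S → S → MvPolynomial ι ℝ) : List L → S → MvPolynomial ι ℝ
  | [] => fun _ => 1
  | ℓ :: w => fun s => ∑ t, Mp ℓ s t * vp Mp w t

theorem eval_vp (Mp : L → S → S → MvPolynomial ι ℝ) (y : ι → ℝ) (w : List L) (s : S) :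
    MvPolynomial.eval y (vp Mp w s) = val (ev Mp y) w s := by
  induction w generalizing s with
  | nil => simp [vp, val]
  | cons ℓ w ih =>
    unfold vp val
    rw [map_sum]
    refine Finset.sum_congr rfl fun t _ => ?_
    rw [map_mul, ih]
    rfl

theorem deg_vp (Mp : L → S → S → MvPolynomial ι ℝ) (h : ∀ ℓ s t, (Mp ℓ s t).totalDegree ≤ 1)
    (w : List L) (s : S) : (vp Mp w s).totalDegree ≤ w.length := by
  induction w generalizing s with
  | nil => simp [vp]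
  | cons ℓ w ih =>
    unfold vp
    refine MvPolynomial.totalDegree_finsetSum_le fun t _ => ?_
    refine (MvPolynomial.totalDegree_mul _ _).trans ?_
    rw [List.length_cons]
    have h1 := h ℓ s t
    have h2 := ih t
    omega

/-- The polynomial of one pair. -/
noncomputable def pp (Mp : L → S → S → MvPolynomial ι ℝ) (w : List L) (B : Finset S)
    (d d' : MvPolynomial ι ℝ) (c c' : S × Finset S → MvPolynomial ι ℝ) : MvPolynomial ι ℝ :=
  ∑ t, c (t, B) * vp Mp w t * d' - ∑ t, c' (t, B) * vp Mp w t * d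

theorem eval_pp (Mp : L → S → S → MvPolynomial ι ℝ) (w : List L) (B : Finset S)
    (d d' : MvPolynomial ι ℝ) (c c' : S × Finset S → MvPolynomial ι ℝ) (y : ι → ℝ)
    (a b : S × Finset S → ℝ)
    (ha : ∀ z, a z * MvPolynomial.eval y d = MvPolynomial.eval y (c z))
    (hb : ∀ z, b z * MvPolynomial.eval y d' = MvPolynomial.eval y (c' z)) :
    MvPolynomial.eval y (pp Mp w B d d' c c') = MvPolynomial.eval y d * MvPolynomial.eval y d' *
      (pr (ev Mp y) (fun t => a (t, B)) w - pr (ev Mp y) (fun t => b (t, B)) w) := by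
  unfold pp pr
  rw [map_sub, map_sum, map_sum, mul_sub, Finset.mul_sum, Finset.mul_sum]
  congr 1
  · refine Finset.sum_congr rfl fun t _ => ?_
    rw [map_mul, map_mul, eval_vp, ← ha]
    ring
  · refine Finset.sum_congr rfl fun t _ => ?_
    rw [map_mul, map_mul, eval_vp, ← hb]
    ring

theorem deg_pp (Mp : L → S → S → MvPolynomial ι ℝ) (h : ∀ ℓ s t, (Mp ℓ s t).totalDegree ≤ 1)
    (w : List L) (hw : w.length ≤ Fintype.card S) (B : Finset S)
    (d d' : MvPolynomial ι ℝ) (c c' : S × Finset S → MvPolynomial ι ℝ)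
    (hd : d.totalDegree ≤ Fintype.card (S × Finset S))
    (hd' : d'.totalDegree ≤ Fintype.card (S × Finset S))
    (hc : ∀ z, (c z).totalDegree ≤ Fintype.card (S × Finset S))
    (hc' : ∀ z, (c' z).totalDegree ≤ Fintype.card (S × Finset S)) :
    (pp Mp w B d d' c c').totalDegree ≤ 2 * Fintype.card (S × Finset S) + Fintype.card S := by
  unfold pp
  refine (MvPolynomial.totalDegree_sub _ _).trans (max_le ?_ ?_)
  · refine MvPolynomial.totalDegree_finsetSum_le fun t _ => ?_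
    refine (MvPolynomial.totalDegree_mul _ _).trans ?_
    have h1 := MvPolynomial.totalDegree_mul (c (t, B)) (vp Mp w t)
    have h2 := deg_vp Mp h w t
    have h3 := hc (t, B)
    omega
  · refine MvPolynomial.totalDegree_finsetSum_le fun t _ => ?_
    refine (MvPolynomial.totalDegree_mul _ _).trans ?_
    have h1 := MvPolynomial.totalDegree_mul (c' (t, B)) (vp Mp w t)
    have h2 := deg_vp Mp h w t
    have h3 := hc' (t, B)
    omega

theorem num (n : ℕ) (hn : 1 ≤ n) : n * (n * 2 ^ n) * (2 * (n * 2 ^ n) + n) ≤ 64 ^ n := by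
  obtain ⟨m, rfl⟩ : ∃ m, n = m + 1 := ⟨n - 1, by omega⟩
  have h1 : m + 1 ≤ 2 ^ m := Nat.lt_two_pow_self
  have h2 : (m + 1) ^ 3 ≤ (2 ^ m) ^ 3 := Nat.pow_le_pow_left h1 3
  have h3 : 1 ≤ 2 ^ (m + 1) := Nat.one_le_two_pow
  calc (m + 1) * ((m + 1) * 2 ^ (m + 1)) * (2 * ((m + 1) * 2 ^ (m + 1)) + (m + 1))
      ≤ (m + 1) * ((m + 1) * 2 ^ (m + 1)) * (2 * ((m + 1) * 2 ^ (m + 1))
        + (m + 1) * 2 ^ (m + 1)) := by
        refine Nat.mul_le_mul_left _ (Nat.add_le_add_left ?_ _)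
        exact Nat.le_mul_of_pos_right _ h3
    _ = 3 * (m + 1) ^ 3 * (2 ^ (m + 1) * 2 ^ (m + 1)) := by ring
    _ ≤ 8 * (2 ^ m) ^ 3 * (2 ^ (m + 1) * 2 ^ (m + 1)) :=
        Nat.mul_le_mul_right _ (Nat.mul_le_mul (by omega) h2)
    _ = (2 ^ (m + 1)) ^ 3 * (2 ^ (m + 1)) ^ 2 := by ring
    _ = (2 ^ (m + 1)) ^ 5 := by ring
    _ ≤ (2 ^ (m + 1)) ^ 6 := Nat.pow_le_pow_right h3 (by omega)
    _ = 64 ^ (m + 1) := by
        rw [← pow_mul, mul_comm, pow_mul]
        norm_num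

/-- The pairs coming from nonsingularity. -/
def Rel (G : L → S → S → Prop) (μ ν : S → ℝ) (x : S × S × Finset S) : Prop :=
  x.2.1 ∈ x.2.2 ∧ Ess G (x.1, x.2.2) ∧ Ess G (x.2.1, x.2.2) ∧
    ∃ t₀, 0 < μ t₀ ∧ Rch G (t₀, sp ν) (x.1, x.2.2)

theorem one (hConv : S_CONV) (hDim : S_DIM) (hUniq : S_UNIQ) (hEx : S_EXST)
    (Mp : L → S → S → MvPolynomial ι ℝ) (G : L → S → S → Prop)
    (hdeg : ∀ ℓ s t, (Mp ℓ s t).totalDegree ≤ 1) (μ ν : S → ℝ) (hμ : Dist μ) (hν : Dist ν)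
    (y₀ : ι → ℝ) (hy₀ : Adm Mp G y₀) (hs : Sing (ev Mp y₀) μ ν) (x : S × S × Finset S) :
    ∃ p : MvPolynomial ι ℝ, MvPolynomial.eval y₀ p ≠ 0 ∧
      p.totalDegree ≤ 2 * Fintype.card (S × Finset S) + Fintype.card S ∧
      (Rel G μ ν x → ∀ y, Adm Mp G y → MvPolynomial.eval y p ≠ 0 → ∀ a b,
        StatIn (ev Mp y) G (x.1, x.2.2) a → StatIn (ev Mp y) G (x.2.1, x.2.2) b →
          ¬ EqvZ (ev Mp y) a b) := by
  obtain ⟨t, s, B⟩ := x
  by_cases hx : Rel G μ ν (t, s, B)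
  · obtain ⟨hsB, he1, he2, t₀, ht₀, hr⟩ := hx
    obtain ⟨d, c, hd, hc, h1⟩ := hUniq S L ι Mp G hdeg (t, B) he1
    obtain ⟨d', c', hd', hc', h1'⟩ := hUniq S L ι Mp G hdeg (s, B) he2
    obtain ⟨a₀, ha₀⟩ := hEx S L (ev Mp y₀) G hy₀.1 hy₀.2 (t, B)
    obtain ⟨b₀, hb₀⟩ := hEx S L (ev Mp y₀) G hy₀.1 hy₀.2 (s, B)
    have hne : ¬ EqvZ (ev Mp y₀) a₀ b₀ := fun h =>
      hConv S L (ev Mp y₀) G hy₀.1 hy₀.2 μ ν hμ hν t₀ t s B ht₀ hr hsB a₀ b₀ ha₀ hb₀ h hs
    unfold EqvZ at hne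
    push Not at hne
    obtain ⟨B₁, hB₁⟩ := hne
    have hw : ∃ w : List L, w.length ≤ Fintype.card S ∧
        pr (ev Mp y₀) (fun t => a₀ (t, B₁)) w ≠ pr (ev Mp y₀) (fun t => b₀ (t, B₁)) w := by
      by_contra hcon
      push Not at hcon
      exact hB₁ (hDim S L (ev Mp y₀) _ _ hcon)
    obtain ⟨w, hwl, hw⟩ := hw
    refine ⟨pp Mp w B₁ d d' c c', ?_, deg_pp Mp hdeg w hwl B₁ d d' c c' hd hd' hc hc', ?_⟩
    · rw [eval_pp Mp w B₁ d d' c c' y₀ a₀ b₀ ((h1 y₀ hy₀).2 a₀ ha₀) ((h1' y₀ hy₀).2 b₀ hb₀)]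
      exact mul_ne_zero (mul_ne_zero (h1 y₀ hy₀).1 (h1' y₀ hy₀).1) (sub_ne_zero.mpr hw)
    · intro _ y hy hne a b ha hb hab
      apply hne
      rw [eval_pp Mp w B₁ d d' c c' y a b ((h1 y hy).2 a ha) ((h1' y hy).2 b hb), hab B₁ w,
        sub_self, mul_zero]
  · refine ⟨1, by simp, by simp, fun h => absurd h hx⟩

end GenAux

open GenAux in
/-- GEN. -/
theorem t_GEN (hFwd : S_FWD) (hConv : S_CONV) (hDim : S_DIM) (hUniq : S_UNIQ)
    (hEx : S_EXST) : S_GEN := by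
  intro S L ι _ _ _ _ Mp G hdeg μ ν hμ hν y₀ hy₀ hs
  choose p h1 h2 h3 using one hConv hDim hUniq hEx Mp G hdeg μ ν hμ hν y₀ hy₀ hs
  have hn : 1 ≤ Fintype.card S := by
    by_contra hc
    have hc : IsEmpty S := Fintype.card_eq_zero_iff.mp (by omega)
    have := hμ.sum
    rw [Finset.univ_eq_empty, Finset.sum_empty] at this
    exact zero_ne_one this
  refine ⟨∏ x, p x, ?_, ?_, ?_⟩
  · rw [map_prod]
    exact Finset.prod_ne_zero_iff.mpr fun x _ => h1 x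
  · refine (MvPolynomial.totalDegree_finsetProd _ _).trans ?_
    refine (Finset.sum_le_sum fun x _ => h2 x).trans ?_
    rw [Finset.sum_const, smul_eq_mul, Finset.card_univ]
    refine le_trans (le_of_eq ?_) (num (Fintype.card S) hn)
    rw [Fintype.card_prod, Fintype.card_prod, Fintype.card_finset]
  · intro y hy hne
    by_contra hc
    obtain ⟨t₀, t, s, B, ht₀, hr, hsB, he1, he2, a, b, ha, hb, hab⟩ :=
      hFwd S L (ev Mp y) G hy.1 hy.2 μ ν hμ hν hc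
    rw [map_prod] at hne
    have h4 := Finset.prod_ne_zero_iff.mp hne (t, s, B) (Finset.mem_univ _)
    exact h3 (t, s, B) ⟨hsB, he1, he2, t₀, ht₀, hr⟩ y hy h4 a b ha hb hab

end Pool.Agent.R554.DO
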