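import Pool.Agent.R554.DO.Stm

/-! Piece GRID: a nonzero polynomial does not vanish on a large grid. -/

set_option autoImplicit false

namespace Pool.Agent.R554.DO

theorem t_GRID : S_GRID := by
  classical
  intro ι _ p D K hK hp hD
  by_contra hcon
  push Not at hcon
  apply hp
  have hK' : (K : ℝ) ≠ 0 := by exact_mod_cast hK.ne'
  apply MvPolynomial.eq_zero_of_eval_zero_at_prod_finset p
    (fun _ => (Finset.Icc 1 (D + 1)).image (fun k : ℕ => (k : ℝ) / K))
  · intro i
    rw [Finset.card_image_of_injective]
    · have := MvPolynomial.degreeOf_le_totalDegree p i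
      rw [Nat.card_Icc]
      omega
    · intro a b h
      have h2 : (a : ℝ) / K = (b : ℝ) / K := h
      rw [div_left_inj' hK'] at h2
      exact_mod_cast h2
  · intro x hx
    choose y hy using fun i => Finset.mem_image.1 (hx i)
    have e : x = fun i => (y i : ℝ) / K := funext fun i => (hy i).2.symm
    rw [e]
    exact hcon y (fun i => Finset.mem_Icc.1 (hy i).1)

end Pool.Agent.R554.DO
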