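import Pool.Agent.R554.DO.Chk

/-!
# LAW: existence of the law of the label sequence

Words are coded by consecutive half-open subintervals of `[0, 1)`; the law is the image of the
Lebesgue measure under the decoding map.
-/

namespace Pool.Agent.R554.DO

open Finset MeasureTheory

namespace LAW

/-- Left end point of the interval of the word `w`. -/
noncomputable def lft (p : List ℕ → ℝ) (w : List ℕ) : ℝ :=
  ∑ i ∈ range w.length, ∑ k ∈ range (w.getD i 0), p (w.take i ++ [k])

/-- The interval of the word `w`. -/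
def J (p : List ℕ → ℝ) (w : List ℕ) : Set ℝ := Set.Ico (lft p w) (lft p w + p w)

/-- Partial sums of the children of `w`. -/
noncomputable def S (p : List ℕ → ℝ) (w : List ℕ) (n : ℕ) : ℝ := ∑ k ∈ range n, p (w ++ [k])

lemma lft_snoc (p : List ℕ → ℝ) (w : List ℕ) (l : ℕ) :
    lft p (w ++ [l]) = lft p w + S p w l := by
  unfold lft S
  rw [List.length_append, List.length_singleton, Finset.sum_range_succ]
  congr 1
  · refine Finset.sum_congr rfl fun i hi => ?_
    have hi' : i < w.length := Finset.mem_range.mp hi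
    rw [List.getD_append _ _ _ _ hi', List.take_append_of_le_length hi'.le]
  · have h1 : (w ++ [l]).getD w.length 0 = l := by
      rw [List.getD_append_right _ _ _ _ le_rfl]; simp
    have h2 : (w ++ [l]).take w.length = w := by simp
    rw [h1, h2]

variable {p : List ℕ → ℝ} {m : ℕ}

lemma S_succ (w : List ℕ) (l : ℕ) : S p w (l + 1) = S p w l + p (w ++ [l]) := by
  unfold S; rw [Finset.sum_range_succ]

lemma mem_J_snoc (w : List ℕ) (l : ℕ) (u : ℝ) :
    u ∈ J p (w ++ [l]) ↔ S p w l ≤ u - lft p w ∧ u - lft p w < S p w (l + 1) := by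
  unfold J
  rw [Set.mem_Ico, lft_snoc, S_succ]
  constructor
  · rintro ⟨h1, h2⟩
    exact ⟨by linarith, by linarith⟩
  · rintro ⟨h1, h2⟩
    exact ⟨by linarith, by linarith⟩

lemma S_mono (hp : ∀ w, 0 ≤ p w) (w : List ℕ) : Monotone (S p w) := by
  refine monotone_nat_of_le_succ fun n => ?_
  rw [S_succ]; linarith [hp (w ++ [n])]

lemma S_le (hp : ∀ w, 0 ≤ p w) (hz : ∀ w : List ℕ, (∃ l ∈ w, m ≤ l) → p w = 0)
    (hs : ∀ w, ∑ l ∈ range m, p (w ++ [l]) = p w) (w : List ℕ) (n : ℕ) : S p w n ≤ p w := by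
  have h1 : S p w n ≤ S p w (m + n) := S_mono hp w (by omega)
  have h2 : ∀ k, S p w (m + k) = p w := by
    intro k
    induction k with
    | zero => exact hs w
    | succ k ih =>
      rw [← add_assoc, S_succ, ih, hz (w ++ [m + k]) ⟨m + k, by simp, by omega⟩, add_zero]
  rw [h2] at h1
  exact h1

lemma J_sub (hp : ∀ w, 0 ≤ p w) (hz : ∀ w : List ℕ, (∃ l ∈ w, m ≤ l) → p w = 0)
    (hs : ∀ w, ∑ l ∈ range m, p (w ++ [l]) = p w) (w : List ℕ) (l : ℕ) {u : ℝ}
    (hu : u ∈ J p (w ++ [l])) : u ∈ J p w := by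
  rw [mem_J_snoc] at hu
  have h0 : 0 ≤ S p w l := Finset.sum_nonneg fun _ _ => hp _
  have h1 := S_le hp hz hs w (l + 1)
  exact Set.mem_Ico.mpr ⟨by linarith [hu.1], by linarith [hu.2]⟩

lemma J_split (hs : ∀ w, ∑ l ∈ range m, p (w ++ [l]) = p w) (w : List ℕ) {u : ℝ}
    (hu : u ∈ J p w) : ∃ l, u ∈ J p (w ++ [l]) := by
  have hu' := Set.mem_Ico.mp hu
  have hex : ∃ k, u - lft p w < S p w k := ⟨m, by
    have : S p w m = p w := hs w
    rw [this]; linarith [hu'.2]⟩
  classical
  have h1 := Nat.find_spec hex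
  have h0 : Nat.find hex ≠ 0 := by
    intro h
    rw [h] at h1
    have : S p w 0 = 0 := by simp [S]
    rw [this] at h1
    linarith [hu'.1]
  obtain ⟨l, hl⟩ := Nat.exists_eq_succ_of_ne_zero h0
  refine ⟨l, (mem_J_snoc w l u).mpr ⟨?_, ?_⟩⟩
  · have := Nat.find_min hex (m := l) (by omega)
    exact not_lt.mp this
  · rw [hl] at h1; exact h1

lemma J_uniq1 (hp : ∀ w, 0 ≤ p w) (w : List ℕ) (l l' : ℕ) {u : ℝ}
    (h : u ∈ J p (w ++ [l])) (h' : u ∈ J p (w ++ [l'])) : l = l' := by
  rw [mem_J_snoc] at h h'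
  rcases lt_trichotomy l l' with hl | hl | hl
  · have := S_mono hp w (show l + 1 ≤ l' from hl)
    exfalso; linarith [h.2, h'.1]
  · exact hl
  · have := S_mono hp w (show l' + 1 ≤ l from hl)
    exfalso; linarith [h'.2, h.1]

lemma J_uniq (hp : ∀ w, 0 ≤ p w) (hz : ∀ w : List ℕ, (∃ l ∈ w, m ≤ l) → p w = 0)
    (hs : ∀ w, ∑ l ∈ range m, p (w ++ [l]) = p w) {u : ℝ} (w : List ℕ) :
    ∀ w' : List ℕ, w'.length = w.length → u ∈ J p w → u ∈ J p w' → w' = w := by
  induction w using List.reverseRecOn with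
  | nil => intro w' hl _ _; exact List.length_eq_zero_iff.mp hl
  | append_singleton a l ih =>
    intro w' hl hu hu'
    rcases List.eq_nil_or_concat w' with h | ⟨a', l', h⟩
    · rw [h] at hl; simp at hl
    · rw [List.concat_eq_append] at h
      subst h
      have e : a' = a := ih a' (by simpa using hl) (J_sub hp hz hs a l hu)
        (J_sub hp hz hs a' l' hu')
      subst e
      rw [J_uniq1 hp a' l l' hu hu']

lemma J_take (hp : ∀ w, 0 ≤ p w) (hz : ∀ w : List ℕ, (∃ l ∈ w, m ≤ l) → p w = 0)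
    (hs : ∀ w, ∑ l ∈ range m, p (w ++ [l]) = p w) {u : ℝ} (w : List ℕ) :
    ∀ i, u ∈ J p w → u ∈ J p (w.take i) := by
  induction w using List.reverseRecOn with
  | nil => intro i hu; simpa using hu
  | append_singleton a l ih =>
    intro i hu
    rcases le_or_gt i a.length with h | h
    · rw [List.take_append_of_le_length h]
      exact ih i (J_sub hp hz hs a l hu)
    · rw [List.take_of_length_le (by simp; omega)]
      exact hu

lemma J_exists (h1 : p [] = 1) (hs : ∀ w, ∑ l ∈ range m, p (w ++ [l]) = p w) {u : ℝ}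
    (hu : u ∈ Set.Ico (0:ℝ) 1) : ∀ n, ∃ w : List ℕ, w.length = n ∧ u ∈ J p w := by
  intro n
  induction n with
  | zero =>
    refine ⟨[], rfl, ?_⟩
    have : lft p [] = 0 := by simp [lft]
    unfold J
    rw [this, h1, zero_add]
    exact hu
  | succ n ih =>
    obtain ⟨w, hw, huw⟩ := ih
    obtain ⟨l, hl⟩ := J_split hs w huw
    exact ⟨w ++ [l], by simp [hw], hl⟩

lemma J_unit (h1 : p [] = 1) (hp : ∀ w, 0 ≤ p w)
    (hz : ∀ w : List ℕ, (∃ l ∈ w, m ≤ l) → p w = 0)
    (hs : ∀ w, ∑ l ∈ range m, p (w ++ [l]) = p w) (w : List ℕ) : J p w ⊆ Set.Ico (0:ℝ) 1 := by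
  intro u hu
  have h := J_take hp hz hs w 0 hu
  have h0 : lft p [] = 0 := by simp [lft]
  rw [List.take_zero] at h
  unfold J at h
  rwa [h0, h1, zero_add] at h

open Classical in
/-- The decoding map. -/
noncomputable def dec (p : List ℕ → ℝ) (u : ℝ) (i : ℕ) : ℕ :=
  if h : ∃ w : List ℕ, w.length = i + 1 ∧ u ∈ J p w then (Classical.choose h).getD i 0 else 0

lemma dec_eq (hp : ∀ w, 0 ≤ p w) (hz : ∀ w : List ℕ, (∃ l ∈ w, m ≤ l) → p w = 0)
    (hs : ∀ w, ∑ l ∈ range m, p (w ++ [l]) = p w) {u : ℝ} {w : List ℕ} {i : ℕ}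
    (hw : i < w.length) (hu : u ∈ J p w) : dec p u i = w[i] := by
  have h : ∃ w : List ℕ, w.length = i + 1 ∧ u ∈ J p w :=
    ⟨w.take (i + 1), by simp; omega, J_take hp hz hs w (i + 1) hu⟩
  unfold dec
  rw [dif_pos h]
  have hc := Classical.choose_spec h
  have e : Classical.choose h = w.take (i + 1) :=
    J_uniq hp hz hs (w.take (i + 1)) _ (by rw [hc.1]; simp; omega)
      (J_take hp hz hs w (i + 1) hu) hc.2
  rw [e]
  have hi : i < (w.take (i + 1)).length := by simp; omega
  rw [List.getD_eq_getElem _ _ hi, List.getElem_take]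

lemma dec_mem_cyl (h1 : p [] = 1) (hp : ∀ w, 0 ≤ p w)
    (hz : ∀ w : List ℕ, (∃ l ∈ w, m ≤ l) → p w = 0)
    (hs : ∀ w, ∑ l ∈ range m, p (w ++ [l]) = p w) {u : ℝ} (hu : u ∈ Set.Ico (0:ℝ) 1)
    (w : List ℕ) : dec p u ∈ cyl w ↔ u ∈ J p w := by
  constructor
  · intro h
    obtain ⟨w', hl, hw'⟩ := J_exists h1 hs hu w.length
    have e : w' = w := by
      refine List.ext_getElem hl fun i hi hi' => ?_
      rw [← dec_eq hp hz hs hi hw']
      exact h i hi'
    rw [← e]; exact hw'
  · intro h i hi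
    exact dec_eq hp hz hs hi h

lemma J_meas (w : List ℕ) : MeasurableSet (J p w) := measurableSet_Ico

lemma dec_meas (hp : ∀ w, 0 ≤ p w)
    (hz : ∀ w : List ℕ, (∃ l ∈ w, m ≤ l) → p w = 0)
    (hs : ∀ w, ∑ l ∈ range m, p (w ++ [l]) = p w) : Measurable (dec p) := by
  rw [measurable_pi_iff]
  intro i
  refine measurable_to_countable' fun k => ?_
  have e : (fun u => dec p u i) ⁻¹' {k} =
      (⋃ w : List ℕ, ⋃ _ : w.length = i + 1 ∧ w.getD i 0 = k, J p w) ∪
      ((⋃ w : List ℕ, ⋃ _ : w.length = i + 1, J p w)ᶜ ∩ {_u : ℝ | (0:ℕ) = k}) := by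
    ext u
    simp only [Set.mem_preimage, Set.mem_singleton_iff, Set.mem_union, Set.mem_iUnion,
      Set.mem_inter_iff, Set.mem_compl_iff, Set.mem_setOf_eq, exists_prop]
    by_cases h : ∃ w : List ℕ, w.length = i + 1 ∧ u ∈ J p w
    · obtain ⟨w, hw, huw⟩ := h
      have hi : i < w.length := by omega
      rw [dec_eq hp hz hs hi huw]
      constructor
      · intro hk
        refine Or.inl ⟨w, ⟨hw, ?_⟩, huw⟩
        rw [List.getD_eq_getElem _ _ hi]; exact hk
      · rintro (⟨w', ⟨hw', hk⟩, hu'⟩ | ⟨hn, _⟩)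
        · have e : w' = w := J_uniq hp hz hs w w' (by omega) huw hu'
          subst e
          rw [List.getD_eq_getElem _ _ hi] at hk; exact hk
        · exact absurd ⟨w, hw, huw⟩ hn
    · have h0 : dec p u i = 0 := by unfold dec; rw [dif_neg h]
      rw [h0]
      constructor
      · intro hk
        exact Or.inr ⟨h, hk⟩
      · rintro (⟨w', ⟨hw', _⟩, hu'⟩ | ⟨_, hk⟩)
        · exact absurd ⟨w', hw', hu'⟩ h
        · exact hk
  rw [e]
  refine MeasurableSet.union ?_ (MeasurableSet.inter (MeasurableSet.compl ?_) ?_)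
  · exact MeasurableSet.iUnion fun w => MeasurableSet.iUnion fun _ => J_meas w
  · exact MeasurableSet.iUnion fun w => MeasurableSet.iUnion fun _ => J_meas w
  · by_cases hk : (0:ℕ) = k
    · simp [hk]
    · simp [hk]

end LAW

open LAW in
theorem t_LAW : S_LAW := by
  intro p m hp h1 hz hs
  have hm : Measurable (dec p) := dec_meas hp hz hs
  refine ⟨(volume.restrict (Set.Ico (0:ℝ) 1)).map (dec p), ?_, ?_⟩
  · have : IsProbabilityMeasure (volume.restrict (Set.Ico (0:ℝ) 1)) := ⟨by simp⟩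
    exact Measure.isProbabilityMeasure_map hm.aemeasurable
  · intro w
    have hc : MeasurableSet (cyl w) := by
      have e : cyl w = ⋂ (i : ℕ), ⋂ (h : i < w.length), {x : ℕ → ℕ | x i = w[i]} := by
        ext x; simp [cyl]
      rw [e]
      refine MeasurableSet.iInter fun i => MeasurableSet.iInter fun h => ?_
      exact (measurable_pi_apply i) (measurableSet_singleton _)
    rw [Measure.real, Measure.map_apply hm hc, Measure.restrict_apply (hm hc)]
    have e : dec p ⁻¹' cyl w ∩ Set.Ico (0:ℝ) 1 = J p w := by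
      ext u
      constructor
      · rintro ⟨h, hu⟩
        exact (dec_mem_cyl h1 hp hz hs hu w).mp h
      · intro h
        have hu := J_unit h1 hp hz hs w h
        exact ⟨(dec_mem_cyl h1 hp hz hs hu w).mpr h, hu⟩
    rw [e]
    unfold J
    rw [Real.volume_Ico, add_sub_cancel_left, ENNReal.toReal_ofReal (hp w)]

end Pool.Agent.R554.DO
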