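import Pool.Agent.R554.DO.Chk

/-! # LINK (helper381) -/

namespace Pool.Agent.R554.DO

open Finset MeasureTheory

namespace LINK

variable {S L : Type} [Fintype S] [Fintype L]

lemma val_nonneg {M : L → S → S → ℝ} (hM : Stoch M) (w : List L) (s : S) : 0 ≤ val M w s := by
  induction w generalizing s with
  | nil => exact zero_le_one
  | cons a w ih => exact sum_nonneg fun t _ => mul_nonneg (hM.nonneg a s t) (ih t)

lemma val_append {M : L → S → S → ℝ} (hM : Stoch M) (w : List L) (s : S) :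
    ∑ ℓ, val M (w ++ [ℓ]) s = val M w s := by
  induction w generalizing s with
  | nil =>
    simp only [List.nil_append, val, mul_one]
    exact hM.sum s
  | cons a w ih =>
    simp only [List.cons_append, val]
    rw [sum_comm]
    refine sum_congr rfl fun t _ => ?_
    rw [← mul_sum, ih]

lemma pr_append {M : L → S → S → ℝ} (hM : Stoch M) (α : S → ℝ) (w : List L) :
    ∑ ℓ, pr M α (w ++ [ℓ]) = pr M α w := by
  unfold pr
  rw [sum_comm]
  refine sum_congr rfl fun t _ => ?_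
  rw [← mul_sum, val_append hM]

lemma exists_fin (m : ℕ) (w : List ℕ) (h : ∀ ℓ ∈ w, ℓ < m) :
    ∃ v : List (Fin m), v.map Fin.val = w := by
  induction w with
  | nil => exact ⟨[], rfl⟩
  | cons a w ih =>
    obtain ⟨v, hv⟩ := ih fun ℓ hℓ => h ℓ (List.mem_cons_of_mem a hℓ)
    refine ⟨⟨a, h a List.mem_cons_self⟩ :: v, ?_⟩
    rw [List.map_cons, hv]

/-- the law exists -/
lemma law (hTR : S_TR1) (hLAW : S_LAW) (I : Inst) (σ : ℕ → ℕ → ℝ) (hV : Valid I)
    (hS : Strat I σ) (μ : List ℚ) (hμ : μ.length = nst I) (hd : Dist (vecL I μ)) :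
    ∃ P, IsLaw I σ μ P := by
  obtain ⟨hM, -, -, hf, hz⟩ := hTR I σ hV hS
  refine hLAW (fun w => ip I σ μ w) (mlab I) ?_ ?_ (fun w hw => hz μ w hw) ?_
  · intro w
    by_cases hw : ∃ ℓ ∈ w, mlab I ≤ ℓ
    · exact (hz μ w hw).ge
    · push Not at hw
      obtain ⟨v, rfl⟩ := exists_fin (mlab I) w hw
      rw [hf μ hμ v]
      exact sum_nonneg fun s _ => mul_nonneg (hd.nonneg s) (val_nonneg hM v s)
  · have h := hf μ hμ []
    simp only [List.map_nil] at h
    rw [h]
    unfold pr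
    simp only [val, mul_one]
    exact hd.sum
  · intro w
    by_cases hw : ∃ ℓ ∈ w, mlab I ≤ ℓ
    · rw [hz μ w hw]
      refine sum_eq_zero fun ℓ _ => hz μ _ ?_
      obtain ⟨a, ha, h⟩ := hw
      exact ⟨a, List.mem_append_left _ ha, h⟩
    · push Not at hw
      obtain ⟨v, rfl⟩ := exists_fin (mlab I) w hw
      rw [hf μ hμ v, ← pr_append hM, Finset.sum_range]
      refine sum_congr rfl fun ℓ _ => ?_
      rw [← hf μ hμ (v ++ [ℓ])]
      simp

end LINK

open LINK in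
/-- LINK -/
theorem t_LINK (hTR : S_TR1) (hTV : S_TV) (hLAW : S_LAW) (hW : S_WSUM) : S_LINK := by
  intro I σ hV hS
  obtain ⟨hM, hα, hβ, hf, hz⟩ := hTR I σ hV hS
  have key : ∀ P Q, IsLaw I σ I.2.1 P → IsLaw I σ I.2.2 Q → (tv P Q = 1 ↔
      Sing (mix (Dm I) (rst I σ)) (vecL I I.2.1) (vecL I I.2.2)) := by
    intro P Q hP hQ
    have h1 := hTV P Q hP.1 hQ.1 (mlab I) (fun w hw => by
      rw [hP.2 w, hQ.2 w]
      exact ⟨hz _ w hw, hz _ w hw⟩)
    rw [h1]
    unfold Sing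
    have h2 : ∀ n : ℕ, ∑ w : Fin n → Fin (mlab I),
        √(P.real (cyl ((List.ofFn w).map Fin.val)) * Q.real (cyl ((List.ofFn w).map Fin.val))) =
        Hn (mix (Dm I) (rst I σ)) n (vecL I I.2.1) (vecL I I.2.2) := by
      intro n
      rw [hW]
      refine sum_congr rfl fun w _ => ?_
      rw [hP.2, hQ.2, hf I.2.1 rfl, hf I.2.2 hV.len]
    simp only [h2]
  constructor
  · rintro ⟨P, Q, hP, hQ, h⟩
    exact (key P Q hP hQ).1 h
  · intro h
    obtain ⟨P, hP⟩ := law hTR hLAW I σ hV hS I.2.1 rfl hα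
    obtain ⟨Q, hQ⟩ := law hTR hLAW I σ hV hS I.2.2 hV.len hβ
    exact ⟨P, Q, hP, hQ, (key P Q hP hQ).2 h⟩

end Pool.Agent.R554.DO
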