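import Pool.Agent.R554.DO.Stm

/-! MAX: the maximiser principle. -/

set_option autoImplicit false

namespace Pool.Agent.R554.DO

open Finset Filter Topology

namespace MaxP

section

variable {S L : Type} [Fintype S] [DecidableEq S] [Fintype L] [DecidableEq L]

theorem push_nonneg {M : L → S → S → ℝ} (hM : Stoch M) {α : S → ℝ} (h : ∀ s, 0 ≤ α s) (ℓ : L)
    (t : S) : 0 ≤ push M ℓ α t :=
  Finset.sum_nonneg (fun s _ => mul_nonneg (h s) (hM.nonneg ℓ s t))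

theorem val_nonneg {M : L → S → S → ℝ} (hM : Stoch M) (w : List L) : ∀ s, 0 ≤ val M w s := by
  induction w with
  | nil => intro s; simp [val]
  | cons ℓ w ih =>
    intro s
    exact Finset.sum_nonneg (fun t _ => mul_nonneg (hM.nonneg ℓ s t) (ih t))

theorem pr_nonneg {M : L → S → S → ℝ} (hM : Stoch M) {α : S → ℝ} (h : ∀ s, 0 ≤ α s)
    (w : List L) : 0 ≤ pr M α w :=
  Finset.sum_nonneg (fun s _ => mul_nonneg (h s) (val_nonneg hM w s))

theorem push_cont (M : L → S → S → ℝ) (ℓ : L) : Continuous (push M ℓ) := by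
  unfold push
  fun_prop

theorem Hn_cont (M : L → S → S → ℝ) (n : ℕ) :
    Continuous (fun x : (S → ℝ) × (S → ℝ) => Hn M n x.1 x.2) := by
  induction n with
  | zero =>
    simp only [Hn]
    fun_prop
  | succ n ih =>
    simp only [Hn]
    refine continuous_finsetSum _ (fun ℓ _ => ?_)
    exact ih.comp (f := fun x : (S → ℝ) × (S → ℝ) => (push M ℓ x.1, push M ℓ x.2))
      (((push_cont M ℓ).comp continuous_fst).prodMk ((push_cont M ℓ).comp continuous_snd))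

/-- the affinity of the trace laws -/
noncomputable def hh (M : L → S → S → ℝ) (α β : S → ℝ) : ℝ := ⨅ n, Hn M n α β

end

end MaxP

open MaxP in
theorem t_MAX (hW : S_WSUM) (hB : S_BASIC) : S_MAX := by
  intro S L J _ _ _ _ _ M hM X Y nx hX hY j₀ α₀ β₀ hα₀ hβ₀ hαX hβY hS
  obtain ⟨-, hsum, -, hnn, hdec, hhom, -⟩ := hB S L M hM
  have hbdd : ∀ α β : S → ℝ, BddBelow (Set.range fun n => Hn M n α β) := by
    intro α β
    refine ⟨0, ?_⟩
    rintro _ ⟨n, rfl⟩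
    exact hnn n α β
  have hle : ∀ (n : ℕ) (α β : S → ℝ), hh M α β ≤ Hn M n α β :=
    fun n α β => ciInf_le (hbdd α β) n
  have hlim : ∀ (α β : S → ℝ), (∀ s, 0 ≤ α s) → (∀ s, 0 ≤ β s) →
      Tendsto (fun n => Hn M n α β) atTop (𝓝 (hh M α β)) := by
    intro α β hα hβ
    exact tendsto_atTop_ciInf (antitone_nat_of_succ_le (fun n => hdec n α β hα hβ)) (hbdd α β)
  have hrec : ∀ (α β : S → ℝ), (∀ s, 0 ≤ α s) → (∀ s, 0 ≤ β s) →
      hh M α β = ∑ ℓ, hh M (push M ℓ α) (push M ℓ β) := by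
    intro α β hα hβ
    have h1 : Tendsto (fun n => Hn M (n + 1) α β) atTop (𝓝 (hh M α β)) :=
      (hlim α β hα hβ).comp (tendsto_add_atTop_nat 1)
    have h2 : Tendsto (fun n => ∑ ℓ, Hn M n (push M ℓ α) (push M ℓ β)) atTop
        (𝓝 (∑ ℓ, hh M (push M ℓ α) (push M ℓ β))) :=
      tendsto_finsetSum _ (fun ℓ _ => hlim _ _ (push_nonneg hM hα ℓ) (push_nonneg hM hβ ℓ))
    exact tendsto_nhds_unique h1 h2
  -- the compact set
  set K : J → Set ((S → ℝ) × (S → ℝ)) := fun j =>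
    {x | x.1 ∈ stdSimplex ℝ S ∧ x.2 ∈ stdSimplex ℝ S ∧ (∀ s, s ∉ X j → x.1 s = 0) ∧
      (∀ s, s ∉ Y j → x.2 s = 0)} with hK
  have hKc : ∀ j, IsCompact (K j) := by
    intro j
    have h1 : IsCompact ((stdSimplex ℝ S) ×ˢ (stdSimplex ℝ S)) :=
      (isCompact_stdSimplex ℝ S).prod (isCompact_stdSimplex ℝ S)
    have h2 : IsClosed {x : (S → ℝ) × (S → ℝ) | ∀ s, s ∉ X j → x.1 s = 0} := by
      have : {x : (S → ℝ) × (S → ℝ) | ∀ s, s ∉ X j → x.1 s = 0} =
          ⋂ s, ⋂ (_ : s ∉ X j), {x | x.1 s = 0} := by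
        ext x; simp
      rw [this]
      refine isClosed_iInter (fun s => isClosed_iInter (fun _ => ?_))
      exact isClosed_eq (by fun_prop) continuous_const
    have h3 : IsClosed {x : (S → ℝ) × (S → ℝ) | ∀ s, s ∉ Y j → x.2 s = 0} := by
      have : {x : (S → ℝ) × (S → ℝ) | ∀ s, s ∉ Y j → x.2 s = 0} =
          ⋂ s, ⋂ (_ : s ∉ Y j), {x | x.2 s = 0} := by
        ext x; simp
      rw [this]
      refine isClosed_iInter (fun s => isClosed_iInter (fun _ => ?_))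
      exact isClosed_eq (by fun_prop) continuous_const
    have h4 : K j = (((stdSimplex ℝ S) ×ˢ (stdSimplex ℝ S)) ∩ {x | ∀ s, s ∉ X j → x.1 s = 0}) ∩
        {x | ∀ s, s ∉ Y j → x.2 s = 0} := by
      ext x
      simp only [hK, Set.mem_ofPred_eq, Set.mem_inter_iff, Set.mem_prod]
      tauto
    rw [h4]
    exact (h1.inter_right h2).inter_right h3
  have hKU : IsCompact (⋃ j, K j) := isCompact_iUnion hKc
  -- membership of normalised vectors
  have hmem : ∀ (j : J) (α β : S → ℝ), (∀ s, 0 ≤ α s) → (∀ s, 0 ≤ β s) →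
      (∀ s, α s ≠ 0 → s ∈ X j) → (∀ s, β s ≠ 0 → s ∈ Y j) → 0 < ∑ s, α s → 0 < ∑ s, β s →
      ((fun s => (∑ s, α s)⁻¹ * α s, fun s => (∑ s, β s)⁻¹ * β s) : (S → ℝ) × (S → ℝ)) ∈ K j := by
    intro j α β hα hβ h1 h2 ha hb
    refine ⟨⟨fun s => mul_nonneg (inv_nonneg.2 ha.le) (hα s), ?_⟩,
      ⟨fun s => mul_nonneg (inv_nonneg.2 hb.le) (hβ s), ?_⟩, ?_, ?_⟩
    · rw [← Finset.mul_sum]; exact inv_mul_cancel₀ ha.ne'
    · rw [← Finset.mul_sum]; exact inv_mul_cancel₀ hb.ne'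
    · intro s hs
      have : α s = 0 := by
        by_contra hc
        exact hs (h1 s hc)
      show (∑ s, α s)⁻¹ * α s = 0
      rw [this, mul_zero]
    · intro s hs
      have : β s = 0 := by
        by_contra hc
        exact hs (h2 s hc)
      show (∑ s, β s)⁻¹ * β s = 0
      rw [this, mul_zero]
  -- homogeneity
  have hnorm : ∀ (n : ℕ) (α β : S → ℝ), (∀ s, 0 ≤ α s) → (∀ s, 0 ≤ β s) → 0 < ∑ s, α s →
      0 < ∑ s, β s → Hn M n (fun s => (∑ s, α s)⁻¹ * α s) (fun s => (∑ s, β s)⁻¹ * β s) =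
        (√((∑ s, α s) * (∑ s, β s)))⁻¹ * Hn M n α β := by
    intro n α β hα hβ ha hb
    rw [hhom n α β _ _ (inv_nonneg.2 ha.le) (inv_nonneg.2 hb.le) hα hβ, ← mul_inv, Real.sqrt_inv]
  have hhnorm : ∀ (α β : S → ℝ), (∀ s, 0 ≤ α s) → (∀ s, 0 ≤ β s) → 0 < ∑ s, α s →
      0 < ∑ s, β s → (√((∑ s, α s) * (∑ s, β s)))⁻¹ * hh M α β ≤
        hh M (fun s => (∑ s, α s)⁻¹ * α s) (fun s => (∑ s, β s)⁻¹ * β s) := by
    intro α β hα hβ ha hb
    refine le_ciInf (fun n => ?_)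
    rw [hnorm n α β hα hβ ha hb]
    exact mul_le_mul_of_nonneg_left (hle n α β) (inv_nonneg.2 (Real.sqrt_nonneg _))
  -- the initial vectors
  unfold Sing at hS
  push Not at hS
  obtain ⟨ε, hε, hεn⟩ := hS
  have ha₀' : 0 ≤ ∑ s, α₀ s := Finset.sum_nonneg (fun s _ => hα₀ s)
  have hb₀' : 0 ≤ ∑ s, β₀ s := Finset.sum_nonneg (fun s _ => hβ₀ s)
  have hab : 0 < √((∑ s, α₀ s) * (∑ s, β₀ s)) := lt_of_lt_of_le hε (hεn 0)
  have hab' : 0 < (∑ s, α₀ s) * (∑ s, β₀ s) := Real.sqrt_pos.1 hab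
  have ha₀ : 0 < ∑ s, α₀ s := by
    rcases ha₀'.lt_or_eq with h | h
    · exact h
    · rw [← h, zero_mul] at hab'; exact absurd hab' (lt_irrefl _)
  have hb₀ : 0 < ∑ s, β₀ s := by
    rcases hb₀'.lt_or_eq with h | h
    · exact h
    · rw [← h, mul_zero] at hab'; exact absurd hab' (lt_irrefl _)
  have hx₀ := hmem j₀ α₀ β₀ hα₀ hβ₀ hαX hβY ha₀ hb₀
  have hpos₀ : 0 < hh M (fun s => (∑ s, α₀ s)⁻¹ * α₀ s) (fun s => (∑ s, β₀ s)⁻¹ * β₀ s) := by
    refine lt_of_lt_of_le ?_ (hhnorm α₀ β₀ hα₀ hβ₀ ha₀ hb₀)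
    exact mul_pos (inv_pos.2 hab) (lt_of_lt_of_le hε (le_ciInf hεn))
  -- the maximiser
  have husc : UpperSemicontinuousOn (fun x : (S → ℝ) × (S → ℝ) => hh M x.1 x.2) (⋃ j, K j) := by
    apply UpperSemicontinuous.upperSemicontinuousOn
    exact upperSemicontinuous_ciInf (fun x => hbdd x.1 x.2)
      (fun n => (Hn_cont M n).upperSemicontinuous)
  obtain ⟨⟨α, β⟩, hx, hmax⟩ := husc.exists_isMaxOn ⟨_, Set.mem_iUnion.2 ⟨j₀, hx₀⟩⟩ hKU
  obtain ⟨j, hj⟩ := Set.mem_iUnion.1 hx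
  set m : ℝ := hh M α β with hm
  have hmax' : ∀ j', ∀ x ∈ K j', hh M x.1 x.2 ≤ m := fun j' x hx' =>
    hmax (Set.mem_iUnion.2 ⟨j', hx'⟩)
  have hmpos : 0 < m := lt_of_lt_of_le hpos₀ (hmax' j₀ _ hx₀)
  have claim : ∀ (n : ℕ) (j' : J) (α' β' : S → ℝ), (∀ s, 0 ≤ α' s) → (∀ s, 0 ≤ β' s) →
      (∀ s, α' s ≠ 0 → s ∈ X j') → (∀ s, β' s ≠ 0 → s ∈ Y j') →
      hh M α' β' ≤ m * Hn M n α' β' := by
    intro n
    induction n with
    | zero =>
      intro j' α' β' hα hβ h1 h2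
      have ha : 0 ≤ ∑ s, α' s := Finset.sum_nonneg (fun s _ => hα s)
      have hb : 0 ≤ ∑ s, β' s := Finset.sum_nonneg (fun s _ => hβ s)
      by_cases hab1 : 0 < ∑ s, α' s ∧ 0 < ∑ s, β' s
      · have h3 := hhnorm α' β' hα hβ hab1.1 hab1.2
        have h4 := hmax' j' _ (hmem j' α' β' hα hβ h1 h2 hab1.1 hab1.2)
        have h5 : 0 < √((∑ s, α' s) * (∑ s, β' s)) :=
          Real.sqrt_pos.2 (mul_pos hab1.1 hab1.2)
        have h6 := h3.trans h4
        rw [inv_mul_le_iff₀ h5] at h6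
        show hh M α' β' ≤ m * √((∑ s, α' s) * (∑ s, β' s))
        linarith [mul_comm m (√((∑ s, α' s) * (∑ s, β' s)))]
      · have h3 : (∑ s, α' s) * (∑ s, β' s) = 0 := by
          rw [not_and_or] at hab1
          rcases hab1 with h | h
          · rw [le_antisymm (not_lt.1 h) ha, zero_mul]
          · rw [le_antisymm (not_lt.1 h) hb, mul_zero]
        have h4 : Hn M 0 α' β' = 0 := by
          show √((∑ s, α' s) * (∑ s, β' s)) = 0
          rw [h3, Real.sqrt_zero]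
        have h5 := hle 0 α' β'
        rw [h4] at h5 ⊢
        linarith
    | succ n ih =>
      intro j' α' β' hα hβ h1 h2
      rw [hrec α' β' hα hβ]
      show _ ≤ m * ∑ ℓ, Hn M n (push M ℓ α') (push M ℓ β')
      rw [Finset.mul_sum]
      refine Finset.sum_le_sum (fun ℓ _ => ?_)
      refine ih (nx j' ℓ) _ _ (push_nonneg hM hα ℓ) (push_nonneg hM hβ ℓ) ?_ ?_
      · intro t ht
        obtain ⟨s, _, hs⟩ := Finset.exists_ne_zero_of_sum_ne_zero ht
        have h3 : α' s ≠ 0 := left_ne_zero_of_mul hs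
        have h4 : M ℓ s t ≠ 0 := right_ne_zero_of_mul hs
        exact hX j' ℓ s t (h1 s h3) (lt_of_le_of_ne (hM.nonneg ℓ s t) (Ne.symm h4))
      · intro t ht
        obtain ⟨s, _, hs⟩ := Finset.exists_ne_zero_of_sum_ne_zero ht
        have h3 : β' s ≠ 0 := left_ne_zero_of_mul hs
        have h4 : M ℓ s t ≠ 0 := right_ne_zero_of_mul hs
        exact hY j' ℓ s t (h2 s h3) (lt_of_le_of_ne (hM.nonneg ℓ s t) (Ne.symm h4))
  obtain ⟨hαd, hβd, hαX', hβY'⟩ := hj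
  have hαs : ∀ s, α s ≠ 0 → s ∈ X j := by
    intro s hs
    by_contra hc
    exact hs (hαX' s hc)
  have hβs : ∀ s, β s ≠ 0 → s ∈ Y j := by
    intro s hs
    by_contra hc
    exact hs (hβY' s hc)
  refine ⟨j, α, β, ⟨hαd.1, hαd.2⟩, ⟨hβd.1, hβd.2⟩, hαs, hβs, ?_⟩
  intro w
  have h1 : 1 ≤ Hn M w.length α β := by
    have h2 := claim w.length j α β hαd.1 hβd.1 hαs hβs
    by_contra hc
    push Not at hc
    have h3 : m * Hn M w.length α β < m * 1 := mul_lt_mul_of_pos_left hc hmpos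
    rw [mul_one] at h3
    exact absurd (lt_of_le_of_lt h2 h3) (lt_irrefl _)
  rw [hW S L M w.length α β] at h1
  have hp := hsum α w.length
  have hq := hsum β w.length
  rw [hαd.2] at hp
  rw [hβd.2] at hq
  have hterm : ∀ u : Fin w.length → L, 0 ≤ (pr M α (List.ofFn u) + pr M β (List.ofFn u)) / 2 -
      √(pr M α (List.ofFn u) * pr M β (List.ofFn u)) := by
    intro u
    have hp0 := pr_nonneg hM hαd.1 (List.ofFn u)
    have hq0 := pr_nonneg hM hβd.1 (List.ofFn u)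
    have h3 : √(pr M α (List.ofFn u) * pr M β (List.ofFn u)) ≤
        (pr M α (List.ofFn u) + pr M β (List.ofFn u)) / 2 := by
      apply Real.sqrt_le_iff.2
      refine ⟨by linarith, ?_⟩
      nlinarith [sq_nonneg (pr M α (List.ofFn u) - pr M β (List.ofFn u))]
    linarith
  have hsum0 : ∑ u : Fin w.length → L, ((pr M α (List.ofFn u) + pr M β (List.ofFn u)) / 2 -
      √(pr M α (List.ofFn u) * pr M β (List.ofFn u))) ≤ 0 := by
    rw [Finset.sum_sub_distrib, ← Finset.sum_div, Finset.sum_add_distrib, hp, hq]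
    linarith
  have hz := (Finset.sum_eq_zero_iff_of_nonneg (fun u _ => hterm u)).1
    (le_antisymm hsum0 (Finset.sum_nonneg (fun u _ => hterm u))) (fun i => w.get i)
    (Finset.mem_univ _)
  rw [List.ofFn_get] at hz
  have hp0 := pr_nonneg hM hαd.1 w
  have hq0 := pr_nonneg hM hβd.1 w
  have h3 : √(pr M α w * pr M β w) = (pr M α w + pr M β w) / 2 := by linarith
  have h4 : pr M α w * pr M β w = ((pr M α w + pr M β w) / 2) ^ 2 := by
    rw [← h3, Real.sq_sqrt (mul_nonneg hp0 hq0)]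
  have h5 : (pr M α w - pr M β w) ^ 2 = 0 := by nlinarith
  have h6 := pow_eq_zero_iff (two_ne_zero) |>.1 h5
  linarith

end Pool.Agent.R554.DO
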