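import Pool.Agent.R554.DO.Chk
import Pool.Agent.R478.DOaux

/-!
NEM: the matrices of the certificate.
-/

namespace Pool.Agent.R554.DO

open Pool.Agent.R478.DOaux Finset

/-- filtered list sums as sums over indices -/
lemma nem_filt {α M : Type} [AddCommMonoid M] (Y : List α) (P : α → Prop) [DecidablePred P] (f : α → M) :
    ((Y.filter (fun x => decide (P x))).map f).sum = ∑ i : Fin Y.length, if P Y[i] then f Y[i] else 0 := by
  have h : ((Y.filter (fun x => decide (P x))).map f).sum = (Y.map (fun x => if P x then f x else 0)).sum := by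
    induction Y with
    | nil => simp
    | cons x Y ih =>
      by_cases hx : P x
      · simp [hx, ih]
      · simp [hx, ih]
  rw [h]
  exact (Fin.sum_univ_fun_getElem Y (fun x => if P x then f x else 0)).symm

lemma nem_cast {α : Type} (L : List α) (f : α → ℕ) :
    (((L.map f).sum : ℕ) : ℝ) = (L.map (fun x => (f x : ℝ))).sum := by
  induction L with
  | nil => simp
  | cons x L ih => simp [ih]

lemma nem_flat {α β M : Type} [AddCommMonoid M] (Y : List α) (G : α → List β) (P : β → Bool) (f : β → M) :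
    (((Y.flatMap G).filter P).map f).sum = (Y.map (fun k => (((G k).filter P).map f).sum)).sum := by
  induction Y with
  | nil => simp
  | cons x Y ih => simp [List.flatMap_cons, List.filter_append, ih]

lemma sgm_eq (K : ℕ) (Y : List (ℕ × ℕ × ℕ)) (s a : ℕ) :
    sgm K Y s a = (∑ i : Fin Y.length, if Y[i].1 = s ∧ Y[i].2.1 = a then (Y[i].2.2 : ℝ) else 0) / K := by
  unfold sgm
  rw [nem_filt Y (fun k => k.1 = s ∧ k.2.1 = a) (fun k => (k.2.2 : ℝ))]

lemma wt_real (D : ℕ) (p : ℚ) (hp : 0 ≤ p) (hd : p.den ∣ D) : ((wt D p : ℕ) : ℝ) = (p : ℝ) * D := by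
  have h := wt_cast D p hp hd
  have h2 : (((wt D p : ℕ) : ℚ) : ℝ) = ((p * D : ℚ) : ℝ) := by rw [h]
  push_cast at h2
  exact h2

theorem t_NEM : S_NEM := by
  intro I D K Y hV hS
  rw [chkV_iff] at hV
  rw [chkS_iff] at hS
  obtain ⟨hlen, hD, hmu, hnu, hmus, hnus, hT, htot⟩ := hV
  obtain ⟨hK, hY, hYs⟩ := hS
  have hKr : (K : ℝ) ≠ 0 := by exact_mod_cast hK.ne'
  have hDr : (D : ℝ) ≠ 0 := by exact_mod_cast hD.ne'
  have hacts : ∀ k ∈ Y, k.2.1 ∈ acts I k.1 := by
    intro k hk
    obtain ⟨e, he, h1, h2⟩ := hY k hk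
    unfold acts
    rw [List.mem_toFinset, List.mem_map]
    exact ⟨e, by simp [List.mem_filter, he, h1], h2⟩
  have hlab : ∀ e ∈ I.1, lab e < mlab I := fun e he =>
    Nat.lt_succ_of_le (List.single_le_sum (fun _ _ => Nat.zero_le _) _ (List.mem_map.2 ⟨e, he, rfl⟩))
  have hact : ∀ e ∈ I.1, act e < mact I := fun e he =>
    Nat.lt_succ_of_le (List.single_le_sum (fun _ _ => Nat.zero_le _) _ (List.mem_map.2 ⟨e, he, rfl⟩))
  refine ⟨?_, ?_, Nat.mul_pos hK hD, ?_, ?_⟩
  · -- Valid
    refine ⟨hlen, fun x hx => (hmu x hx).1, ?_, fun x hx => (hnu x hx).1, ?_,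
      fun e he => (hT e he).1, fun e he => (hT e he).2.1, fun e he => (hT e he).2.2.1.1, htot, ?_⟩
    · have h := (map_sum_eq_D D hD (fun x : ℚ => x) I.2.1 (fun x hx => (hmu x hx).1)
        (fun x hx => (hmu x hx).2)).1 hmus
      simpa using h
    · have h := (map_sum_eq_D D hD (fun x : ℚ => x) I.2.2 (fun x hx => (hnu x hx).1)
        (fun x hx => (hnu x hx).2)).1 hnus
      simpa using h
    · intro e he
      exact (map_sum_eq_D D hD pb _ (fun x hx => (hT x (List.mem_of_mem_filter hx)).2.2.1.1)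
        (fun x hx => (hT x (List.mem_of_mem_filter hx)).2.2.1.2)).1 (hT e he).2.2.2
  · -- Strat
    refine ⟨?_, ?_, ?_⟩
    · intro s a
      rw [sgm_eq]
      refine div_nonneg (Finset.sum_nonneg fun i _ => ?_) (Nat.cast_nonneg _)
      split_ifs
      · exact Nat.cast_nonneg _
      · exact le_rfl
    · intro s a h
      rw [sgm_eq] at h
      by_contra hc
      apply h
      rw [Finset.sum_eq_zero, zero_div]
      intro i _
      rw [if_neg]
      rintro ⟨h1, h2⟩
      exact hc (by rw [← h1, ← h2]; exact hacts _ (List.getElem_mem _))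
    · intro s hs
      have h := hYs s hs
      rw [nem_filt Y (fun k => k.1 = s) (fun k => k.2.2)] at h
      have h' : (∑ i : Fin Y.length, if Y[i].1 = s then (Y[i].2.2 : ℝ) else 0) = K := by
        rw [← h]
        push_cast
        rfl
      simp_rw [sgm_eq]
      rw [← Finset.sum_div, Finset.sum_comm]
      rw [div_eq_one_iff_eq hKr, ← h']
      refine Finset.sum_congr rfl fun i _ => ?_
      by_cases h1 : Y[i].1 = s
      · simp only [h1, true_and, if_true]
        rw [Finset.sum_ite_eq, if_pos]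
        rw [← h1]
        exact hacts _ (List.getElem_mem _)
      · rw [if_neg h1]
        exact Finset.sum_eq_zero fun a _ => if_neg fun hh => h1 hh.1
  · -- edges
    intro e he
    unfold edges at he
    rw [List.mem_flatMap] at he
    obtain ⟨k, hk, he⟩ := he
    rw [List.mem_map] at he
    obtain ⟨f, hf, rfl⟩ := he
    have hf' := List.mem_of_mem_filter hf
    exact ⟨(hT f hf').1, hlab f hf', (hT f hf').2.1⟩
  · -- matrices
    funext ℓ s t
    unfold scl mix rst Dm NE edges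
    rw [nem_flat, nem_cast, Nat.cast_mul]
    have hL : (List.map (fun k : ℕ × ℕ × ℕ => (((List.map (fun e : ℕ × ℕ × ℕ × ℕ => e.2.2.2)
        (List.filter (fun e => decide (e.1 = (s : ℕ) ∧ e.2.1 = (ℓ : ℕ) ∧ e.2.2.1 = (t : ℕ)))
          (List.map (fun e => (src e, lab e, tgt e, k.2.2 * wt D (pb e)))
            (List.filter (fun e => decide (src e = k.1) && decide (act e = k.2.1)) I.1)))).sum : ℕ) : ℝ)) Y).sum
        = ∑ i : Fin Y.length, ∑ j : Fin I.1.length,
          if (src I.1[j] = Y[i].1 ∧ act I.1[j] = Y[i].2.1) ∧ (src I.1[j] = (s : ℕ) ∧ lab I.1[j] = (ℓ : ℕ) ∧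
            tgt I.1[j] = (t : ℕ)) then (Y[i].2.2 : ℝ) * (pb I.1[j] * D) else 0 := by
      rw [← Fin.sum_univ_fun_getElem Y]
      refine Finset.sum_congr rfl fun i _ => ?_
      rw [List.filter_map, List.map_map, List.filter_filter, nem_cast]
      have hfl : (List.filter (fun a : Tr => ((fun e : ℕ × ℕ × ℕ × ℕ => decide (e.1 = (s : ℕ) ∧ e.2.1 = (ℓ : ℕ) ∧
          e.2.2.1 = (t : ℕ))) ∘ fun e => (src e, lab e, tgt e, Y[i].2.2 * wt D (pb e))) a &&
            (decide (src a = Y[i].1) && decide (act a = Y[i].2.1))) I.1)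
          = List.filter (fun a => decide ((src a = Y[i].1 ∧ act a = Y[i].2.1) ∧ (src a = (s : ℕ) ∧
            lab a = (ℓ : ℕ) ∧ tgt a = (t : ℕ)))) I.1 := by
        refine List.filter_congr fun a _ => ?_
        rw [Bool.eq_iff_iff]
        simp only [Function.comp_apply, Bool.and_eq_true, decide_eq_true_eq]
        tauto
      erw [hfl]
      rw [nem_filt]
      refine Finset.sum_congr rfl fun j _ => ?_
      split_ifs with hc
      · have hj := hT (I.1[j]) (List.getElem_mem _)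
        change ((Y[i].2.2 * wt D (pb I.1[j]) : ℕ) : ℝ) = _
        rw [Nat.cast_mul]
        exact congrArg (fun z => (Y[i].2.2 : ℝ) * z) (wt_real D (pb I.1[j]) hj.2.2.1.1 hj.2.2.1.2)
      · rfl
    have hR : (∑ a : Fin (mact I), sgm K Y s a * (List.map (fun e => (pb e : ℝ))
        (List.filter (fun e => decide (src e = (s : ℕ) ∧ act e = (a : ℕ) ∧ lab e = (ℓ : ℕ) ∧
          tgt e = (t : ℕ))) I.1)).sum)
        = ∑ i : Fin Y.length, ∑ j : Fin I.1.length, ∑ a : Fin (mact I),
          ((if Y[i].1 = (s : ℕ) ∧ Y[i].2.1 = (a : ℕ) then (Y[i].2.2 : ℝ) else 0) / K) *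
            (if src I.1[j] = (s : ℕ) ∧ act I.1[j] = (a : ℕ) ∧ lab I.1[j] = (ℓ : ℕ) ∧ tgt I.1[j] = (t : ℕ)
              then (pb I.1[j] : ℝ) else 0) := by
      rw [Finset.sum_congr rfl (fun i _ => Finset.sum_comm), Finset.sum_comm]
      refine Finset.sum_congr rfl fun a _ => ?_
      rw [sgm_eq, nem_filt, Finset.sum_div, Finset.sum_mul_sum]
    refine (congrArg (fun z => z / ((K : ℝ) * (D : ℝ))) hL).trans ?_
    refine Eq.trans ?_ hR.symm
    rw [Finset.sum_div]
    refine Finset.sum_congr rfl fun i _ => ?_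
    rw [Finset.sum_div]
    refine Finset.sum_congr rfl fun j _ => ?_
    by_cases hc : (src I.1[j] = Y[i].1 ∧ act I.1[j] = Y[i].2.1) ∧ (src I.1[j] = (s : ℕ) ∧
        lab I.1[j] = (ℓ : ℕ) ∧ tgt I.1[j] = (t : ℕ))
    · rw [if_pos hc]
      obtain ⟨⟨h1, h2⟩, h3, h4, h5⟩ := hc
      have ha := hact (I.1[j]) (List.getElem_mem _)
      rw [Finset.sum_eq_single (⟨act I.1[j], ha⟩ : Fin (mact I))]
      · rw [if_pos ⟨h1.symm.trans h3, h2.symm⟩, if_pos ⟨h3, rfl, h4, h5⟩]
        field_simp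
      · intro a _ hne
        have hna : ¬ (act I.1[j] = (a : ℕ)) := fun h => hne (Fin.ext h.symm)
        rw [if_neg (c := src I.1[j] = (s : ℕ) ∧ act I.1[j] = (a : ℕ) ∧ lab I.1[j] = (ℓ : ℕ) ∧
          tgt I.1[j] = (t : ℕ)) (fun h => hna h.2.1), mul_zero]
      · intro h; exact absurd (Finset.mem_univ _) h
    · rw [if_neg hc, zero_div]
      symm
      refine Finset.sum_eq_zero fun a _ => ?_
      by_cases h6 : Y[i].1 = (s : ℕ) ∧ Y[i].2.1 = (a : ℕ)
      · by_cases h7 : src I.1[j] = (s : ℕ) ∧ act I.1[j] = (a : ℕ) ∧ lab I.1[j] = (ℓ : ℕ) ∧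
            tgt I.1[j] = (t : ℕ)
        · exact absurd ⟨⟨h7.1.trans h6.1.symm, h7.2.1.trans h6.2.symm⟩, h7.1, h7.2.2.1, h7.2.2.2⟩ hc
        · rw [if_neg h7, mul_zero]
      · rw [if_neg h6, zero_div, zero_mul]

end Pool.Agent.R554.DO
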