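import Pool.Agent.R554.DO.Chk

/-! Piece PC: the checker runs in polynomial time. -/

set_option autoImplicit false

namespace Pool.Agent.R554.DO

open Finset MeasureTheory NPC

theorem t_PC (hV : S_PV) (hS : S_PS) (hR : S_PR) (hF : S_PF) : S_PC := by
  have p1 : Poly (fun p : Inst × CertT => p.1) := Poly.fst Poly.id
  have p2 : Poly (fun p : Inst × CertT => p.2) := Poly.snd Poly.id
  have pD : Poly (fun p : Inst × CertT => p.2.1.1) := Poly.fst (Poly.fst p2)
  have pK : Poly (fun p : Inst × CertT => p.2.1.2) := Poly.snd (Poly.fst p2)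
  have pY : Poly (fun p : Inst × CertT => p.2.2.1) := Poly.fst (Poly.snd p2)
  have pR : Poly (fun p : Inst × CertT => p.2.2.2.1) := Poly.fst (Poly.snd (Poly.snd p2))
  have pF : Poly (fun p : Inst × CertT => p.2.2.2.2) := Poly.snd (Poly.snd (Poly.snd p2))
  have pE : Poly (fun p : Inst × CertT => edges p.1 p.2.1.1 p.2.2.1) :=
    Poly.comp (g := fun p : Inst × ℕ × List (ℕ × ℕ × ℕ) => edges p.1 p.2.1 p.2.2)
      (f := fun p : Inst × CertT => (p.1, p.2.1.1, p.2.2.1)) hS.2 (Poly.pair p1 (Poly.pair pD pY))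
  have pn : Poly (fun p : Inst × CertT => List.range (nst p.1)) :=
    Poly.range_length (l := fun p : Inst × CertT => p.1.2.1) (Poly.fst (Poly.snd p1))
  have cV : Poly (fun p : Inst × CertT => chkV p.1 p.2.1.1) :=
    Poly.comp (g := fun p : Inst × ℕ => chkV p.1 p.2)
      (f := fun p : Inst × CertT => (p.1, p.2.1.1)) hV (Poly.pair p1 pD)
  have cS : Poly (fun p : Inst × CertT => chkS p.1 p.2.1.2 p.2.2.1) :=
    Poly.comp (g := fun p : Inst × ℕ × List (ℕ × ℕ × ℕ) => chkS p.1 p.2.1 p.2.2)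
      (f := fun p : Inst × CertT => (p.1, p.2.1.2, p.2.2.1)) hS.1 (Poly.pair p1 (Poly.pair pK pY))
  have cR : Poly (fun p : Inst × CertT =>
      chkR p.1 (edges p.1 p.2.1.1 p.2.2.1) p.2.2.2.1) :=
    Poly.comp (g := fun p : Inst × List (ℕ × ℕ × ℕ × ℕ) × List (ℕ × ℕ) => chkR p.1 p.2.1 p.2.2)
      (f := fun p : Inst × CertT => (p.1, edges p.1 p.2.1.1 p.2.2.1, p.2.2.2.1)) hR
      (Poly.pair p1 (Poly.pair pE pR))
  have cF : Poly (fun p : Inst × CertT =>
      chkF (List.range (nst p.1)) (edges p.1 p.2.1.1 p.2.2.1) p.2.2.2.1 p.2.2.2.2) :=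
    Poly.comp (g := fun p : List ℕ × List (ℕ × ℕ × ℕ × ℕ) × List (ℕ × ℕ) ×
        List (ℕ × List (List ℕ × ℕ × ℕ)) => chkF p.1 p.2.1 p.2.2.1 p.2.2.2)
      (f := fun p : Inst × CertT => (List.range (nst p.1), edges p.1 p.2.1.1 p.2.2.1,
        p.2.2.2.1, p.2.2.2.2)) hF
      (Poly.pair pn (Poly.pair pE (Poly.pair pR pF)))
  exact Poly.and (Poly.and (Poly.and cV cS) cR) cF

end Pool.Agent.R554.DO
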