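import Pool.Agent.R554.DO.Chk

/-!
# DO-PF: the check of the Farkas certificates runs in polynomial time
-/

namespace Pool.Agent.R554.DO

open Finset MeasureTheory NPC

namespace PFx

/-- weighted edges -/
abbrev TE : Type := List (ℕ × ℕ × ℕ × ℕ)
/-- combinations of words -/
abbrev TF : Type := List (List ℕ × ℕ × ℕ)
/-- the input of `fpc` -/
abbrev TI : Type := TE × List ℕ × TF × ℕ
/-- the input of `chkF` -/
abbrev TP : Type := List ℕ × TE × List (ℕ × ℕ) × List (ℕ × TF)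

theorem getV (hV : S_PVEC) :
    NPC.Poly (fun z : TI × (List ℕ × ℕ × ℕ) => (vec z.1.1 z.1.2.1 z.2.1).getD z.1.2.2.2 0) :=
  NPC.Poly.getD (hV.comp (NPC.Poly.pair (NPC.Poly.fst (NPC.Poly.fst NPC.Poly.id))
    (NPC.Poly.pair (NPC.Poly.fst (NPC.Poly.snd (NPC.Poly.fst NPC.Poly.id))) (NPC.Poly.fst (NPC.Poly.snd NPC.Poly.id)))))
    (NPC.Poly.snd (NPC.Poly.snd (NPC.Poly.snd (NPC.Poly.fst NPC.Poly.id)))) (NPC.Poly.const 0)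

theorem poly_fpc (hV : S_PVEC) : NPC.Poly (fun p : TI => fpc p.1 p.2.1 p.2.2.1 p.2.2.2) :=
  NPC.Poly.sum (NPC.Poly.map (l := fun p : TI => p.2.2.1)
    (F := fun p x => x.2.1 * (vec p.1 p.2.1 x.1).getD p.2.2.2 0)
    (NPC.Poly.fst (NPC.Poly.snd (NPC.Poly.snd NPC.Poly.id)))
    (NPC.Poly.mul (NPC.Poly.fst (NPC.Poly.snd (NPC.Poly.snd NPC.Poly.id))) (getV hV)))

theorem poly_fmc (hV : S_PVEC) : NPC.Poly (fun p : TI => fmc p.1 p.2.1 p.2.2.1 p.2.2.2) :=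
  NPC.Poly.sum (NPC.Poly.map (l := fun p : TI => p.2.2.1)
    (F := fun p x => x.2.2 * (vec p.1 p.2.1 x.1).getD p.2.2.2 0)
    (NPC.Poly.fst (NPC.Poly.snd (NPC.Poly.snd NPC.Poly.id)))
    (NPC.Poly.mul (NPC.Poly.snd (NPC.Poly.snd (NPC.Poly.snd NPC.Poly.id))) (getV hV)))

section

variable {α : Type} [TEnc α]

theorem fp' (hV : S_PVEC) {E : α → TE} {qs : α → List ℕ} {F : α → TF} {q : α → ℕ} (hE : NPC.Poly E)
    (hqs : NPC.Poly qs) (hF : NPC.Poly F) (hq : NPC.Poly q) : NPC.Poly (fun a => fpc (E a) (qs a) (F a) (q a)) :=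
  NPC.Poly.comp (g := fun p : TI => fpc p.1 p.2.1 p.2.2.1 p.2.2.2)
    (f := fun a => ((E a, qs a, F a, q a) : TI)) (poly_fpc hV)
    (NPC.Poly.pair hE (NPC.Poly.pair hqs (NPC.Poly.pair hF hq)))

theorem fm' (hV : S_PVEC) {E : α → TE} {qs : α → List ℕ} {F : α → TF} {q : α → ℕ} (hE : NPC.Poly E)
    (hqs : NPC.Poly qs) (hF : NPC.Poly F) (hq : NPC.Poly q) : NPC.Poly (fun a => fmc (E a) (qs a) (F a) (q a)) :=
  NPC.Poly.comp (g := fun p : TI => fmc p.1 p.2.1 p.2.2.1 p.2.2.2)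
    (f := fun a => ((E a, qs a, F a, q a) : TI)) (poly_fmc hV)
    (NPC.Poly.pair hE (NPC.Poly.pair hqs (NPC.Poly.pair hF hq)))

end

theorem h1 (hV : S_PVEC) : NPC.Poly (fun w : (TP × (ℕ × ℕ)) × (ℕ × TF) =>
    w.1.1.1.all (fun q => decide (fmc w.1.1.2.1 w.1.1.1 w.2.2 q ≤
      fpc w.1.1.2.1 w.1.1.1 w.2.2 q))) :=
  NPC.Poly.all (l := fun w : (TP × (ℕ × ℕ)) × (ℕ × TF) => w.1.1.1)
    (p := fun w q => decide (fmc w.1.1.2.1 w.1.1.1 w.2.2 q ≤ fpc w.1.1.2.1 w.1.1.1 w.2.2 q))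
    (NPC.Poly.fst (NPC.Poly.fst (NPC.Poly.fst NPC.Poly.id)))
    (NPC.Poly.decide_le
      (fm' hV (E := fun x : ((TP × (ℕ × ℕ)) × (ℕ × TF)) × ℕ => x.1.1.1.2.1)
        (qs := fun x => x.1.1.1.1) (F := fun x => x.1.2.2) (q := fun x => x.2)
        (NPC.Poly.fst (NPC.Poly.snd (NPC.Poly.fst (NPC.Poly.fst (NPC.Poly.fst NPC.Poly.id)))))
        (NPC.Poly.fst (NPC.Poly.fst (NPC.Poly.fst (NPC.Poly.fst NPC.Poly.id))))
        (NPC.Poly.snd (NPC.Poly.snd (NPC.Poly.fst NPC.Poly.id))) (NPC.Poly.snd NPC.Poly.id))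
      (fp' hV (E := fun x : ((TP × (ℕ × ℕ)) × (ℕ × TF)) × ℕ => x.1.1.1.2.1)
        (qs := fun x => x.1.1.1.1) (F := fun x => x.1.2.2) (q := fun x => x.2)
        (NPC.Poly.fst (NPC.Poly.snd (NPC.Poly.fst (NPC.Poly.fst (NPC.Poly.fst NPC.Poly.id)))))
        (NPC.Poly.fst (NPC.Poly.fst (NPC.Poly.fst (NPC.Poly.fst NPC.Poly.id))))
        (NPC.Poly.snd (NPC.Poly.snd (NPC.Poly.fst NPC.Poly.id))) (NPC.Poly.snd NPC.Poly.id)))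

theorem h2 (hV : S_PVEC) : NPC.Poly (fun w : (TP × (ℕ × ℕ)) × (ℕ × TF) =>
    decide (fmc w.1.1.2.1 w.1.1.1 w.2.2 w.1.2.2 < fpc w.1.1.2.1 w.1.1.1 w.2.2 w.1.2.2)) :=
  NPC.Poly.decide_lt
    (fm' hV (E := fun x : (TP × (ℕ × ℕ)) × (ℕ × TF) => x.1.1.2.1)
      (qs := fun x => x.1.1.1) (F := fun x => x.2.2) (q := fun x => x.1.2.2)
      (NPC.Poly.fst (NPC.Poly.snd (NPC.Poly.fst (NPC.Poly.fst NPC.Poly.id))))
      (NPC.Poly.fst (NPC.Poly.fst (NPC.Poly.fst NPC.Poly.id)))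
      (NPC.Poly.snd (NPC.Poly.snd NPC.Poly.id)) (NPC.Poly.snd (NPC.Poly.snd (NPC.Poly.fst NPC.Poly.id))))
    (fp' hV (E := fun x : (TP × (ℕ × ℕ)) × (ℕ × TF) => x.1.1.2.1)
      (qs := fun x => x.1.1.1) (F := fun x => x.2.2) (q := fun x => x.1.2.2)
      (NPC.Poly.fst (NPC.Poly.snd (NPC.Poly.fst (NPC.Poly.fst NPC.Poly.id))))
      (NPC.Poly.fst (NPC.Poly.fst (NPC.Poly.fst NPC.Poly.id)))
      (NPC.Poly.snd (NPC.Poly.snd NPC.Poly.id)) (NPC.Poly.snd (NPC.Poly.snd (NPC.Poly.fst NPC.Poly.id))))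

theorem h3 (hV : S_PVEC) : NPC.Poly (fun w : (TP × (ℕ × ℕ)) × (ℕ × TF) =>
    w.1.1.2.2.1.all (fun r' => !(decide (r'.2 = w.1.2.2)) ||
      decide (fmc w.1.1.2.1 w.1.1.1 w.2.2 r'.1 = fpc w.1.1.2.1 w.1.1.1 w.2.2 r'.1))) :=
  NPC.Poly.all (l := fun w : (TP × (ℕ × ℕ)) × (ℕ × TF) => w.1.1.2.2.1)
    (p := fun w r' => !(decide (r'.2 = w.1.2.2)) ||
      decide (fmc w.1.1.2.1 w.1.1.1 w.2.2 r'.1 = fpc w.1.1.2.1 w.1.1.1 w.2.2 r'.1))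
    (NPC.Poly.fst (NPC.Poly.snd (NPC.Poly.snd (NPC.Poly.fst (NPC.Poly.fst NPC.Poly.id)))))
    (NPC.Poly.or
      (NPC.Poly.not (NPC.Poly.decide_eq (f := fun x : ((TP × (ℕ × ℕ)) × (ℕ × TF)) × (ℕ × ℕ) => x.2.2)
        (g := fun x => x.1.1.2.2) (NPC.Poly.snd (NPC.Poly.snd NPC.Poly.id))
        (NPC.Poly.snd (NPC.Poly.snd (NPC.Poly.fst (NPC.Poly.fst NPC.Poly.id))))))
      (NPC.Poly.decide_eq
        (fm' hV (E := fun x : ((TP × (ℕ × ℕ)) × (ℕ × TF)) × (ℕ × ℕ) => x.1.1.1.2.1)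
          (qs := fun x => x.1.1.1.1) (F := fun x => x.1.2.2) (q := fun x => x.2.1)
          (NPC.Poly.fst (NPC.Poly.snd (NPC.Poly.fst (NPC.Poly.fst (NPC.Poly.fst NPC.Poly.id)))))
          (NPC.Poly.fst (NPC.Poly.fst (NPC.Poly.fst (NPC.Poly.fst NPC.Poly.id))))
          (NPC.Poly.snd (NPC.Poly.snd (NPC.Poly.fst NPC.Poly.id))) (NPC.Poly.fst (NPC.Poly.snd NPC.Poly.id)))
        (fp' hV (E := fun x : ((TP × (ℕ × ℕ)) × (ℕ × TF)) × (ℕ × ℕ) => x.1.1.1.2.1)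
          (qs := fun x => x.1.1.1.1) (F := fun x => x.1.2.2) (q := fun x => x.2.1)
          (NPC.Poly.fst (NPC.Poly.snd (NPC.Poly.fst (NPC.Poly.fst (NPC.Poly.fst NPC.Poly.id)))))
          (NPC.Poly.fst (NPC.Poly.fst (NPC.Poly.fst (NPC.Poly.fst NPC.Poly.id))))
          (NPC.Poly.snd (NPC.Poly.snd (NPC.Poly.fst NPC.Poly.id))) (NPC.Poly.fst (NPC.Poly.snd NPC.Poly.id)))))

theorem h0 : NPC.Poly (fun w : (TP × (ℕ × ℕ)) × (ℕ × TF) => decide (w.2.1 = w.1.2.2)) :=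
  NPC.Poly.decide_eq (f := fun w : (TP × (ℕ × ℕ)) × (ℕ × TF) => w.2.1) (g := fun w => w.1.2.2)
    (NPC.Poly.fst (NPC.Poly.snd NPC.Poly.id)) (NPC.Poly.snd (NPC.Poly.snd (NPC.Poly.fst NPC.Poly.id)))

end PFx

open PFx in
theorem t_PF (hV : S_PVEC) : S_PF :=
  NPC.Poly.all (l := fun p : TP => p.2.2.1)
    (p := fun p r => p.2.2.2.any (fun x => decide (x.1 = r.2) &&
      p.1.all (fun q => decide (fmc p.2.1 p.1 x.2 q ≤ fpc p.2.1 p.1 x.2 q)) &&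
      decide (fmc p.2.1 p.1 x.2 r.2 < fpc p.2.1 p.1 x.2 r.2) &&
      p.2.2.1.all (fun r' => !(decide (r'.2 = r.2)) ||
        decide (fmc p.2.1 p.1 x.2 r'.1 = fpc p.2.1 p.1 x.2 r'.1))))
    (NPC.Poly.fst (NPC.Poly.snd (NPC.Poly.snd NPC.Poly.id)))
    (NPC.Poly.any (l := fun z : TP × (ℕ × ℕ) => z.1.2.2.2)
      (p := fun z x => decide (x.1 = z.2.2) &&
        z.1.1.all (fun q => decide (fmc z.1.2.1 z.1.1 x.2 q ≤ fpc z.1.2.1 z.1.1 x.2 q)) &&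
        decide (fmc z.1.2.1 z.1.1 x.2 z.2.2 < fpc z.1.2.1 z.1.1 x.2 z.2.2) &&
        z.1.2.2.1.all (fun r' => !(decide (r'.2 = z.2.2)) ||
          decide (fmc z.1.2.1 z.1.1 x.2 r'.1 = fpc z.1.2.1 z.1.1 x.2 r'.1)))
      (NPC.Poly.snd (NPC.Poly.snd (NPC.Poly.snd (NPC.Poly.fst NPC.Poly.id))))
      (NPC.Poly.and (NPC.Poly.and (NPC.Poly.and h0 (h1 hV)) (h2 hV)) (h3 hV)))

end Pool.Agent.R554.DO
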