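import Pool.Agent.R554.DO.Chk

/-!
# PR: polynomial time of the closure check
-/

namespace Pool.Agent.R554.DO

open NPC NPC.Poly

section

variable {α : Type} [TEnc α]

theorem pr_zero {q : α → ℚ} (h : Poly q) : Poly (fun a => decide ((q a).num = 0)) := by
  have h1 : Poly (fun a =>
      (((decide ((q a).num < 0), (q a).num.natAbs), (q a).den) : (Bool × ℕ) × ℕ)) := h
  refine (decide_eq (snd (fst h1)) (const (0 : ℕ))).congr fun a => ?_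
  simp

theorem pr_mem {f : α → ℕ × ℕ} {l : α → List (ℕ × ℕ)} (hf : Poly f) (hl : Poly l) :
    Poly (fun a => decide (f a ∈ l a)) :=
  (decide_mem hf hl).congr fun a => by
    by_cases h : f a ∈ l a <;> simp [h]

end

/-- The test for two edges. -/
def prT (x : (ℕ × ℕ) × (ℕ × ℕ × ℕ × ℕ) × (ℕ × ℕ × ℕ × ℕ) × List (ℕ × ℕ)) : Bool :=
  !(decide (x.2.1.1 = x.1.1) && decide (x.2.2.1.1 = x.1.2) && decide (x.2.1.2.1 = x.2.2.1.2.1) &&
      !(decide (x.2.1.2.2.2 = 0)) && !(decide (x.2.2.1.2.2.2 = 0))) ||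
        decide ((x.2.1.2.2.1, x.2.2.1.2.2.1) ∈ x.2.2.2)

theorem prT_poly : Poly prT := by
  unfold prT
  have hr : Poly (fun x : (ℕ × ℕ) × (ℕ × ℕ × ℕ × ℕ) × (ℕ × ℕ × ℕ × ℕ) × List (ℕ × ℕ) => x.1) :=
    fst id
  have he : Poly (fun x : (ℕ × ℕ) × (ℕ × ℕ × ℕ × ℕ) × (ℕ × ℕ × ℕ × ℕ) × List (ℕ × ℕ) => x.2.1) :=
    fst (snd id)
  have hf : Poly (fun x : (ℕ × ℕ) × (ℕ × ℕ × ℕ × ℕ) × (ℕ × ℕ × ℕ × ℕ) × List (ℕ × ℕ) => x.2.2.1) :=
    fst (snd (snd id))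
  have hl : Poly (fun x : (ℕ × ℕ) × (ℕ × ℕ × ℕ × ℕ) × (ℕ × ℕ × ℕ × ℕ) × List (ℕ × ℕ) => x.2.2.2) :=
    snd (snd (snd id))
  have a1 := decide_eq (fst he) (fst hr)
  have a2 := decide_eq (fst hf) (snd hr)
  have a3 := decide_eq (fst (snd he)) (fst (snd hf))
  have a4 := not (decide_eq (snd (snd (snd he))) (const (0 : ℕ)))
  have a5 := not (decide_eq (snd (snd (snd hf))) (const (0 : ℕ)))
  have a6 := pr_mem (pair (fst (snd (snd he))) (fst (snd (snd hf)))) hl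
  exact or (not (and (and (and (and a1 a2) a3) a4) a5)) a6

/-- PR: the closure check is polynomial-time computable. -/
theorem t_PR : S_PR := by
  unfold S_PR chkR
  have hr : Poly (fun p : Inst × List (ℕ × ℕ × ℕ × ℕ) × List (ℕ × ℕ) => List.range (nst p.1)) :=
    range_length (fst (snd (fst id)))
  have h1 : Poly (fun p : ((Inst × List (ℕ × ℕ × ℕ × ℕ) × List (ℕ × ℕ)) × ℕ) × ℕ =>
      decide ((p.1.1.1.2.1.getD p.1.2 0).num = 0) ||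
        (decide ((p.1.1.1.2.2.getD p.2 0).num = 0) || decide ((p.1.2, p.2) ∈ p.1.1.2.2))) := by
    have b1 := pr_zero (getD (d := fun _ => (0 : ℚ)) (fst (snd (fst (fst (fst
      (id (α := ((Inst × List (ℕ × ℕ × ℕ × ℕ) × List (ℕ × ℕ)) × ℕ) × ℕ)))))))
        (snd (fst id)) (const 0))
    have b2 := pr_zero (getD (d := fun _ => (0 : ℚ)) (snd (snd (fst (fst (fst
      (id (α := ((Inst × List (ℕ × ℕ × ℕ × ℕ) × List (ℕ × ℕ)) × ℕ) × ℕ)))))))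
        (snd id) (const 0))
    have b3 := pr_mem (pair (snd (fst (id (α := ((Inst × List (ℕ × ℕ × ℕ × ℕ) ×
      List (ℕ × ℕ)) × ℕ) × ℕ)))) (snd id)) (snd (snd (fst (fst id))))
    exact or b1 (or b2 b3)
  have h2 : Poly (fun p : (((Inst × List (ℕ × ℕ × ℕ × ℕ) × List (ℕ × ℕ)) × ℕ × ℕ) ×
      (ℕ × ℕ × ℕ × ℕ)) × (ℕ × ℕ × ℕ × ℕ) => prT (p.1.1.2, p.1.2, p.2, p.1.1.1.2.2)) :=
    prT_poly.comp (pair (snd (fst (fst id))) (pair (snd (fst id)) (pair (snd id)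
      (snd (snd (fst (fst (fst id))))))))
  have c1' := all (p := fun (q : (Inst × List (ℕ × ℕ × ℕ × ℕ) × List (ℕ × ℕ)) × ℕ) (s : ℕ) =>
      decide ((q.1.1.2.1.getD q.2 0).num = 0) ||
        (decide ((q.1.1.2.2.getD s 0).num = 0) || decide ((q.2, s) ∈ q.1.2.2)))
    (hr.comp (fst id)) h1
  have c1 := all (p := fun (q : Inst × List (ℕ × ℕ × ℕ × ℕ) × List (ℕ × ℕ)) (t : ℕ) =>
    (List.range (nst q.1)).all (fun s => decide ((q.1.2.1.getD t 0).num = 0) ||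
        (decide ((q.1.2.2.getD s 0).num = 0) || decide ((t, s) ∈ q.2.2)))) hr c1'
  have c2'' := all (p := fun (q : ((Inst × List (ℕ × ℕ × ℕ × ℕ) × List (ℕ × ℕ)) × ℕ × ℕ) ×
      (ℕ × ℕ × ℕ × ℕ)) (f : ℕ × ℕ × ℕ × ℕ) => prT (q.1.2, q.2, f, q.1.1.2.2))
    (l := fun q => q.1.1.2.1) (fst (snd (fst (fst id)))) h2
  have c2' := all (p := fun (q : (Inst × List (ℕ × ℕ × ℕ × ℕ) × List (ℕ × ℕ)) × ℕ × ℕ)
      (e : ℕ × ℕ × ℕ × ℕ) => q.1.2.1.all (fun f => prT (q.2, e, f, q.1.2.2)))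
    (l := fun q => q.1.2.1) (fst (snd (fst id))) c2''
  have c2 := all (p := fun (q : Inst × List (ℕ × ℕ × ℕ × ℕ) × List (ℕ × ℕ)) (r : ℕ × ℕ) =>
      q.2.1.all (fun e => q.2.1.all (fun f => prT (r, e, f, q.2.2))))
    (l := fun q => q.2.2) (snd (snd id)) c2'
  exact and c1 c2

end Pool.Agent.R554.DO
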