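import Pool.Agent.R554.DO.Chk

/-!
# PS: polynomial time of the strategy check and of the edge list
-/

namespace Pool.Agent.R554.DO

open NPC NPC.Poly

section

variable {α : Type} [TEnc α]

theorem ps_src {f : α → Tr} (h : Poly f) : Poly (fun a => src (f a)) := fst h

theorem ps_act {f : α → Tr} (h : Poly f) : Poly (fun a => act (f a)) := fst (snd h)

theorem ps_lab {f : α → Tr} (h : Poly f) : Poly (fun a => lab (f a)) := fst (snd (snd h))

theorem ps_tgt {f : α → Tr} (h : Poly f) : Poly (fun a => tgt (f a)) :=
  fst (snd (snd (snd h)))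

theorem ps_pb {f : α → Tr} (h : Poly f) : Poly (fun a => pb (f a)) :=
  snd (snd (snd (snd h)))

theorem ps_numden {q : α → ℚ} (h : Poly q) :
    Poly (fun a => (((decide ((q a).num < 0), (q a).num.natAbs), (q a).den) : (Bool × ℕ) × ℕ)) :=
  h

theorem ps_natAbs {q : α → ℚ} (h : Poly q) : Poly (fun a => (q a).num.natAbs) :=
  snd (fst (ps_numden h))

theorem ps_den {q : α → ℚ} (h : Poly q) : Poly (fun a => (q a).den) :=
  snd (ps_numden h)

theorem ps_wt {D : α → ℕ} {q : α → ℚ} (hD : Poly D) (h : Poly q) :
    Poly (fun a => wt (D a) (q a)) :=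
  mul (ps_natAbs h) (div hD (ps_den h))

end

theorem ps_range : Poly (fun p : Inst × ℕ × List (ℕ × ℕ × ℕ) => List.range (nst p.1)) :=
  range_length (fst (snd (fst id)))

/-- PS: the strategy check and the edge list are polynomial-time computable. -/
theorem t_PS : S_PS := by
  constructor
  · unfold chkS
    refine and (and (decide_lt (const 0) (fst (snd id))) (all (snd (snd id)) ?_))
      (all ps_range ?_)
    · refine any (fst (fst (fst id))) (and (decide_eq (ps_src (snd id)) ?_)
        (decide_eq (ps_act (snd id)) ?_))
      · exact fst (snd (fst id))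
      · exact fst (snd (snd (fst id)))
    · refine decide_eq (sum (map (filter (snd (snd (fst id))) ?_) ?_)) (fst (snd (fst id)))
      · exact decide_eq (fst (snd id)) (snd (fst id))
      · exact snd (snd (snd id))
  · unfold edges
    refine flatMap (snd (snd id)) (map (filter (fst (fst (fst id))) ?_) ?_)
    · exact and (decide_eq (ps_src (snd id)) (fst (snd (fst id))))
        (decide_eq (ps_act (snd id)) (fst (snd (snd (fst id)))))
    · refine pair (ps_src (snd id)) (pair (ps_lab (snd id)) (pair (ps_tgt (snd id))
        (mul (snd (snd (snd (fst id)))) (ps_wt (fst (snd (fst (fst id)))) (ps_pb (snd id))))))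

end Pool.Agent.R554.DO
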