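import Pool.Agent.R554.DO.Chk

/-! # DO-PV: the validity check runs in polynomial time -/

set_option autoImplicit false

namespace Pool.Agent.R554.DO

open NPC

namespace PVaux

variable {α : Type} [TEnc α]

theorem poly_numden {p : α → ℚ} (hp : NPC.Poly p) :
    NPC.Poly (fun a => (((p a).num, (p a).den) : ℤ × ℕ)) := hp

theorem poly_num {p : α → ℚ} (hp : NPC.Poly p) : NPC.Poly (fun a => (p a).num) :=
  NPC.Poly.fst (poly_numden hp)

theorem poly_den {p : α → ℚ} (hp : NPC.Poly p) : NPC.Poly (fun a => (p a).den) :=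
  NPC.Poly.snd (poly_numden hp)

theorem poly_signabs {z : α → ℤ} (hz : NPC.Poly z) :
    NPC.Poly (fun a => ((decide (z a < 0), (z a).natAbs) : Bool × ℕ)) := hz

theorem poly_okQ {D : α → ℕ} {p : α → ℚ} (hD : NPC.Poly D) (hp : NPC.Poly p) :
    NPC.Poly (fun a => okQ (D a) (p a)) :=
  NPC.Poly.and (NPC.Poly.not (NPC.Poly.fst (poly_signabs (poly_num hp))))
    (NPC.Poly.decide_eq (NPC.Poly.mod hD (poly_den hp)) (NPC.Poly.const 0))

theorem poly_wt {D : α → ℕ} {p : α → ℚ} (hD : NPC.Poly D) (hp : NPC.Poly p) :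
    NPC.Poly (fun a => wt (D a) (p a)) :=
  NPC.Poly.mul (NPC.Poly.snd (poly_signabs (poly_num hp))) (NPC.Poly.div hD (poly_den hp))

theorem poly_src {e : α → Tr} (he : NPC.Poly e) : NPC.Poly (fun a => src (e a)) := NPC.Poly.fst he
theorem poly_act {e : α → Tr} (he : NPC.Poly e) : NPC.Poly (fun a => act (e a)) := NPC.Poly.fst (NPC.Poly.snd he)
theorem poly_tgt {e : α → Tr} (he : NPC.Poly e) : NPC.Poly (fun a => tgt (e a)) :=
  NPC.Poly.fst (NPC.Poly.snd (NPC.Poly.snd (NPC.Poly.snd he)))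
theorem poly_pb {e : α → Tr} (he : NPC.Poly e) : NPC.Poly (fun a => pb (e a)) :=
  NPC.Poly.snd (NPC.Poly.snd (NPC.Poly.snd (NPC.Poly.snd he)))

/-- lists of weights -/
theorem poly_sumwt {D : α → ℕ} {l : α → List ℚ} (hD : NPC.Poly D) (hl : NPC.Poly l) :
    NPC.Poly (fun a => ((l a).map (wt (D a))).sum) :=
  NPC.Poly.sum (NPC.Poly.map (F := fun a x => wt (D a) x) hl
    (poly_wt (hD.comp (NPC.Poly.fst NPC.Poly.id)) (NPC.Poly.snd NPC.Poly.id)))

theorem poly_allok {D : α → ℕ} {l : α → List ℚ} (hD : NPC.Poly D) (hl : NPC.Poly l) :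
    NPC.Poly (fun a => (l a).all (okQ (D a))) :=
  NPC.Poly.all (p := fun a x => okQ (D a) x) hl
    (poly_okQ (hD.comp (NPC.Poly.fst NPC.Poly.id)) (NPC.Poly.snd NPC.Poly.id))

end PVaux

open PVaux in
theorem t_PV : S_PV := by
  have hI : NPC.Poly (fun p : Inst × ℕ => p.1) := NPC.Poly.fst NPC.Poly.id
  have hD : NPC.Poly (fun p : Inst × ℕ => p.2) := NPC.Poly.snd NPC.Poly.id
  have hT : NPC.Poly (fun p : Inst × ℕ => p.1.1) := NPC.Poly.fst hI
  have hM : NPC.Poly (fun p : Inst × ℕ => p.1.2.1) := NPC.Poly.fst (NPC.Poly.snd hI)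
  have hN : NPC.Poly (fun p : Inst × ℕ => p.1.2.2) := NPC.Poly.snd (NPC.Poly.snd hI)
  have hn : NPC.Poly (fun p : Inst × ℕ => nst p.1) := NPC.Poly.length hM
  have hG : NPC.Poly (fun p : Inst × ℕ => p.1.1.all (fun e => decide (src e < nst p.1) &&
      decide (tgt e < nst p.1) && okQ p.2 (pb e) &&
      decide (((p.1.1.filter (fun f => decide (src f = src e) && decide (act f = act e))).map
        (fun f => wt p.2 (pb f))).sum = p.2))) := by
    refine NPC.Poly.all (p := fun (p : Inst × ℕ) (e : Tr) => decide (src e < nst p.1) &&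
      decide (tgt e < nst p.1) && okQ p.2 (pb e) &&
      decide (((p.1.1.filter (fun f => decide (src f = src e) && decide (act f = act e))).map
        (fun f => wt p.2 (pb f))).sum = p.2)) hT ?_
    have hf : NPC.Poly (fun q : (Inst × ℕ) × Tr => q.1) := NPC.Poly.fst NPC.Poly.id
    have he : NPC.Poly (fun q : (Inst × ℕ) × Tr => q.2) := NPC.Poly.snd NPC.Poly.id
    refine NPC.Poly.and (NPC.Poly.and (NPC.Poly.and (NPC.Poly.decide_lt (poly_src he) (hn.comp hf))
      (NPC.Poly.decide_lt (poly_tgt he) (hn.comp hf))) (poly_okQ (hD.comp hf) (poly_pb he)))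
      (NPC.Poly.decide_eq (NPC.Poly.sum (NPC.Poly.map
        (F := fun (q : (Inst × ℕ) × Tr) (f : Tr) => wt q.1.2 (pb f))
        (NPC.Poly.filter (p := fun (q : (Inst × ℕ) × Tr) (f : Tr) =>
          decide (src f = src q.2) && decide (act f = act q.2)) (hT.comp hf) ?_) ?_))
        (hD.comp hf))
    · exact NPC.Poly.and (NPC.Poly.decide_eq (poly_src (NPC.Poly.snd NPC.Poly.id))
          (poly_src (he.comp (NPC.Poly.fst NPC.Poly.id))))
        (NPC.Poly.decide_eq (poly_act (NPC.Poly.snd NPC.Poly.id)) (poly_act (he.comp (NPC.Poly.fst NPC.Poly.id))))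
    · exact poly_wt ((hD.comp hf).comp (NPC.Poly.fst NPC.Poly.id)) (poly_pb (NPC.Poly.snd NPC.Poly.id))
  have hH : NPC.Poly (fun p : Inst × ℕ => (List.range (nst p.1)).all
      (fun s => p.1.1.any (fun e => decide (src e = s)))) := by
    refine NPC.Poly.all (p := fun (p : Inst × ℕ) (s : ℕ) => p.1.1.any (fun e => decide (src e = s)))
      (NPC.Poly.range_length hM) ?_
    refine NPC.Poly.any (p := fun (q : (Inst × ℕ) × ℕ) (e : Tr) => decide (src e = q.2))
      (hT.comp (NPC.Poly.fst NPC.Poly.id)) ?_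
    exact NPC.Poly.decide_eq (poly_src (NPC.Poly.snd NPC.Poly.id)) (NPC.Poly.snd (NPC.Poly.fst NPC.Poly.id))
  exact NPC.Poly.and (NPC.Poly.and (NPC.Poly.and (NPC.Poly.and (NPC.Poly.and (NPC.Poly.and (NPC.Poly.and
    (NPC.Poly.decide_eq (NPC.Poly.length hN) hn) (NPC.Poly.decide_lt (NPC.Poly.const 0) hD))
    (poly_allok hD hM)) (poly_allok hD hN)) (NPC.Poly.decide_eq (poly_sumwt hD hM) hD))
    (NPC.Poly.decide_eq (poly_sumwt hD hN) hD)) hG) hH

end Pool.Agent.R554.DO
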