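import Pool.Agent.R554.DO.Chk

/-!
# The word weights are computable in polynomial time (helper586)
-/

set_option autoImplicit false

namespace Pool.Agent.R554.DO

open NPC

namespace PVEC

theorem W_le (E : List (ℕ × ℕ × ℕ × ℕ)) : (E.map (fun e => e.2.2.2)).sum + 1 ≤ 2 ^ sz E := by
  induction E with
  | nil => simp
  | cons e E ih =>
    obtain ⟨a, b, c, d⟩ := e
    have h1 := Nat.lt_size_self d
    have h2 := size_le_sz d
    have h3 : 2 ^ d.size ≤ 2 ^ (sz ((a, b, c, d) : ℕ × ℕ × ℕ × ℕ) + sz E) :=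
      Nat.pow_le_pow_right (by norm_num) (by simp; omega)
    have h4 : 2 ^ sz E ≤ 2 ^ (sz ((a, b, c, d) : ℕ × ℕ × ℕ × ℕ) + sz E) :=
      Nat.pow_le_pow_right (by norm_num) (by omega)
    have h5 : sz (((a, b, c, d) : ℕ × ℕ × ℕ × ℕ) :: E) =
        sz ((a, b, c, d) : ℕ × ℕ × ℕ × ℕ) + sz E + 1 := by
      simp only [sz_list_cons]
    rw [h5, pow_succ]
    simp only [List.map_cons, List.sum_cons]
    omega

theorem getD_le (v : List ℕ) (M : ℕ) (h : ∀ x ∈ v, x ≤ M) (i : ℕ) : v.getD i 0 ≤ M := by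
  rw [List.getD_eq_getElem?_getD]
  by_cases hi : i < v.length
  · rw [List.getElem?_eq_getElem hi]
    exact h _ (List.getElem_mem hi)
  · rw [List.getElem?_eq_none (by omega)]
    simp

theorem sum_le (E : List (ℕ × ℕ × ℕ × ℕ)) (p : ℕ × ℕ × ℕ × ℕ → Bool) (v : List ℕ) (M : ℕ)
    (h : ∀ x ∈ v, x ≤ M) :
    ((E.filter p).map (fun e => e.2.2.2 * v.getD e.2.2.1 0)).sum ≤
      (E.map (fun e => e.2.2.2)).sum * M := by
  induction E with
  | nil => simp
  | cons e E ih =>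
    have h1 := getD_le v M h e.2.2.1
    have h2 : e.2.2.2 * v.getD e.2.2.1 0 ≤ e.2.2.2 * M := Nat.mul_le_mul_left _ h1
    rw [List.filter_cons]
    split_ifs
    · simp only [List.map_cons, List.sum_cons, add_mul]
      omega
    · simp only [List.map_cons, List.sum_cons, add_mul]
      omega

theorem vec_le (E : List (ℕ × ℕ × ℕ × ℕ)) (qs w : List ℕ) :
    (vec E qs w).length = qs.length ∧ ∀ x ∈ vec E qs w, x ≤ (2 ^ sz E) ^ w.length := by
  induction w with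
  | nil =>
    refine ⟨by simp [vec], ?_⟩
    intro x hx
    simp only [vec, List.foldr_nil, List.mem_map] at hx
    obtain ⟨_, -, rfl⟩ := hx
    simp
  | cons ℓ w ih =>
    obtain ⟨-, ih2⟩ := ih
    have e : vec E qs (ℓ :: w) = vstep E qs ℓ (vec E qs w) := rfl
    rw [e]
    refine ⟨by simp [vstep], ?_⟩
    intro x hx
    simp only [vstep, List.mem_map] at hx
    obtain ⟨q, -, rfl⟩ := hx
    refine (sum_le E _ _ _ ih2).trans ?_
    rw [List.length_cons, pow_succ, mul_comm]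
    exact Nat.mul_le_mul_left _ (le_trans (Nat.le_succ _) (W_le E))

theorem sz_vec (E : List (ℕ × ℕ × ℕ × ℕ)) (qs w : List ℕ) :
    sz (vec E qs w) ≤ qs.length * (4 * (sz E * w.length) + 6) + 1 := by
  obtain ⟨h1, h2⟩ := vec_le E qs w
  rw [← h1]
  refine sz_le_length_mul _ (4 * (sz E * w.length) + 5) ?_
  intro x hx
  have h3 := h2 x hx
  rw [← pow_mul] at h3
  have h4 : x < 2 ^ (sz E * w.length + 1) := by
    rw [pow_succ]
    have : 0 < 2 ^ (sz E * w.length) := by positivity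
    omega
  have h5 := Nat.size_le.2 h4
  have h6 := sz_nat_le x
  omega

end PVEC

open PVEC

theorem t_PVEC : S_PVEC := by
  unfold S_PVEC
  have hF : Poly (fun x : (List (ℕ × ℕ × ℕ × ℕ) × List ℕ × List ℕ) × ℕ × List ℕ =>
      vstep x.1.1 x.1.2.1 x.2.1 x.2.2) := by
    unfold vstep
    refine NPC.Poly.map (l := fun x : (List (ℕ × ℕ × ℕ × ℕ) × List ℕ × List ℕ) × ℕ × List ℕ => x.1.2.1)
      (F := fun x q => ((x.1.1.filter (fun e => decide (e.1 = q) && decide (e.2.1 = x.2.1))).map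
        (fun e => e.2.2.2 * x.2.2.getD e.2.2.1 0)).sum) (NPC.Poly.fst (NPC.Poly.snd (NPC.Poly.fst NPC.Poly.id))) ?_
    refine NPC.Poly.sum ?_
    refine NPC.Poly.map (l := fun y : ((List (ℕ × ℕ × ℕ × ℕ) × List ℕ × List ℕ) × ℕ × List ℕ) × ℕ =>
        y.1.1.1.filter (fun e => decide (e.1 = y.2) && decide (e.2.1 = y.1.2.1)))
      (F := fun y e => e.2.2.2 * y.1.2.2.getD e.2.2.1 0) ?_ ?_
    · refine NPC.Poly.filter (l := fun y :
          ((List (ℕ × ℕ × ℕ × ℕ) × List ℕ × List ℕ) × ℕ × List ℕ) × ℕ => y.1.1.1)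
        (p := fun y e => decide (e.1 = y.2) && decide (e.2.1 = y.1.2.1))
        (NPC.Poly.fst (NPC.Poly.fst (NPC.Poly.fst NPC.Poly.id))) ?_
      exact NPC.Poly.and (NPC.Poly.decide_eq (NPC.Poly.fst (NPC.Poly.snd NPC.Poly.id)) (NPC.Poly.snd (NPC.Poly.fst NPC.Poly.id)))
        (NPC.Poly.decide_eq (NPC.Poly.fst (NPC.Poly.snd (NPC.Poly.snd NPC.Poly.id)))
          (NPC.Poly.fst (NPC.Poly.snd (NPC.Poly.fst (NPC.Poly.fst NPC.Poly.id)))))
    · refine NPC.Poly.mul (NPC.Poly.snd (NPC.Poly.snd (NPC.Poly.snd (NPC.Poly.snd NPC.Poly.id)))) ?_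
      exact NPC.Poly.getD (NPC.Poly.snd (NPC.Poly.snd (NPC.Poly.fst (NPC.Poly.fst NPC.Poly.id))))
        (NPC.Poly.fst (NPC.Poly.snd (NPC.Poly.snd (NPC.Poly.snd NPC.Poly.id)))) (NPC.Poly.const 0)
  have hs : Poly (fun p : List (ℕ × ℕ × ℕ × ℕ) × List ℕ × List ℕ =>
      p.2.1.map (fun _ => (1 : ℕ))) :=
    NPC.Poly.map (l := fun p : List (ℕ × ℕ × ℕ × ℕ) × List ℕ × List ℕ => p.2.1)
      (F := fun _ _ => (1 : ℕ)) (NPC.Poly.fst (NPC.Poly.snd NPC.Poly.id)) (NPC.Poly.const 1)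
  refine NPC.Poly.foldr (l := fun p : List (ℕ × ℕ × ℕ × ℕ) × List ℕ × List ℕ => p.2.2)
    (s := fun p => p.2.1.map (fun _ => (1 : ℕ))) (F := fun p ℓ v => vstep p.1 p.2.1 ℓ v)
    (NPC.Poly.snd (NPC.Poly.snd NPC.Poly.id)) hs hF
    (Polynomial.X * (Polynomial.C 4 * (Polynomial.X * Polynomial.X) + Polynomial.C 6) +
      Polynomial.C 1) ?_
  rintro ⟨E, qs, u⟩ k hk
  change sz (vec E qs (u.drop k)) ≤ _
  refine (sz_vec E qs (u.drop k)).trans ?_
  simp only [Polynomial.eval_add, Polynomial.eval_mul, Polynomial.eval_C, Polynomial.eval_X,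
    sz_pair]
  have h1 := length_lt_sz qs
  have h2 := length_lt_sz u
  have h3 : (u.drop k).length ≤ u.length := by simp
  set n := sz E + (sz qs + sz u + 1) + 1 with hn
  have h4 : sz E ≤ n := by omega
  have h5 : (u.drop k).length ≤ n := by omega
  have h6 : qs.length ≤ n := by omega
  have h7 : sz E * (u.drop k).length ≤ n * n := Nat.mul_le_mul h4 h5
  have h8 : 4 * (sz E * (u.drop k).length) + 6 ≤ 4 * (n * n) + 6 := by omega
  exact Nat.add_le_add_right (Nat.mul_le_mul h6 h8) 1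

end Pool.Agent.R554.DO
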