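import Pool.Agent.R554.DO.Stm

/-! RATL (helper173): small rational strategies suffice. -/

namespace Pool.Agent.R554.DO

open Finset

namespace Ratl

variable {S L A : Type} [Fintype S] [DecidableEq S] [Fintype L] [DecidableEq L]
  [Fintype A] [DecidableEq A]

/-- the completed strategy -/
noncomputable def cst (as : S → A) (Tm : S → Finset A) (y : S × A → ℝ) (s : S) (a : A) : ℝ :=
  if a = as s then 1 - ∑ b ∈ Tm s, y (s, b) else if a ∈ Tm s then y (s, a) else 0

/-- the polynomial matrices -/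
noncomputable def Mpol (D : A → L → S → S → ℝ) (as : S → A) (Tm : S → Finset A) (ℓ : L) (s t : S) :
    MvPolynomial (S × A) ℝ :=
  (∑ a ∈ Tm s, MvPolynomial.X (s, a) * MvPolynomial.C (D a ℓ s t)) +
    (1 - ∑ a ∈ Tm s, MvPolynomial.X (s, a)) * MvPolynomial.C (D (as s) ℓ s t)

theorem sum_split (as : S → A) (Tm : S → Finset A) (hTm : ∀ s, as s ∉ Tm s) (s : S)
    (u : ℝ) (v w : A → ℝ) :
    ∑ a, (if a = as s then u else if a ∈ Tm s then v a else 0) * w a
      = u * w (as s) + ∑ a ∈ Tm s, v a * w a := by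
  rw [← Finset.add_sum_erase _ _ (Finset.mem_univ (as s)), if_pos rfl]
  congr 1
  have hsub : Tm s ⊆ Finset.univ.erase (as s) := by
    intro a ha
    rw [Finset.mem_erase]
    refine ⟨?_, Finset.mem_univ _⟩
    rintro rfl
    exact hTm s ha
  rw [← Finset.sum_subset hsub]
  · refine Finset.sum_congr rfl fun a ha => ?_
    have : a ≠ as s := by
      rintro rfl
      exact hTm s ha
    rw [if_neg this, if_pos ha]
  · intro a ha1 ha2
    have : a ≠ as s := (Finset.mem_erase.1 ha1).1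
    rw [if_neg this, if_neg ha2, zero_mul]

theorem ev_eq (D : A → L → S → S → ℝ) (as : S → A) (Tm : S → Finset A)
    (hTm : ∀ s, as s ∉ Tm s) (y : S × A → ℝ) :
    ev (Mpol D as Tm) y = mix D (cst as Tm y) := by
  funext ℓ s t
  unfold ev Mpol mix cst
  rw [sum_split as Tm hTm s (1 - ∑ b ∈ Tm s, y (s, b)) (fun a => y (s, a)) (fun a => D a ℓ s t)]
  simp only [map_add, map_mul, map_sub, map_sum, map_one, MvPolynomial.eval_X,
    MvPolynomial.eval_C]
  ring

theorem deg_le (D : A → L → S → S → ℝ) (as : S → A) (Tm : S → Finset A) (ℓ : L) (s t : S) :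
    (Mpol D as Tm ℓ s t).totalDegree ≤ 1 := by
  unfold Mpol
  refine (MvPolynomial.totalDegree_add _ _).trans (max_le ?_ ?_)
  · refine MvPolynomial.totalDegree_finsetSum_le fun a _ => ?_
    refine (MvPolynomial.totalDegree_mul _ _).trans ?_
    rw [MvPolynomial.totalDegree_C, MvPolynomial.totalDegree_X]
  · refine (MvPolynomial.totalDegree_mul _ _).trans ?_
    rw [MvPolynomial.totalDegree_C, add_zero]
    refine (MvPolynomial.totalDegree_sub _ _).trans (max_le ?_ ?_)
    · rw [MvPolynomial.totalDegree_one]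
      exact zero_le_one
    · refine MvPolynomial.totalDegree_finsetSum_le fun a _ => ?_
      rw [MvPolynomial.totalDegree_X]

theorem mix_pos (D : A → L → S → S → ℝ) (hD : ∀ a ℓ s t, 0 ≤ D a ℓ s t) (τ : S → A → ℝ)
    (h0 : ∀ s a, 0 ≤ τ s a) (ℓ : L) (s t : S) :
    0 < mix D τ ℓ s t ↔ ∃ a, 0 < τ s a ∧ 0 < D a ℓ s t := by
  unfold mix
  rw [Finset.sum_pos_iff_of_nonneg (fun a _ => mul_nonneg (h0 s a) (hD a ℓ s t))]
  constructor
  · rintro ⟨a, _, ha⟩
    have h1 : τ s a ≠ 0 := by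
      intro h
      rw [h, zero_mul] at ha
      exact lt_irrefl _ ha
    have h2 : D a ℓ s t ≠ 0 := by
      intro h
      rw [h, mul_zero] at ha
      exact lt_irrefl _ ha
    exact ⟨a, lt_of_le_of_ne (h0 s a) (Ne.symm h1), lt_of_le_of_ne (hD a ℓ s t) (Ne.symm h2)⟩
  · rintro ⟨a, h1, h2⟩
    exact ⟨a, Finset.mem_univ _, mul_pos h1 h2⟩

theorem mix_stoch (D : A → L → S → S → ℝ) (en : S → A → Prop) (hD : ∀ a ℓ s t, 0 ≤ D a ℓ s t)
    (hD1 : ∀ s a, en s a → ∑ ℓ, ∑ t, D a ℓ s t = 1) (τ : S → A → ℝ)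
    (h0 : ∀ s a, 0 ≤ τ s a) (h1 : ∀ s, ∑ a, τ s a = 1) (h2 : ∀ s a, τ s a ≠ 0 → en s a) :
    Stoch (mix D τ) := by
  refine ⟨fun ℓ s t => Finset.sum_nonneg fun a _ => mul_nonneg (h0 s a) (hD a ℓ s t), fun s => ?_⟩
  unfold mix
  have e1 : ∀ ℓ, ∑ t, ∑ a, τ s a * D a ℓ s t = ∑ a, ∑ t, τ s a * D a ℓ s t := fun ℓ =>
    Finset.sum_comm
  rw [Finset.sum_congr rfl (fun ℓ _ => e1 ℓ), Finset.sum_comm, ← h1 s]
  refine Finset.sum_congr rfl fun a _ => ?_
  have e2 : ∑ ℓ, ∑ t, τ s a * D a ℓ s t = τ s a * ∑ ℓ, ∑ t, D a ℓ s t := by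
    rw [Finset.mul_sum]
    exact Finset.sum_congr rfl fun ℓ _ => by rw [Finset.mul_sum]
  rw [e2]
  by_cases h : τ s a = 0
  · rw [h, zero_mul]
  · rw [hD1 s a (h2 s a h), mul_one]

end Ratl

open Ratl in
theorem t_RATL (hGEN : S_GEN) (hGRID : S_GRID) : S_RATL := by
  intro S L A _ _ _ _ _ _ D en hD hD1 μ ν hμ hν σ hσ0 hσ1 hσen hSing
  classical
  -- a positive action in each state
  have hex : ∀ s, ∃ a, 0 < σ s a := by
    intro s
    by_contra h
    push Not at h
    have : ∑ a, σ s a ≤ 0 := Finset.sum_nonpos fun a _ => h a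
    rw [hσ1 s] at this
    linarith
  choose as has using hex
  obtain ⟨Tm, hTmdef⟩ : ∃ Tm : S → Finset A,
      ∀ s, Tm s = (Finset.univ.filter (fun a => 0 < σ s a)).erase (as s) := ⟨_, fun _ => rfl⟩
  have hTm : ∀ s, as s ∉ Tm s := fun s => by rw [hTmdef]; exact Finset.notMem_erase _ _
  have hTm1 : ∀ s a, a ∈ Tm s → 0 < σ s a := by
    intro s a ha
    rw [hTmdef, Finset.mem_erase, Finset.mem_filter] at ha
    exact ha.2.2
  have hTm2 : ∀ s a, a ≠ as s → a ∉ Tm s → σ s a = 0 := by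
    intro s a h1 h2
    rw [hTmdef, Finset.mem_erase, Finset.mem_filter] at h2
    push Not at h2
    exact le_antisymm (h2 h1 (Finset.mem_univ _)) (hσ0 s a)
  obtain ⟨G, hG⟩ : ∃ G : L → S → S → Prop, ∀ ℓ s t, G ℓ s t ↔ 0 < mix D σ ℓ s t :=
    ⟨fun ℓ s t => 0 < mix D σ ℓ s t, fun _ _ _ => Iff.rfl⟩
  -- strategies with the same support are admissible
  have hadm : ∀ y : S × A → ℝ, (∀ s a, a ∈ Tm s → 0 < y (s, a)) →
      (∀ s, ∑ b ∈ Tm s, y (s, b) < 1) → Adm (Mpol D as Tm) G y := by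
    intro y hy1 hy2
    have p1 : ∀ s a, 0 < cst as Tm y s a ↔ 0 < σ s a := by
      intro s a
      unfold cst
      by_cases h1 : a = as s
      · rw [if_pos h1]
        constructor
        · intro _
          rw [h1]
          exact has s
        · intro _
          linarith [hy2 s]
      · rw [if_neg h1]
        by_cases h2 : a ∈ Tm s
        · rw [if_pos h2]
          exact ⟨fun _ => hTm1 s a h2, fun _ => hy1 s a h2⟩
        · rw [if_neg h2, hTm2 s a h1 h2]
    have p0 : ∀ s a, 0 ≤ cst as Tm y s a := by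
      intro s a
      unfold cst
      by_cases h1 : a = as s
      · rw [if_pos h1]
        linarith [hy2 s]
      · rw [if_neg h1]
        by_cases h2 : a ∈ Tm s
        · rw [if_pos h2]
          exact (hy1 s a h2).le
        · rw [if_neg h2]
    have p2 : ∀ s, ∑ a, cst as Tm y s a = 1 := by
      intro s
      have := sum_split as Tm hTm s (1 - ∑ b ∈ Tm s, y (s, b)) (fun a => y (s, a)) (fun _ => 1)
      simp only [mul_one] at this
      unfold cst
      rw [this]
      ring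
    have p3 : ∀ s a, cst as Tm y s a ≠ 0 → en s a := by
      intro s a h
      apply hσen
      have h1 : 0 < cst as Tm y s a := lt_of_le_of_ne (p0 s a) (Ne.symm h)
      exact ((p1 s a).1 h1).ne'
    refine ⟨?_, ?_⟩
    · rw [ev_eq D as Tm hTm]
      exact mix_stoch D en hD hD1 _ p0 p2 p3
    · rw [ev_eq D as Tm hTm]
      intro ℓ s t
      rw [hG, mix_pos D hD _ p0, mix_pos D hD _ hσ0]
      constructor
      · rintro ⟨a, h1, h2⟩
        exact ⟨a, (p1 s a).1 h1, h2⟩
      · rintro ⟨a, h1, h2⟩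
        exact ⟨a, (p1 s a).2 h1, h2⟩
  -- the original strategy
  have hsumσ : ∀ s, 1 - ∑ b ∈ Tm s, σ s b = σ s (as s) := by
    intro s
    have h1 := sum_split as Tm hTm s (σ s (as s)) (fun a => σ s a) (fun _ => 1)
    simp only [mul_one] at h1
    have h2 : ∑ a, (if a = as s then σ s (as s) else if a ∈ Tm s then σ s a else 0)
        = ∑ a, σ s a := by
      refine Finset.sum_congr rfl fun a _ => ?_
      by_cases h1 : a = as s
      · rw [if_pos h1, h1]
      · rw [if_neg h1]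
        by_cases h2 : a ∈ Tm s
        · rw [if_pos h2]
        · rw [if_neg h2, hTm2 s a h1 h2]
    rw [h2, hσ1 s] at h1
    linarith
  have hy0 : cst as Tm (fun x => σ x.1 x.2) = σ := by
    funext s a
    unfold cst
    by_cases h1 : a = as s
    · rw [if_pos h1, h1]
      exact hsumσ s
    · rw [if_neg h1]
      by_cases h2 : a ∈ Tm s
      · rw [if_pos h2]
      · rw [if_neg h2, hTm2 s a h1 h2]
  have hadm0 : Adm (Mpol D as Tm) G (fun x => σ x.1 x.2) := by
    refine hadm _ (fun s a ha => hTm1 s a ha) (fun s => ?_)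
    have h1 := hsumσ s
    have h2 := has s
    show ∑ b ∈ Tm s, σ s b < 1
    linarith
  have hSing0 : Sing (ev (Mpol D as Tm) (fun x => σ x.1 x.2)) μ ν := by
    rw [ev_eq D as Tm hTm, hy0]
    exact hSing
  obtain ⟨p, hp0, hpdeg, hp⟩ := hGEN S L (S × A) (Mpol D as Tm) G (fun ℓ s t => deg_le D as Tm ℓ s t)
    μ ν hμ hν _ hadm0 hSing0
  have hpne : p ≠ 0 := by
    rintro rfl
    simp at hp0
  obtain ⟨K, hK⟩ : ∃ K : ℕ, K = (64 ^ Fintype.card S + 1) * Fintype.card A + 1 := ⟨_, rfl⟩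
  have hKpos : 0 < K := by rw [hK]; exact Nat.succ_pos _
  obtain ⟨y', hy', hyp⟩ := hGRID (S × A) p (64 ^ Fintype.card S) K hKpos hpne hpdeg
  -- the sums are less than `K`
  have hsumlt : ∀ s, ∑ b ∈ Tm s, y' (s, b) < K := by
    intro s
    have h1 : ∑ b ∈ Tm s, y' (s, b) ≤ ∑ _b ∈ Tm s, (64 ^ Fintype.card S + 1) :=
      Finset.sum_le_sum fun b _ => (hy' (s, b)).2
    rw [Finset.sum_const, smul_eq_mul] at h1
    have h2 : (Tm s).card ≤ Fintype.card A := Finset.card_le_univ _
    have h3 : (Tm s).card * (64 ^ Fintype.card S + 1)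
        ≤ Fintype.card A * (64 ^ Fintype.card S + 1) := Nat.mul_le_mul_right _ h2
    rw [hK, Nat.mul_comm (64 ^ Fintype.card S + 1)]
    omega
  have hKR : (0 : ℝ) < K := by exact_mod_cast hKpos
  obtain ⟨yr, hyr⟩ : ∃ yr : S × A → ℝ, yr = fun i => (y' i : ℝ) / K := ⟨_, rfl⟩
  have hadm1 : Adm (Mpol D as Tm) G yr := by
    refine hadm _ (fun s a _ => ?_) (fun s => ?_)
    · rw [hyr]
      have : (0 : ℝ) < y' (s, a) := by exact_mod_cast (hy' (s, a)).1
      positivity
    · rw [hyr]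
      show ∑ b ∈ Tm s, (y' (s, b) : ℝ) / K < 1
      rw [← Finset.sum_div, div_lt_one hKR]
      exact_mod_cast hsumlt s
  rw [← hyr] at hyp
  have hS1 := hp yr hadm1 hyp
  rw [ev_eq D as Tm hTm] at hS1
  refine ⟨fun s a => if a = as s then K - ∑ b ∈ Tm s, y' (s, b) else if a ∈ Tm s then y' (s, a)
    else 0, K, hK, ?_, ?_, ?_⟩
  · intro s
    have h1 : ∀ u : ℕ, ∑ a, (if a = as s then u else if a ∈ Tm s then y' (s, a) else 0)
        = u + ∑ a ∈ Tm s, y' (s, a) := by
      intro u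
      have h2 := sum_split as Tm hTm s (u : ℝ) (fun a => (y' (s, a) : ℝ)) (fun _ => 1)
      simp only [mul_one] at h2
      have h3 : ((∑ a, (if a = as s then u else if a ∈ Tm s then y' (s, a) else 0) : ℕ) : ℝ)
          = ((u + ∑ a ∈ Tm s, y' (s, a) : ℕ) : ℝ) := by
        push_cast
        rw [← h2]
      exact_mod_cast h3
    rw [h1]
    have := hsumlt s
    omega
  · intro s a h
    by_cases h1 : a = as s
    · rw [h1]
      exact hσen _ _ (has s).ne'
    · simp only [if_neg h1] at h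
      by_cases h2 : a ∈ Tm s
      · exact hσen _ _ (hTm1 s a h2).ne'
      · simp only [if_neg h2] at h
        exact absurd rfl h
  · have e : (fun (s : S) (a : A) => (((if a = as s then K - ∑ b ∈ Tm s, y' (s, b)
        else if a ∈ Tm s then y' (s, a) else 0 : ℕ)) : ℝ) / K) = cst as Tm yr := by
      funext s a
      unfold cst
      by_cases h1 : a = as s
      · rw [if_pos h1, if_pos h1, Nat.cast_sub (hsumlt s).le, sub_div, div_self hKR.ne', hyr]
        congr 1
        push_cast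
        rw [Finset.sum_div]
      · rw [if_neg h1, if_neg h1]
        by_cases h2 : a ∈ Tm s
        · rw [if_pos h2, if_pos h2, hyr]
        · rw [if_neg h2, if_neg h2]
          simp
    rw [e]
    exact hS1

end Pool.Agent.R554.DO
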