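import Pool.Agent.R554.DO.Chk

/-!
# Piece SIZE: bounded certificates are short
-/

namespace Pool.Agent.R554.DO

open NPC

namespace SizeAux

theorem nat_lt (n : ℕ) : n < 2 ^ sz n := by
  have h1 := size_le_sz n
  have h2 : n < 2 ^ n.size := Nat.lt_size_self n
  exact h2.trans_le (Nat.pow_le_pow_right (by norm_num) (by omega))

theorem nat_lt' {n k : ℕ} (h : sz n ≤ k) : n < 2 ^ k :=
  (nat_lt n).trans_le (Nat.pow_le_pow_right (by norm_num) h)

theorem sum_le {α : Type} [TEnc α] (g : α → ℕ) (hg : ∀ a, g a < 2 ^ sz a) (l : List α) :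
    (l.map g).sum + 1 ≤ 2 ^ sz l := by
  induction l with
  | nil => simp
  | cons a l ih =>
    have h1 := hg a
    rw [List.map_cons, List.sum_cons, sz_list_cons]
    have h2 : 2 ^ sz a ≤ 2 ^ (sz a + sz l) := Nat.pow_le_pow_right (by norm_num) (by omega)
    have h3 : 2 ^ sz l ≤ 2 ^ (sz a + sz l) := Nat.pow_le_pow_right (by norm_num) (by omega)
    have h4 : 2 ^ (sz a + sz l + 1) = 2 ^ (sz a + sz l) + 2 ^ (sz a + sz l) := by
      rw [pow_succ]; ring
    omega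

theorem prod_le {α : Type} [TEnc α] (g : α → ℕ) (hg : ∀ a, g a < 2 ^ sz a) (l : List α) :
    (l.map g).prod ≤ 2 ^ sz l := by
  induction l with
  | nil => simp
  | cons a l ih =>
    rw [List.map_cons, List.prod_cons, sz_list_cons]
    calc g a * (l.map g).prod ≤ 2 ^ sz a * 2 ^ sz l := Nat.mul_le_mul (hg a).le ih
      _ = 2 ^ (sz a + sz l) := by rw [pow_add]
      _ ≤ 2 ^ (sz a + sz l + 1) := Nat.pow_le_pow_right (by norm_num) (by omega)

theorem den_lt (q : ℚ) : q.den < 2 ^ sz q := by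
  apply nat_lt'
  have h : sz q = sz (q.num, q.den) := rfl
  rw [h, sz_pair]
  omega

theorem act_lt (e : Tr) : act e < 2 ^ sz e := by
  apply nat_lt'
  obtain ⟨a, b, c, d, p⟩ := e
  simp only [act, sz_pair]
  omega

theorem lab_lt (e : Tr) : lab e < 2 ^ sz e := by
  apply nat_lt'
  obtain ⟨a, b, c, d, p⟩ := e
  simp only [lab, sz_pair]
  omega

theorem pbden_lt (e : Tr) : (pb e).den < 2 ^ sz e := by
  refine (den_lt _).trans_le (Nat.pow_le_pow_right (by norm_num) ?_)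
  obtain ⟨a, b, c, d, p⟩ := e
  simp only [pb, sz_pair]
  omega

theorem sz_I (I : Inst) : sz I = sz I.1 + (sz I.2.1 + sz I.2.2 + 1) + 1 := by
  obtain ⟨a, b, c⟩ := I
  simp only [sz_pair]

theorem nst_lt (I : Inst) : nst I < sz I := by
  have h := sz_I I
  have h2 := length_lt_sz I.2.1
  unfold nst
  omega

theorem len_lt (I : Inst) : I.1.length < sz I := by
  have h := sz_I I
  have h2 := length_lt_sz I.1
  omega

theorem mact_le (I : Inst) : mact I ≤ 2 ^ sz I := by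
  refine (sum_le act act_lt I.1).trans (Nat.pow_le_pow_right (by norm_num) ?_)
  have h := sz_I I
  omega

theorem mlab_le (I : Inst) : mlab I ≤ 2 ^ sz I := by
  refine (sum_le lab lab_lt I.1).trans (Nat.pow_le_pow_right (by norm_num) ?_)
  have h := sz_I I
  omega

theorem dprod_le (I : Inst) : dprod I ≤ 2 ^ sz I := by
  have h1 := prod_le (fun e : Tr => (pb e).den) pbden_lt I.1
  have h2 := prod_le (fun x : ℚ => x.den) den_lt I.2.1
  have h3 := prod_le (fun x : ℚ => x.den) den_lt I.2.2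
  unfold dprod
  calc _ ≤ 2 ^ sz I.1 * (2 ^ sz I.2.1 * 2 ^ sz I.2.2) :=
        Nat.mul_le_mul h1 (Nat.mul_le_mul h2 h3)
    _ = 2 ^ (sz I.1 + (sz I.2.1 + sz I.2.2)) := by rw [pow_add, pow_add]
    _ ≤ 2 ^ sz I := Nat.pow_le_pow_right (by norm_num) (by have := sz_I I; omega)

theorem K_le (I : Inst) : (64 ^ nst I + 1) * mact I + 1 ≤ 2 ^ (7 * sz I + 2) := by
  have h1 : 64 ^ nst I + 1 ≤ 2 ^ (6 * sz I + 1) := by
    have h2 : 64 ^ nst I ≤ 2 ^ (6 * sz I) := by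
      have : (64 : ℕ) = 2 ^ 6 := by norm_num
      rw [this, ← pow_mul]
      exact Nat.pow_le_pow_right (by norm_num) (by have := nst_lt I; omega)
    have h3 : 1 ≤ 2 ^ (6 * sz I) := Nat.one_le_two_pow
    rw [pow_succ]
    omega
  have h4 := mact_le I
  have h5 : (64 ^ nst I + 1) * mact I ≤ 2 ^ (7 * sz I + 1) := by
    calc (64 ^ nst I + 1) * mact I ≤ 2 ^ (6 * sz I + 1) * 2 ^ sz I := Nat.mul_le_mul h1 h4
      _ = 2 ^ (7 * sz I + 1) := by rw [← pow_add]; congr 1; ring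
  have h6 : 1 ≤ 2 ^ (7 * sz I + 1) := Nat.one_le_two_pow
  rw [pow_succ]
  omega

theorem cfB_le (I : Inst) : cfB I ≤ 2 ^ (11 * sz I ^ 3) := by
  have hm : 1 ≤ sz I := sz_pos I
  have hn := nst_lt I
  have h1 : (nst I).factorial ≤ 2 ^ (sz I * sz I) := by
    calc (nst I).factorial ≤ nst I ^ nst I := Nat.factorial_le_pow _
      _ ≤ (2 ^ nst I) ^ nst I := Nat.pow_le_pow_left (Nat.lt_two_pow_self).le _
      _ = 2 ^ (nst I * nst I) := by rw [pow_mul]
      _ ≤ 2 ^ (sz I * sz I) :=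
        Nat.pow_le_pow_right (by norm_num) (Nat.mul_le_mul hn.le hn.le)
  have h2 : ((64 ^ nst I + 1) * mact I + 1) * dprod I ≤ 2 ^ (8 * sz I + 2) := by
    calc _ ≤ 2 ^ (7 * sz I + 2) * 2 ^ sz I := Nat.mul_le_mul (K_le I) (dprod_le I)
      _ = 2 ^ (8 * sz I + 2) := by rw [← pow_add]; congr 1; ring
  have h3 : (((64 ^ nst I + 1) * mact I + 1) * dprod I) ^ (nst I * nst I) ≤
      2 ^ ((8 * sz I + 2) * (sz I * sz I)) := by
    calc _ ≤ (2 ^ (8 * sz I + 2)) ^ (nst I * nst I) := Nat.pow_le_pow_left h2 _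
      _ = 2 ^ ((8 * sz I + 2) * (nst I * nst I)) := (pow_mul 2 (8 * sz I + 2) (nst I * nst I)).symm
      _ ≤ _ := Nat.pow_le_pow_right (by norm_num)
        (Nat.mul_le_mul le_rfl (Nat.mul_le_mul hn.le hn.le))
  unfold cfB
  calc _ ≤ 2 ^ (sz I * sz I) * 2 ^ ((8 * sz I + 2) * (sz I * sz I)) := Nat.mul_le_mul h1 h3
    _ = 2 ^ (sz I * sz I + (8 * sz I + 2) * (sz I * sz I)) := by rw [pow_add]
    _ ≤ 2 ^ (11 * sz I ^ 3) := by
      apply Nat.pow_le_pow_right (by norm_num)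
      have h4 : sz I * sz I ≤ sz I ^ 3 := by
        calc sz I * sz I = sz I * sz I * 1 := by ring
          _ ≤ sz I * sz I * sz I := Nat.mul_le_mul le_rfl hm
          _ = sz I ^ 3 := by ring
      have h5 : (8 * sz I + 2) * (sz I * sz I) = 8 * sz I ^ 3 + 2 * (sz I * sz I) := by ring
      rw [h5]
      omega

theorem sz_nat_bound {n B : ℕ} (h : n ≤ 2 ^ B) : sz n ≤ 4 * B + 5 := by
  have h1 := sz_nat_le n
  have h2 : n.size ≤ B + 1 := by
    rw [Nat.size_le]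
    calc n ≤ 2 ^ B := h
      _ < 2 ^ (B + 1) := Nat.pow_lt_pow_right (by norm_num) (by omega)
  omega

theorem len_mul {α : Type} [TEnc α] (l : List α) (B L : ℕ) (h : ∀ a ∈ l, sz a ≤ B)
    (hl : l.length ≤ L) : sz l ≤ L * (B + 1) + 1 := by
  have h1 := sz_le_length_mul l B h
  have h2 : l.length * (B + 1) ≤ L * (B + 1) := Nat.mul_le_mul hl le_rfl
  omega

end SizeAux

open SizeAux Polynomial in
/-- SIZE -/
theorem t_SIZE : S_SIZE := by
  refine ⟨(2 * (80 * X ^ 3 + 5) + 1) + ((X * (3 * (80 * X ^ 3 + 5) + 2 + 1) + 1) +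
    ((X * X * (2 * (80 * X ^ 3 + 5) + 1 + 1) + 1) +
    (X * ((80 * X ^ 3 + 5) + (2 * X * (((X * ((80 * X ^ 3 + 5) + 1) + 1) +
      (2 * (80 * X ^ 3 + 5) + 2)) + 1) + 1) + 1 + 1) + 1) + 1) + 1) + 1, ?_⟩
  intro I c hc
  set m := sz I with hm
  have hm1 : 1 ≤ m := sz_pos I
  have hev : Polynomial.eval m ((2 * (80 * X ^ 3 + 5) + 1) +
    ((X * (3 * (80 * X ^ 3 + 5) + 2 + 1) + 1) +
    ((X * X * (2 * (80 * X ^ 3 + 5) + 1 + 1) + 1) +
    (X * ((80 * X ^ 3 + 5) + (2 * X * (((X * ((80 * X ^ 3 + 5) + 1) + 1) +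
      (2 * (80 * X ^ 3 + 5) + 2)) + 1) + 1) + 1 + 1) + 1) + 1) + 1) + 1 : ℕ[X]) =
    (2 * (80 * m ^ 3 + 5) + 1) + ((m * (3 * (80 * m ^ 3 + 5) + 2 + 1) + 1) +
    ((m * m * (2 * (80 * m ^ 3 + 5) + 1 + 1) + 1) +
    (m * ((80 * m ^ 3 + 5) + (2 * m * (((m * ((80 * m ^ 3 + 5) + 1) + 1) +
      (2 * (80 * m ^ 3 + 5) + 2)) + 1) + 1) + 1 + 1) + 1) + 1) + 1) + 1 := by
    simp
  rw [hev]
  have hm3 : m ≤ m ^ 3 := Nat.le_self_pow (by norm_num) m
  have hm3' : 1 ≤ m ^ 3 := Nat.one_le_pow _ _ hm1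
  set Z := 80 * m ^ 3 + 5 with hZ
  -- all numbers are at most `2 ^ (20 m ^ 3)`
  have big : ∀ x B : ℕ, x ≤ 2 ^ B → B ≤ 20 * m ^ 3 → sz x ≤ Z := by
    intro x B hx hB
    have := sz_nat_bound hx
    omega
  have hn := nst_lt I
  have hnst : ∀ x : ℕ, x ≤ nst I → sz x ≤ Z := by
    intro x hx
    refine big x m ?_ (by omega)
    calc x ≤ m := by omega
      _ ≤ 2 ^ m := Nat.lt_two_pow_self.le
  have hK : ∀ x : ℕ, x ≤ (64 ^ nst I + 1) * mact I + 1 → sz x ≤ Z := fun x hx =>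
    big x (7 * m + 2) (hx.trans (K_le I)) (by omega)
  have hmact : ∀ x : ℕ, x ≤ mact I → sz x ≤ Z := fun x hx =>
    big x m (hx.trans (mact_le I)) (by omega)
  have hmlab : ∀ x : ℕ, x ≤ mlab I → sz x ≤ Z := fun x hx =>
    big x m (hx.trans (mlab_le I)) (by omega)
  have hD : sz (dprod I) ≤ Z := big _ m (dprod_le I) (by omega)
  have hcf : ∀ x : ℕ, x ≤ cfB I → sz x ≤ Z := fun x hx =>
    big x (11 * m ^ 3) (hx.trans (cfB_le I)) (by omega)
  obtain ⟨⟨D, K⟩, Y, R, Fs⟩ := c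
  obtain ⟨cD, cK, cYlen, cY, cRlen, cR, cFlen, cF⟩ := hc
  simp only at cD cK cYlen cY cRlen cR cFlen cF
  have b1 : sz (D, K) ≤ 2 * Z + 1 := by
    have h1 : sz D ≤ Z := by rw [cD]; exact hD
    have h2 : sz K ≤ Z := hK K cK.le
    rw [sz_pair]
    omega
  have bY : sz Y ≤ m * (3 * Z + 2 + 1) + 1 := by
    apply len_mul
    · rintro ⟨s, a, y⟩ hk
      obtain ⟨h1, h2, h3⟩ := cY _ hk
      simp only at h1 h2 h3
      have g1 := hnst s h1
      have g2 := hmact a h2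
      have g3 := hK y (h3.trans cK.le)
      rw [sz_pair, sz_pair]
      omega
    · have := len_lt I
      omega
  have bR : sz R ≤ m * m * (2 * Z + 1 + 1) + 1 := by
    apply len_mul
    · rintro ⟨s, t⟩ hk
      obtain ⟨h1, h2⟩ := cR _ hk
      have g1 := hnst s h1
      have g2 := hnst t h2
      rw [sz_pair]
      omega
    · exact cRlen.trans (Nat.mul_le_mul hn.le hn.le)
  have bF : sz Fs ≤ m * (Z + (2 * m * (((m * (Z + 1) + 1) + (2 * Z + 2)) + 1) + 1) + 1 + 1) +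
      1 := by
    apply len_mul
    · rintro ⟨s, l⟩ hx
      obtain ⟨h1, h2, h3⟩ := cF _ hx
      simp only at h1 h2 h3
      have g1 := hnst s h1
      have g2 : sz l ≤ 2 * m * (((m * (Z + 1) + 1) + (2 * Z + 2)) + 1) + 1 := by
        apply len_mul
        · rintro ⟨w, a, b⟩ hy
          obtain ⟨k1, k2, k3, k4⟩ := h3 _ hy
          simp only at k1 k2 k3 k4
          have e1 : sz w ≤ m * (Z + 1) + 1 := len_mul w Z m (fun ℓ hℓ => hmlab ℓ (k2 ℓ hℓ))
            (by omega)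
          have e2 := hcf a k3
          have e3 := hcf b k4
          rw [sz_pair, sz_pair]
          omega
        · omega
      rw [sz_pair]
      omega
    · omega
  have e1 : sz (R, Fs) = sz R + sz Fs + 1 := sz_pair _ _
  have e2 : sz (Y, R, Fs) = sz Y + sz (R, Fs) + 1 := sz_pair _ _
  have e3 : sz ((D, K), Y, R, Fs) = sz (D, K) + sz (Y, R, Fs) + 1 := sz_pair _ _
  rw [e3, e2, e1]
  omega

end Pool.Agent.R554.DO
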