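import Pool.Agent.R554.DO.Stm

/-! Piece SOUND: certificates prove singularity. -/

set_option autoImplicit false

namespace Pool.Agent.R554.DO

open Finset

namespace SoundAux

variable {S L : Type} [Fintype S] [DecidableEq S] [Fintype L] [DecidableEq L]

lemma valN_eq (N : L → S → S → ℕ) (c : ℕ) (hc : 0 < c) (w : List L) :
    ∀ s, (valN N w s : ℝ) = (c : ℝ) ^ w.length * val (scl N c) w s := by
  have hc' : (c : ℝ) ≠ 0 := by exact_mod_cast hc.ne'
  induction w with
  | nil => intro s; simp [valN, val]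
  | cons ℓ w ih =>
    intro s
    simp only [valN, val, List.length_cons]
    push_cast
    rw [Finset.mul_sum]
    apply Finset.sum_congr rfl
    intro t _
    rw [ih t, scl]
    field_simp
    ring

lemma sum_val (N : L → S → S → ℕ) (c : ℕ) (hc : 0 < c) (γ : S → ℝ) (w : List L) :
    ∑ q, γ q * (valN N w q : ℝ) = (c : ℝ) ^ w.length * pr (scl N c) γ w := by
  rw [pr, Finset.mul_sum]
  apply Finset.sum_congr rfl
  intro q _
  rw [valN_eq N c hc]
  ring

lemma sum_fp (N : L → S → S → ℕ) (c : ℕ) (hc : 0 < c) (γ : S → ℝ)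
    (F : List (List L × ℕ × ℕ)) :
    ∑ q, γ q * (fp N F q : ℝ) =
      (F.map (fun x => (x.2.1 : ℝ) * ((c : ℝ) ^ x.1.length * pr (scl N c) γ x.1))).sum := by
  induction F with
  | nil => simp [fp]
  | cons x F ih =>
    have e : ∀ q, fp N (x :: F) q = x.2.1 * valN N x.1 q + fp N F q := fun q => rfl
    simp only [List.map_cons, List.sum_cons]
    rw [← ih, ← sum_val N c hc, Finset.mul_sum, ← Finset.sum_add_distrib]
    apply Finset.sum_congr rfl
    intro q _
    rw [e]
    push_cast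
    ring

lemma sum_fm (N : L → S → S → ℕ) (c : ℕ) (hc : 0 < c) (γ : S → ℝ)
    (F : List (List L × ℕ × ℕ)) :
    ∑ q, γ q * (fm N F q : ℝ) =
      (F.map (fun x => (x.2.2 : ℝ) * ((c : ℝ) ^ x.1.length * pr (scl N c) γ x.1))).sum := by
  induction F with
  | nil => simp [fm]
  | cons x F ih =>
    have e : ∀ q, fm N (x :: F) q = x.2.2 * valN N x.1 q + fm N F q := fun q => rfl
    simp only [List.map_cons, List.sum_cons]
    rw [← ih, ← sum_val N c hc, Finset.mul_sum, ← Finset.sum_add_distrib]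
    apply Finset.sum_congr rfl
    intro q _
    rw [e]
    push_cast
    ring

end SoundAux

open SoundAux

theorem t_SOUND (hMax : S_MAX) : S_SOUND := by
  intro S L _ _ _ _ N c hc hst μ ν hμ hν R hR0 hRs hcert
  by_contra hns
  have hpos : ∀ ℓ s t, 0 < scl N c ℓ s t → 0 < N ℓ s t := by
    intro ℓ s t h
    rw [scl] at h
    rcases Nat.eq_zero_or_pos (N ℓ s t) with h0 | h0
    · rw [h0] at h
      simp at h
    · exact h0
  obtain ⟨j, α, β, hα, hβ, hX, hY, hE⟩ := hMax S L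
    {p : Set S × Set S // ∀ x ∈ p.1, ∀ y ∈ p.2, R x y} (scl N c) hst
    (fun p => p.1.1) (fun p => p.1.2)
    (fun p ℓ => ⟨({t | ∃ s ∈ p.1.1, 0 < scl N c ℓ s t}, {t | ∃ s ∈ p.1.2, 0 < scl N c ℓ s t}), by
      rintro x ⟨s, hs, hsx⟩ y ⟨s', hs', hsy⟩
      exact hRs s s' x y ℓ (p.2 s hs s' hs') (hpos _ _ _ hsx) (hpos _ _ _ hsy)⟩)
    (fun p ℓ s t hs hst => ⟨s, hs, hst⟩) (fun p ℓ s t hs hst => ⟨s, hs, hst⟩)
    ⟨({t | 0 < μ t}, {s | 0 < ν s}), fun t ht s hs => hR0 t s ht hs⟩ μ ν hμ.nonneg hν.nonneg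
    (fun s hs => lt_of_le_of_ne (hμ.nonneg s) (Ne.symm hs))
    (fun s hs => lt_of_le_of_ne (hν.nonneg s) (Ne.symm hs)) hns
  obtain ⟨s, -, hs⟩ := Finset.exists_ne_zero_of_sum_ne_zero
    (s := Finset.univ) (f := β) (by rw [hβ.sum]; exact one_ne_zero)
  obtain ⟨t, -, ht⟩ := Finset.exists_ne_zero_of_sum_ne_zero
    (s := Finset.univ) (f := α) (by rw [hα.sum]; exact one_ne_zero)
  obtain ⟨F, hF⟩ := hcert t s (j.2 t (hX t ht) s (hY s hs))
  have hp : ∑ q, α q * (fp N F q : ℝ) = ∑ q, β q * (fp N F q : ℝ) := by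
    rw [sum_fp N c hc, sum_fp N c hc]
    congr 1
    apply List.map_congr_left
    intro x _
    rw [hE x.1]
  have hm : ∑ q, α q * (fm N F q : ℝ) = ∑ q, β q * (fm N F q : ℝ) := by
    rw [sum_fm N c hc, sum_fm N c hc]
    congr 1
    apply List.map_congr_left
    intro x _
    rw [hE x.1]
  have h1 : ∑ q, α q * ((fp N F q : ℝ) - fm N F q) = ∑ q, β q * ((fp N F q : ℝ) - fm N F q) := by
    simp only [mul_sub, Finset.sum_sub_distrib, hp, hm]
  have h2 : ∑ q, α q * ((fp N F q : ℝ) - fm N F q) = 0 := by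
    apply Finset.sum_eq_zero
    intro q _
    by_cases hq : α q = 0
    · rw [hq, zero_mul]
    · have := hF.eq q (j.2 q (hX q hq) s (hY s hs))
      rw [this]
      ring
  have h3 : 0 < ∑ q, β q * ((fp N F q : ℝ) - fm N F q) := by
    apply Finset.sum_pos'
    · intro q _
      apply mul_nonneg (hβ.nonneg q)
      have : (fm N F q : ℝ) ≤ fp N F q := by exact_mod_cast hF.le q
      linarith
    · refine ⟨s, Finset.mem_univ s, ?_⟩
      apply mul_pos (lt_of_le_of_ne (hβ.nonneg s) (Ne.symm hs))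
      have : (fm N F s : ℝ) < fp N F s := by exact_mod_cast hF.lt
      linarith
  rw [← h1, h2] at h3
  exact lt_irrefl _ h3

end Pool.Agent.R554.DO
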