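import Pool.Agent.R554.DO.Stm

/-!
# Piece STAT: equivalent stationary distributions as fixed points
-/

set_option autoImplicit false

namespace Pool.Agent.R554.DO

open Finset

namespace PStat

/-- a single continuous linear map that preserves a compact convex set has a fixed point -/
lemma fixed {E : Type} [NormedAddCommGroup E] [NormedSpace ℝ E] {K : Set E} (hK : IsCompact K)
    (hc : Convex ℝ K) (hne : K.Nonempty) (T : E →ₗ[ℝ] E) (hT : Continuous T)
    (hTK : ∀ x ∈ K, T x ∈ K) : ∃ p ∈ K, T p = p := by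
  obtain ⟨x0, hx0⟩ := hne
  obtain ⟨p, hp, hmin⟩ := hK.exists_isMinOn ⟨x0, hx0⟩
    (f := fun x => ‖T x - x‖) ((hT.sub continuous_id).norm.continuousOn)
  refine ⟨p, hp, ?_⟩
  by_contra hne'
  have hδ : 0 < ‖T p - p‖ := norm_pos_iff.mpr (sub_ne_zero.mpr hne')
  obtain ⟨R, hR⟩ := hK.isBounded.exists_norm_le
  have hit : ∀ k : ℕ, (T^[k]) x0 ∈ K := by
    intro k
    induction k with
    | zero => exact hx0
    | succ k ih =>
      rw [Function.iterate_succ_apply']
      exact hTK _ ih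
  have hR0 : 0 ≤ R := (norm_nonneg x0).trans (hR x0 hx0)
  obtain ⟨n, hn⟩ := exists_nat_gt (2 * R / ‖T p - p‖)
  have hn1 : (0 : ℝ) < (n : ℝ) + 1 := by positivity
  obtain ⟨A, hA⟩ : ∃ A : E, A = ∑ k ∈ range (n + 1), ((1 : ℝ) / (n + 1)) • (T^[k]) x0 := ⟨_, rfl⟩
  have hAK : A ∈ K := by
    rw [hA]
    refine hc.sum_mem (fun _ _ => by positivity) ?_ (fun k _ => hit k)
    rw [Finset.sum_const, card_range, nsmul_eq_mul]
    push_cast
    field_simp
  have hTA : T A - A = ((1 : ℝ) / (n + 1)) • ((T^[n + 1]) x0 - x0) := by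
    rw [hA, map_sum, ← Finset.sum_sub_distrib]
    have h1 : ∀ k ∈ range (n + 1), (T (((1 : ℝ) / (n + 1)) • (T^[k]) x0) - ((1 : ℝ) / (n + 1)) • (T^[k]) x0)
        = ((1 : ℝ) / (n + 1)) • ((T^[k + 1]) x0 - (T^[k]) x0) := by
      intro k _
      rw [map_smul, smul_sub, Function.iterate_succ_apply']
    rw [Finset.sum_congr rfl h1, ← Finset.smul_sum, Finset.sum_range_sub (fun k => (T^[k]) x0)]
    rfl
  have h2 : ‖T p - p‖ ≤ ‖T A - A‖ := hmin hAK
  have h3 : ‖T A - A‖ ≤ (1 / (n + 1)) * (2 * R) := by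
    rw [hTA, norm_smul, Real.norm_of_nonneg (by positivity)]
    gcongr
    calc ‖(T^[n + 1]) x0 - x0‖ ≤ ‖(T^[n + 1]) x0‖ + ‖x0‖ := norm_sub_le _ _
      _ ≤ R + R := add_le_add (hR _ (hit _)) (hR _ hx0)
      _ = 2 * R := by ring
  rw [div_lt_iff₀ hδ] at hn
  have h4 : (1 / ((n : ℝ) + 1)) * (2 * R) < ‖T p - p‖ := by
    rw [one_div, inv_mul_lt_iff₀ hn1]
    nlinarith
  linarith

section

variable {S L : Type} [Fintype S] [DecidableEq S] [Fintype L] [DecidableEq L]

lemma Qz_nonneg {M : L → S → S → ℝ} {G : L → S → S → Prop} (hM : Stoch M) (z z' : S × Finset S) :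
    0 ≤ Qz M G z z' := by
  unfold Qz
  refine Finset.sum_nonneg fun ℓ _ => ?_
  split_ifs
  · exact hM.nonneg _ _ _
  · exact le_rfl

lemma Qz_sum {M : L → S → S → ℝ} {G : L → S → S → Prop} (hM : Stoch M) (z : S × Finset S) :
    ∑ z', Qz M G z z' = 1 := by
  classical
  unfold Qz
  rw [Fintype.sum_prod_type, ← hM.sum z.1, Finset.sum_comm]
  have h1 : ∀ (B' : Finset S), ∑ t, ∑ ℓ, (if nxt G ℓ z.2 = (t, B').2 then M ℓ z.1 (t, B').1 else 0)
      = ∑ ℓ, ∑ t, (if nxt G ℓ z.2 = B' then M ℓ z.1 t else 0) := by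
    intro B'
    rw [Finset.sum_comm]
  rw [Finset.sum_congr rfl fun B' _ => h1 B', Finset.sum_comm]
  refine Finset.sum_congr rfl fun ℓ _ => ?_
  rw [Finset.sum_comm]
  refine Finset.sum_congr rfl fun t _ => ?_
  rw [Finset.sum_ite_eq]
  simp

lemma Qz_pos {M : L → S → S → ℝ} {G : L → S → S → Prop} (hM : Stoch M) (hF : Fits M G)
    {z z' : S × Finset S} (h : Qz M G z z' ≠ 0) : zstep G z z' := by
  unfold Qz at h
  obtain ⟨ℓ, _, hℓ⟩ := Finset.exists_ne_zero_of_sum_ne_zero h
  by_cases h1 : nxt G ℓ z.2 = z'.2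
  · rw [if_pos h1] at hℓ
    refine ⟨ℓ, ?_, h1.symm⟩
    rw [← hF]
    exact lt_of_le_of_ne (hM.nonneg _ _ _) (Ne.symm hℓ)
  · rw [if_neg h1] at hℓ
    exact absurd rfl hℓ

/-- the operator -/
noncomputable def T0 (M : L → S → S → ℝ) (G : L → S → S → Prop) :
    (S × Finset S → ℝ) →ₗ[ℝ] (S × Finset S → ℝ) where
  toFun a := fun z' => ∑ z, a z * Qz M G z z'
  map_add' a b := by
    funext z'
    simp only [Pi.add_apply, add_mul, Finset.sum_add_distrib]
  map_smul' c a := by
    funext z'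
    simp only [Pi.smul_apply, smul_eq_mul, RingHom.id_apply, Finset.mul_sum, mul_assoc]

lemma T0_apply (M : L → S → S → ℝ) (G : L → S → S → Prop) (a : S × Finset S → ℝ)
    (z' : S × Finset S) : T0 M G a z' = ∑ z, a z * Qz M G z z' := rfl

lemma T0_pr (M : L → S → S → ℝ) (G : L → S → S → Prop) (a : S × Finset S → ℝ) (B' : Finset S)
    (w : List L) : ∑ t, T0 M G a (t, B') * val M w t
      = ∑ B, ∑ ℓ, if nxt G ℓ B = B' then ∑ s, a (s, B) * val M (ℓ :: w) s else 0 := by
  classical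
  have h1 : ∀ t, T0 M G a (t, B') * val M w t
      = ∑ B, ∑ ℓ, ∑ s, (if nxt G ℓ B = B' then a (s, B) * (M ℓ s t * val M w t) else 0) := by
    intro t
    rw [T0_apply, Finset.sum_mul, Fintype.sum_prod_type_right]
    refine Finset.sum_congr rfl fun B _ => ?_
    rw [Finset.sum_comm]
    refine Finset.sum_congr rfl fun s _ => ?_
    unfold Qz
    rw [Finset.mul_sum, Finset.sum_mul]
    refine Finset.sum_congr rfl fun ℓ _ => ?_
    by_cases h : nxt G ℓ B = B'
    · rw [if_pos h, if_pos h]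
      ring
    · rw [if_neg h, if_neg h]
      ring
  rw [Finset.sum_congr rfl fun t _ => h1 t, Finset.sum_comm]
  refine Finset.sum_congr rfl fun B _ => ?_
  rw [Finset.sum_comm]
  refine Finset.sum_congr rfl fun ℓ _ => ?_
  rw [Finset.sum_comm]
  by_cases h : nxt G ℓ B = B'
  · rw [if_pos h]
    refine Finset.sum_congr rfl fun s _ => ?_
    rw [show val M (ℓ :: w) s = ∑ t, M ℓ s t * val M w t from rfl, Finset.mul_sum]
    refine Finset.sum_congr rfl fun t _ => ?_
    rw [if_pos h]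
  · rw [if_neg h]
    refine Finset.sum_eq_zero fun s _ => Finset.sum_eq_zero fun t _ => ?_
    rw [if_neg h]

/-- the compact convex set -/
def KK (M : L → S → S → ℝ) (G : L → S → S → Prop) (z z' : S × Finset S) :
    Set ((S × Finset S → ℝ) × (S × Finset S → ℝ)) :=
  {p | (∀ x, 0 ≤ p.1 x) ∧ (∀ x, 0 ≤ p.2 x) ∧ ∑ x, p.1 x = 1 ∧ ∑ x, p.2 x = 1 ∧
    (∀ x, ¬ Rch G z x → p.1 x = 0) ∧ (∀ x, ¬ Rch G z' x → p.2 x = 0) ∧
    ∀ (B : Finset S) (w : List L), ∑ s, p.1 (s, B) * val M w s = ∑ s, p.2 (s, B) * val M w s}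

lemma KK_closed (M : L → S → S → ℝ) (G : L → S → S → Prop) (z z' : S × Finset S) :
    IsClosed (KK M G z z') := by
  have c1 : ∀ x : S × Finset S, Continuous fun p : (S × Finset S → ℝ) × (S × Finset S → ℝ) => p.1 x :=
    fun x => (continuous_apply x).comp continuous_fst
  have c2 : ∀ x : S × Finset S, Continuous fun p : (S × Finset S → ℝ) × (S × Finset S → ℝ) => p.2 x :=
    fun x => (continuous_apply x).comp continuous_snd
  have h : KK M G z z' = (⋂ x, {p | 0 ≤ p.1 x}) ∩ (⋂ x, {p | 0 ≤ p.2 x}) ∩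
      {p | ∑ x, p.1 x = 1} ∩ {p | ∑ x, p.2 x = 1} ∩
      (⋂ x, ⋂ (_ : ¬ Rch G z x), {p | p.1 x = 0}) ∩ (⋂ x, ⋂ (_ : ¬ Rch G z' x), {p | p.2 x = 0}) ∩
      (⋂ B : Finset S, ⋂ w : List L,
        {p | ∑ s, p.1 (s, B) * val M w s = ∑ s, p.2 (s, B) * val M w s}) := by
    ext p
    simp only [KK, Set.mem_ofPred_eq, Set.mem_inter_iff, Set.mem_iInter]
    tauto
  rw [h]
  refine ((((((?_ : IsClosed _).inter ?_).inter ?_).inter ?_).inter ?_).inter ?_).inter ?_
  · exact isClosed_iInter fun x => isClosed_le continuous_const (c1 x)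
  · exact isClosed_iInter fun x => isClosed_le continuous_const (c2 x)
  · exact isClosed_eq (continuous_finset_sum _ fun x _ => c1 x) continuous_const
  · exact isClosed_eq (continuous_finset_sum _ fun x _ => c2 x) continuous_const
  · exact isClosed_iInter fun x => isClosed_iInter fun _ => isClosed_eq (c1 x) continuous_const
  · exact isClosed_iInter fun x => isClosed_iInter fun _ => isClosed_eq (c2 x) continuous_const
  · exact isClosed_iInter fun B => isClosed_iInter fun w => isClosed_eq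
      (continuous_finset_sum _ fun s _ => (c1 (s, B)).mul continuous_const)
      (continuous_finset_sum _ fun s _ => (c2 (s, B)).mul continuous_const)

lemma KK_compact (M : L → S → S → ℝ) (G : L → S → S → Prop) (z z' : S × Finset S) :
    IsCompact (KK M G z z') := by
  refine (isCompact_Icc (a := ((0, 0) : (S × Finset S → ℝ) × (S × Finset S → ℝ))) (b := (1, 1))).of_isClosed_subset
    (KK_closed M G z z') ?_
  rintro p ⟨h1, h2, h3, h4, _, _, _⟩
  refine ⟨⟨fun x => h1 x, fun x => h2 x⟩, ⟨fun x => ?_, fun x => ?_⟩⟩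
  · show p.1 x ≤ 1
    rw [← h3]
    exact Finset.single_le_sum (fun y _ => h1 y) (Finset.mem_univ x)
  · show p.2 x ≤ 1
    rw [← h4]
    exact Finset.single_le_sum (fun y _ => h2 y) (Finset.mem_univ x)

lemma KK_convex (M : L → S → S → ℝ) (G : L → S → S → Prop) (z z' : S × Finset S) :
    Convex ℝ (KK M G z z') := by
  rintro p ⟨h1, h2, h3, h4, h5, h6, h7⟩ q ⟨k1, k2, k3, k4, k5, k6, k7⟩ s t hs ht hst
  have e1 : ∀ x, (s • p + t • q).1 x = s * p.1 x + t * q.1 x := fun x => rfl
  have e2 : ∀ x, (s • p + t • q).2 x = s * p.2 x + t * q.2 x := fun x => rfl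
  refine ⟨fun x => ?_, fun x => ?_, ?_, ?_, fun x hx => ?_, fun x hx => ?_, fun B w => ?_⟩
  · rw [e1]
    have := h1 x
    have := k1 x
    positivity
  · rw [e2]
    have := h2 x
    have := k2 x
    positivity
  · simp only [e1, Finset.sum_add_distrib, ← Finset.mul_sum, h3, k3]
    linarith
  · simp only [e2, Finset.sum_add_distrib, ← Finset.mul_sum, h4, k4]
    linarith
  · rw [e1, h5 x hx, k5 x hx]; ring
  · rw [e2, h6 x hx, k6 x hx]; ring
  · simp only [e1, e2, add_mul, Finset.sum_add_distrib, mul_assoc, ← Finset.mul_sum, h7, k7]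

lemma T0_nonneg {M : L → S → S → ℝ} {G : L → S → S → Prop} (hM : Stoch M)
    {a : S × Finset S → ℝ} (ha : ∀ x, 0 ≤ a x) (x : S × Finset S) : 0 ≤ T0 M G a x :=
  Finset.sum_nonneg fun y _ => mul_nonneg (ha y) (Qz_nonneg hM y x)

lemma T0_sum {M : L → S → S → ℝ} {G : L → S → S → Prop} (hM : Stoch M)
    {a : S × Finset S → ℝ} : ∑ x, T0 M G a x = ∑ x, a x := by
  simp only [T0_apply]
  rw [Finset.sum_comm]
  refine Finset.sum_congr rfl fun y _ => ?_
  rw [← Finset.mul_sum, Qz_sum hM, mul_one]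

lemma T0_supp {M : L → S → S → ℝ} {G : L → S → S → Prop} (hM : Stoch M) (hF : Fits M G)
    {a : S × Finset S → ℝ} {z : S × Finset S} (ha : ∀ x, ¬ Rch G z x → a x = 0)
    (x : S × Finset S) (hx : ¬ Rch G z x) : T0 M G a x = 0 := by
  rw [T0_apply]
  refine Finset.sum_eq_zero fun y _ => ?_
  by_cases hy : Rch G z y
  · have h1 : Qz M G y x = 0 := by
      by_contra h
      exact hx (hy.tail (Qz_pos hM hF h))
    rw [h1, mul_zero]
  · rw [ha y hy, zero_mul]

lemma KK_maps {M : L → S → S → ℝ} {G : L → S → S → Prop} (hM : Stoch M) (hF : Fits M G)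
    (z z' : S × Finset S) : ∀ p ∈ KK M G z z', (T0 M G).prodMap (T0 M G) p ∈ KK M G z z' := by
  rintro p ⟨h1, h2, h3, h4, h5, h6, h7⟩
  refine ⟨fun x => T0_nonneg hM h1 x, fun x => T0_nonneg hM h2 x, ?_, ?_,
    fun x hx => T0_supp hM hF h5 x hx, fun x hx => T0_supp hM hF h6 x hx, fun B' w => ?_⟩
  · exact (T0_sum hM (a := p.1)).trans h3
  · exact (T0_sum hM (a := p.2)).trans h4
  · refine (T0_pr M G p.1 B' w).trans (Eq.trans ?_ (T0_pr M G p.2 B' w).symm)
    refine Finset.sum_congr rfl fun B _ => Finset.sum_congr rfl fun ℓ _ => ?_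
    rw [h7 B (ℓ :: w)]

end

end PStat

open PStat in
theorem t_STAT : S_STAT := by
  classical
  intro S L _ _ _ _ M G hM hF z z' B α β hα hβ hαs hβs hE
  have hx0 : ((fun x : S × Finset S => if x.2 = B then α x.1 else 0),
      (fun x : S × Finset S => if x.2 = B then β x.1 else 0)) ∈ KK M G z z' := by
    refine ⟨fun x => ?_, fun x => ?_, ?_, ?_, fun x hx => ?_, fun x hx => ?_, fun B' w => ?_⟩
    · dsimp only
      split_ifs
      · exact hα.nonneg _
      · exact le_rfl
    · dsimp only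
      split_ifs
      · exact hβ.nonneg _
      · exact le_rfl
    · rw [Fintype.sum_prod_type, ← hα.sum]
      refine Finset.sum_congr rfl fun t _ => ?_
      dsimp only
      rw [Finset.sum_ite_eq' Finset.univ B (fun _ => α t)]
      simp
    · rw [Fintype.sum_prod_type, ← hβ.sum]
      refine Finset.sum_congr rfl fun t _ => ?_
      dsimp only
      rw [Finset.sum_ite_eq' Finset.univ B (fun _ => β t)]
      simp
    · dsimp only
      split_ifs with h
      · by_contra h0
        apply hx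
        have := hαs x.1 h0
        rw [← h] at this
        exact this
      · rfl
    · dsimp only
      split_ifs with h
      · by_contra h0
        apply hx
        have := hβs x.1 h0
        rw [← h] at this
        exact this
      · rfl
    · dsimp only
      by_cases h : B' = B
      · simp only [if_pos h]
        exact hE w
      · simp only [if_neg h, zero_mul]
  obtain ⟨⟨a, b⟩, ⟨h1, h2, h3, h4, h5, h6, h7⟩, hfix⟩ := fixed (KK_compact M G z z')
    (KK_convex M G z z') ⟨_, hx0⟩ ((T0 M G).prodMap (T0 M G))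
    (LinearMap.continuous_of_finiteDimensional _) (KK_maps hM hF z z')
  have hfa : T0 M G a = a := congrArg Prod.fst hfix
  have hfb : T0 M G b = b := congrArg Prod.snd hfix
  refine ⟨a, b, ⟨⟨h1, h3⟩, fun x hx => ?_, fun x => ?_⟩, ⟨⟨h2, h4⟩, fun x hx => ?_, fun x => ?_⟩,
    fun B' w => h7 B' w⟩
  · by_contra h
    exact hx (h5 x h)
  · exact congrFun hfa x
  · by_contra h
    exact hx (h6 x h)
  · exact congrFun hfb x

theorem t_EXST : S_EXST := by
  classical
  intro S L _ _ _ _ M G hM hF z₀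
  have hd : Dist (dl z₀.1) := by
    refine ⟨fun s => ?_, ?_⟩
    · unfold dl
      by_cases h : s = z₀.1
      · rw [h, Pi.single_eq_same]; exact zero_le_one
      · rw [Pi.single_eq_of_ne h]
    · unfold dl
      rw [Finset.sum_pi_single']
      simp
  have hs : ∀ t, dl z₀.1 t ≠ 0 → Rch G z₀ (t, z₀.2) := by
    intro t ht
    unfold dl at ht
    by_cases h : t = z₀.1
    · rw [h]
      exact Relation.ReflTransGen.refl
    · rw [Pi.single_eq_of_ne h] at ht
      exact absurd rfl ht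
  obtain ⟨a, _, ha, _, _⟩ := t_STAT S L M G hM hF z₀ z₀ z₀.2 (dl z₀.1) (dl z₀.1) hd hd hs hs
    (fun _ => rfl)
  exact ⟨a, ha⟩

end Pool.Agent.R554.DO
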