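import Pool.Agent.R554.DO.Stm

/-!
# SUB and BACK: singularity is decided on unit masses
-/

namespace Pool.Agent.R554.DO

open Finset

namespace PSub

variable {S L : Type} [Fintype S] [DecidableEq S] [Fintype L] [DecidableEq L]

theorem sqrt_add_le' {a b : ℝ} (ha : 0 ≤ a) (hb : 0 ≤ b) : √(a + b) ≤ √a + √b := by
  rw [Real.sqrt_le_left (by positivity)]
  have h1 := Real.sq_sqrt ha
  have h2 := Real.sq_sqrt hb
  nlinarith [mul_nonneg (Real.sqrt_nonneg a) (Real.sqrt_nonneg b)]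

theorem sqrt_sum_le' {ι : Type} (s : Finset ι) (f : ι → ℝ) (hf : ∀ i, 0 ≤ f i) :
    √(∑ i ∈ s, f i) ≤ ∑ i ∈ s, √(f i) := by
  classical
  induction s using Finset.induction_on with
  | empty => simp
  | insert a s ha ih =>
    rw [Finset.sum_insert ha, Finset.sum_insert ha]
    exact (sqrt_add_le' (hf a) (Finset.sum_nonneg fun i _ => hf i)).trans (by linarith)

theorem val_nonneg {M : L → S → S → ℝ} (hM : Stoch M) (w : List L) (s : S) :
    0 ≤ val M w s := by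
  induction w generalizing s with
  | nil => exact zero_le_one
  | cons ℓ w ih => exact Finset.sum_nonneg fun t _ => mul_nonneg (hM.nonneg _ _ _) (ih t)

theorem dl_nonneg (s x : S) : 0 ≤ dl s x := by
  unfold dl
  rw [Pi.single_apply]
  split_ifs <;> norm_num

theorem pr_dl (M : L → S → S → ℝ) (s : S) (w : List L) : pr M (dl s) w = val M w s := by
  unfold pr dl
  simp [Pi.single_apply]

theorem smul_dl_le {α : S → ℝ} (hα : ∀ x, 0 ≤ α x) {a : ℝ} {s : S} (ha : a ≤ α s) (x : S) :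
    a * dl s x ≤ α x := by
  unfold dl
  rw [Pi.single_apply]
  split_ifs with h
  · rw [h, mul_one]; exact ha
  · rw [mul_zero]; exact hα x

theorem anti (hB : S_BASIC) {M : L → S → S → ℝ} (hM : Stoch M) {α β : S → ℝ}
    (hα : ∀ s, 0 ≤ α s) (hβ : ∀ s, 0 ≤ β s) {m n : ℕ} (h : m ≤ n) :
    Hn M n α β ≤ Hn M m α β := by
  obtain ⟨-, -, -, -, h5, -, -⟩ := hB S L M hM
  induction n, h using Nat.le_induction with
  | base => exact le_rfl
  | succ n _ ih => exact (h5 n α β hα hβ).trans ih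

theorem scale_le (hB : S_BASIC) {M : L → S → S → ℝ} (hM : Stoch M) {α β : S → ℝ}
    (hα : ∀ s, 0 ≤ α s) (hβ : ∀ s, 0 ≤ β s) {a b : ℝ} (ha : 0 ≤ a) (hb : 0 ≤ b) {s t : S}
    (has : a ≤ α s) (hbt : b ≤ β t) (n : ℕ) :
    √(a * b) * Hn M n (dl s) (dl t) ≤ Hn M n α β := by
  obtain ⟨-, -, -, -, -, h6, h7⟩ := hB S L M hM
  rw [← h6 n (dl s) (dl t) a b ha hb (dl_nonneg s) (dl_nonneg t)]
  exact h7 n _ _ _ _ (fun x => mul_nonneg ha (dl_nonneg s x))
    (fun x => mul_nonneg hb (dl_nonneg t x)) (smul_dl_le hα has) (smul_dl_le hβ hbt)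

theorem upper (hW : S_WSUM) {M : L → S → S → ℝ} (hM : Stoch M) {α β : S → ℝ}
    (hα : ∀ s, 0 ≤ α s) (hβ : ∀ s, 0 ≤ β s) (n : ℕ) :
    Hn M n α β ≤ ∑ p : S × S, √(α p.1 * β p.2) * Hn M n (dl p.1) (dl p.2) := by
  rw [hW S L M n α β]
  have e : ∀ p : S × S, Hn M n (dl p.1) (dl p.2) =
      ∑ w : Fin n → L, √(val M (List.ofFn w) p.1 * val M (List.ofFn w) p.2) := by
    intro p
    rw [hW S L M n (dl p.1) (dl p.2)]
    simp only [pr_dl]
  simp only [e, Finset.mul_sum]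
  rw [Finset.sum_comm]
  refine Finset.sum_le_sum fun w _ => ?_
  have e2 : pr M α (List.ofFn w) * pr M β (List.ofFn w) =
      ∑ p : S × S, (α p.1 * β p.2) * (val M (List.ofFn w) p.1 * val M (List.ofFn w) p.2) := by
    unfold pr
    rw [Finset.sum_mul_sum, ← Finset.univ_product_univ, Finset.sum_product]
    refine Finset.sum_congr rfl fun s _ => Finset.sum_congr rfl fun t _ => ?_
    ring
  rw [e2]
  refine (sqrt_sum_le' _ _ fun p => mul_nonneg (mul_nonneg (hα _) (hβ _))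
    (mul_nonneg (val_nonneg hM _ _) (val_nonneg hM _ _))).trans ?_
  refine Finset.sum_le_sum fun p _ => ?_
  rw [Real.sqrt_mul (mul_nonneg (hα _) (hβ _))]

end PSub

open PSub

/-- Piece SUB. -/
theorem t_SUB (hW : S_WSUM) (hB : S_BASIC) : S_SUB := by
  intro S L _ _ _ _ M hM α β hα hβ
  constructor
  · intro h s t hs ht ε hε
    have hpos : 0 < √(α s * β t) := Real.sqrt_pos.2 (mul_pos hs ht)
    obtain ⟨n, hn⟩ := h (√(α s * β t) * ε) (mul_pos hpos hε)
    refine ⟨n, ?_⟩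
    have h1 := scale_le hB hM hα hβ (hα s) (hβ t) (le_refl (α s)) (le_refl (β t)) n
    exact lt_of_mul_lt_mul_left (h1.trans_lt hn) hpos.le
  · intro h ε hε
    set c : ℝ := ∑ p : S × S, √(α p.1 * β p.2) with hc
    have hc0 : 0 ≤ c := Finset.sum_nonneg fun p _ => Real.sqrt_nonneg _
    have hε' : 0 < ε / (c + 1) := by positivity
    have hex : ∀ p : S × S, ∃ n : ℕ, 0 < α p.1 → 0 < β p.2 →
        Hn M n (dl p.1) (dl p.2) < ε / (c + 1) := by
      intro p
      by_cases hp : 0 < α p.1 ∧ 0 < β p.2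
      · obtain ⟨n, hn⟩ := h p.1 p.2 hp.1 hp.2 _ hε'
        exact ⟨n, fun _ _ => hn⟩
      · exact ⟨0, fun h1 h2 => absurd ⟨h1, h2⟩ hp⟩
    choose m hm using hex
    refine ⟨∑ p, m p, ?_⟩
    refine (upper hW hM hα hβ _).trans_lt ?_
    have hle : ∀ p : S × S, √(α p.1 * β p.2) * Hn M (∑ p, m p) (dl p.1) (dl p.2) ≤
        √(α p.1 * β p.2) * (ε / (c + 1)) := by
      intro p
      by_cases hp : 0 < α p.1 ∧ 0 < β p.2
      · refine mul_le_mul_of_nonneg_left ?_ (Real.sqrt_nonneg _)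
        refine (anti hB hM (dl_nonneg _) (dl_nonneg _) ?_).trans (hm p hp.1 hp.2).le
        exact Finset.single_le_sum (f := m) (fun _ _ => Nat.zero_le _) (Finset.mem_univ p)
      · have h0 : α p.1 * β p.2 = 0 := by
          by_cases h1 : 0 < α p.1
          · have h2 : β p.2 = 0 := le_antisymm (not_lt.1 fun h => hp ⟨h1, h⟩) (hβ _)
            rw [h2, mul_zero]
          · rw [le_antisymm (not_lt.1 h1) (hα _), zero_mul]
        rw [h0, Real.sqrt_zero, zero_mul, zero_mul]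
    calc ∑ p : S × S, √(α p.1 * β p.2) * Hn M (∑ p, m p) (dl p.1) (dl p.2)
        ≤ ∑ p : S × S, √(α p.1 * β p.2) * (ε / (c + 1)) := Finset.sum_le_sum fun p _ => hle p
      _ = c * (ε / (c + 1)) := by rw [← Finset.sum_mul]
      _ < ε := by
          rw [mul_div_assoc', div_lt_iff₀ (by positivity)]
          nlinarith

/-- Piece BACK. -/
theorem t_BACK (hB : S_BASIC) : S_BACK := by
  intro S L _ _ _ _ M hM ℓ s s' t t' hs ht h ε hε
  have hpos : 0 < √(M ℓ s s' * M ℓ t t') := Real.sqrt_pos.2 (mul_pos hs ht)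
  obtain ⟨n, hn⟩ := h (√(M ℓ s s' * M ℓ t t') * ε) (mul_pos hpos hε)
  refine ⟨n, ?_⟩
  obtain ⟨-, -, -, h4, h5, -, -⟩ := hB S L M hM
  have e : ∀ (x y : S), push M ℓ (dl x) y = M ℓ x y := by
    intro x y
    unfold push dl
    simp [Pi.single_apply]
  have h1 : √(M ℓ s s' * M ℓ t t') * Hn M n (dl s') (dl t') ≤
      Hn M n (push M ℓ (dl s)) (push M ℓ (dl t)) := by
    refine scale_le hB hM (fun y => ?_) (fun y => ?_) hs.le ht.le ?_ ?_ n
    · rw [e]; exact hM.nonneg _ _ _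
    · rw [e]; exact hM.nonneg _ _ _
    · rw [e]
    · rw [e]
  have h2 : Hn M n (push M ℓ (dl s)) (push M ℓ (dl t)) ≤ Hn M (n + 1) (dl s) (dl t) := by
    show _ ≤ ∑ ℓ', Hn M n (push M ℓ' (dl s)) (push M ℓ' (dl t))
    exact Finset.single_le_sum (f := fun ℓ' => Hn M n (push M ℓ' (dl s)) (push M ℓ' (dl t)))
      (fun _ _ => h4 _ _ _) (Finset.mem_univ ℓ)
  have h3 := h5 n (dl s) (dl t) (dl_nonneg s) (dl_nonneg t)
  exact lt_of_mul_lt_mul_left (((h1.trans h2).trans h3).trans_lt hn) hpos.le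

end Pool.Agent.R554.DO
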