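import Pool.Agent.R554.DO.Chk

/-!
# MP_f8a6ff_lc, piece TR1: translation of an instance into matrices
-/

namespace Pool.Agent.R554.DO

open Finset MeasureTheory

theorem tr1_sf (L : List Tr) (p : Tr → Prop) [DecidablePred p] (g : Tr → ℝ) :
    ((L.filter (fun e => p e)).map g).sum = (L.map (fun e => if p e then g e else 0)).sum := by
  induction L with
  | nil => rfl
  | cons e L ih =>
    rw [List.filter_cons, List.map_cons, List.sum_cons, ← ih]
    by_cases h : p e
    · simp [h]
    · simp [h]

theorem tr1_swap {α : Type} (s : Finset α) (L : List Tr) (g : α → Tr → ℝ) :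
    ∑ a ∈ s, (L.map (g a)).sum = (L.map (fun e => ∑ a ∈ s, g a e)).sum := by
  induction L with
  | nil => simp
  | cons e L ih =>
    simp only [List.map_cons, List.sum_cons]
    rw [Finset.sum_add_distrib, ih]

theorem tr1_lab_lt (I : Inst) {e : Tr} (he : e ∈ I.1) : lab e < mlab I := by
  unfold mlab
  have := List.single_le_sum (l := I.1.map lab) (by simp) (lab e) (List.mem_map_of_mem he)
  omega

theorem tr1_act_lt (I : Inst) {e : Tr} (he : e ∈ I.1) : act e < mact I := by
  unfold mact
  have := List.single_le_sum (l := I.1.map act) (by simp) (act e) (List.mem_map_of_mem he)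
  omega

/-- one step of the chain in the two forms, for lists -/
theorem tr1_key_aux (m n : ℕ) (σ : ℕ → ℕ → ℝ) (s ℓ : ℕ) (F : Fin n → ℝ) (F' : ℕ → ℝ)
    (hF : ∀ t : Fin n, F' t = F t) (L : List Tr) (hL : ∀ e ∈ L, act e < m ∧ tgt e < n) :
    ∑ t : Fin n, (∑ a : Fin m, σ s a * (L.map (fun e =>
      if src e = s ∧ act e = a ∧ lab e = ℓ ∧ tgt e = t then (pb e : ℝ) else 0)).sum) * F t =
      (L.map (fun e => if src e = s ∧ lab e = ℓ then σ s (act e) * (pb e : ℝ) * F' (tgt e)
        else 0)).sum := by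
  induction L with
  | nil => simp
  | cons e L ih =>
    have ih' := ih (fun f hf => hL f (List.mem_cons_of_mem _ hf))
    obtain ⟨ha, ht⟩ := hL e List.mem_cons_self
    simp only [List.map_cons, List.sum_cons, mul_add, Finset.sum_add_distrib, add_mul]
    rw [ih']
    congr 1
    by_cases h : src e = s ∧ lab e = ℓ
    · rw [if_pos h, Finset.sum_eq_single (⟨tgt e, ht⟩ : Fin n), Finset.sum_eq_single
        (⟨act e, ha⟩ : Fin m), if_pos ⟨h.1, rfl, h.2, rfl⟩, ← hF]
      · intro b _ hb
        rw [if_neg, mul_zero]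
        rintro ⟨-, h1, -, -⟩
        exact hb (Fin.ext h1.symm)
      · intro h1
        exact absurd (Finset.mem_univ _) h1
      · intro b _ hb
        rw [Finset.sum_eq_zero, zero_mul]
        intro a _
        rw [if_neg, mul_zero]
        rintro ⟨-, -, -, h1⟩
        exact hb (Fin.ext h1.symm)
      · intro h1
        exact absurd (Finset.mem_univ _) h1
    · rw [if_neg h]
      refine Finset.sum_eq_zero fun t _ => ?_
      rw [Finset.sum_eq_zero, zero_mul]
      intro a _
      rw [if_neg, mul_zero]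
      rintro ⟨h1, -, h2, -⟩
      exact h ⟨h1, h2⟩

theorem tr1_key (I : Inst) (hI : Valid I) (σ : ℕ → ℕ → ℝ) (s : Fin (nst I)) (ℓ : Fin (mlab I))
    (F : Fin (nst I) → ℝ) (F' : ℕ → ℝ) (hF : ∀ t : Fin (nst I), F' t = F t) :
    ∑ t, mix (Dm I) (rst I σ) ℓ s t * F t =
      (I.1.map (fun e => if src e = s ∧ lab e = ℓ then σ s (act e) * (pb e : ℝ) * F' (tgt e)
        else 0)).sum := by
  rw [← tr1_key_aux (mact I) (nst I) σ s ℓ F F' hF I.1
    (fun e he => ⟨tr1_act_lt I he, hI.tgt_lt e he⟩)]
  refine Finset.sum_congr rfl fun t _ => ?_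
  congr 1
  refine Finset.sum_congr rfl fun a _ => ?_
  unfold rst Dm
  rw [tr1_sf]

theorem tr1_cast_sum (L : List Tr) : ((L.map pb).sum : ℝ) = (L.map (fun e => (pb e : ℝ))).sum := by
  induction L with
  | nil => simp
  | cons e L ih =>
    simp only [List.map_cons, List.sum_cons, Rat.cast_add]
    rw [ih]

theorem tr1_stoch (I : Inst) (σ : ℕ → ℕ → ℝ) (hI : Valid I) (hσ : Strat I σ) :
    Stoch (mix (Dm I) (rst I σ)) := by
  refine ⟨?_, ?_⟩
  · intro ℓ s t
    refine Finset.sum_nonneg fun a _ => mul_nonneg (hσ.nonneg _ _) ?_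
    refine List.sum_nonneg ?_
    intro x hx
    rw [List.mem_map] at hx
    obtain ⟨e, he, rfl⟩ := hx
    have h1 := hI.pb_nonneg e (List.mem_filter.1 he).1
    exact_mod_cast h1
  · intro s
    have h1 : ∀ ℓ : Fin (mlab I), ∑ t, mix (Dm I) (rst I σ) ℓ s t =
        (I.1.map (fun e => if src e = s ∧ lab e = ℓ then σ s (act e) * (pb e : ℝ) * 1
          else 0)).sum := by
      intro ℓ
      rw [← tr1_key I hI σ s ℓ (fun _ => 1) (fun _ => 1) (fun _ => rfl)]
      simp only [mul_one]
    simp only [h1]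
    rw [tr1_swap]
    have h2 : (I.1.map (fun e => ∑ ℓ : Fin (mlab I), if src e = s ∧ lab e = ℓ then
        σ s (act e) * (pb e : ℝ) * 1 else 0)) =
        I.1.map (fun e => ∑ a ∈ acts I s, if src e = s ∧ act e = a then
          σ s a * (pb e : ℝ) else 0) := by
      refine List.map_congr_left fun e he => ?_
      by_cases hs : src e = s
      · rw [Finset.sum_eq_single (⟨lab e, tr1_lab_lt I he⟩ : Fin (mlab I)),
          Finset.sum_eq_single (act e), if_pos ⟨hs, rfl⟩, if_pos ⟨hs, rfl⟩, mul_one]
        · intro b _ hb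
          rw [if_neg]
          rintro ⟨-, h1⟩
          exact hb h1.symm
        · intro h1
          exfalso
          apply h1
          unfold acts
          rw [List.mem_toFinset, List.mem_map]
          exact ⟨e, List.mem_filter.2 ⟨he, by simpa using hs⟩, rfl⟩
        · intro b _ hb
          rw [if_neg]
          rintro ⟨-, h1⟩
          exact hb (Fin.ext h1.symm)
        · intro h1
          exact absurd (Finset.mem_univ _) h1
      · rw [Finset.sum_eq_zero, Finset.sum_eq_zero]
        · intro a _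
          rw [if_neg]
          exact fun h => hs h.1
        · intro a _
          rw [if_neg]
          exact fun h => hs h.1
    rw [h2, ← tr1_swap]
    rw [← hσ.sum s s.2]
    refine Finset.sum_congr rfl fun a ha => ?_
    unfold acts at ha
    rw [List.mem_toFinset, List.mem_map] at ha
    obtain ⟨e, he, hea⟩ := ha
    rw [List.mem_filter] at he
    obtain ⟨he1, he2⟩ := he
    have he3 : src e = s := by simpa using he2
    have h3 := hI.prob e he1
    have h4 : (((I.1.filter (fun f => src f = src e ∧ act f = act e)).map pb).sum : ℝ) = 1 := by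
      exact_mod_cast congrArg (fun q : ℚ => (q : ℝ)) h3
    rw [tr1_cast_sum, tr1_sf, he3, hea] at h4
    have h5 : (I.1.map (fun e => if src e = s ∧ act e = a then σ s a * (pb e : ℝ) else 0)).sum =
        σ s a * (I.1.map (fun e => if src e = s ∧ act e = a then (pb e : ℝ) else 0)).sum := by
      rw [← List.sum_map_mul_left]
      congr 1
      refine List.map_congr_left fun e _ => ?_
      split_ifs
      · rfl
      · rw [mul_zero]
    rw [h5, h4, mul_one]

theorem tr1_getD_sum (μ : List ℚ) :
    ∑ i ∈ Finset.range μ.length, (μ.getD i 0 : ℝ) = ((μ.sum : ℚ) : ℝ) := by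
  induction μ with
  | nil => simp
  | cons x μ ih =>
    rw [List.length_cons, Finset.sum_range_succ', List.sum_cons, Rat.cast_add, ← ih]
    simp only [List.getD_cons_succ, List.getD_cons_zero]
    ring

theorem tr1_dist (I : Inst) (μ : List ℚ) (hl : μ.length = nst I) (h0 : ∀ x ∈ μ, 0 ≤ x)
    (h1 : μ.sum = 1) : Dist (vecL I μ) := by
  refine ⟨?_, ?_⟩
  · intro s
    unfold vecL
    have hs : (s : ℕ) < μ.length := by
      rw [hl]
      exact s.2
    rw [List.getD_eq_getElem _ _ hs]
    have := h0 _ (List.getElem_mem hs)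
    exact_mod_cast this
  · unfold vecL
    rw [← Finset.sum_range (fun i => (μ.getD i 0 : ℝ)), ← hl, tr1_getD_sum, h1]
    norm_num

theorem tr1_wp (I : Inst) (hI : Valid I) (σ : ℕ → ℕ → ℝ) (w : List (Fin (mlab I))) :
    ∀ s : Fin (nst I), wp I σ (w.map Fin.val) s = val (mix (Dm I) (rst I σ)) w s := by
  induction w with
  | nil => intro s; rfl
  | cons ℓ w ih =>
    intro s
    have h1 := tr1_key I hI σ s ℓ _ (wp I σ (w.map Fin.val)) ih
    rw [List.map_cons, wp, val]
    beta_reduce
    rw [h1, tr1_sf]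

theorem tr1_wp_zero (I : Inst) (σ : ℕ → ℕ → ℝ) (w : List ℕ) (hw : ∃ ℓ ∈ w, mlab I ≤ ℓ) :
    ∀ s, wp I σ w s = 0 := by
  induction w with
  | nil =>
    obtain ⟨ℓ, h, -⟩ := hw
    simp at h
  | cons c w ih =>
    intro s
    rw [wp]
    apply List.sum_eq_zero
    intro x hx
    rw [List.mem_map] at hx
    obtain ⟨e, he, rfl⟩ := hx
    rw [List.mem_filter] at he
    obtain ⟨he1, he2⟩ := he
    have he3 : src e = s ∧ lab e = c := by simpa using he2
    obtain ⟨ℓ, h1, h2⟩ := hw
    rw [List.mem_cons] at h1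
    rcases h1 with rfl | h1
    · have := tr1_lab_lt I he1
      omega
    · rw [ih ⟨ℓ, h1, h2⟩, mul_zero]

theorem t_TR1 : S_TR1 := by
  intro I σ hI hσ
  refine ⟨tr1_stoch I σ hI hσ, tr1_dist I I.2.1 rfl hI.mu_nonneg hI.mu_sum,
    tr1_dist I I.2.2 hI.len hI.nu_nonneg hI.nu_sum, ?_, ?_⟩
  · intro μ hμ w
    unfold ip pr
    rw [hμ, Finset.sum_range]
    refine Finset.sum_congr rfl fun s _ => ?_
    rw [tr1_wp I hI]
    rfl
  · intro μ w hw
    unfold ip
    refine Finset.sum_eq_zero fun s _ => ?_
    rw [tr1_wp_zero I σ w hw, mul_zero]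

end Pool.Agent.R554.DO
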