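import Pool.Agent.R554.DO.Chk

/-!
# Piece TR2: translation of strategies
-/

namespace Pool.Agent.R554.DO

open Finset MeasureTheory NPC

namespace TR2

/-- Summing over the values of `f`. -/
lemma sum_fiber (w : Tr → ℝ) (f : Tr → ℕ) (m : ℕ) (P : Tr → Prop) [DecidablePred P]
    (L : List Tr) (h : ∀ e ∈ L, f e < m) :
    ∑ k : Fin m, ((L.filter (fun e => P e ∧ f e = (k : ℕ))).map w).sum
      = ((L.filter (fun e => P e)).map w).sum := by
  induction L with
  | nil => simp
  | cons e L ih =>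
    have ih' := ih (fun e' he' => h e' (List.mem_cons_of_mem _ he'))
    have he : f e < m := h e List.mem_cons_self
    have h1 : ∀ k : Fin m, (((e :: L).filter (fun e => P e ∧ f e = (k : ℕ))).map w).sum
        = (if P e ∧ f e = (k : ℕ) then w e else 0)
          + ((L.filter (fun e => P e ∧ f e = (k : ℕ))).map w).sum := by
      intro k
      rw [List.filter_cons]
      by_cases hk : P e ∧ f e = (k : ℕ)
      · simp [hk]
      · simp [hk]
    have h2 : (((e :: L).filter (fun e => P e)).map w).sum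
        = (if P e then w e else 0) + ((L.filter (fun e => P e)).map w).sum := by
      rw [List.filter_cons]
      by_cases hk : P e
      · simp [hk]
      · simp [hk]
    rw [h2, ← ih', Finset.sum_congr rfl (fun k _ => h1 k), Finset.sum_add_distrib]
    congr 1
    by_cases hP : P e
    · rw [if_pos hP]
      rw [Finset.sum_eq_single (⟨f e, he⟩ : Fin m)]
      · simp [hP]
      · intro k _ hk
        rw [if_neg]
        rintro ⟨-, h3⟩
        exact hk (Fin.ext h3.symm)
      · intro h3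
        exact absurd (Finset.mem_univ _) h3
    · simp [hP]

lemma cast_sum (L : List Tr) :
    (((L.map pb).sum : ℚ) : ℝ) = (L.map (fun e => (pb e : ℝ))).sum := by
  induction L with
  | nil => simp
  | cons e L ih =>
    simp only [List.map_cons, List.sum_cons]
    rw [Rat.cast_add, ih]

lemma lab_lt (I : Inst) (e : Tr) (he : e ∈ I.1) : lab e < mlab I := by
  unfold mlab
  exact Nat.lt_succ_of_le (List.single_le_sum (by simp) _ (List.mem_map_of_mem he))

lemma act_lt (I : Inst) (e : Tr) (he : e ∈ I.1) : act e < mact I := by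
  unfold mact
  exact Nat.lt_succ_of_le (List.single_le_sum (by simp) _ (List.mem_map_of_mem he))

lemma mem_acts (I : Inst) (s a : ℕ) : a ∈ acts I s ↔ ∃ e ∈ I.1, src e = s ∧ act e = a := by
  unfold acts
  simp only [List.mem_toFinset, List.mem_map, List.mem_filter, decide_eq_true_eq]
  constructor
  · rintro ⟨e, ⟨h1, h2⟩, h3⟩
    exact ⟨e, h1, h2, h3⟩
  · rintro ⟨e, h1, h2, h3⟩
    exact ⟨e, ⟨h1, h2⟩, h3⟩

lemma acts_sub (I : Inst) (s : ℕ) : acts I s ⊆ range (mact I) := by
  intro a ha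
  obtain ⟨e, h1, -, h3⟩ := (mem_acts I s a).mp ha
  rw [Finset.mem_range, ← h3]
  exact act_lt I e h1

lemma Dm_nonneg (I : Inst) (hV : Valid I) (a : Fin (mact I)) (ℓ : Fin (mlab I))
    (s t : Fin (nst I)) : 0 ≤ Dm I a ℓ s t := by
  unfold Dm
  apply List.sum_nonneg
  intro x hx
  obtain ⟨e, he, rfl⟩ := List.mem_map.mp hx
  have := hV.pb_nonneg e (List.mem_of_mem_filter he)
  exact_mod_cast this

lemma Dm_sum (I : Inst) (hV : Valid I) (s : Fin (nst I)) (a : Fin (mact I))
    (ha : (a : ℕ) ∈ acts I s) : ∑ ℓ, ∑ t, Dm I a ℓ s t = 1 := by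
  have h1 : ∀ ℓ : Fin (mlab I), ∑ t, Dm I a ℓ s t
      = ((I.1.filter (fun e => (src e = (s : ℕ) ∧ act e = (a : ℕ)) ∧ lab e = (ℓ : ℕ))).map
          (fun e => (pb e : ℝ))).sum := by
    intro ℓ
    rw [← sum_fiber (fun e => (pb e : ℝ)) tgt (nst I)
      (fun e => (src e = (s : ℕ) ∧ act e = (a : ℕ)) ∧ lab e = (ℓ : ℕ)) I.1 hV.tgt_lt]
    refine Finset.sum_congr rfl (fun t _ => ?_)
    unfold Dm
    congr 2
    refine List.filter_congr (fun e _ => ?_)
    simp only [and_assoc]
  rw [Finset.sum_congr rfl (fun ℓ _ => h1 ℓ)]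
  rw [sum_fiber (fun e => (pb e : ℝ)) lab (mlab I)
    (fun e => src e = (s : ℕ) ∧ act e = (a : ℕ)) I.1 (lab_lt I)]
  obtain ⟨e, he, hs, hact⟩ := (mem_acts I s a).mp ha
  have h2 := hV.prob e he
  rw [hs, hact] at h2
  rw [← cast_sum, h2, Rat.cast_one]

end TR2

open TR2 in
theorem t_TR2 : S_TR2 := by
  intro I hV
  refine ⟨Dm_nonneg I hV, Dm_sum I hV, ?_⟩
  intro σ hσ
  refine ⟨fun s a => hσ.nonneg _ _, fun s => ?_, fun s a h => hσ.supp _ _ h⟩
  have h1 : ∑ a, rst I σ s a = ∑ a ∈ range (mact I), σ s a := by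
    unfold rst
    exact Fin.sum_univ_eq_sum_range (fun a => σ s a) (mact I)
  rw [h1, ← hσ.sum s s.2]
  symm
  refine Finset.sum_subset (acts_sub I s) (fun a _ ha => ?_)
  by_contra h2
  exact ha (hσ.supp _ _ h2)

end Pool.Agent.R554.DO
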