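import Pool.Agent.R554.DO.Stm

/-!
# MP_f8a6ff_lc, piece TRANS: inessential states are transient
-/

set_option autoImplicit false

open Finset Filter Topology

namespace Pool.Agent.R554.DO

theorem t_TRANS : S_TRANS := by
  classical
  intro Z _ Q hQ0 hQ1 a ha0 ha z₀ hz₀
  obtain ⟨R, hR⟩ : ∃ R : Z → Z → Prop, R = Relation.ReflTransGen (fun x y => 0 < Q x y) := ⟨_, rfl⟩
  rw [← hR] at hz₀
  have hRs : ∀ x y, 0 < Q x y → R x y := fun x y h => by
    rw [hR]; exact Relation.ReflTransGen.single h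
  have hRr : ∀ x, R x x := fun x => by rw [hR]
  have hRt : ∀ x y w, R x y → R y w → R x w := fun x y w h1 h2 => by
    rw [hR] at h1 h2 ⊢
    exact h1.trans h2
  have hann : ∀ k z, 0 ≤ a k z := by
    intro k
    induction k with
    | zero => exact ha0
    | succ k ih =>
      intro z
      rw [ha]
      exact sum_nonneg fun x _ => mul_nonneg (ih x) (hQ0 x z)
  obtain ⟨Es, hEs⟩ : ∃ Es : Z → Prop, ∀ z, Es z ↔ ∀ z', R z z' → R z' z := ⟨fun z => ∀ z', R z z' → R z' z,
    fun z => Iff.rfl⟩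
  have hex : ∀ z, ∃ e, R z e ∧ Es e := by
    intro z
    obtain ⟨e, he, hmin⟩ := Finset.exists_min_image (univ.filter (fun z' => R z z'))
      (fun z' => (univ.filter (fun w => R z' w)).card) ⟨z, by simp [hRr]⟩
    rw [mem_filter] at he
    refine ⟨e, he.2, (hEs e).2 fun z' hz' => ?_⟩
    have h1 := hmin z' (by rw [mem_filter]; exact ⟨mem_univ _, hRt _ _ _ he.2 hz'⟩)
    have h2 : (univ.filter (fun w => R z' w)) ⊆ (univ.filter (fun w => R e w)) := by
      intro w hw
      rw [mem_filter] at hw ⊢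
      exact ⟨mem_univ _, hRt _ _ _ hz' hw.2⟩
    have h3 := eq_of_subset_of_card_le h2 h1
    have h4 : e ∈ univ.filter (fun w => R z' w) := by
      rw [h3, mem_filter]
      exact ⟨mem_univ _, hRr e⟩
    exact (mem_filter.1 h4).2
  have hstep : ∀ z z', Es z → 0 < Q z z' → Es z' := by
    intro z z' h hq
    rw [hEs] at h ⊢
    intro w hw
    have h1 := hRs _ _ hq
    exact hRt _ _ _ (h w (hRt _ _ _ h1 hw)) h1
  obtain ⟨I, hI⟩ : ∃ I : Finset Z, ∀ z, z ∈ I ↔ ¬ Es z := ⟨univ.filter (fun z => ¬ Es z), fun z => by simp⟩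
  obtain ⟨q, hq⟩ : ∃ q : Z → ℝ, ∀ z, q z = ∑ z' ∈ I, Q z z' := ⟨_, fun _ => rfl⟩
  have hq1 : ∀ z, q z ≤ 1 := by
    intro z
    rw [hq, ← hQ1 z]
    exact sum_le_sum_of_subset_of_nonneg (subset_univ _) fun x _ _ => hQ0 z x
  have hq0 : ∀ z, z ∉ I → q z = 0 := by
    intro z hz
    rw [hq]
    refine sum_eq_zero fun z' hz' => ?_
    rw [hI] at hz hz'
    push Not at hz
    by_contra hne
    exact hz' (hstep z z' hz (lt_of_le_of_ne (hQ0 z z') (Ne.symm hne)))
  have hqle : ∀ z z1, z1 ∉ I → q z ≤ 1 - Q z z1 := by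
    intro z z1 hz1
    have h1 : ∑ z' ∈ insert z1 I, Q z z' ≤ 1 := by
      rw [← hQ1 z]
      exact sum_le_sum_of_subset_of_nonneg (subset_univ _) fun x _ _ => hQ0 z x
    rw [sum_insert hz1] at h1
    rw [hq]
    linarith
  obtain ⟨m, hm⟩ : ∃ m : ℕ → ℝ, ∀ k, m k = ∑ z ∈ I, a k z := ⟨_, fun _ => rfl⟩
  have hm0 : ∀ k, 0 ≤ m k := fun k => by
    rw [hm]
    exact sum_nonneg fun z _ => hann k z
  have hd : ∀ k, m k - m (k + 1) = ∑ z ∈ I, a k z * (1 - q z) := by
    intro k
    have h1 : m (k + 1) = ∑ z, a k z * q z := by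
      rw [hm]
      simp_rw [ha, hq, mul_sum]
      exact sum_comm
    have h2 : ∑ z, a k z * q z = ∑ z ∈ I, a k z * q z := by
      symm
      refine sum_subset (subset_univ _) fun z _ hz => ?_
      rw [hq0 z hz, mul_zero]
    rw [h1, h2, hm, ← sum_sub_distrib]
    exact sum_congr rfl fun z _ => by ring
  have hdn : ∀ k, ∀ z ∈ I, 0 ≤ a k z * (1 - q z) := fun k z _ =>
    mul_nonneg (hann k z) (by linarith [hq1 z])
  have hanti : Antitone m := antitone_nat_of_succ_le fun k => by
    have := hd k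
    have h2 : 0 ≤ ∑ z ∈ I, a k z * (1 - q z) := sum_nonneg (hdn k)
    linarith
  have hlim : Tendsto m atTop (𝓝 (⨅ k, m k)) :=
    tendsto_atTop_ciInf hanti ⟨0, by rintro _ ⟨k, rfl⟩; exact hm0 k⟩
  have hdlim : Tendsto (fun k => m k - m (k + 1)) atTop (𝓝 0) := by
    have := hlim.sub (hlim.comp (tendsto_add_atTop_nat 1))
    simpa using this
  have hz₀' : ¬ Es z₀ := by
    rw [hEs]
    exact hz₀
  obtain ⟨e, hze, hee⟩ := hex z₀
  rw [hR] at hze
  have hmain : ¬ Es z₀ → Tendsto (fun k => a k z₀) atTop (𝓝 0) := by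
    refine Relation.ReflTransGen.head_induction_on
      (motive := fun z _ => ¬ Es z → Tendsto (fun k => a k z) atTop (𝓝 0)) hze ?_ ?_
    · intro h
      exact absurd hee h
    · intro z z1 hzz1 _ ih hz
      have hzz1' : 0 < Q z z1 := hzz1
      have hzI : z ∈ I := (hI z).2 hz
      by_cases h1 : Es z1
      · have h1I : z1 ∉ I := fun hc => (hI z1).1 hc h1
        have hb : ∀ k, a k z ≤ (m k - m (k + 1)) / Q z z1 := by
          intro k
          rw [le_div_iff₀ hzz1', hd k]
          calc a k z * Q z z1 ≤ a k z * (1 - q z) :=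
                mul_le_mul_of_nonneg_left (by linarith [hqle z z1 h1I]) (hann k z)
            _ ≤ _ := single_le_sum (f := fun z => a k z * (1 - q z)) (hdn k) hzI
        have hb2 : Tendsto (fun k => (m k - m (k + 1)) / Q z z1) atTop (𝓝 0) := by
          have := hdlim.div_const (Q z z1)
          simpa using this
        exact squeeze_zero (fun k => hann k z) hb hb2
      · have h2 := ih h1
        have hb : ∀ k, a k z ≤ a (k + 1) z1 / Q z z1 := by
          intro k
          rw [le_div_iff₀ hzz1', ha]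
          exact single_le_sum (f := fun z => a k z * Q z z1)
            (fun x _ => mul_nonneg (hann k x) (hQ0 x z1)) (mem_univ z)
        have hb2 : Tendsto (fun k => a (k + 1) z1 / Q z z1) atTop (𝓝 0) := by
          have := (h2.comp (tendsto_add_atTop_nat 1)).div_const (Q z z1)
          simpa using this
        exact squeeze_zero (fun k => hann k z) hb hb2
  exact hmain hz₀'

end Pool.Agent.R554.DO
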