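import Pool.Agent.R554.DO.Chk

/-!
# TV: total variation distance one in terms of the affinity
-/

namespace Pool.Agent.R554.DO

open Finset MeasureTheory

namespace TVaux

/-- The cylinder of a word over `Fin m`. -/
def Cw {n m : ℕ} (w : Fin n → Fin m) : Set (ℕ → ℕ) := {x | ∀ i : Fin n, x i = (w i : ℕ)}

lemma cyl_eq {n m : ℕ} (w : Fin n → Fin m) :
    cyl ((List.ofFn w).map Fin.val) = Cw w := by
  ext x
  simp only [cyl, Cw, Set.mem_ofPred_eq, List.length_map, List.length_ofFn, List.getElem_map,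
    List.getElem_ofFn]
  constructor
  · intro h i
    exact h i.1 i.2
  · intro h i hi
    exact h ⟨i, hi⟩

lemma meas_Cw {n m : ℕ} (w : Fin n → Fin m) : MeasurableSet (Cw w) := by
  have : Cw w = ⋂ i : Fin n, (fun x : ℕ → ℕ => x i) ⁻¹' {(w i : ℕ)} := by
    ext x
    simp [Cw]
  rw [this]
  exact MeasurableSet.iInter fun i => measurable_pi_apply _ (measurableSet_singleton _)

lemma disj_Cw {n m : ℕ} {w w' : Fin n → Fin m} (h : w ≠ w') : Disjoint (Cw w) (Cw w') := by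
  rw [Set.disjoint_left]
  intro x hx hx'
  apply h
  funext i
  apply Fin.ext
  rw [← hx i, ← hx' i]

/-- Almost all sequences use only the letters below `m`. -/
lemma ae_lt (P : Measure (ℕ → ℕ)) [IsProbabilityMeasure P] (m : ℕ)
    (h : ∀ w : List ℕ, (∃ ℓ ∈ w, m ≤ ℓ) → P.real (cyl w) = 0) :
    P {x | ∃ i, m ≤ x i} = 0 := by
  have hsub : {x : ℕ → ℕ | ∃ i, m ≤ x i} ⊆
      ⋃ w : {w : List ℕ // ∃ ℓ ∈ w, m ≤ ℓ}, cyl w.1 := by
    rintro x ⟨i, hi⟩
    rw [Set.mem_iUnion]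
    refine ⟨⟨List.ofFn (fun j : Fin (i + 1) => x j), x i, ?_, hi⟩, ?_⟩
    · rw [List.mem_ofFn]
      exact ⟨⟨i, Nat.lt_succ_self i⟩, rfl⟩
    · intro j hj
      exact (List.getElem_ofFn (f := fun j : Fin (i + 1) => x j) _).symm
  refine measure_mono_null hsub ?_
  rw [measure_iUnion_null_iff]
  rintro ⟨w, hw⟩
  have := h w hw
  rw [Measure.real, ENNReal.toReal_eq_zero_iff] at this
  rcases this with h1 | h1
  · exact h1
  · exact absurd h1 (measure_ne_top P _)

lemma real_biUnion (P : Measure (ℕ → ℕ)) [IsProbabilityMeasure P] {n m : ℕ}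
    (F : Finset (Fin n → Fin m)) :
    P.real (⋃ w ∈ F, Cw w) = ∑ w ∈ F, P.real (Cw w) := by
  rw [measureReal_biUnion_finset]
  · intro w _ w' _ hww
    exact disj_Cw hww
  · intro w _
    exact meas_Cw w

lemma sum_one (P : Measure (ℕ → ℕ)) [IsProbabilityMeasure P] (m : ℕ)
    (h : ∀ w : List ℕ, (∃ ℓ ∈ w, m ≤ ℓ) → P.real (cyl w) = 0) (n : ℕ) :
    ∑ w : Fin n → Fin m, P.real (Cw w) = 1 := by
  rw [← real_biUnion]
  have h0 := ae_lt P m h
  have hsub : (⋃ w ∈ (univ : Finset (Fin n → Fin m)), Cw w)ᶜ ⊆ {x | ∃ i, m ≤ x i} := by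
    intro x hx
    by_contra hcon
    simp only [Set.mem_ofPred_eq, not_exists, not_le] at hcon
    apply hx
    simp only [Set.mem_iUnion, Finset.mem_univ, exists_true_left]
    exact ⟨fun i => ⟨x i, hcon i⟩, fun i => rfl⟩
  have h1 : P (⋃ w ∈ (univ : Finset (Fin n → Fin m)), Cw w)ᶜ = 0 := measure_mono_null hsub h0
  have hm : MeasurableSet (⋃ w ∈ (univ : Finset (Fin n → Fin m)), Cw w) :=
    Finset.measurableSet_biUnion _ fun w _ => meas_Cw w
  have h2 : P (⋃ w ∈ (univ : Finset (Fin n → Fin m)), Cw w) = 1 :=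
    (prob_compl_eq_zero_iff hm).1 h1
  rw [Measure.real, h2]
  simp

lemma abs_diff_le (P Q : Measure (ℕ → ℕ)) [IsProbabilityMeasure P] [IsProbabilityMeasure Q]
    (E : Set (ℕ → ℕ)) : |P.real E - Q.real E| ≤ 1 := by
  have h1 : P.real E ≤ 1 := measureReal_le_one
  have h2 : Q.real E ≤ 1 := measureReal_le_one
  have h3 : 0 ≤ P.real E := measureReal_nonneg
  have h4 : 0 ≤ Q.real E := measureReal_nonneg
  rw [abs_le]
  constructor <;> linarith

lemma bdd (P Q : Measure (ℕ → ℕ)) [IsProbabilityMeasure P] [IsProbabilityMeasure Q] :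
    BddAbove (Set.range fun E : {E : Set (ℕ → ℕ) // MeasurableSet E} =>
      |P.real E.1 - Q.real E.1|) := by
  refine ⟨1, ?_⟩
  rintro _ ⟨E, rfl⟩
  exact abs_diff_le P Q E.1

lemma tv_le (P Q : Measure (ℕ → ℕ)) [IsProbabilityMeasure P] [IsProbabilityMeasure Q] :
    tv P Q ≤ 1 := by
  have : Nonempty {E : Set (ℕ → ℕ) // MeasurableSet E} := ⟨⟨∅, MeasurableSet.empty⟩⟩
  exact ciSup_le fun E => abs_diff_le P Q E.1

/-- The affinity bounds the distance from below. -/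
lemma back (P Q : Measure (ℕ → ℕ)) [IsProbabilityMeasure P] [IsProbabilityMeasure Q] (m : ℕ)
    (hP : ∀ w : List ℕ, (∃ ℓ ∈ w, m ≤ ℓ) → P.real (cyl w) = 0) (n : ℕ) :
    1 - ∑ w : Fin n → Fin m, √(P.real (Cw w) * Q.real (Cw w)) ≤ tv P Q := by
  classical
  set F : Finset (Fin n → Fin m) := univ.filter fun w => Q.real (Cw w) ≤ P.real (Cw w) with hF
  set E : Set (ℕ → ℕ) := ⋃ w ∈ F, Cw w with hE
  have hmE : MeasurableSet E := Finset.measurableSet_biUnion _ fun w _ => meas_Cw w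
  have h1 : |P.real E - Q.real E| ≤ tv P Q := le_ciSup (bdd P Q) ⟨E, hmE⟩
  have hPE : P.real E = ∑ w ∈ F, P.real (Cw w) := real_biUnion P F
  have hQE : Q.real E = ∑ w ∈ F, Q.real (Cw w) := real_biUnion Q F
  have hs := sum_one P m hP n
  rw [← Finset.sum_filter_add_sum_filter_not univ
    (fun w : Fin n → Fin m => Q.real (Cw w) ≤ P.real (Cw w))] at hs
  rw [← Finset.sum_filter_add_sum_filter_not univ
    (fun w : Fin n → Fin m => Q.real (Cw w) ≤ P.real (Cw w))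
      (f := fun w => √(P.real (Cw w) * Q.real (Cw w)))]
  have h2 : ∑ w ∈ F, Q.real (Cw w) ≤ ∑ w ∈ F, √(P.real (Cw w) * Q.real (Cw w)) := by
    apply Finset.sum_le_sum
    intro w hw
    rw [hF, Finset.mem_filter] at hw
    apply Real.le_sqrt_of_sq_le
    rw [sq]
    exact mul_le_mul_of_nonneg_right hw.2 measureReal_nonneg
  have h3 : ∑ w ∈ univ.filter (fun w : Fin n → Fin m => ¬ Q.real (Cw w) ≤ P.real (Cw w)),
      P.real (Cw w) ≤
      ∑ w ∈ univ.filter (fun w : Fin n → Fin m => ¬ Q.real (Cw w) ≤ P.real (Cw w)),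
        √(P.real (Cw w) * Q.real (Cw w)) := by
    apply Finset.sum_le_sum
    intro w hw
    rw [Finset.mem_filter, not_le] at hw
    apply Real.le_sqrt_of_sq_le
    rw [sq]
    exact mul_le_mul_of_nonneg_left hw.2.le measureReal_nonneg
  have h4 := le_abs_self (P.real E - Q.real E)
  linarith

/-- Cauchy-Schwarz on a group of words. -/
lemma cs (P Q : Measure (ℕ → ℕ)) [IsProbabilityMeasure P] [IsProbabilityMeasure Q] {n m : ℕ}
    (F : Finset (Fin n → Fin m)) (a b : ℝ) (ha : ∑ w ∈ F, P.real (Cw w) ≤ a)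
    (hb : ∑ w ∈ F, Q.real (Cw w) ≤ b) :
    ∑ w ∈ F, √(P.real (Cw w) * Q.real (Cw w)) ≤ √(a * b) := by
  have h0 : ∀ w ∈ F, √(P.real (Cw w) * Q.real (Cw w)) =
      √(P.real (Cw w)) * √(Q.real (Cw w)) := fun w _ => Real.sqrt_mul measureReal_nonneg _
  rw [Finset.sum_congr rfl h0]
  apply Real.le_sqrt_of_sq_le
  refine (Finset.sum_mul_sq_le_sq_mul_sq F _ _).trans ?_
  have h1 : ∑ w ∈ F, √(P.real (Cw w)) ^ 2 = ∑ w ∈ F, P.real (Cw w) :=
    Finset.sum_congr rfl fun w _ => Real.sq_sqrt measureReal_nonneg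
  have h2 : ∑ w ∈ F, √(Q.real (Cw w)) ^ 2 = ∑ w ∈ F, Q.real (Cw w) :=
    Finset.sum_congr rfl fun w _ => Real.sq_sqrt measureReal_nonneg
  rw [h1, h2]
  have h3 : 0 ≤ ∑ w ∈ F, Q.real (Cw w) := Finset.sum_nonneg fun w _ => measureReal_nonneg
  have h4 : 0 ≤ ∑ w ∈ F, P.real (Cw w) := Finset.sum_nonneg fun w _ => measureReal_nonneg
  exact mul_le_mul ha hb h3 (h4.trans ha)

/-- The sets determined by the first `n` letters, for some `n`. -/
def Fc : Set (Set (ℕ → ℕ)) :=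
  {E | ∃ (n : ℕ) (S : Set (Fin n → ℕ)), E = {x | (fun i : Fin n => x i) ∈ S}}

lemma Fc_mono {n : ℕ} (S : Set (Fin n → ℕ)) {N : ℕ} (h : n ≤ N) :
    ∃ S' : Set (Fin N → ℕ), {x : ℕ → ℕ | (fun i : Fin n => x i) ∈ S} =
      {x | (fun i : Fin N => x i) ∈ S'} :=
  ⟨{v | (fun i : Fin n => v ⟨i, lt_of_lt_of_le i.2 h⟩) ∈ S}, rfl⟩

lemma Fc_ring : IsSetRing Fc where
  empty_mem := ⟨0, ∅, by simp⟩
  union_mem := by
    rintro _ _ ⟨n, S, rfl⟩ ⟨n', S', rfl⟩
    obtain ⟨T, hT⟩ := Fc_mono S (le_max_left n n')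
    obtain ⟨T', hT'⟩ := Fc_mono S' (le_max_right n n')
    rw [hT, hT']
    exact ⟨max n n', T ∪ T', rfl⟩
  sdiff_mem := by
    rintro _ _ ⟨n, S, rfl⟩ ⟨n', S', rfl⟩
    obtain ⟨T, hT⟩ := Fc_mono S (le_max_left n n')
    obtain ⟨T', hT'⟩ := Fc_mono S' (le_max_right n n')
    rw [hT, hT']
    exact ⟨max n n', T \ T', rfl⟩

lemma Fc_meas {E : Set (ℕ → ℕ)} (hE : E ∈ Fc) : MeasurableSet E := by
  obtain ⟨n, S, rfl⟩ := hE
  have hf : Measurable (fun (x : ℕ → ℕ) (i : Fin n) => x i) :=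
    measurable_pi_lambda _ fun i => measurable_pi_apply _
  exact hf (MeasurableSet.of_discrete (s := S))

lemma Fc_gen : (MeasurableSpace.pi : MeasurableSpace (ℕ → ℕ)) =
    MeasurableSpace.generateFrom Fc := by
  apply le_antisymm
  · rw [MeasurableSpace.pi]
    apply iSup_le
    intro i
    rw [← measurable_iff_comap_le]
    intro s _
    apply MeasurableSpace.measurableSet_generateFrom
    exact ⟨i + 1, {v | v ⟨i, Nat.lt_succ_self i⟩ ∈ s}, rfl⟩
  · exact MeasurableSpace.generateFrom_le fun E hE => Fc_meas hE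

lemma approx (P Q : Measure (ℕ → ℕ)) [IsProbabilityMeasure P] [IsProbabilityMeasure Q]
    {E : Set (ℕ → ℕ)} (hE : MeasurableSet E) {δ : ℝ} (hδ : 0 < δ) :
    ∃ F ∈ Fc, P.real (symmDiff F E) < δ ∧ Q.real (symmDiff F E) < δ := by
  obtain ⟨F, hF, hlt⟩ := exists_measure_symmDiff_lt_of_generateFrom_isSetRing (μ := P + Q)
    Fc_ring ⟨{Set.univ}, Set.countable_singleton _, by
      rintro _ rfl
      exact ⟨0, Set.univ, by simp⟩, by simp⟩ Fc_gen hE (ENNReal.ofReal_pos.2 hδ)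
  refine ⟨F, hF, ?_, ?_⟩
  · have h1 : P (symmDiff F E) < ENNReal.ofReal δ :=
      lt_of_le_of_lt (by rw [Measure.add_apply]; exact le_self_add) hlt
    rw [Measure.real]
    exact (ENNReal.toReal_lt_toReal h1.ne_top ENNReal.ofReal_ne_top).2 h1 |>.trans_eq
      (ENNReal.toReal_ofReal hδ.le)
  · have h1 : Q (symmDiff F E) < ENNReal.ofReal δ :=
      lt_of_le_of_lt (by rw [Measure.add_apply]; exact le_add_self) hlt
    rw [Measure.real]
    exact (ENNReal.toReal_lt_toReal h1.ne_top ENNReal.ofReal_ne_top).2 h1 |>.trans_eq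
      (ENNReal.toReal_ofReal hδ.le)

lemma le_symm (P : Measure (ℕ → ℕ)) [IsProbabilityMeasure P] (A B : Set (ℕ → ℕ)) :
    P.real A ≤ P.real B + P.real (symmDiff B A) := by
  have h : A ⊆ B ∪ symmDiff B A := by
    intro x hx
    by_cases hB : x ∈ B
    · exact Or.inl hB
    · exact Or.inr (Or.inr ⟨hx, hB⟩)
  exact (measureReal_mono h).trans (measureReal_union_le _ _)

/-- The main step. -/
lemma main (P Q : Measure (ℕ → ℕ)) [IsProbabilityMeasure P] [IsProbabilityMeasure Q] (m : ℕ)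
    {E : Set (ℕ → ℕ)} (hE : MeasurableSet E) {δ : ℝ} (hδ : 0 < δ)
    (h : 1 - δ < P.real E - Q.real E) :
    ∃ n, ∑ w : Fin n → Fin m, √(P.real (Cw w) * Q.real (Cw w)) ≤ 2 * √(2 * δ) := by
  classical
  obtain ⟨F, ⟨n, S, hFS⟩, h1, h2⟩ := approx P Q hE hδ
  have hPE : P.real E ≤ 1 := measureReal_le_one
  have hQE : 0 ≤ Q.real E := measureReal_nonneg
  have h3 := le_symm P E F
  have h4 : Q.real F ≤ Q.real E + Q.real (symmDiff F E) := by
    have := le_symm Q F E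
    rwa [symmDiff_comm] at this
  have hmF : MeasurableSet F := Fc_meas ⟨n, S, hFS⟩
  have h5 : P.real Fᶜ = 1 - P.real F := probReal_compl_eq_one_sub hmF
  refine ⟨n, ?_⟩
  set W : Finset (Fin n → Fin m) :=
    univ.filter (fun w => (fun i => (w i : ℕ)) ∈ S) with hW
  have key : ∀ (w : Fin n → Fin m) (x : ℕ → ℕ), x ∈ Cw w →
      (fun i : Fin n => x i) = fun i => (w i : ℕ) := by
    intro w x hx
    funext i
    exact hx i
  have h6 : ∑ w ∈ W, Q.real (Cw w) ≤ 2 * δ := by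
    rw [← real_biUnion]
    refine (measureReal_mono (s₂ := F) ?_).trans (by linarith)
    intro x hx
    simp only [Set.mem_iUnion] at hx
    obtain ⟨w, hw, hx⟩ := hx
    rw [hW, Finset.mem_filter] at hw
    rw [hFS]
    change (fun i : Fin n => x i) ∈ S
    rw [key w x hx]
    exact hw.2
  have h7 : ∑ w ∈ univ.filter (fun w : Fin n → Fin m => ¬ (fun i => (w i : ℕ)) ∈ S),
      P.real (Cw w) ≤ 2 * δ := by
    rw [← real_biUnion]
    refine (measureReal_mono (s₂ := Fᶜ) ?_).trans (by linarith)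
    intro x hx
    simp only [Set.mem_iUnion] at hx
    obtain ⟨w, hw, hx⟩ := hx
    rw [Finset.mem_filter] at hw
    rw [hFS]
    change ¬ (fun i : Fin n => x i) ∈ S
    rw [key w x hx]
    exact hw.2
  have h8 : ∑ w ∈ W, P.real (Cw w) ≤ 1 := by
    rw [← real_biUnion]
    exact measureReal_le_one
  have h9 : ∑ w ∈ univ.filter (fun w : Fin n → Fin m => ¬ (fun i => (w i : ℕ)) ∈ S),
      Q.real (Cw w) ≤ 1 := by
    rw [← real_biUnion]
    exact measureReal_le_one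
  rw [← Finset.sum_filter_add_sum_filter_not univ
    (fun w : Fin n → Fin m => (fun i => (w i : ℕ)) ∈ S)]
  have h10 := cs P Q W 1 (2 * δ) h8 h6
  have h11 := cs P Q _ (2 * δ) 1 h7 h9
  rw [one_mul] at h10
  rw [mul_one] at h11
  linarith

end TVaux

open TVaux in
theorem t_TV : S_TV := by
  intro P Q hP hQ m hw
  simp only [cyl_eq]
  constructor
  · intro h ε hε
    have hδ : 0 < ε ^ 2 / 16 := by positivity
    have h1 : 1 - ε ^ 2 / 16 < tv P Q := by rw [h]; linarith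
    have : Nonempty {E : Set (ℕ → ℕ) // MeasurableSet E} := ⟨⟨∅, MeasurableSet.empty⟩⟩
    obtain ⟨⟨E, hE⟩, h2⟩ := exists_lt_of_lt_ciSup h1
    simp only at h2
    have h3 : 2 * √(2 * (ε ^ 2 / 16)) < ε := by
      have h4 : √(2 * (ε ^ 2 / 16)) < ε / 2 := by
        rw [Real.sqrt_lt' (by positivity)]
        have : 0 < ε ^ 2 := by positivity
        linarith [this]
      linarith
    rcases lt_abs.1 h2 with h4 | h4
    · obtain ⟨n, hn⟩ := main P Q m hE hδ h4
      exact ⟨n, lt_of_le_of_lt hn h3⟩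
    · have h5 : P.real Eᶜ = 1 - P.real E := probReal_compl_eq_one_sub hE
      have h6 : Q.real Eᶜ = 1 - Q.real E := probReal_compl_eq_one_sub hE
      obtain ⟨n, hn⟩ := main P Q m hE.compl hδ (by rw [h5, h6]; linarith)
      exact ⟨n, lt_of_le_of_lt hn h3⟩
  · intro h
    apply le_antisymm (tv_le P Q)
    apply le_of_forall_pos_le_add
    intro ε hε
    obtain ⟨n, hn⟩ := h ε hε
    have := back P Q m (fun w h => (hw w h).1) n
    linarith

end Pool.Agent.R554.DO
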