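import Pool.Agent.R554.DO.Stm

/-!
# DO-UNIQ: the stationary distribution of a class is a quotient of polynomials
(helper619 for helper554)
-/

namespace Pool.Agent.R554.DO

open Finset

namespace Uniq

theorem totalDegree_det_le {ι n : Type} [Fintype n] [DecidableEq n]
    (W : Matrix n n (MvPolynomial ι ℝ)) (h : ∀ i j, (W i j).totalDegree ≤ 1) :
    W.det.totalDegree ≤ Fintype.card n := by
  rw [Matrix.det_apply]
  refine (MvPolynomial.totalDegree_finset_sum _ _).trans ?_
  refine Finset.sup_le fun σ _ => ?_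
  have h1 : (Equiv.Perm.sign σ • ∏ i, W (σ i) i).totalDegree ≤
      (∏ i, W (σ i) i).totalDegree := by
    rcases Int.units_eq_one_or (Equiv.Perm.sign σ) with h2 | h2
    · rw [h2, one_smul]
    · rw [h2, Units.neg_smul, one_smul, MvPolynomial.totalDegree_neg]
  refine h1.trans ((MvPolynomial.totalDegree_finset_prod _ _).trans ?_)
  refine (Finset.sum_le_sum fun i _ => h (σ i) i).trans ?_
  simp

theorem totalDegree_adj_le {ι n : Type} [Fintype n] [DecidableEq n]
    (W : Matrix n n (MvPolynomial ι ℝ)) (h : ∀ i j, (W i j).totalDegree ≤ 1) (a b : n) :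
    (W.adjugate a b).totalDegree ≤ Fintype.card n := by
  rw [Matrix.adjugate_apply]
  apply totalDegree_det_le
  intro i j
  rw [Matrix.updateRow_apply]
  split_ifs with h1
  · rw [Pi.single_apply]
    split_ifs
    · rw [MvPolynomial.totalDegree_one]
      exact zero_le_one
    · rw [MvPolynomial.totalDegree_zero]
      exact zero_le_one
  · exact h i j

section

variable {S L ι : Type} [Fintype S] [DecidableEq S] [Fintype L] [DecidableEq L]

open Classical in
/-- the matrix of polynomials -/
noncomputable def Wp (Mp : L → S → S → MvPolynomial ι ℝ) (G : L → S → S → Prop)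
    (z₀ : S × Finset S) : Matrix (S × Finset S) (S × Finset S) (MvPolynomial ι ℝ) :=
  fun z z' => if Rch G z₀ z then
    (if z = z' then 1 else 0) - (∑ ℓ, if nxt G ℓ z.2 = z'.2 then Mp ℓ z.1 z'.1 else 0) +
      (if z' = z₀ then 1 else 0)
    else (if z = z' then 1 else 0)

theorem deg_ite {ι : Type} (P : Prop) [Decidable P] (p : MvPolynomial ι ℝ)
    (hp : p.totalDegree ≤ 1) : (if P then p else 0).totalDegree ≤ 1 := by
  split_ifs
  · exact hp
  · rw [MvPolynomial.totalDegree_zero]
    exact zero_le_one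

theorem Wp_deg (Mp : L → S → S → MvPolynomial ι ℝ) (G : L → S → S → Prop)
    (z₀ : S × Finset S) (h : ∀ ℓ s t, (Mp ℓ s t).totalDegree ≤ 1) (z z' : S × Finset S) :
    (Wp Mp G z₀ z z').totalDegree ≤ 1 := by
  have h1 : (1 : MvPolynomial ι ℝ).totalDegree ≤ 1 := by
    rw [MvPolynomial.totalDegree_one]
    exact zero_le_one
  unfold Wp
  split_ifs with hc
  all_goals first
    | (refine (MvPolynomial.totalDegree_add _ _).trans (max_le ?_ ?_)
       · refine (MvPolynomial.totalDegree_sub _ _).trans (max_le ?_ ?_)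
         · first | exact h1 | (rw [MvPolynomial.totalDegree_zero]; exact zero_le_one)
         · refine (MvPolynomial.totalDegree_finset_sum _ _).trans ?_
           refine Finset.sup_le fun ℓ _ => ?_
           exact deg_ite _ _ (h _ _ _)
       · first | exact h1 | (rw [MvPolynomial.totalDegree_zero]; exact zero_le_one))
    | exact h1
    | (rw [MvPolynomial.totalDegree_zero]; exact zero_le_one)

open Classical in
/-- the modified transition matrix -/
noncomputable def Qt (M : L → S → S → ℝ) (G : L → S → S → Prop)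
    (z₀ : S × Finset S) : Matrix (S × Finset S) (S × Finset S) ℝ :=
  fun z z' => if Rch G z₀ z then Qz M G z z' else (if z' = z₀ then 1 else 0)

theorem Qz_nonneg {M : L → S → S → ℝ} (hM : Stoch M) (G : L → S → S → Prop)
    (z z' : S × Finset S) : 0 ≤ Qz M G z z' := by
  unfold Qz
  refine Finset.sum_nonneg fun ℓ _ => ?_
  split_ifs
  · exact hM.nonneg _ _ _
  · exact le_rfl

theorem Qz_sum {M : L → S → S → ℝ} (hM : Stoch M) (G : L → S → S → Prop)
    (z : S × Finset S) : ∑ z', Qz M G z z' = 1 := by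
  classical
  unfold Qz
  rw [Finset.sum_comm, ← hM.sum z.1]
  refine Finset.sum_congr rfl fun ℓ _ => ?_
  rw [Fintype.sum_prod_type]
  refine Finset.sum_congr rfl fun t _ => ?_
  rw [Finset.sum_ite_eq]
  simp

theorem Qz_pos {M : L → S → S → ℝ} (hM : Stoch M) {G : L → S → S → Prop} (hF : Fits M G)
    {z z' : S × Finset S} (h : zstep G z z') : 0 < Qz M G z z' := by
  classical
  obtain ⟨ℓ, h1, h2⟩ := h
  unfold Qz
  refine Finset.sum_pos' (fun i _ => ?_) ⟨ℓ, Finset.mem_univ _, ?_⟩
  · split_ifs
    · exact hM.nonneg _ _ _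
    · exact le_rfl
  · rw [if_pos h2.symm]
    exact (hF _ _ _).2 h1

theorem Qt_nonneg {M : L → S → S → ℝ} (hM : Stoch M) (G : L → S → S → Prop)
    (z₀ z z' : S × Finset S) : 0 ≤ Qt M G z₀ z z' := by
  unfold Qt
  split_ifs
  · exact Qz_nonneg hM G z z'
  · exact zero_le_one
  · exact le_rfl

theorem Qt_sum {M : L → S → S → ℝ} (hM : Stoch M) (G : L → S → S → Prop)
    (z₀ z : S × Finset S) : ∑ z', Qt M G z₀ z z' = 1 := by
  classical
  by_cases h : Rch G z₀ z
  · have : ∀ z', Qt M G z₀ z z' = Qz M G z z' := fun z' => by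
      unfold Qt
      rw [if_pos h]
    rw [Finset.sum_congr rfl fun z' _ => this z']
    exact Qz_sum hM G z
  · have : ∀ z', Qt M G z₀ z z' = if z' = z₀ then 1 else 0 := fun z' => by
      unfold Qt
      rw [if_neg h]
    rw [Finset.sum_congr rfl fun z' _ => this z', Finset.sum_ite_eq']
    simp

theorem Qt_reach {M : L → S → S → ℝ} (hM : Stoch M) {G : L → S → S → Prop} (hF : Fits M G)
    {z₀ : S × Finset S} (he : Ess G z₀) (z : S × Finset S) :
    Relation.ReflTransGen (fun x y => 0 < Qt M G z₀ x y) z z₀ := by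
  by_cases h : Rch G z₀ z
  · have hz : Rch G z z₀ := he z h
    have key : ∀ x, Rch G x z₀ → Rch G z₀ x →
        Relation.ReflTransGen (fun x y => 0 < Qt M G z₀ x y) x z₀ := by
      intro x hx
      unfold Rch at hx
      induction hx using Relation.ReflTransGen.head_induction_on with
      | refl => exact fun _ => Relation.ReflTransGen.refl
      | head hstep _ ih =>
        intro hx0
        refine Relation.ReflTransGen.head ?_ (ih (Relation.ReflTransGen.tail hx0 hstep))
        show 0 < Qt M G z₀ _ _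
        unfold Qt
        rw [if_pos hx0]
        exact Qz_pos hM hF hstep
    exact key z hz h
  · apply Relation.ReflTransGen.single
    show 0 < Qt M G z₀ z z₀
    unfold Qt
    rw [if_neg h, if_pos rfl]
    exact one_pos

theorem eval_Wp (Mp : L → S → S → MvPolynomial ι ℝ) (G : L → S → S → Prop)
    (z₀ : S × Finset S) (y : ι → ℝ) :
    (MvPolynomial.eval y).mapMatrix (Wp Mp G z₀) =
      1 - Qt (ev Mp y) G z₀ + Matrix.of (fun _ z' => if z' = z₀ then (1 : ℝ) else 0) := by
  classical
  ext z z'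
  rw [RingHom.mapMatrix_apply, Matrix.map_apply, Matrix.add_apply, Matrix.sub_apply,
    Matrix.of_apply, Matrix.one_apply]
  unfold Wp Qt
  by_cases h : Rch G z₀ z
  · rw [if_pos h, if_pos h, map_add, map_sub, map_sum]
    have h1 : MvPolynomial.eval y (if z = z' then (1 : MvPolynomial ι ℝ) else 0) =
        if z = z' then (1 : ℝ) else 0 := by
      split_ifs <;> simp
    have h2 : MvPolynomial.eval y (if z' = z₀ then (1 : MvPolynomial ι ℝ) else 0) =
        if z' = z₀ then (1 : ℝ) else 0 := by
      split_ifs <;> simp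
    have h3 : ∑ ℓ, MvPolynomial.eval y (if nxt G ℓ z.2 = z'.2 then Mp ℓ z.1 z'.1 else 0) =
        Qz (ev Mp y) G z z' := by
      unfold Qz ev
      refine Finset.sum_congr rfl fun ℓ _ => ?_
      split_ifs <;> simp
    rw [h1, h2, ← h3]
  · rw [if_neg h, if_neg h]
    have h1 : MvPolynomial.eval y (if z = z' then (1 : MvPolynomial ι ℝ) else 0) =
        if z = z' then (1 : ℝ) else 0 := by
      split_ifs <;> simp
    rw [h1]
    ring

theorem vecMul_W {M : L → S → S → ℝ} {G : L → S → S → Prop} {z₀ : S × Finset S}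
    {a : S × Finset S → ℝ} (ha : StatIn M G z₀ a) :
    Matrix.vecMul a (1 - Qt M G z₀ + Matrix.of (fun _ z' => if z' = z₀ then (1 : ℝ) else 0)) =
      Pi.single z₀ 1 := by
  classical
  rw [Matrix.vecMul_add, Matrix.vecMul_sub, Matrix.vecMul_one]
  funext z'
  have h1 : Matrix.vecMul a (Qt M G z₀) z' = a z' := by
    rw [← ha.inv z']
    show ∑ z, a z * Qt M G z₀ z z' = _
    refine Finset.sum_congr rfl fun z _ => ?_
    by_cases h : a z = 0
    · rw [h, zero_mul, zero_mul]
    · unfold Qt
      rw [if_pos (ha.supp z h)]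
  have h2 : Matrix.vecMul a (Matrix.of (fun _ z' => if z' = z₀ then (1 : ℝ) else 0)) z' =
      if z' = z₀ then 1 else 0 := by
    show ∑ z, a z * (if z' = z₀ then (1 : ℝ) else 0) = _
    rw [← Finset.sum_mul, ha.dist.sum, one_mul]
  rw [Pi.add_apply, Pi.sub_apply, h1, h2, sub_self, zero_add, Pi.single_apply]

end

end Uniq

open Uniq in
theorem t_UNIQ (hA : S_UNIQA) : S_UNIQ := by
  intro S L ι _ _ _ _ Mp G hdeg z₀ hess
  refine ⟨(Wp Mp G z₀).det, fun z => (Wp Mp G z₀).adjugate z₀ z, ?_, ?_, ?_⟩
  · exact totalDegree_det_le _ (Wp_deg Mp G z₀ hdeg)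
  · intro z
    exact totalDegree_adj_le _ (Wp_deg Mp G z₀ hdeg) _ _
  · rintro y ⟨hS, hF⟩
    have h1 := eval_Wp Mp G z₀ y
    have h2 := hA (S × Finset S) (Qt (ev Mp y) G z₀) (fun z z' => Qt_nonneg hS G z₀ z z')
      (fun z => Qt_sum hS G z₀ z) z₀ (Qt_reach hS hF hess)
    rw [← h1] at h2
    have h3 : MvPolynomial.eval y (Wp Mp G z₀).det =
        ((MvPolynomial.eval y).mapMatrix (Wp Mp G z₀)).det := RingHom.map_det _ _
    refine ⟨by rw [h3]; exact h2, ?_⟩
    intro a ha z
    have h4 := vecMul_W ha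
    rw [← h1] at h4
    set W := (MvPolynomial.eval y).mapMatrix (Wp Mp G z₀) with hW
    have h5 : MvPolynomial.eval y ((Wp Mp G z₀).adjugate z₀ z) = W.adjugate z₀ z := by
      rw [hW, ← RingHom.map_adjugate]
      rfl
    rw [h3, h5]
    have h6 : Matrix.vecMul (Matrix.vecMul a W) W.adjugate = W.det • a := by
      rw [Matrix.vecMul_vecMul, Matrix.mul_adjugate, Matrix.vecMul_smul, Matrix.vecMul_one]
    rw [h4, Matrix.single_one_vecMul] at h6
    have h7 := congrFun h6 z
    rw [Pi.smul_apply, smul_eq_mul] at h7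
    rw [mul_comm, ← h7]
    rfl

end Pool.Agent.R554.DO
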