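import Pool.Agent.R554.DO.Stm

/-!
# UNIQA: invertibility of `1 - Q + 𝟙 eᵀ`
-/

namespace Pool.Agent.R554.DO

open Finset

/-- A nonnegative invariant vector is positive at every state reached from a state at which it is
positive. -/
lemma inv_pos_reach {Z : Type} [Fintype Z] (Q : Matrix Z Z ℝ) (hQ : ∀ z z', 0 ≤ Q z z')
    (u : Z → ℝ) (hu : ∀ z, 0 ≤ u z) (hinv : ∀ z', u z' = ∑ z, u z * Q z z') (z z₀ : Z)
    (h : Relation.ReflTransGen (fun x y => 0 < Q x y) z z₀) (hz : 0 < u z) : 0 < u z₀ := by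
  induction h with
  | refl => exact hz
  | @tail b c _ hbc ih =>
    rw [hinv c]
    exact Finset.sum_pos' (fun i _ => mul_nonneg (hu i) (hQ i c))
      ⟨b, Finset.mem_univ _, mul_pos ih hbc⟩

theorem t_UNIQA : S_UNIQA := by
  intro Z _ _ Q hQ hrow z₀ hreach hdet
  obtain ⟨x, hx0, hx⟩ := (Matrix.exists_vecMul_eq_zero_iff).2 hdet
  have e1 : ∀ z', x z' - ∑ z, x z * Q z z' + (∑ z, x z) * (if z' = z₀ then (1 : ℝ) else 0)
      = 0 := by
    intro z'
    have h1 := congrFun hx z'
    rw [Matrix.vecMul_add, Matrix.vecMul_sub, Matrix.vecMul_one] at h1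
    simp only [Pi.add_apply, Pi.sub_apply, Pi.zero_apply] at h1
    have h2 : (Matrix.vecMul x Q) z' = ∑ z, x z * Q z z' := rfl
    have h3 : (Matrix.vecMul x (Matrix.of (fun _ z' => if z' = z₀ then (1 : ℝ) else 0))) z'
        = (∑ z, x z) * (if z' = z₀ then (1 : ℝ) else 0) := by
      rw [Finset.sum_mul]
      rfl
    rw [h2, h3] at h1
    exact h1
  have hdouble : ∀ y : Z → ℝ, ∑ z', ∑ z, y z * Q z z' = ∑ z, y z := by
    intro y
    rw [Finset.sum_comm]
    refine Finset.sum_congr rfl (fun z _ => ?_)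
    rw [← Finset.mul_sum, hrow z, mul_one]
  have e2 : ∑ z, x z = 0 := by
    have h1 : ∑ z', (x z' - ∑ z, x z * Q z z'
        + (∑ z, x z) * (if z' = z₀ then (1 : ℝ) else 0)) = 0 :=
      Finset.sum_eq_zero (fun z' _ => e1 z')
    rw [Finset.sum_add_distrib, Finset.sum_sub_distrib, hdouble x, ← Finset.mul_sum] at h1
    simpa using h1
  have e3 : ∀ z', x z' = ∑ z, x z * Q z z' := by
    intro z'
    have h1 := e1 z'
    rw [e2, zero_mul, add_zero] at h1
    linarith
  have e4 : ∀ z', |x z'| = ∑ z, |x z| * Q z z' := by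
    have hle : ∀ z' ∈ (Finset.univ : Finset Z), |x z'| ≤ ∑ z, |x z| * Q z z' := by
      intro z' _
      calc |x z'| = |∑ z, x z * Q z z'| := by rw [← e3 z']
        _ ≤ ∑ z, |x z * Q z z'| := Finset.abs_sum_le_sum_abs _ _
        _ = ∑ z, |x z| * Q z z' := Finset.sum_congr rfl (fun z _ => by
            rw [abs_mul, abs_of_nonneg (hQ z z')])
    have h1 := (Finset.sum_eq_sum_iff_of_le hle).1 (hdouble (fun z => |x z|)).symm
    intro z'
    exact h1 z' (Finset.mem_univ _)
  have hexp : ∃ z, 0 < x z := by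
    by_contra hcon
    push Not at hcon
    have h1 := (Finset.sum_eq_zero_iff_of_nonpos (fun z _ => hcon z)).1 e2
    exact hx0 (funext fun z => h1 z (Finset.mem_univ _))
  have hexn : ∃ z, x z < 0 := by
    by_contra hcon
    push Not at hcon
    have h1 := (Finset.sum_eq_zero_iff_of_nonneg (fun z _ => hcon z)).1 e2
    exact hx0 (funext fun z => h1 z (Finset.mem_univ _))
  obtain ⟨z1, hz1⟩ := hexp
  obtain ⟨z2, hz2⟩ := hexn
  have hp := inv_pos_reach Q hQ (fun z => |x z| + x z)
    (fun z => by have := neg_abs_le (x z); linarith)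
    (fun z' => by
      simp only [add_mul, Finset.sum_add_distrib]
      rw [← e4 z', ← e3 z']) z1 z₀ (hreach z1)
    (by have := abs_nonneg (x z1); show 0 < |x z1| + x z1; linarith)
  have hn := inv_pos_reach Q hQ (fun z => |x z| - x z)
    (fun z => by have := le_abs_self (x z); linarith)
    (fun z' => by
      simp only [sub_mul, Finset.sum_sub_distrib]
      rw [← e4 z', ← e3 z']) z2 z₀ (hreach z2)
    (by have := abs_nonneg (x z2); show 0 < |x z2| - x z2; linarith)
  rcases le_total 0 (x z₀) with h | h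
  · rw [abs_of_nonneg h] at hn; linarith
  · rw [abs_of_nonpos h] at hp; linarith

end Pool.Agent.R554.DO
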