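import Pool.Agent.R554.DO.Chk

/-!
# VECN: the computed word weights
-/

namespace Pool.Agent.R554.DO

open Finset

theorem vecn_group (g : ℕ → ℕ) (a b n : ℕ) (E : List (ℕ × ℕ × ℕ × ℕ)) (h : ∀ e ∈ E, e.2.2.1 < n) :
    ((E.filter (fun e => decide (e.1 = a) && decide (e.2.1 = b))).map
      (fun e => e.2.2.2 * g e.2.2.1)).sum =
    ∑ t : Fin n, ((E.filter (fun e => e.1 = a ∧ e.2.1 = b ∧ e.2.2.1 = (t : ℕ))).map
      (fun e => e.2.2.2)).sum * g t := by
  induction E with
  | nil => simp
  | cons e E ih =>
    have h1 := ih (fun x hx => h x (List.mem_cons_of_mem _ hx))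
    have he := h e List.mem_cons_self
    by_cases hab : e.1 = a ∧ e.2.1 = b
    · obtain ⟨ha, hb⟩ := hab
      have e1 : ∀ t : Fin n, (((e :: E).filter
          (fun e => e.1 = a ∧ e.2.1 = b ∧ e.2.2.1 = (t : ℕ))).map (fun e => e.2.2.2)).sum * g t =
          (if t = ⟨e.2.2.1, he⟩ then e.2.2.2 * g e.2.2.1 else 0) +
          ((E.filter (fun e => e.1 = a ∧ e.2.1 = b ∧ e.2.2.1 = (t : ℕ))).map
            (fun e => e.2.2.2)).sum * g t := by
        intro t
        by_cases ht : e.2.2.1 = (t : ℕ)
        · have ht' : t = ⟨e.2.2.1, he⟩ := Fin.ext ht.symm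
          rw [if_pos ht', List.filter_cons_of_pos (by simp [ha, hb, ht])]
          simp only [List.map_cons, List.sum_cons, ht]
          ring
        · have ht' : t ≠ ⟨e.2.2.1, he⟩ := fun h2 => ht (by rw [h2])
          rw [if_neg ht', List.filter_cons_of_neg (by simp [ht]), zero_add]
      rw [Finset.sum_congr rfl (fun t _ => e1 t), Finset.sum_add_distrib,
        Finset.sum_ite_eq' Finset.univ, if_pos (Finset.mem_univ _), ← h1,
        List.filter_cons_of_pos (by simp [ha, hb])]
      simp only [List.map_cons, List.sum_cons]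
    · have e1 : ∀ t : Fin n, (e :: E).filter
          (fun e => decide (e.1 = a ∧ e.2.1 = b ∧ e.2.2.1 = (t : ℕ))) =
          E.filter (fun e => decide (e.1 = a ∧ e.2.1 = b ∧ e.2.2.1 = (t : ℕ))) := by
        intro t
        apply List.filter_cons_of_neg
        simp only [decide_eq_true_eq]
        exact fun h2 => hab ⟨h2.1, h2.2.1⟩
      rw [List.filter_cons_of_neg, h1]
      · apply Finset.sum_congr rfl
        intro t _
        rw [e1]
      · simp only [Bool.and_eq_true, decide_eq_true_eq]
        exact hab

theorem vecn_getD (f : ℕ → ℕ) {n q : ℕ} (hq : q < n) :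
    ((List.range n).map f).getD q 0 = f q := by
  rw [List.getD_eq_getElem _ _ (by simpa using hq)]
  simp

theorem t_VECN : S_VECN := by
  intro E n m hE u
  induction u with
  | nil =>
    intro q
    simp only [vec, List.map_nil, List.foldr_nil, valN]
    exact vecn_getD _ q.2
  | cons ℓ u ih =>
    intro q
    simp only [vec, List.map_cons, List.foldr_cons, valN]
    rw [vstep, vecn_getD _ q.2, vecn_group (fun t => ((List.map Fin.val u).foldr
      (vstep E (List.range n)) ((List.range n).map (fun _ => 1))).getD t 0) _ _ n E hE]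
    apply Finset.sum_congr rfl
    intro t _
    have := ih t
    rw [vec] at this
    rw [this]
    rfl

end Pool.Agent.R554.DO
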