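import Pool.Agent.R554.DO.Stm

/-!
# WSUM and BASIC (helper711)
-/

namespace Pool.Agent.R554.DO

open Finset

section

variable {S L : Type} [Fintype S] [DecidableEq S] [Fintype L] [DecidableEq L]

theorem wsum_pr_cons (M : L → S → S → ℝ) (α : S → ℝ) (ℓ : L) (w : List L) :
    pr M α (ℓ :: w) = pr M (push M ℓ α) w := by
  unfold pr push
  simp only [val, Finset.mul_sum, Finset.sum_mul]
  rw [Finset.sum_comm]
  exact sum_congr rfl fun t _ => sum_congr rfl fun s _ => by ring

theorem wsum_sum_succ (n : ℕ) (f : List L → ℝ) :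
    ∑ w : Fin (n + 1) → L, f (List.ofFn w) = ∑ ℓ : L, ∑ w : Fin n → L, f (ℓ :: List.ofFn w) := by
  rw [← (Fin.consEquiv (fun _ : Fin (n + 1) => L)).sum_comp, Fintype.sum_prod_type]
  refine sum_congr rfl fun ℓ _ => sum_congr rfl fun w _ => ?_
  congr 1
  exact List.ofFn_cons ℓ w

theorem wsum_push_nonneg {M : L → S → S → ℝ} (hM : ∀ ℓ s t, 0 ≤ M ℓ s t) {α : S → ℝ}
    (hα : ∀ s, 0 ≤ α s) (ℓ : L) (t : S) : 0 ≤ push M ℓ α t :=
  sum_nonneg fun s _ => mul_nonneg (hα s) (hM ℓ s t)

theorem wsum_push_sum {M : L → S → S → ℝ} (hM : Stoch M) (α : S → ℝ) :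
    ∑ ℓ, ∑ t, push M ℓ α t = ∑ s, α s := by
  have h1 : ∀ ℓ, ∑ t, push M ℓ α t = ∑ s, ∑ t, α s * M ℓ s t := fun ℓ => by
    unfold push
    rw [Finset.sum_comm]
  simp only [h1]
  rw [Finset.sum_comm]
  refine sum_congr rfl fun s _ => ?_
  simp only [← Finset.mul_sum]
  rw [hM.sum, mul_one]

end

theorem t_WSUM : S_WSUM := by
  intro S L _ _ _ _ M n
  induction n with
  | zero =>
    intro α β
    simp [Hn, pr, val]
  | succ n ih =>
    intro α β
    rw [wsum_sum_succ n fun w => √(pr M α w * pr M β w)]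
    simp only [Hn, ih, wsum_pr_cons]

theorem t_BASIC : S_BASIC := by
  intro S L _ _ _ _ M hM
  refine ⟨wsum_push_sum hM, ?_, fun α ℓ w => wsum_pr_cons M α ℓ w, ?_, ?_, ?_, ?_⟩
  · intro α n
    induction n generalizing α with
    | zero => simp [pr, val]
    | succ n ih =>
      rw [wsum_sum_succ n fun w => pr M α w]
      simp only [wsum_pr_cons, ih]
      exact wsum_push_sum hM α
  · intro n
    induction n with
    | zero => exact fun α β => Real.sqrt_nonneg _
    | succ n ih => exact fun α β => sum_nonneg fun ℓ _ => ih _ _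
  · intro n
    induction n with
    | zero =>
      intro α β hα hβ
      have hA : ∀ (γ : S → ℝ), (∀ s, 0 ≤ γ s) → ∀ ℓ, 0 ≤ ∑ t, push M ℓ γ t := fun γ hγ ℓ =>
        sum_nonneg fun t _ => wsum_push_nonneg hM.nonneg hγ ℓ t
      have h1 : Hn M (0 + 1) α β = ∑ ℓ, √(∑ t, push M ℓ α t) * √(∑ t, push M ℓ β t) := by
        simp only [Hn]
        exact sum_congr rfl fun ℓ _ => Real.sqrt_mul (hA α hα ℓ) _
      have h2 : Hn M 0 α β = √(∑ ℓ, ∑ t, push M ℓ α t) * √(∑ ℓ, ∑ t, push M ℓ β t) := by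
        rw [wsum_push_sum hM, wsum_push_sum hM]
        simp only [Hn]
        exact Real.sqrt_mul (sum_nonneg fun s _ => hα s) _
      rw [h1, h2]
      exact Real.sum_sqrt_mul_sqrt_le _ (hA α hα) (hA β hβ)
    | succ n ih =>
      intro α β hα hβ
      exact sum_le_sum fun ℓ _ => ih _ _ (wsum_push_nonneg hM.nonneg hα ℓ)
        (wsum_push_nonneg hM.nonneg hβ ℓ)
  · intro n
    induction n with
    | zero =>
      intro α β a b ha hb hα hβ
      simp only [Hn, ← Finset.mul_sum]
      rw [← Real.sqrt_mul (mul_nonneg ha hb)]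
      congr 1
      ring
    | succ n ih =>
      intro α β a b ha hb hα hβ
      simp only [Hn]
      rw [Finset.mul_sum]
      refine sum_congr rfl fun ℓ _ => ?_
      have h1 : ∀ (γ : S → ℝ) (c : ℝ), push M ℓ (fun s => c * γ s) =
          fun t => c * push M ℓ γ t := by
        intro γ c
        funext t
        unfold push
        rw [Finset.mul_sum]
        exact sum_congr rfl fun s _ => by ring
      rw [h1, h1]
      exact ih _ _ a b ha hb (wsum_push_nonneg hM.nonneg hα ℓ) (wsum_push_nonneg hM.nonneg hβ ℓ)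
  · intro n
    induction n with
    | zero =>
      intro α β α' β' hα hβ h1 h2
      simp only [Hn]
      refine Real.sqrt_le_sqrt (mul_le_mul (sum_le_sum fun s _ => h1 s)
        (sum_le_sum fun s _ => h2 s) (sum_nonneg fun s _ => hβ s)
        (sum_nonneg fun s _ => (hα s).trans (h1 s)))
    | succ n ih =>
      intro α β α' β' hα hβ h1 h2
      simp only [Hn]
      refine sum_le_sum fun ℓ _ => ih _ _ _ _ (wsum_push_nonneg hM.nonneg hα ℓ)
        (wsum_push_nonneg hM.nonneg hβ ℓ) (fun t => ?_) fun t => ?_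
      · exact sum_le_sum fun s _ => mul_le_mul_of_nonneg_right (h1 s) (hM.nonneg ℓ s t)
      · exact sum_le_sum fun s _ => mul_le_mul_of_nonneg_right (h2 s) (hM.nonneg ℓ s t)

end Pool.Agent.R554.DO
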